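import Mathlib
import Pool.Agent.SSE.St2

/-!
# SSF: the sharp bound for all finite abelian groups with two generators (MP_ec93d3_co)

Architect helper97 (engine idea helper86, helper97).  Definitions: `FS`, `lam`, `cnt` (Helper64.Rho), `Aper`, `Cap`, `gen`, `cf`, `jj`, `it`, `st`,
`TT` (Pool.Agent.SDG.St), `AS`, `sym`, `Prog`, `NearP`, `ins`, `outs` (Pool.Agent.MDR.St), `ks`, `Per`, `KAP`, `Exc` (Pool.Agent.SSC.St), `AE`, `NF`, `APK`,
`im`, `Reg`, `Sep`, `Gam`, `C1`, `PE` (Pool.Agent.SSE.St).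

Aim (`St_PFF`): a family of `t` nonzero elements of a finite abelian group of rank at most two, at most two of them equal to `± x` for each `x`, with
aperiodic set of sums, has at least `cf 2 t = 1 + (t + 1) ^ 2 / 4` sums.  (`St_PFE` of SSE is the cyclic case.)

Notation in the docstrings: `N = |G|`, `l = |u|`, `T = FS s f`, `i D = it D i`, `T_l = 1 + l (l + 1) / 2`, `c1 t = cf 2 t`, `J = (t + 1) / 2`.
Every `St_X` is a statement; its proof is in the docstring.  A module `Pool/Agent/SSF/X.lean` proves `thm_X : St_A → St_B → ... → St_X` with exactly the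
hypotheses listed in the docstring, in this order (facts of `SDG`, `MDR`, `SSC`, `SSE` have the prefix `SDG.`, `MDR.`, `SSC.`, `SSE.`).
[adapt SSE.X] = the module Pool/Agent/SSE/X.lean has the same proof for cyclic groups, copy it and change the marked places.
DO NOT use the tactic `convert` (the final check rejects it).
-/

set_option autoImplicit false

noncomputable section

open Finset Pool.Agent.Helper64.Rho Pool.Agent.SDG Pool.Agent.MDR Pool.Agent.SSC Pool.Agent.SSE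
open scoped Classical Pointwise

namespace Pool.Agent.SSF

/-- rank at most two -/
def R2 (G : Type) [AddCommGroup G] : Prop := ∀ p : ℕ, p.Prime → Nat.card {x : G // p • x = 0} ≤ p ^ 2

/-- the lower bound for all families with `t` members in groups of rank at most two -/
def PR (t : ℕ) : Prop :=
  ∀ (G ι : Type) [AddCommGroup G] [Finite G] (s : Finset ι) (f : ι → G), R2 G → s.card = t → (∀ i ∈ s, f i ≠ 0) →
    Cap 2 s f → Aper (FS s f) → cf 2 t ≤ (FS s f).card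

/-- `s` is a violating family with the least number of members, it generates the noncyclic group `G` -/
def CtxF {G ι : Type} [AddCommGroup G] [Finite G] (t : ℕ) (s : Finset ι) (f : ι → G) : Prop :=
  (∀ u < t, PR u) ∧ (∀ h u : ℕ, 2 ≤ h → TT h u) ∧ R2 G ∧ ¬ IsAddCyclic G ∧ s.card = t ∧ (∀ i ∈ s, f i ≠ 0) ∧ Cap 2 s f ∧ Aper (FS s f) ∧
    gen s f = ⊤ ∧ (FS s f).card < cf 2 t

/-- dense cosets are cosets of small subgroups -/
def DC {G ι : Type} [AddCommGroup G] [Finite G] (u : Finset ι) (f : ι → G) : Prop :=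
  ∀ (K : AddSubgroup G) (c : G), K ≠ ⊥ → c + c ∉ K →
    Nat.card K ≤ (u.filter fun i => f i - c ∈ K ∨ f i + c ∈ K).card + (ins u f K).card → Nat.card K ≤ 4

/-- first conclusion of the engine, noncyclic groups -/
def C1N (l : ℕ) : Prop :=
  ∀ (G ι : Type) [AddCommGroup G] [Finite G] (u : Finset ι) (f : ι → G), R2 G → ¬ IsAddCyclic G → u.card = l → AE u f → Aper (FS u f) →
    gen u f = ⊤ → DC u f → Sep u f → 2 * (FS u f).card ≤ Nat.card G → 2 + l * (l + 1) ≤ 2 * (FS u f).card ∨ Exc f u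

/-- second conclusion of the engine, noncyclic groups: one more sum -/
def C2N (l : ℕ) : Prop :=
  ∀ (G ι : Type) [AddCommGroup G] [Finite G] (u : Finset ι) (f : ι → G), R2 G → ¬ IsAddCyclic G → u.card = l → AE u f → Aper (FS u f) →
    gen u f = ⊤ → DC u f → Sep u f → 2 * (FS u f).card ≤ Nat.card G → l * l + 2 * l ≤ Nat.card G →
      4 + l * (l + 1) ≤ 2 * (FS u f).card ∨ Exc f u ∨ ∃ K : AddSubgroup G, Gam u f K

/-- common hypotheses of Kh2F, Kh3F, Kh4F, KhV (as `HKh` of SSE, `G` arbitrary) -/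
def HKF {G ι : Type} [AddCommGroup G] [Finite G] (u : Finset ι) (f : ι → G) (K : AddSubgroup G) : Prop :=
  AE u f ∧ Aper (FS u f) ∧ 5 ≤ u.card ∧ (st (sym u f) K).card + 1 ≤ (sym u f).card + Nat.card K ∧ APK (sym u f) K ∧
    (u.card * (u.card - 1) + 3 ≤ Nat.card G ∨ 2 * (FS u f).card ≤ Nat.card G)

/-- the two parts contain the same number of members of each class, up to one -/
def Bal {G ι : Type} (κ : G → ℕ) (s1 s2 : Finset ι) (f : ι → G) : Prop :=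
  ∀ c : ℕ, (s1.filter fun i => κ (f i) = c).card ≤ (s2.filter fun i => κ (f i) = c).card + 1 ∧
    (s2.filter fun i => κ (f i) = c).card ≤ (s1.filter fun i => κ (f i) = c).card + 1

/-! ## Groups of rank at most two -/

/-- **Cr** (1 h).  Facts.  (1) subgroups: an element of order `p` of `M` is one of `G`.  (2) `p G = range (x ↦ p • x)` has index `|G| / |p G| = |{x | p x = 0}| ≤ p^2` (first isomorphism theorem).  (3) `M` of prime index `p` contains `p G` (`G / M` has order `p`).  (4) `K` contains all `x + x`: `K ⊇ 2 G`, so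
`K.index ≤ 4` by (2).  (5) all elements of a subgroup `L` are killed by 2: `L` is contained in `{x | 2 x = 0}`. -/
def St_Cr : Prop :=
  ∀ (G : Type) [AddCommGroup G] [Finite G], R2 G →
    (∀ M : AddSubgroup G, R2 M) ∧
    (∀ p : ℕ, p.Prime → ((nsmulAddMonoidHom p : G →+ G).range).index ≤ p ^ 2) ∧
    (∀ (p : ℕ) (M : AddSubgroup G), p.Prime → M.index = p → ∀ x : G, p • x ∈ M) ∧
    (∀ K : AddSubgroup G, (∀ x : G, x + x ∈ K) → K.index ≤ 4) ∧
    (∀ L : AddSubgroup G, (∀ x ∈ L, x + x = 0) → Nat.card L ≤ 4)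

/-! ## Structure lemma -/

/-- **KSF** (1.8 h; adapt SSE.KSE).  Sums of `k` different elements, any group.
Proof.  As SSC.KS / SSE.KSE up to the last step: if `|ks k A| ≤ |A| - 1` then `A = a0 + L`, `L` a subgroup, `n = |L|`, `W = ks k L` has `n - 1` elements, `W ⊆ L`, and the missing element `m` of `L` satisfies `- m = m` (`- L = L`).  If `x + x = 0` for all `x ∈ L`: second alternative.  Otherwise we show `m ∈ W`, a contradiction.  `U ↦ L \ U` maps `k`-subsets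
to `(n-k)`-subsets and the sum of `U` to `(∑ L) - ` it, so `ks (n-k) L` also has `n - 1` elements and also misses exactly one element `m'`, `2 m' = 0` (same argument); so we may assume `2 k ≤ n` (replace `k, m` by `n - k, m'`).  `L2 = {x ∈ L | 2 x = 0}` is a proper subgroup, `|L2| ≤ n / 2`, and `L \ L2` consists of `P ≥ n / 4` pairs `{x, -x}`; `k / 2 ≤ P`.
`k` odd: `{m}` and `(k-1)/2` pairs; `k` even, `m = 0`: `k / 2` pairs; `k` even, `m ≠ 0`: `{0, m}` and `(k-2)/2` pairs.  The sum is `m`. -/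
def St_KSF : Prop :=
  ∀ (G : Type) [AddCommGroup G] [Finite G] (A : Finset G) (k : ℕ), 1 ≤ k → k + 1 ≤ A.card →
    A.card ≤ (ks k A).card ∨ ∃ (a0 : G) (L : AddSubgroup G), (∀ x ∈ L, x + x = 0) ∧ ∀ x : G, x ∈ A ↔ x - a0 ∈ L

/-- **FlF** (1.3 h, from KSF, Cr, SDG.Sm, SDG.Ba1, SSE.B3E; adapt SSE.FlE).  Full slices, `|K| = 3` or `|K| ≥ 5`.
Proof.  As SSE.FlE if the first alternative of KSF holds for `A = Z.image f` (`|A| = |Z|`, `Cap 1`).  Otherwise `A = a0 + L`, `L ⊆ K` (differences of elements of `A`), `|L| = |Z| ≥ 2`, `|L| ≤ 4` (Cr (5)); `|L| = 2`: `k = 1`, `ks 1 A = A`.  `|L| = 4` (`|L|` divides `|K|`; `|L| = 3` is not killed by 2): `|K| ≠ 3`, so `|K| ≥ 5`, `4` divides `|K|`: `|K| ≥ 8`, and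
`b = |ins u f K| ≥ |K| - 4 ≥ 4`.  `Y = FS (ins u f K) f ⊆ K` is aperiodic, so `|Y| ≤ |K| - 1 ≤ b + 3` (`Y ≠ K`); but three of the `b` members have at least 7 sums (SSE.B3E, they are antisymmetric and not involutions: `AE`) and every further member adds at least one: `|Y| ≥ 7 + (b - 3) = b + 4`.  Contradiction. -/
def St_FlF : Prop :=
  ∀ (G ι : Type) [AddCommGroup G] [Finite G] (u Z : Finset ι) (f : ι → G) (K : AddSubgroup G) (c : G), R2 G → AE u f →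
    Aper (FS u f) → Z ⊆ u → (∀ i ∈ Z, f i - c ∈ K) → c ∉ K → Nat.card K ≤ Z.card + (ins u f K).card → (Nat.card K = 3 ∨ 5 ≤ Nat.card K) →
      ∀ (x : G) (k : ℕ), 1 ≤ k → k + 1 ≤ Z.card → x - k • c ∈ K → x ∈ FS (Z ∪ ins u f K) f

/-- **WiF** (0.5 h, from FlF; adapt SSE.WiE).  The window. -/
def St_WiF : Prop :=
  ∀ (G ι : Type) [AddCommGroup G] [Finite G] (s u Z : Finset ι) (f : ι → G) (K : AddSubgroup G) (c : G) (i0 i1 : ι), R2 G →
    u ⊆ s → AE u f → Aper (FS u f) → Z ⊆ u → (∀ i ∈ Z, f i - c ∈ K) → c ∉ K → Nat.card K ≤ Z.card + (ins u f K).card →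
    (Nat.card K = 3 ∨ 5 ≤ Nat.card K) → i0 ∈ Z → i1 ∈ Z → i0 ≠ i1 → ∀ x ∈ st (FS ((s.erase i0).erase i1) f) K, x + c ∈ FS s f

/-- **SRF** (1.8 h, from SDG.Nm1, SDG.Ba1, SDG.Kn, SDG.Qu, MDR.Sg, MDR.SC, MDR.N5, SSC.Nu, WiF; adapt SSE.SRE).  THE STRUCTURE LEMMA, dense coset form.
Proof.  `AE u f` by SDG.Ba1 (5).  Suppose `|K| ≥ 5` or `|K| = 3` (otherwise nothing to prove: `K ≠ ⊥`).  `f' i = - f i` if `f i + c ∈ K`, `f' i = f i` otherwise; `Z = {i ∈ u | f' i - c ∈ K}` is the filter of the statement (`c + c ∉ K`: `f i - c`, `f i + c` are not both in `K`), `ins u f' K = ins u f K`.  `2 |ins u f K| + 1 ≤ |K|` (`0`, `± f i` are different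
elements of `K`: `AE`), so `|Z| ≥ (|K| + 1) / 2 ≥ 2`: choose `i0 ≠ i1` in `Z`.  From here on exactly as SSE.SRE (`f'`, `Z`, WiF instead of WiE; `PR` instead of `PE`, `R2 G`). -/
def St_SRF : Prop :=
  ∀ (G ι : Type) [AddCommGroup G] [Finite G] (t : ℕ) (s u : Finset ι) (f : ι → G) (K : AddSubgroup G) (c : G), CtxF t s f → u ⊆ s → AS u f →
    K ≠ ⊥ → c + c ∉ K → Nat.card K ≤ (u.filter fun i => f i - c ∈ K ∨ f i + c ∈ K).card + (ins u f K).card →
      Nat.card K ≤ 4 ∧ (Nat.card K = 3 → (ins s f K).card = 1 ∧ 8 ≤ t)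

/-- **RgF** (0.8 h, from SSE.SyE, SSE.NfE).  (1) `DC` passes to subfamilies (the numbers only decrease).  (2) `AE` and `DC` imply `Reg`: `v ⊆ u`, `i1 ∈ v` with `f i1 + f i1 ∉ K`, SSE.NfE for `v` and `c = f i1`: `|K| ≤ |Z| + |ins v f K|`, and `Z` is contained in the filter of `DC`.
(3) an exceptional family has a dense coset of its group of order 3: `KAP u f K a`: `c = d`, `|K| = 3`, the three members of level 1; `c + c ∉ K` because `K.index ≥ 3` (`2 d ∈ K` and `d` generates `G / K` give `K.index ≤ 2`). -/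
def St_RgF : Prop :=
  (∀ (G ι : Type) [AddCommGroup G] [Finite G] (u v : Finset ι) (f : ι → G), v ⊆ u → DC u f → DC v f) ∧
  (∀ (G ι : Type) [AddCommGroup G] [Finite G] (u : Finset ι) (f : ι → G), AE u f → DC u f → Reg u f) ∧
  (∀ (G ι : Type) [AddCommGroup G] [Finite G] (u : Finset ι) (f : ι → G) (K : AddSubgroup G) (a : ℕ), 3 ≤ K.index → KAP u f K a →
    ∃ c : G, c + c ∉ K ∧ 3 ≤ (u.filter fun i => f i - c ∈ K ∨ f i + c ∈ K).card)

/-- **TfF** (1.2 h, from Cr; adapt SSE.Tf).  Transfer to the generated subgroup; `DC`: for `K' ≤ L = gen s f`, `c ∈ L` take `K = K'.map L.subtype`: `|K| = |K'|`, `f' i - c ∈ K'` iff `f i - c ∈ K` (for `i ∈ s`), and so on. -/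
def St_TfF : Prop :=
  ∀ (G ι : Type) [AddCommGroup G] [Finite G] (s : Finset ι) (f : ι → G),
    ∃ f' : ι → (gen s f), (∀ i ∈ s, (f' i : G) = f i) ∧ gen s f' = ⊤ ∧ (FS s f').card = (FS s f).card ∧
      (Aper (FS s f) → Aper (FS s f')) ∧ (AE s f → AE s f') ∧ (DC s f → DC s f') ∧ (R2 G → R2 (gen s f)) ∧
      ∀ c : ℕ, (∀ M : AddSubgroup G, M < gen s f → c ≤ (outs s f M).card) →
        ∀ M' : AddSubgroup (gen s f), M' ≠ ⊤ → c ≤ (outs s f' M').card

/-! ## Levels modulo a small subgroup -/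

/-- **F4F** (0.5 h, from SSC.Et; copy SSE.F4 with `IsAddCyclic K` instead of `IsAddCyclic G`). -/
def St_F4F : Prop :=
  ∀ (G ι : Type) [AddCommGroup G] [Finite G] (u : Finset ι) (f : ι → G) (K : AddSubgroup G) (d : G) (lv : ι → ℕ), IsAddCyclic K → Nat.card K = 4 → AE u f →
    (∀ i ∈ u, f i - lv i • d ∈ K) → ((u.filter fun i => lv i = 1).card = 4 ∨ ((u.filter fun i => lv i = 1).card = 3 ∧ ∃ i ∈ u, lv i = 0)) →
      (∀ i ∈ u, 2 ≤ lv i → lv i + 1 ≤ ∑ j ∈ u.filter (fun j => lv j < lv i), lv j) → Per (FS u f) K d (∑ i ∈ u, lv i)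

/-- **FV** (1.5 h, from SSC.Et; compare SSE.F2).  `|K| = 4`, all elements of `K` killed by 2.
Proof.  The four members `z_j` of level 1 are all elements of `d + K`, the four members `y_j` of level 2 are all elements of `2 d + K` (`Cap 1`).  Sums of 1, 2, 3, 4 of the `z_j`: the whole coset `d + K`; `2 d + K` without one element (the differences of two sums of two are...; only needed: not empty); `total - z_j`: the whole coset `3 d + K`; the total.  The same for the `y_j`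
(levels 2, 4, 6, 8; levels 2 and 6 are full).  A level is full if it is the sum of a full level and a nonempty one: `1 = 1 + 0`, `2 = 0 + 2`, `3 = 3 + 0`, `4 = 2 + 2`, `5 = 3 + 2`, `6 = 0 + 6`, `7 = 1 + 6`, `8 = 2 + 6`, `9 = 3 + 6`, `10 = 4 + 6`, `11 = 3 + 8`.  So `Per (FS {these eight} f) K d 12`.
SSC.Et with `m = 12`, `R` = members of level `≥ 3` (`12 + ∑_{j ∈ R, lv j < lv i} lv j = ∑_{j ∈ u, lv j < lv i} lv j`); members of level 0 are added at the end (`FS_mono`). -/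
def St_FV : Prop :=
  ∀ (G ι : Type) [AddCommGroup G] [Finite G] (u : Finset ι) (f : ι → G) (K : AddSubgroup G) (d : G) (lv : ι → ℕ), (∀ x ∈ K, x + x = 0) → Nat.card K = 4 → AS u f →
    (∀ i ∈ u, f i - lv i • d ∈ K) → (u.filter fun i => lv i = 1).card = 4 → (u.filter fun i => lv i = 2).card = 4 →
      (∀ i ∈ u, 3 ≤ lv i → lv i + 1 ≤ ∑ j ∈ u.filter (fun j => lv j < lv i), lv j) → Per (FS u f) K d (∑ i ∈ u, lv i)

/-- **Kh2F** (0.4 h, from SDG.Ba1, MDR.Sg, SSE.Lc, SSE.F2, SSE.Cn; copy SSE.Kh2, the hypothesis `IsAddCyclic G` is not used). -/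
def St_Kh2F : Prop :=
  ∀ (G ι : Type) [AddCommGroup G] [Finite G] (u : Finset ι) (f : ι → G) (K : AddSubgroup G), HKF u f K → Nat.card K = 2 →
    4 + u.card * (u.card + 1) ≤ 2 * (FS u f).card

/-- **Kh3F** (0.4 h, from SDG.Ba1, MDR.Sg, SSE.Lc, SSC.Fu, SSE.Cn; copy SSE.Kh3, the hypothesis `IsAddCyclic G` is not used). -/
def St_Kh3F : Prop :=
  ∀ (G ι : Type) [AddCommGroup G] [Finite G] (u : Finset ι) (f : ι → G) (K : AddSubgroup G), HKF u f K → Nat.card K = 3 →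
    Exc f u ∨ 4 + u.card * (u.card + 1) ≤ 2 * (FS u f).card

/-- **Kh4F** (0.5 h, from SDG.Ba1, MDR.Sg, SSE.Lc, F4F, SSE.Cn; copy SSE.Kh4 with F4F).  `K` cyclic of order 4. -/
def St_Kh4F : Prop :=
  ∀ (G ι : Type) [AddCommGroup G] [Finite G] (u : Finset ι) (f : ι → G) (K : AddSubgroup G), HKF u f K → IsAddCyclic K → Nat.card K = 4 →
    (Gam u f K ∧ 2 + u.card * (u.card + 1) ≤ 2 * (FS u f).card) ∨ 4 + u.card * (u.card + 1) ≤ 2 * (FS u f).card

/-- **KhV** (1.5 h, from SDG.Ba1, MDR.Sg, SSE.Lc, FV, SSE.Cn; adapt SSE.Kh4).  `|K| = 4`, `K` killed by 2.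
Proof.  SSE.Lc: `b = |ins u f K| = 0` (a member in `K` would be an involution: `AE`), `4 a ≤ l = ∑_{k=1}^a c_k ≤ 4 a`: `l = 4 a`, all levels full, `a ≥ 2` (`l ≥ 5`).  Pass to `f'` (MDR.Sg), `X = FS u f'`, `m = 2 a (a+1)`, FV (level `k ≥ 3`: lower levels `2 k (k-1) ≥ k + 1`): `Per X K d m`.  `m < q = K.index`: SSE.Cn (3): `|X| ≥ 4 (m-1) + 1 + 1` (level 0: `0`, level `m`: the sum
of all), `2 |X| ≥ 16 a^2 + 16 a - 4 ≥ 4 + 16 a^2 + 4 a`.  `m ≥ q + 1`: `X = G`, not aperiodic.  `m = q`: `|X| ≥ 4 (q-1) + 1 = N - 3`: against `2 |X| ≤ N` (`N = 4 q ≥ 4 (2a+1) ≥ 20`); if `l (l-1) + 3 ≤ N`: `2 |X| ≥ 2 l (l-1) ≥ 4 + l (l+1)`. -/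
def St_KhV : Prop :=
  ∀ (G ι : Type) [AddCommGroup G] [Finite G] (u : Finset ι) (f : ι → G) (K : AddSubgroup G), HKF u f K → (∀ x ∈ K, x + x = 0) → Nat.card K = 4 →
    4 + u.card * (u.card + 1) ≤ 2 * (FS u f).card

/-- **GmF** (0.6 h, from SDG.Ba1, MDR.Sg, SSE.LvE, SSC.Et, F4F, SSE.Cn; copy SSE.GmE without `IsAddCyclic G`).  `K` is cyclic: it has four elements and contains a member `h` of the family with `2 h ≠ 0` (`AE`); the only involution of `K` is `2 h`. -/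
def St_GmF : Prop :=
  ∀ (G ι : Type) [AddCommGroup G] [Finite G] (v : Finset ι) (f : ι → G) (e : ι) (K : AddSubgroup G), AE v f → Aper (FS v f) →
    e ∈ v → Gam (v.erase e) f K → 35 ≤ Nat.card G → 46 ≤ 2 * (FS v f).card

/-- **KgF** (3 h, from SDG.Nm1, SDG.Ba1, SDG.Kn, MDR.Sg, SSE.LvE, SSC.Et, SSC.Fu, SSC.Ct, SSE.Cn; adapt SSE.KgE, same beginning).  `s1` exceptional, `|s1| = 3 a + 1`, and `|s2| = 3 a + 2`.  `c1 (6 a + 3) = 9 a^2 + 12 a + 5 = 6 m + 3 a + 5`, `m = 3 a (a+1) / 2`.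
Proof.  `f'`, `lv`, `R`, `ρ = |R|`, `m' = m + ∑_R lv` as in SSE.KgE (`q = K.index`; `R ⊆ s2` maximal with `Per (FS (s1 ∪ R) f') K d m'`; every `i ∈ W := s2 \ R` has `m' ≤ lv i`, `2 lv i ≤ q`); at most three members of `s2` have the same level, and at most ONE has level `q / 2` (its coset `c + K` is equal to `- c + K`, has three elements and contains a fixed point of `x ↦ -x`, which is an
involution; the other two are negatives of each other).  All levels of `s2` are `≥ 1`.  Level 0 contains `0, f' h`, level `m'` contains `w, w - f' h`; [partial] = a level with at least two elements.  (Counting: SSE.Cn (1), (2).)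
(0) `R = s2`: `∑_{s2} lv ≥ 3 a (a+1)/2 + 2 (a+1)`, so `m' ≥ 3 a^2 + 5 a + 2`, `|T| ≥ 3 m' - 1` as in KgE (a): `≥ 9 a^2 + 15 a + 5`.
Let `κ_1 ≤ ... ≤ κ_r` be the levels of `W`, `r = 3 a + 2 - ρ ≥ 1`, `κ_1 ≥ m'`.  Interval of `v`: the levels `v + 1, ..., v + m' - 1`; it is full in `T` if `v` is a sum of levels of different members of `W` (`v = 0, κ_i, κ_i + κ_j`).  As in KgE (b): `|T| ≥ 6 m' - 2` always.
(1) `r ≤ 2`: `ρ ≥ 3 a`, `m' ≥ 2 m`, `|T| ≥ 12 m - 2 = 18 a^2 + 18 a - 2`.  (2) `κ_1 = κ_r`, `r = 3`: `ρ = 3 a - 1`, `m' ≥ 2 m - a`, `|T| ≥ 12 m - 6 a - 2 = 18 a^2 + 12 a - 2 ≥ 9 a^2 + 12 a + 5`.  From now on `r ≥ 3`, `κ_1 < κ_r`, so `κ_1 + κ_2 ≤ κ_1 + κ_r < q`.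
(3) `κ_1 + κ_2 + m' ≤ q`.  The intervals of `0`, `κ_1`, `κ_1 + κ_2` are disjoint and `< q`; partial levels: `0`, `m'`, `κ_1 + m'`, and `κ_1 + κ_2 + m'` if it is `< q`.  `|T| ≥ 9 m' - 3 ≥ 9 m + 9 ρ - 3`: enough if `a ≥ 2` or `ρ ≥ 1` (`3 m + 9 ρ ≥ 3 a + 8`).  `a = 1`, `ρ = 0`: `m' = 3`, `r = 5`, needed `26`.  If `κ_1 + κ_2 + 3 < q`: `9 * 3 - 3 + 2 = 26`.
If `κ_1 + κ_2 + 3 = q`: `κ_5 > κ_2` (not four equal levels), `2 κ_5 ≤ q` gives `κ_5 - κ_2 ≤ κ_1 + 3 - κ_5 ≤ 2`; so the level `q ≡ 0` is in the interval `{κ_1 + κ_5 + 1, κ_1 + κ_5 + 2}` and is full (one more element than counted); the interval `{κ_5 + 1, κ_5 + 2}` (`κ_5 ≥ κ_1 + 1`, `κ_5 + 2 ≤ κ_1 + κ_2` or `κ_5 + 1 ≤ κ_1 + 3 ≤ κ_1 + κ_2`) contains a level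
which is not in the three intervals, or is the level `κ_1 + 3` counted with two elements only: one more element.  `|T| ≥ 24 + 1 + 1`.
(4) `κ_1 + κ_2 + m' ≥ q + 1`.  `2 κ_r ≤ q ≤ κ_1 + κ_2 + m' - 1 ≤ κ_1 + κ_r + m' - 1`: `κ_r - κ_1 ≤ m' - 1`, so the intervals of `κ_1` and `κ_r` cover `κ_1 + 1, ..., κ_r + m' - 1` (`κ_r + m' ≤ κ_r + κ_1 < q`), and the interval of `κ_1 + κ_2` covers `κ_1 + κ_2 + 1, ..., q`.
(4a) `κ_1 + κ_2 < κ_r + m'`: the levels `1..m'-1` and `κ_1 + 1..q` are full, level `m' ≤ κ_1` is partial: `|T| ≥ 3 (m' - 1 + q - κ_1) + 2 ≥ 6 m' - 1 + 6 (κ_r - κ_1)` (`q ≥ 2 κ_r`, `κ_r ≥ m' + (κ_r - κ_1)`).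
(4b) `κ_1 + κ_2 ≥ κ_r + m'`: full: `1..m'-1`, `κ_1+1..κ_r+m'-1`, `κ_1+κ_2+1..q`; partial: `m'`, `κ_r + m'`: `|T| ≥ 3 (2 m' - 2 + κ_r - κ_1 + q - κ_1 - κ_2) + 4 ≥ 6 m' - 2 + 6 (κ_r - κ_1) + 3 (κ_r - κ_2)`.
`3 (κ_r - κ_1 + 1) ≥ r = 3 a + 2 - ρ`, `m' ≥ m + ρ`.  `ρ ≥ 1`: `6 ρ - 2 + 6 (κ_r - κ_1) ≥ 3 a + 5`.  `ρ = 0`: `κ_r - κ_1 ≥ a`; `a ≥ 3`: `6 a - 2 ≥ 3 a + 5`; `a = 2`: `6 a - 1 = 11 = 3 a + 5` in (4a), in (4b) `κ_r - κ_2 ≥ 2` (seven members).  `a = 1`: `m' = 3`, `r = 5`, needed `26 = 6 m' + 8`.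
(4a), `a = 1`: `|T| ≥ 3 (2 + q - κ_1) + 2`; `q ≥ 2 κ_5 ≥ 2 κ_1 + 2`.  `κ_1 ≥ 4`: `≥ 3 κ_1 + 14 ≥ 26`.  `κ_1 = 3`: `3 q - 1 ≥ 26` if `q ≥ 9`; `q = 8`: the five levels are `3` (at most three) or `4 = q / 2` (at most one): impossible.
(4b), `a = 1`: `|T| ≥ 3 q + 3 κ_5 - 6 κ_1 - 3 κ_2 + 16`, `κ_5 > κ_2 ≥ κ_1`.  `q ≥ 2 κ_5 + 1`: `≥ 3 + 6 + 3 + 16`.  `q = 2 κ_5`: only one member has level `κ_5`, the four others are not all equal: `κ_5 - κ_1 ≥ 2`: `≥ 12 + 3 + 16`. -/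
def St_KgF : Prop :=
  ∀ (G ι : Type) [AddCommGroup G] [Finite G] (s1 s2 : Finset ι) (f : ι → G) (K : AddSubgroup G) (a : ℕ), Disjoint s1 s2 → AE s1 f → AE s2 f →
    Aper (FS (s1 ∪ s2) f) → KAP s1 f K a → s1.card = 3 * a + 1 → (∀ i ∈ s2, f i ∉ K) → s2.card = 3 * a + 2 →
      cf 2 (s1.card + s2.card) ≤ (FS (s1 ∪ s2) f).card

/-! ## Growth and averaging -/

/-- **GRO** (helper86: Pool/Agent/KAT).  Growth of a symmetric generating set of a noncyclic group of rank two. -/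
def St_GRO : Prop :=
  ∀ (G ι : Type) [AddCommGroup G] [Finite G] (u : Finset ι) (f : ι → G), R2 G → ¬ IsAddCyclic G → AE u f → gen u f = ⊤ → 5 ≤ u.card → DC u f →
    4 * u.card + 1 ≤ Nat.card G →
      (∃ K : AddSubgroup G, NF (sym u f) K ∧ Nat.card K ≤ 4 ∧ APK (sym u f) K) ∨
      ∀ i, 1 ≤ i → Nat.card G ≤ (it (sym u f) i).card + 4 ∨ i * (2 * u.card + 2) ≤ (it (sym u f) i).card + 1 ∨
        (i = 2 ∧ 4 * u.card + 2 ≤ (it (sym u f) i).card)

/-- **GrF** (0.8 h, from GRO, Kh2F, Kh3F, Kh4F, KhV).  The growth alternatives for a family.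
Proof.  GRO.  First alternative: `|K| ∈ {2, 3, 4}` (`K ≠ ⊥`), `HKF u f K`: Kh2F, Kh3F; `|K| = 4`: `K` is cyclic (Kh4F) or killed by 2 (KhV). -/
def St_GrF : Prop :=
  ∀ (G ι : Type) [AddCommGroup G] [Finite G] (u : Finset ι) (f : ι → G), R2 G → ¬ IsAddCyclic G → AE u f → Aper (FS u f) → gen u f = ⊤ → 5 ≤ u.card →
    DC u f → 4 * u.card + 1 ≤ Nat.card G → (u.card * (u.card - 1) + 3 ≤ Nat.card G ∨ 2 * (FS u f).card ≤ Nat.card G) →
      Exc f u ∨ (∃ K : AddSubgroup G, Gam u f K ∧ 2 + u.card * (u.card + 1) ≤ 2 * (FS u f).card) ∨ 4 + u.card * (u.card + 1) ≤ 2 * (FS u f).card ∨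
      ∀ i, 1 ≤ i → Nat.card G ≤ (it (sym u f) i).card + 4 ∨ i * (2 * u.card + 2) ≤ (it (sym u f) i).card + 1 ∨
        (i = 2 ∧ 4 * u.card + 2 ≤ (it (sym u f) i).card)

/-- **A2W** (1.3 h, from MDR.Av0; adapt SSE.A2N).
Proof.  `K = 2 l + 2`, `j = l - 1`, `x = 1 + l (l+1) / 2`, `B = l^2 + 2 l - 4`.  `|1 D| = K - 1`, `|2 D| ≥ min (B, 2 K - 2)`, `|i D| ≥ min (B, i K - 1)` for `i ≥ 3`.  MDR.Av0 with `k = h + 1`, `h = l / 2`: `j (1 + ∑_{i=1}^{h} |i D|) + (x - k j) |k D| ≤ x^2`.  `h K - 1 ≤ B ≤ (h+1) K - 1`.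
`l = 2 h` (`h ≥ 3`): `j = 2h - 1`, `x = 2h^2 + h + 1`, `x - k j = 2`: left side `≥ (2h-1)(1 + (2h+1) h (h+1) - h - 1) + 2 (4h^2 + 4h - 4) = 4h^4 + 4h^3 + 5h^2 + 8h - 8`; `x^2 = 4h^4 + 4h^3 + 5h^2 + 2h + 1`; difference `6h - 9 > 0`.
`l = 2 h + 1` (`h ≥ 2`): `j = 2h`, `x = 2h^2 + 3h + 2`, `x - k j = h + 2`, `B = 4h^2 + 8h - 1`: left side `≥ 2h (1 + 2h (h+1)^2 - h - 1) + (h+2)(4h^2 + 8h - 1) = 4h^4 + 12h^3 + 18h^2 + 15h - 2`; `x^2 = 4h^4 + 12h^3 + 17h^2 + 12h + 4`; difference `h^2 + 3h - 6 > 0`. -/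
def St_A2W : Prop :=
  ∀ (G : Type) [AddCommGroup G] [Finite G] (X D : Finset G) (l : ℕ), (0 : G) ∈ D → 5 ≤ l → (∀ y ∈ D, lam X y + 1 ≤ l) →
    2 * X.card = 2 + l * (l + 1) → D.card = 2 * l + 1 →
    (∀ i, 1 ≤ i → l * l + 2 * l ≤ (it D i).card + 4 ∨ i * (2 * l + 2) ≤ (it D i).card + 1 ∨ (i = 2 ∧ 4 * l + 2 ≤ (it D i).card)) → False

/-! ## Four members -/

/-- **BoF** (2.5 h, from MDR.Sg; adapt SSE.BoE).  Four members in any finite group.
Proof.  As SSE.BoE; the only change is the number of relations with four signs.  Two of them differ (up to a global sign) in exactly two signs, so there are at most four (normalise the sign of `v1`: the sign vectors of `v2, v3, v4` have pairwise distance 2), and at most three if there is a relation on a triple, say `v1 + v2 + v3 = 0` after a change of signs (the vector `(1, 1, 1)`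
of signs of `v1, v2, v3` would give `v4 = 0`).  So: no triple relation: `|FS| ≥ 16 - 4 = 12`.  One triple relation: `|FS| ≥ 16 - 2 - 3 = 11`, and `≥ 12` unless there are exactly three relations with four signs: with `v1 + v2 + v3 = 0` and a suitable sign of `v4` these are `v4 = - 2 v1 = - 2 v2 = - 2 v3` (two of them, `v4 = - 2 v_i` and `v4 = 2 v_j`, would differ in one or
three signs).  Then `w = v2 - v1`, `2 w = 0`, `v3 = - 2 v1 - w`, `0 = 2 v3 - 2 v1 = - 6 v1`: the group generated by the members is generated by `v1` (`6 v1 = 0`) and `w` (`2 w = 0`): at most 12 elements.  Two triple relations: as in SSE.BoE (the cyclic hypothesis is not used there). -/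
def St_BoF : Prop :=
  ∀ (G ι : Type) [AddCommGroup G] [Finite G] (s : Finset ι) (f : ι → G), AE s f → s.card = 4 →
    12 ≤ (FS s f).card ∨ ((FS s f).card = 11 ∧ Nat.card (gen s f) ≤ 12) ∨ Prog s f ∨ ∃ h z : G, h ≠ 0 ∧ (3 : ℕ) • h = 0 ∧
      ∀ i ∈ s, f i = h ∨ f i = -h ∨ f i = z ∨ f i = -z ∨ f i = z + h ∨ f i = -(z + h) ∨ f i = z - h ∨ f i = -(z - h)

/-- **C4F** (1 h, from SSE.PgE, BoF; adapt SSE.C4).  `l = 4`.
Proof.  BoF.  `|FS| ≥ 12`: both conclusions.  `|FS| = 11`: `C1N 4`; for `C2N 4`: `N = |gen| ≤ 12` but `N ≥ 24`.  `Prog`: `gen u f = ⊤` is generated by one element (SSE.PgE), `G` would be cyclic.  Last alternative: `Exc f u` as in SSE.C4. -/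
def St_C4F : Prop := C1N 4 ∧ C2N 4

/-! ## The engine -/

/-- **DrF** (1 h, from SDG.Nm1, SDG.Ba1, SDG.Sm, SSC.Nu, SSE.B3E; adapt SSE.DrE).  As SSE.DrE.  If the classes `0, x̄, ȳ, x̄ + ȳ` of the two members outside `M` are only two different ones: `x̄ = ȳ`, `2 x̄ = 0`; all members are in `M` or in `x̄`, `gen u f = ⊤`, so `G / M = {0, x̄}` has order 2. -/
def St_DrF : Prop :=
  ∀ (G ι : Type) [AddCommGroup G] [Finite G] (u : Finset ι) (f : ι → G) (M : AddSubgroup G), (∀ n < u.card, PR n) → R2 G → AE u f →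
    Aper (FS u f) → gen u f = ⊤ → 5 ≤ u.card → 2 * (FS u f).card ≤ 2 + u.card * (u.card + 1) → M.index ≠ 2 → (outs u f M).card ≠ 2

/-- **DpF** (1.5 h, from SDG.Ba1, SSE.KeE, RgF, TfF; adapt SSE.Dp).  A family with a drop has many sums.  `u' = u.erase i`, `l = |u'|`, `L = gen u' f ≠ ⊤`.
Proof.  As SSE.Dp: `outs u f L = {i}`, so `L.index = 2` by the hypothesis on `outs`; `|FS u f| = 2 |FS u' f|`.  TfF for `u'`: `f'` in `L`.  For `M < L`: `M.index ≥ 4`, `|outs u f M| ≥ 3`, `|outs u' f M| ≥ 2`: `Sep u' f'`.  `2 |FS u' f'| = |FS u f| ≤ N / 2 = |L|`.  `L` cyclic: `C1 l` (`Reg u' f'` by RgF (2) from `DC u' f'`).  `L` not cyclic: `C1N l` (`R2 L`).  In both cases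
`2 |FS u' f| ≥ 2 + l (l+1)`, or `Exc f' u'` and SSE.KeE in `L` (second alternative): `2 |FS u' f| ≥ l (l+1)`.  `2 |FS u f| ≥ 2 l (l+1) ≥ 4 + (l+1)(l+2)` (`l ≥ 4`). -/
def St_DpF : Prop :=
  ∀ l : ℕ, 4 ≤ l → C1 l → C1N l → ∀ (G ι : Type) [AddCommGroup G] [Finite G] (u : Finset ι) (f : ι → G) (i : ι), R2 G → AE u f →
    Aper (FS u f) → gen u f = ⊤ → DC u f → (∀ M : AddSubgroup G, M ≠ ⊤ → M.index ≠ 2 → 3 ≤ (outs u f M).card) →
    2 * (FS u f).card ≤ Nat.card G → u.card = l + 1 → i ∈ u → gen (u.erase i) f ≠ ⊤ → 4 + u.card * (u.card + 1) ≤ 2 * (FS u f).card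

/-- **C1F** (1.5 h, from SDG.Ba1, SDG.Sm, SSE.SyE, SSE.A1E, SSE.KxE, GmF, RgF, DrF, DpF, GrF; adapt SSE.C1s).  First conclusion, induction step.
Proof.  `X = FS u f`, `x = |X|`.  Suppose `2 x < 2 + l (l+1)`, so `2 x ≤ l (l+1)` (parity), and `¬ Exc f u`.  DrF and `Sep`: `|outs u f M| ≥ 3` for `M ≠ ⊤`, `M.index ≠ 2`.  Let `i ∈ u`, `u' = u.erase i`.  `gen u' f = ⊤` (otherwise DpF with `l - 1`).  `Sep u' f`, `DC u' f`, `2 |FS u' f| ≤ 2 x ≤ N`.  `C1N (l-1)`: `Exc f u'`: KxE gives `Exc f u` or `4 + l (l+1) ≤ 2 x`: contradiction.  So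
`2 |FS u' f| ≥ 2 + l (l-1)`.  `|FS u' f| + lam X (f i) ≤ x`.
`lam X (f i) ≥ l - 1` for some `i`: `2 |FS u' f| ≤ l (l+1) - 2 (l-1) = 2 + l (l-1)`, `N ≥ 2 x ≥ 2 + l (l-1) + 2 (l-1) = l^2 + l ≥ (l-1)^2 + 2 (l-1)`; `C2N (l-1)`: `4 + l (l-1) ≤ 2 |FS u' f|`: contradiction; `Exc f u'`: excluded; `Gam u' f K`: `l = 6`, `N ≥ 42`, GmF: `46 ≤ 2 x ≤ 42`: contradiction.
`lam X (f i) ≤ l - 2` for all `i`, so `lam X y ≤ l - 2` on `D = sym u f` (SyE).  `x > |FS u' f|`, so `N ≥ 2 x ≥ 4 + l (l-1) ≥ 4 l + 1`.  GrF (second alternative of its hypothesis): the first three alternatives are impossible; the fourth gives the hypotheses of SSE.A1E (`2 x ≤ N`; `4 l + 2 = 2 (2 l + 2) - 2`): contradiction. -/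
def St_C1F : Prop := ∀ l : ℕ, 5 ≤ l → (∀ n < l, PR n) → C1 (l - 1) → C1N (l - 1) → C2N (l - 1) → C1N l

/-- **C2F** (1.5 h, from SDG.Ba1, SSE.SyE, SSE.KxE, A2W, GmF, RgF, DrF, DpF, GrF; adapt SSE.C2s).  Second conclusion, induction step.
Proof.  Suppose `2 x ≤ 2 + l (l+1)`, `¬ Exc f u`, no `Gam u f K`.  `C1N l`: `2 x = 2 + l (l+1)`.  `|outs u f M| ≥ 3` for `M ≠ ⊤`, index `≠ 2` (DrF); `i ∈ u`, `u' = u.erase i`: `gen u' f = ⊤` (DpF: otherwise `4 + l (l+1) ≤ 2 x`), `Sep`, `DC`; `C1N (l-1)` and KxE (second alternative): `2 |FS u' f| ≥ 2 + l (l-1)`, `u'` is not exceptional.  If `2 |FS u' f| ≤ 2 + l (l-1)`: `C2N (l-1)`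
(`N ≥ l^2 + 2 l`): `4 + l (l-1) ≤ 2 |FS u' f|`, contradiction, or `Gam u' f K`, `l = 6`, GmF: `46 ≤ 2 x = 44`: contradiction.  So `2 |FS u' f| ≥ 4 + l (l-1)` (parity), `lam X (f i) ≤ x - |FS u' f| ≤ l - 1`, `lam X y ≤ l - 1` on `D = sym u f`, `|D| = 2 l + 1` (SyE).  GrF (`N ≥ l^2 + 2 l ≥ 4 l + 1`): the first three alternatives are impossible
(the second contains `Gam u f K`); the fourth and A2W (`N ≥ l^2 + 2 l`): contradiction. -/
def St_C2F : Prop := ∀ l : ℕ, 5 ≤ l → (∀ n < l, PR n) → C1 (l - 1) → C1N (l - 1) → C1N l → C2N (l - 1) → C2N l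

/-- **CCF** (0.3 h, from C4F, C1F, C2F; adapt SSE.CC).  Induction on `l`. -/
def St_CCF : Prop := (∀ l : ℕ, 4 ≤ l → C1 l) → ∀ l : ℕ, 4 ≤ l → (∀ n < l, PR n) → C1N l ∧ C2N l

/-! ## Subgroups with many members -/

/-- **BnF** (0.5 h, from SDG.Nm1, SDG.Ba1, SDG.Kn, SDG.Sm; adapt SSE.BnE). -/
def St_BnF : Prop :=
  ∀ (G ι : Type) [AddCommGroup G] [Finite G] (t : ℕ) (s : Finset ι) (f : ι → G), CtxF t s f → 1 ≤ t → cf 2 (t - 1) + 2 ≤ Nat.card G

/-- **IxF** (0.6 h, from SDG.Nm1, SDG.Ba1, SDG.Kn, SDG.Sm, SSC.Nu, SSE.NuE; copy SSE.IxE with `PR`, `R2`).  `M` of prime index. -/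
def St_IxF : Prop :=
  ∀ (G ι : Type) [AddCommGroup G] [Finite G] (t : ℕ) (s : Finset ι) (f : ι → G) (M : AddSubgroup G), CtxF t s f → 9 ≤ t → M.index.Prime →
    (5 ≤ M.index → (ins s f M).card + 2 ≤ t / 2) ∧ (M.index = 3 → (ins s f M).card + 1 ≤ (t + 1) / 2) ∧ (M.index = 2 → 4 ≤ (outs s f M).card)

/-- **I4F** (1.8 h, from SDG.Nm1, SDG.Ba1, SDG.Kn, SDG.Sm, SSE.B3E, IxF).  `G / M` cyclic of order 4: an antisymmetric subfamily `X` in `M` has at most `t / 2 - 2` members.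
Proof.  Suppose `|X| ≥ k = t / 2 - 1`, `k ≥ 3`.  `a = |ins s f M| ≥ k`; the subgroup `M''` of index 2 above `M` has `|outs s f M''| ≥ 4` (IxF), so `|outs s f M| ≥ 4`.  `Y = FS (ins s f M) f ⊆ M`, aperiodic: `|Y| ≥ c1 a` (`PR a`, `a < t`), and `|Y| ≥ 7 + (a - 3)` (three members of `X`: SSE.B3E, every further member adds at least one).
`R ⊆ outs s f M` with three members whose sums meet all four classes modulo `M`: there is a member `x ≡ ± g` (`g` a generator of `G / M`; otherwise all members are in `M''`, but `gen s f = ⊤`); let `y, y'` be two more members outside `M`; if one of them is `≡ 2 g`: `0, x, y, x + y`; otherwise all three are `≡ ± g` and the sums of `x, y, y'` meet all classes.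
`FS R f` has at least 5 elements (SDG.Sm: `|R| + 2`), so two different sums `b ≠ b'` of `R` are in the same class, and `|(Y + b) ∪ (Y + b')| ≥ |Y| + 1` (aperiodic).  So `|FS (ins ∪ R) f| ≥ 4 |Y| + 1`, and by SDG.Kn (1) `|T| + 1 ≥ 4 |Y| + 1 + c1 (t - a - 3)` (`PR`).
Numbers (checked by computer for `t ≤ 400`): for `t ≥ 9`, `t / 2 - 1 ≤ a ≤ t - 4`: `c1 t ≤ 4 max (c1 a, a + 4) + c1 (t - a - 3)` (equality possible), a contradiction to `|T| < c1 t`.  (`4 c1 a + c1 (t - a - 3) - c1 t` is increasing in `a` for `a ≥ t/2 - 1`; for `t ≥ 16` take `a = t/2 - 1` in it; `t ≤ 15`: `interval_cases`.) -/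
def St_I4F : Prop :=
  ∀ (G ι : Type) [AddCommGroup G] [Finite G] (t : ℕ) (s X : Finset ι) (f : ι → G) (M : AddSubgroup G) (g : G), CtxF t s f → 9 ≤ t →
    M.index = 4 → (∀ x : G, ∃ k : ℕ, x - k • g ∈ M) → X ⊆ ins s f M → AS X f → X.card + 2 ≤ t / 2

/-- **NzF** (2.5 h, from SDG.Nm1, SDG.Ba1, SDG.Kn, SDG.Sm, SSE.B3E, IxF).  `M ≠ M'` of index 3, `X` an antisymmetric subfamily in `M` with at least `J - 2` (`t` even: `J - 1`) members: at least three members of `X` are outside `M'`.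
Proof.  `m = |ins s f M| ≤ J - 1` (IxF), `n = |X| ≤ m`, `e` = number of members of `X` outside `M'`, suppose `e ≤ 2`, `z = n - e`.  `ψ z = T_z` for `z ≤ 3` and `max (c1 z, z + 4)` for `z ≥ 4`: the members of `X` in `M'` have at least `ψ z` sums (SSE.B3E for at most three, `PR z`, every further member adds at least one).
(e = 1) the member `x ∉ M'`: `|FS X f| = 2 |FS (X ∩ M') f| ≥ 2 ψ z`.  (e = 2) `x1, x2 ∉ M'`, `Y = FS (X ∩ M') f ⊆ M'`: in `G / M'` (order 3) the classes of `0, x1, x2, x1 + x2` are all three classes and two of these four elements are in the same class: they are `x1, x2` (`x1 ≠ x2`) or `0, x1 + x2` (`x1 ≠ - x2`), so `|FS X f| ≥ 3 |Y| + 1 ≥ 3 ψ z + 1`.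
`|FS (ins s f M) f| ≥ F := |FS X f| + (m - n)`.  `|outs s f M| ≥ t - J + 1 ≥ 2`; two members `y, y'` outside `M`: the classes of `0, y, y', y + y'` in `G / M` are all three classes: `|FS (ins s f M ∪ {y, y'}) f| ≥ 3 F`, so `|T| + 1 ≥ 3 F + c1 (t - m - 2)` (SDG.Kn (1), `PR`).  Numbers (checked by computer for `t ≤ 400`): `3 F + c1 (t - m - 2) ≥ c1 t + 1` for all `t ≥ 9` and all `m, n, e` in question:
contradiction.  (`m, n ∈ {J - 2, J - 1}`; for `J ≥ 10` use `ψ z ≥ c1 z ≥ 1 + ((z+1)^2 - 1)/4`, a polynomial inequality: `3 F ≥ 6 c1 (J - 3)`; `J ≤ 9`: `interval_cases`.)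
(e = 0) `X ⊆ N' := M ⊓ M'`, `N'.index = 9`, every `x : G` has `3 x ∈ N'`.  If `f i ∉ N'`, the subgroup `N' ⊔ ⟨f i⟩` has index 3, contains at most `J - 1` members (IxF), of which at least `J - 2` (`t` even: `J - 1`) are in `N'`: so `i` is its only member outside `N'` (`t` even: contradiction).  So the classes of `± f i` (`i ∈ outs s f N'`) in `G / N'` are all different and not zero:
`2 |outs s f N'| ≤ 8`, `t ≤ (J - 1) + 4`: contradiction to `t ≥ 2 J - 1 ≥ 9`. -/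
def St_NzF : Prop :=
  ∀ (G ι : Type) [AddCommGroup G] [Finite G] (t : ℕ) (s X : Finset ι) (f : ι → G) (M M' : AddSubgroup G), CtxF t s f → 9 ≤ t →
    M.index = 3 → M'.index = 3 → M ≠ M' → X ⊆ ins s f M → AS X f → (t + 1) / 2 ≤ X.card + 2 → (t % 2 = 0 → (t + 1) / 2 ≤ X.card + 1) →
      3 ≤ (outs X f M').card

/-! ## The halves -/

/-- **SpF** (1.5 h, from MDR.Sp2).  Balanced splitting.  `κ (-x) = κ x`.
Proof.  For a finite set `V` of values let `s_V = {i ∈ s | κ (f i) ∈ V}`; claim: `s_V = s1 ∪ s2` disjoint, `AS`, `|s2| ≤ |s1| ≤ |s2| + 1`, `Bal κ s1 s2 f`.  Induction on `V`: for a new value `c` let `A, B` be the parts of `s_c` (MDR.Sp2, `|B| ≤ |A| ≤ |B| + 1`).  If `|s1| = |s2| + 1` and `|A| = |B| + 1`: new parts `s2 ∪ A`, `s1 ∪ B`; otherwise `s1 ∪ A`, `s2 ∪ B`.  Members of different classes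
are not equal up to sign, so the parts are `AS`.  `V` = all values on `s`; `|s1| + |s2| = |s|` gives the cardinalities. -/
def St_SpF : Prop :=
  ∀ (G ι : Type) [AddCommGroup G] (s : Finset ι) (f : ι → G) (κ : G → ℕ), (∀ i ∈ s, f i ≠ 0) → Cap 2 s f → (∀ x, κ (-x) = κ x) →
    ∃ s1 s2 : Finset ι, Disjoint s1 s2 ∧ s1 ∪ s2 = s ∧ AS s1 f ∧ AS s2 f ∧ s1.card = (s.card + 1) / 2 ∧ s2.card = s.card / 2 ∧ Bal κ s1 s2 f

/-- **XcF** (1 h).  Exchange.  `p`, `r` disjoint, antisymmetric, `x ∈ p` and `y ∈ r` of the same class, no member of `r` is `± f x`, no member of `p` is `± f y`: exchange `x` and `y`. -/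
def St_XcF : Prop :=
  ∀ (G ι : Type) [AddCommGroup G] (p r : Finset ι) (f : ι → G) (κ : G → ℕ) (x y : ι), Disjoint p r → AS p f → AS r f → Bal κ p r f →
    x ∈ p → y ∈ r → κ (f x) = κ (f y) → (∀ j ∈ r, f j ≠ f x ∧ f j ≠ - f x) → (∀ j ∈ p, f j ≠ f y ∧ f j ≠ - f y) →
      Disjoint (insert y (p.erase x)) (insert x (r.erase y)) ∧ insert y (p.erase x) ∪ insert x (r.erase y) = p ∪ r ∧
      AS (insert y (p.erase x)) f ∧ AS (insert x (r.erase y)) f ∧ (insert y (p.erase x)).card = p.card ∧ (insert x (r.erase y)).card = r.card ∧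
      Bal κ (insert y (p.erase x)) (insert x (r.erase y)) f ∧
      (∀ M : AddSubgroup G, (outs (insert y (p.erase x)) f M).card + (if f x ∈ M then 0 else 1) = (outs p f M).card + (if f y ∈ M then 0 else 1)) ∧
      (∀ M : AddSubgroup G, (outs (insert x (r.erase y)) f M).card + (if f y ∈ M then 0 else 1) = (outs r f M).card + (if f x ∈ M then 0 else 1))

/-- **ExF** (2.5 h).  Existence of an exchange (pure counting).  `κ` has at most four values, `δ_c = |p ∩ c| - |r ∩ c| ∈ {-1, 0, 1}` for every class `c` (`Bal`).  `x ∈ p` is free if no member of `r` is `± f x`; the same for `y ∈ r`.  `p` is the failing part: at most one member of `p` is outside `M`; `X' ⊆ p` is a set of at least three members in `M`.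
Conclusion: there are free `x ∈ X'` and free `y ∈ r`, `f y ∉ M`, with `κ (f x) = κ (f y)`.
Proof.  Partners (`f j = ± f i`, `i ∈ p`, `j ∈ r`) are unique (`AS`), have the same class, and are in `M` simultaneously.  `|p| - |r| = ∑_c δ_c`.
(A) `p ∩ outs ≤ 1` and no member of `r` is in `M`.  All members of `X'` are free; at most one `y0 ∈ r` is not free (its partner `p0 ∈ p` is the member of `p` outside `M`).  Suppose the conclusion fails.  If `c` meets `X'` then `r ∩ c ⊆ {y0}`; if `y0 ∉ c`: `r ∩ c = ∅`, `|p ∩ c| ≤ 1`, so `|X' ∩ c| = 1` and `δ_c = 1`; if `y0 ∈ c`: `p0 ∈ c`, `|p ∩ c| ≤ 2`, `|X' ∩ c| = 1`, `δ_c = 1`.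
So `|X'| ≤ #{c | δ_c = 1} ≤ 2`, because `∑ δ_c = |p| - |r| ≤ 1` and there are at most four classes.  Contradiction.
(B) `|p| + 1 = |r|`, exactly one member `o` of `p` is outside `M`, at most one member `m0` of `r` is in `M`.  `∑ δ_c = -1`, so `#{c | δ_c = 1} ≤ 1`.  Suppose the conclusion fails.  Not free: in `p ∩ M` only the partner `x_m` of `m0`, in `r \ M` only the partner `y_o` of `o`.  Let `c` be a class with a free member of `X'`: `r ∩ c ⊆ {m0, y_o}`, so the number of free members of `X'` in `c` is at most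
`|p ∩ c| - [x_m ∈ c] - [o ∈ c] = |r ∩ c| + δ_c - [x_m ∈ c] - [o ∈ c] ≤ [m0 ∈ c] + [y_o ∈ c] - [o ∈ c] - [x_m ∈ c] + δ_c`.  If `x_m` exists this is `≤ δ_c`, so there is at most one free member, `|X'| ≤ 2`.  If `x_m` does not exist it is `≤ [m0 ∈ c] + δ_c`, and the sum over the classes is at most `1 + 1 = 2`.  Contradiction.
(The statement covers both cases; in case (B) with `r ∩ M = ∅` case (A) applies.) -/
def St_ExF : Prop :=
  ∀ (G ι : Type) [AddCommGroup G] (p r X' : Finset ι) (f : ι → G) (κ : G → ℕ) (M : AddSubgroup G), Disjoint p r → AS p f → AS r f → Bal κ p r f →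
    (∀ x, κ (-x) = κ x) → (∀ x, κ x < 4) → X' ⊆ p → (∀ i ∈ X', f i ∈ M) → 3 ≤ X'.card → (outs p f M).card ≤ 1 →
    ((p.card ≤ r.card + 1 ∧ ∀ j ∈ r, f j ∉ M) ∨ (p.card + 1 = r.card ∧ (outs p f M).card = 1 ∧ (ins r f M).card ≤ 1)) →
      ∃ x ∈ X', ∃ y ∈ r, f y ∉ M ∧ κ (f x) = κ (f y) ∧ (∀ j ∈ r, f j ≠ f x ∧ f j ≠ - f x) ∧ (∀ j ∈ p, f j ≠ f y ∧ f j ≠ - f y)

/-- **HoF** (3 h, from SDG.Ba1, Cr, IxF, I4F, NzF, SpF, XcF, ExF).  The halves.
Proof.  `κ x` = number (`0..3`) of the class of `x` modulo `2 G` (index `≤ 4` by Cr (2)); `κ (-x) = κ x`.  Consider all splittings `(s1, s2)` as in SpF (there is one); choose one that maximises `Φ = ∑ (min (|outs s1 f M|, 2) + min (|outs s2 f M|, 2))`, the sum over all subgroups `M` of index 3 (finitely many).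
CLAIM 1: all terms are 4.  Suppose `p ∈ {s1, s2}` has `|outs p f M| ≤ 1`, `M.index = 3`, `r` the other part.  `|ins s f M| ≤ J - 1` (IxF).  `X = ins p f M`, `|X| ≥ |p| - 1`.  `X' = {i ∈ X | f i ∉ M' for all M' ≠ M of index 3}`: `|X'| ≥ 3`: if there is no such `M'`: `|X| ≥ 3`.  Otherwise NzF for one `M'`; all `M ⊓ M'` (`M'` of index 3, `≠ M`) are equal to `3 G`: they contain `3 G`, and have index 9
(Cr (2), (3)), so `X'` does not depend on `M'`.  ExF applies: if `|p| = J`: `|X| = J - 1`, all members of `s` in `M` are in `p`, first alternative.  If `|p| = J - 1` (`t` odd, `p = s2`): `|outs p f M| = 0`: `|X| = J - 1`, first alternative; `|outs p f M| = 1`: `|X| = J - 2`, at most one member of `r` is in `M`: second alternative.  XcF: the new splitting has larger `Φ`: for `M`: `|outs p|` grows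
by one (`f x ∈ M`, `f y ∉ M`) and `|outs r|` (it was `≥ |r| - 1 ≥ 3`: at most one member of `r` is in `M`, and `|r| ≥ 4`) decreases by one, so it is still `≥ 2`; for `M' ≠ M` of index 3 (`f x ∉ M'`): `|outs p f M'| ≥ |X'| ≥ 3` becomes at least 2, and `|outs r f M'|` does not decrease.  Contradiction.
CLAIM 2: index 2.  `M` is a union of classes modulo `2 G` (Cr (3)), `|outs s f M| ≥ 4` (IxF).  `δ_c = |s1 ∩ c| - |s2 ∩ c| ∈ {-1, 0, 1}`, at most four classes, `∑ δ_c = t % 2`.  `|outs s1 f M| - |outs s2 f M| = ∑_{c outside M} δ_c`, at most two classes are outside `M` (the index of `M` in `G` is 2, `2 G ≤ M`, and there are at most 4 classes): so it is `≤ 2` and `≥ - 2`: both are `≥ 1`.  If `t` is odd: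
at most one `δ_c` is `-1`, so the difference is `≥ - 1` and `|outs s1 f M| ≥ 2`.
CLAIM 3.  Index `p ≥ 5`: `|outs s_j f M| ≥ |s_j| - |ins s f M| ≥ 2` (IxF).  Every `M ≠ ⊤` is contained in a subgroup of prime index: so `|outs s_j f M| ≥ 1`.
CLAIM 4: `M ≠ ⊤`, `M.index ≠ 2`, `|outs s_j f M| = 1` is impossible: let `x` be this member; `gen s_j f = ⊤` by claim 3, so `G / M` is generated by the class of `x`: cyclic of order `n ≠ 2`.  If an odd prime divides `n`, `M` is contained in a subgroup of odd prime index: at least two outside, contradiction.  Otherwise `4 | n`, `M` is contained in a subgroup `M4` with `G / M4` cyclic of order 4, `X = s_j.erase x ⊆ ins s f M4`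
is antisymmetric with `|X| ≥ t/2 - 1` members: against I4F. -/
def St_HoF : Prop :=
  ∀ (G ι : Type) [AddCommGroup G] [Finite G] (t : ℕ) (s : Finset ι) (f : ι → G), CtxF t s f → 9 ≤ t →
    ∃ s1 s2 : Finset ι, Disjoint s1 s2 ∧ s1 ∪ s2 = s ∧ AS s1 f ∧ AS s2 f ∧ s1.card = (t + 1) / 2 ∧ s2.card = t / 2 ∧
      (∀ M : AddSubgroup G, M ≠ ⊤ → 1 ≤ (outs s1 f M).card ∧ 1 ≤ (outs s2 f M).card) ∧ Sep s1 f ∧ Sep s2 f ∧
      (t % 2 = 1 → ∀ M : AddSubgroup G, M ≠ ⊤ → 2 ≤ (outs s1 f M).card)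

/-! ## The end of the proof -/

/-- **EvF** (1.3 h, from SDG.Nm1, SDG.Kn, SDG.Ba1, BnF, SRF, RgF, HoF, SSE.KeE, SSE.KgE; adapt SSE.EvE).  `t = 2 l ≥ 10`: contradiction.
Proof.  HoF.  The parts are `AE` (SDG.Ba1 (5)), generate `G` (1 member outside every `M ≠ ⊤`), satisfy `Sep`, and `DC` by SRF.  `X_j = FS s_j f`, `|X_1| + |X_2| ≤ |T| + 1 ≤ 1 + l (l+1)` and `≤ N` (SDG.Kn).  The smaller one has `2 |X_j| ≤ l (l+1)`, `2 |X_j| ≤ N`; `C1N l`: `KAP s_j f K a`.  BnF: `N ≥ l^2 + 3 ≥ 28`, so `K.index ≥ 3`; RgF (3) and SRF: `|ins s f K| = 1`, so the other part has no member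
in `K`.  `l ≠ 3 a + 1`: KeE (first alternative): contradiction.  `l = 3 a + 1`: KgE with `s_j` and the other part (`3 a + 1` members): `cf 2 t ≤ |T|`: contradiction. -/
def St_EvF : Prop :=
  (∀ l : ℕ, 4 ≤ l → (∀ n < l, PR n) → C1N l ∧ C2N l) →
    ∀ (G ι : Type) [AddCommGroup G] [Finite G] (l : ℕ) (s : Finset ι) (f : ι → G), 5 ≤ l → ¬ CtxF (2 * l) s f

/-- **OdF** (2.2 h, from SDG.Nm1, SDG.Kn, SDG.Ba1, SSE.SyE, SSE.A1E, DrF, BnF, SRF, RgF, SSE.KxE, SSE.KeE, SSE.KgE, KgF, GmF, GrF, HoF; adapt SSE.OdE; `lam_compl`).  `t = 2 l - 1 ≥ 9`: contradiction.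
Proof.  HoF: `|s1| = l ≥ 5`, `|s2| = l - 1 ≥ 4`; `AE`, `gen = ⊤`, `Sep`, `DC` (SRF) for the parts.  `X = FS s1 f`, `X_2 = FS s2 f`, `|X| + |X_2| ≤ cf 2 (2l-1) = 1 + l^2`, `|X| + |X_2| ≤ N`.  BnF: `N ≥ l (l-1) + 3 ≥ 23`.  If a part is `KAP · f K a` then `|ins s f K| = 1` (RgF (3), SRF), the other part has no member in `K`.
(i) `2 |X_2| ≥ 2 + l (l-1)`: if `2 |X_2| > N`: clear.  Otherwise `C1N (l-1)`; if `KAP s2 f K a`: `l - 1 ≠ 3 a + 1`: KeE; `l - 1 = 3 a + 1`: KgF with `s1 := s2`, `s2 := s1` (`3 a + 2` members): `cf 2 t ≤ |T|`: contradiction.  (ii) `2 |X| ≤ l (l+1)`.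
(iii) `s1` is not exceptional: `l ≠ 3 a + 1`: KeE contradicts (ii); `l = 3 a + 1` (`a ≥ 2` as `l ≥ 5`): KgE with `|s2| = 3 a`.
(iv) `i ∈ s1`, `u' = s1.erase i`: `gen u' f = ⊤` (two members of `s1` outside every `M ≠ ⊤`: `t` is odd), `Sep u' f` (index `≠ 2`: `≥ 3` for `s1` by DrF), `DC u' f`.  `u'` is not exceptional: KxE for `s1` (first alternative) contradicts (iii) or (ii).  `2 |FS u' f| ≥ 2 + l (l-1)`: `C1N (l-1)` if `2 |FS u' f| ≤ N`, otherwise clear.  If `lam X (f i) ≥ l - 1`: `2 |X| ≥ 2 + l (l-1) + 2 (l-1) = l (l+1)`,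
so `2 |X| = l (l+1)`, `2 |FS u' f| = 2 + l (l-1) ≤ N`, `2 N ≥ 2 |X| + 2 |X_2| ≥ 2 l^2 + 2`, `N ≥ l^2 + 1 ≥ (l-1)^2 + 2 (l-1)`; `C2N (l-1)`: `4 + l (l-1) ≤ 2 |FS u' f|`: contradiction; `Exc`: excluded; `Gam u' f K`: `l = 6`, `N ≥ 37`, GmF: `46 ≤ 2 |X| = 42`: contradiction.  So `lam X y ≤ l - 2` on `D = sym s1 f` (SyE).
(v) GrF for `s1` (`N ≥ l (l-1) + 3 ≥ 4 l + 1`): the first three alternatives are impossible by (iii), (ii); so `N ≤ |i D| + 4` or `i (2l+2) ≤ |i D| + 2` for all `i ≥ 1`.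
(vi) SSE.A1E for `X` if `2 |X| ≤ N`, otherwise for the complement (`N - |X| ≥ |X_2|`, `lam_compl`): contradiction. -/
def St_OdF : Prop :=
  (∀ l : ℕ, 4 ≤ l → (∀ n < l, PR n) → C1N l ∧ C2N l) →
    ∀ (G ι : Type) [AddCommGroup G] [Finite G] (l : ℕ) (s : Finset ι) (f : ι → G), 5 ≤ l → ¬ CtxF (2 * l - 1) s f

/-- **S8F** (2 h, from SDG.Nm1, SDG.Kn, SDG.Ba1, MDR.Sp2, SSE.B3E, SSE.PgE, BoF, SSE.SyE, SRF, BnF, SSE.KgE, SSC.Ct; adapt SSE.S8E).  `t ≤ 8`: contradiction.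
Proof.  As SSE.S8E.  BoF for the parts with four members: in the first three alternatives they have at least 11 sums (`Prog`: SSE.PgE).  Last alternative: `K = {0, h, -h}`, `z ∉ K`, `2 z ∉ K` as there; SRF with `u = v`, `c = z`: three members `≡ ± z`: `8 ≤ t`, `|ins s f K| = 1`.  The rest is the same (`PR` instead of `PE`; in the case `L ≠ ⊤` the group `L` need not be cyclic, only `L / K` is generated by `z`). -/
def St_S8F : Prop :=
  ∀ (G ι : Type) [AddCommGroup G] [Finite G] (t : ℕ) (s : Finset ι) (f : ι → G), t ≤ 8 → ¬ CtxF t s f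

/-- **PFF** (0.8 h, from SDG.Tr, SDG.main, Cr, SSE.PFE, S8F, EvF, OdF; adapt SSE.PFE).  Strong induction on `t`.  Suppose `PR u` for `u < t` and `PR t` fails for `G, s, f`.  By SDG.Tr pass to the group `gen s f` (`R2` by Cr (1)).  If it is cyclic: SSE.PFE.  Otherwise this is `CtxF t` (`TT` by SDG.main): `t ≤ 8`: S8F; `t = 2 l ≥ 10`: EvF; `t = 2 l - 1 ≥ 9`: OdF
(the hypothesis of EvF, OdF is the conclusion of CCF). -/
def St_PFF : Prop := (∀ l : ℕ, 4 ≤ l → (∀ n < l, PR n) → C1N l ∧ C2N l) → ∀ t : ℕ, PR t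

end Pool.Agent.SSF
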