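import Pool.Agent.SSF.Main
import Pool.Agent.KAT.B1
import Pool.Agent.KAT.B2
import Pool.Agent.KAT.B3
import Pool.Agent.KAT.B4
import Pool.Agent.KAT.C1
import Pool.Agent.KAT.C2
import Pool.Agent.KAT.C3
import Pool.Agent.KAT.C4
import Pool.Agent.KAT.Co
import Pool.Agent.KAT.Df
import Pool.Agent.KAT.E4
import Pool.Agent.KAT.Fr
import Pool.Agent.KAT.GRO
import Pool.Agent.KAT.K4
import Pool.Agent.KAT.Ka
import Pool.Agent.KAT.Kb
import Pool.Agent.KAT.Kt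
import Pool.Agent.KAT.Pk
import Pool.Agent.KAT.Qt
import Pool.Agent.KAT.Rw
import Pool.Agent.KAT.Sg

/-!
# SSF: the sharp lower bound in all finite abelian groups of rank at most two (helper97, helper86)
-/

set_option autoImplicit false

noncomputable section

open Finset Pool.Agent.Helper64.Rho
open scoped Classical Pointwise

namespace Pool.Agent.SSF

theorem kat_Rw : KAT.St_Rw := KAT.thm_Rw
theorem kat_Sg : KAT.St_Sg := KAT.thm_Sg
theorem kat_Fr : KAT.St_Fr := KAT.thm_Fr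
theorem kat_Pk : KAT.St_Pk := KAT.thm_Pk kat_Rw kat_Fr
theorem kat_K4 : KAT.St_K4 := KAT.thm_K4
theorem kat_B1 : KAT.St_B1 := KAT.thm_B1 kat_Rw kat_Sg kat_Fr kat_Pk kat_K4
theorem kat_B2 : KAT.St_B2 := KAT.thm_B2 kat_Rw kat_Fr kat_Sg kat_K4
theorem kat_B3 : KAT.St_B3 := KAT.thm_B3 kat_Rw kat_Fr kat_Pk
theorem kat_B4 : KAT.St_B4 := KAT.thm_B4 kat_Rw kat_Sg kat_Fr
theorem kat_C1 : KAT.St_C1 := KAT.thm_C1 kat_Rw kat_Sg
theorem kat_C2 : KAT.St_C2 := KAT.thm_C2 kat_Rw kat_Sg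
theorem kat_C3 : KAT.St_C3 := KAT.thm_C3 kat_Rw kat_Sg
theorem kat_C4 : KAT.St_C4 := KAT.thm_C4 kat_Rw kat_Sg
theorem kat_Ka : KAT.St_Ka := KAT.thm_Ka kat_Rw kat_Fr
theorem kat_Kt : KAT.St_Kt := KAT.thm_Kt kat_Rw kat_Sg
theorem kat_Kb : KAT.St_Kb := KAT.thm_Kb kat_Rw kat_Kt kat_B1 kat_B2 kat_B3 kat_B4
theorem kat_Co : KAT.St_Co := KAT.thm_Co kat_Ka kat_Kb kat_C1 kat_C2 kat_C3 kat_C4
theorem kat_Df : KAT.St_Df := KAT.thm_Df kat_Rw
theorem kat_E4 : KAT.St_E4 := KAT.thm_E4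
theorem kat_Qt : KAT.St_Qt := KAT.thm_Qt kat_Rw kat_Fr
theorem kat_GRO : KAT.St_GRO := KAT.thm_GRO kat_Rw kat_Fr kat_Co kat_Df kat_E4 kat_Qt

/-- the growth lemma -/
theorem all_GRO : St_GRO := kat_GRO

/-- **PR**: families of `t` nonzero elements of a finite abelian group of rank at most two, at most two of them equal to `± x` for each `x`,
with an aperiodic set of sums, have at least `1 + (t + 1) ^ 2 / 4` sums -/
theorem PR_all : ∀ t : ℕ, PR t := all_PR all_GRO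

/-- the hypothesis `PAG` of SNG for groups of rank at most two -/
theorem PAG_R2 (G : Type) [AddCommGroup G] [Finite G] (hG : R2 G) (ι : Type) (s : Finset ι) (f : ι → G)
    (h0 : ∀ i ∈ s, f i ≠ 0) (hc : SDG.Cap 2 s f) (ha : SDG.Aper (FS s f)) : SDG.cf 2 s.card ≤ (FS s f).card :=
  PR_all s.card G ι s f hG rfl h0 hc ha

end Pool.Agent.SSF
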