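import Pool.Agent.SSF.St

/-!
# SSF, [KSF]: sums of `k` different elements (adapted from SSE/KSE.lean)
-/

set_option autoImplicit false

noncomputable section

open Finset Pool.Agent.Helper64.Rho Pool.Agent.SDG Pool.Agent.MDR Pool.Agent.SSC Pool.Agent.SSE
open scoped Classical Pointwise

namespace Pool.Agent.SSF

section

variable {G : Type} [AddCommGroup G]

private theorem KSF_mem {k : ℕ} {A : Finset G} {z : G} :
    z ∈ ks k A ↔ ∃ U : Finset G, U ⊆ A ∧ U.card = k ∧ ∑ x ∈ U, x = z := by
  unfold ks
  rw [Finset.mem_image]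
  constructor
  · rintro ⟨U, hU, h⟩
    rw [Finset.mem_powersetCard] at hU
    exact ⟨U, hU.1, hU.2, h⟩
  · rintro ⟨U, h1, h2, h3⟩
    exact ⟨U, Finset.mem_powersetCard.2 ⟨h1, h2⟩, h3⟩

private theorem KSF_mono (k : ℕ) {A B : Finset G} (h : A ⊆ B) : ks k A ⊆ ks k B := by
  intro z hz
  rw [KSF_mem] at hz ⊢
  obtain ⟨U, h1, h2, h3⟩ := hz
  exact ⟨U, h1.trans h, h2, h3⟩

private theorem KSF_one (A : Finset G) : A.card ≤ (ks 1 A).card := by
  refine Finset.card_le_card fun a ha => ?_
  rw [KSF_mem]
  exact ⟨{a}, Finset.singleton_subset_iff.2 ha, Finset.card_singleton a, Finset.sum_singleton _ a⟩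

private theorem KSF_last (A : Finset G) (k : ℕ) (hk : k + 1 = A.card) :
    A.card ≤ (ks k A).card := by
  have h1 : (A.image fun a => ∑ x ∈ A, x - a) ⊆ ks k A := by
    intro z hz
    rw [Finset.mem_image] at hz
    obtain ⟨a, ha, rfl⟩ := hz
    rw [KSF_mem]
    refine ⟨A.erase a, Finset.erase_subset _ _, ?_, ?_⟩
    · rw [Finset.card_erase_of_mem ha]; omega
    · have := Finset.add_sum_erase A (fun x => x) ha
      rw [← this]
      abel
  have h2 : (A.image fun a => ∑ x ∈ A, x - a).card = A.card :=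
    Finset.card_image_of_injective _ sub_right_injective
  rw [← h2]
  exact Finset.card_le_card h1

/-- the exceptional sets -/
private def KSF_E (A : Finset G) : Prop :=
  ∃ (a0 : G) (L : AddSubgroup G), (∀ x ∈ L, x + x = 0) ∧ ∀ x : G, x ∈ A ↔ x - a0 ∈ L

private theorem KSF_ins {k : ℕ} {A B : Finset G} {b : G} (hb : b ∈ A) (hB : B ⊆ A)
    (hbB : b ∉ B) : ((ks k B).image fun z => b + z) ⊆ ks (k + 1) A := by
  intro z hz
  rw [Finset.mem_image] at hz
  obtain ⟨w, hw, rfl⟩ := hz
  rw [KSF_mem] at hw ⊢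
  obtain ⟨U, u1, u2, rfl⟩ := hw
  have hbU : b ∉ U := fun h => hbB (u1 h)
  refine ⟨insert b U, Finset.insert_subset hb (u1.trans hB), ?_, ?_⟩
  · rw [Finset.card_insert_of_notMem hbU, u2]
  · rw [Finset.sum_insert hbU]

/-- two cosets -/
private theorem KSF_two {A B : Finset G} (hBA : B ⊆ A) {a : G} {M : AddSubgroup G}
    (hB : ∀ x : G, x ∈ B ↔ x - a ∈ M) {b : G} (hb : b ∈ A) (hbB : b ∉ B) {j c : ℕ}
    (h1 : c ≤ (ks j B).card) (h2 : c ≤ (ks (j + 1) B).card) : 2 * c ≤ (ks (j + 1) A).card := by
  have hco : ∀ (i : ℕ) (z : G), z ∈ ks i B → z - i • a ∈ M := by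
    intro i z hz
    rw [KSF_mem] at hz
    obtain ⟨U, u1, u2, rfl⟩ := hz
    have h3 : ∑ x ∈ U, x - i • a = ∑ x ∈ U, (x - a) := by
      rw [Finset.sum_sub_distrib, Finset.sum_const, u2]
    rw [h3]
    exact AddSubgroup.sum_mem _ fun x hx => (hB x).1 (u1 hx)
  have hdis : Disjoint (ks (j + 1) B) ((ks j B).image fun z => b + z) := by
    rw [Finset.disjoint_left]
    intro z hz hz'
    rw [Finset.mem_image] at hz'
    obtain ⟨w, hw, rfl⟩ := hz'
    have h3 := hco _ _ hz
    have h4 := hco _ _ hw
    apply hbB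
    rw [hB]
    have h5 := M.sub_mem h3 h4
    have h6 : b + w - (j + 1) • a - (w - j • a) = b - a := by
      rw [succ_nsmul]
      abel
    rwa [h6] at h5
  have h3 := Finset.card_le_card (Finset.union_subset (KSF_mono (j + 1) hBA)
    (KSF_ins (k := j) hb hBA hbB))
  rw [Finset.card_union_of_disjoint hdis,
    Finset.card_image_of_injective _ (add_right_injective b)] at h3
  omega

/-- elements killed by two are sums of few elements -/
private theorem KSF_A [Finite G] (L : Finset G) (h0 : (0 : G) ∈ L)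
    (hsub : ∀ a ∈ L, ∀ b ∈ L, a - b ∈ L) (g : G) (hg : g ∈ L) (hg2 : g + g ≠ 0) (k : ℕ)
    (hk : 1 ≤ k) (hkL : 2 * k ≤ L.card) (m : G) (hm : m ∈ L) (hm2 : m + m = 0) :
    m ∈ ks k L := by
  have hneg : ∀ x ∈ L, -x ∈ L := fun x hx => by
    have := hsub 0 h0 x hx
    rwa [zero_sub] at this
  have hadd : ∀ a b, a ∈ L → b ∈ L → a + b ∈ L := fun a b ha hb => by
    have := hsub a ha (-b) (hneg b hb)
    rwa [sub_neg_eq_add] at this
  obtain ⟨φ, hφ⟩ : ∃ φ : G → ℕ, Function.Injective φ :=
    ⟨fun x => (Finite.equivFin G x : ℕ), fun a b hab =>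
      (Finite.equivFin G).injective (Fin.ext hab)⟩
  -- the two halves
  have hP : (L.filter fun x => φ x < φ (-x)).card = (L.filter fun x => φ (-x) < φ x).card := by
    refine Finset.card_bij (fun x _ => -x) ?_ ?_ ?_
    · intro x hx
      rw [Finset.mem_filter] at hx ⊢
      rw [neg_neg]
      exact ⟨hneg x hx.1, hx.2⟩
    · intro a _ b _ hab
      exact neg_injective hab
    · intro x hx
      rw [Finset.mem_filter] at hx
      refine ⟨-x, ?_, neg_neg x⟩
      rw [Finset.mem_filter, neg_neg]
      exact ⟨hneg x hx.1, hx.2⟩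
  have hQ : (L.filter fun x => x + x = 0).card ≤ (L.filter fun x => ¬ x + x = 0).card := by
    refine Finset.card_le_card_of_injOn (fun x => g + x) ?_ ?_
    · intro x hx
      rw [Finset.mem_coe, Finset.mem_filter] at hx ⊢
      refine ⟨hadd g x hg hx.1, fun h => hg2 ?_⟩
      have h1 : g + x + (g + x) = g + g + (x + x) := by abel
      rw [h1, hx.2, add_zero] at h
      exact h
    · intro a _ b _ hab
      exact add_left_cancel hab
  have hR : (L.filter fun x => ¬ x + x = 0).card ≤ (L.filter fun x => φ x < φ (-x)).card +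
      (L.filter fun x => φ (-x) < φ x).card := by
    refine (Finset.card_le_card ?_).trans (Finset.card_union_le _ _)
    intro x hx
    rw [Finset.mem_filter] at hx
    rw [Finset.mem_union, Finset.mem_filter, Finset.mem_filter]
    rcases Nat.lt_trichotomy (φ x) (φ (-x)) with h | h | h
    · exact Or.inl ⟨hx.1, h⟩
    · exfalso
      apply hx.2
      have h1 : x = -x := hφ h
      nth_rewrite 2 [h1]
      rw [add_neg_cancel]
    · exact Or.inr ⟨hx.1, h⟩
  have hS := Finset.card_filter_add_card_filter_not (s := L) (fun x => x + x = 0)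
  -- pairs
  have hpair : ∀ j : ℕ, 4 * j ≤ L.card → ∃ U : Finset G, U ⊆ L ∧ U.card = 2 * j ∧
      ∑ x ∈ U, x = 0 ∧ ∀ x ∈ U, ¬ x + x = 0 := by
    intro j hj
    obtain ⟨H, hH, hHc⟩ := Finset.exists_subset_card_eq
      (s := L.filter fun x => φ x < φ (-x)) (n := j) (by omega)
    have hH' : ∀ x ∈ H, x ∈ L ∧ φ x < φ (-x) := fun x hx => Finset.mem_filter.1 (hH hx)
    have hdis : Disjoint H (H.image fun x => -x) := by
      rw [Finset.disjoint_left]
      intro x hx hx'
      rw [Finset.mem_image] at hx'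
      obtain ⟨y, hy, rfl⟩ := hx'
      have h1 := (hH' _ hx).2
      have h2 := (hH' _ hy).2
      rw [neg_neg] at h1
      omega
    refine ⟨H ∪ H.image fun x => -x, ?_, ?_, ?_, ?_⟩
    · refine Finset.union_subset (fun x hx => (hH' x hx).1) fun x hx => ?_
      rw [Finset.mem_image] at hx
      obtain ⟨y, hy, rfl⟩ := hx
      exact hneg y (hH' y hy).1
    · rw [Finset.card_union_of_disjoint hdis, Finset.card_image_of_injective _ neg_injective,
        hHc]
      omega
    · rw [Finset.sum_union hdis, Finset.sum_image fun a _ b _ h => neg_injective h,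
        Finset.sum_neg_distrib, add_neg_cancel]
    · intro x hx h
      rw [Finset.mem_union, Finset.mem_image] at hx
      rcases hx with hx | ⟨y, hy, rfl⟩
      · have h1 := (hH' x hx).2
        rw [← eq_neg_of_add_eq_zero_left h] at h1
        omega
      · have h1 := (hH' y hy).2
        have h2 : y + y = 0 := by
          have h3 : -y + -y = -(y + y) := by abel
          rw [h3, neg_eq_zero] at h
          exact h
        rw [← eq_neg_of_add_eq_zero_left h2] at h1
        omega
  rw [KSF_mem]
  rcases Nat.even_or_odd' k with ⟨j, hj | hj⟩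
  · by_cases hm0 : m = 0
    · obtain ⟨U, u1, u2, u3, -⟩ := hpair j (by omega)
      exact ⟨U, u1, by omega, by rw [u3, hm0]⟩
    · obtain ⟨U, u1, u2, u3, u4⟩ := hpair (j - 1) (by omega)
      have hmU : m ∉ U := fun h => u4 m h hm2
      have h0U : (0 : G) ∉ insert m U := by
        rw [Finset.mem_insert]
        rintro (h | h)
        · exact hm0 h.symm
        · exact u4 0 h (add_zero 0)
      refine ⟨insert 0 (insert m U), ?_, ?_, ?_⟩
      · exact Finset.insert_subset h0 (Finset.insert_subset hm u1)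
      · rw [Finset.card_insert_of_notMem h0U, Finset.card_insert_of_notMem hmU, u2]
        omega
      · rw [Finset.sum_insert h0U, Finset.sum_insert hmU, u3, zero_add, add_zero]
  · obtain ⟨U, u1, u2, u3, u4⟩ := hpair j (by omega)
    have hmU : m ∉ U := fun h => u4 m h hm2
    refine ⟨insert m U, Finset.insert_subset hm u1, ?_, ?_⟩
    · rw [Finset.card_insert_of_notMem hmU, u2]
      omega
    · rw [Finset.sum_insert hmU, u3, add_zero]

/-- complements -/
private theorem KSF_compl (L : Finset G) (k : ℕ) (hk : k ≤ L.card) (z : G)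
    (hz : z ∈ ks (L.card - k) L) : ∑ x ∈ L, x - z ∈ ks k L := by
  rw [KSF_mem] at hz ⊢
  obtain ⟨U, u1, u2, rfl⟩ := hz
  refine ⟨L \ U, Finset.sdiff_subset, ?_, ?_⟩
  · rw [Finset.card_sdiff_of_subset u1, u2]
    omega
  · rw [eq_sub_iff_add_eq, Finset.sum_sdiff u1]

/-- subgroups -/
private theorem KSF_sub [Finite G] (L : Finset G) (h0 : (0 : G) ∈ L)
    (hsub : ∀ a ∈ L, ∀ b ∈ L, a - b ∈ L) (k : ℕ) (hk1 : 1 ≤ k) (hk : k + 1 ≤ L.card)
    (hW : L.card ≤ (ks k L).card + 1) : ks k L = L ∨ ∀ x ∈ L, x + x = 0 := by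
  have hneg : ∀ x ∈ L, -x ∈ L := fun x hx => by
    have := hsub 0 h0 x hx
    rwa [zero_sub] at this
  have hadd : ∀ a b, a ∈ L → b ∈ L → a + b ∈ L := fun a b ha hb => by
    have := hsub a ha (-b) (hneg b hb)
    rwa [sub_neg_eq_add] at this
  have hle : ∀ i, ks i L ⊆ L := by
    intro i z hz
    rw [KSF_mem] at hz
    obtain ⟨U, h1, -, rfl⟩ := hz
    exact Finset.sum_induction _ (fun z => z ∈ L) hadd h0 fun x hx => h1 hx
  have hsy : ∀ i z, z ∈ ks i L → -z ∈ ks i L := by
    intro i z hz
    rw [KSF_mem] at hz ⊢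
    obtain ⟨U, u1, u2, rfl⟩ := hz
    refine ⟨U.image fun x => -x, ?_, ?_, ?_⟩
    · intro x hx
      rw [Finset.mem_image] at hx
      obtain ⟨y, hy, rfl⟩ := hx
      exact hneg y (u1 hy)
    · rw [Finset.card_image_of_injective _ neg_injective, u2]
    · rw [Finset.sum_image fun a _ b _ h => neg_injective h, Finset.sum_neg_distrib]
  by_contra hcon
  push Not at hcon
  obtain ⟨hne, g, hg, hg2⟩ := hcon
  have h1 : ∃ m ∈ L, m ∉ ks k L := by
    by_contra h
    push Not at h
    exact hne (Finset.Subset.antisymm (hle k) h)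
  obtain ⟨m, hm, hm2⟩ := h1
  -- the missing element is unique
  have huni : ∀ m' ∈ L, m' ∉ ks k L → m' = m := by
    intro m' hm' hm'2
    by_contra hmm
    have h5 : ({m', m} : Finset G) ⊆ L \ ks k L := by
      intro y hy
      rw [Finset.mem_insert, Finset.mem_singleton] at hy
      rw [Finset.mem_sdiff]
      rcases hy with rfl | rfl
      · exact ⟨hm', hm'2⟩
      · exact ⟨hm, hm2⟩
    have h6 := Finset.card_le_card h5
    rw [Finset.card_pair hmm, Finset.card_sdiff_of_subset (hle k)] at h6
    omega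
  rcases Nat.lt_or_ge L.card (2 * k) with hk2 | hk2
  · -- the complement
    have hSg : ∑ x ∈ L, x ∈ L :=
      Finset.sum_induction _ (fun z => z ∈ L) hadd h0 fun x hx => hx
    have hc1 : ∑ x ∈ L, x - m ∉ ks (L.card - k) L := by
      intro h
      have h2 := KSF_compl L k (by omega) _ h
      rw [sub_sub_cancel] at h2
      exact hm2 h2
    have hc2 : -(∑ x ∈ L, x - m) ∉ ks (L.card - k) L := by
      intro h
      have h2 := hsy _ _ h
      rw [neg_neg] at h2
      exact hc1 h2
    have hc3 : ∑ x ∈ L, x + (∑ x ∈ L, x - m) ∉ ks k L := by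
      intro h
      apply hc2
      have h2 := KSF_compl L (L.card - k) (by omega) (∑ x ∈ L, x + (∑ x ∈ L, x - m)) (by
        have e : L.card - (L.card - k) = k := by omega
        rw [e]
        exact h)
      have e2 : ∑ x ∈ L, x - (∑ x ∈ L, x + (∑ x ∈ L, x - m)) = -(∑ x ∈ L, x - m) := by abel
      rwa [e2] at h2
    have hc4 := huni _ (hadd _ _ hSg (hsub _ hSg _ hm)) hc3
    have hc5 : (∑ x ∈ L, x - m) + (∑ x ∈ L, x - m) = 0 := by
      have e3 : (∑ x ∈ L, x - m) + (∑ x ∈ L, x - m) =
          (∑ x ∈ L, x + (∑ x ∈ L, x - m)) - m := by abel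
      rw [e3, hc4, sub_self]
    exact hc1 (KSF_A L h0 hsub g hg hg2 (L.card - k) (by omega) (by omega) _
      (hsub _ hSg _ hm) hc5)
  · have hm3 : -m ∉ ks k L := by
      intro h
      have h2 := hsy _ _ h
      rw [neg_neg] at h2
      exact hm2 h2
    have hm4 := huni _ (hneg m hm) hm3
    have hm5 : m + m = 0 := by
      nth_rewrite 1 [← hm4]
      rw [neg_add_cancel]
    exact hm2 (KSF_A L h0 hsub g hg hg2 k hk1 hk2 m hm hm5)

/-- double counting of the differences -/
private theorem KSF_count (Q D : Finset G) (c : ℕ) (h0 : (0 : G) ∈ D)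
    (h : ∀ d ∈ D, d ≠ 0 → c ≤ (Q.filter fun q => q + d ∈ Q).card) :
    Q.card + (D.card - 1) * c ≤ Q.card * Q.card := by
  have h1 : ∑ d ∈ D, (Q.filter fun q => q + d ∈ Q).card ≤ Q.card * Q.card := by
    have e1 : ∀ d, (Q.filter fun q => q + d ∈ Q).card = ∑ q ∈ Q, if q + d ∈ Q then 1 else 0 :=
      fun d => Finset.card_filter _ _
    rw [Finset.sum_congr rfl fun d _ => e1 d, Finset.sum_comm]
    refine (Finset.sum_le_card_nsmul Q _ Q.card fun q _ => ?_).trans (le_of_eq (by simp))
    rw [← Finset.card_filter]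
    refine Finset.card_le_card_of_injOn (fun d => q + d) ?_ ?_
    · intro d hd
      rw [Finset.mem_coe, Finset.mem_filter] at hd
      exact hd.2
    · intro a _ b _ hab
      exact add_left_cancel hab
  have h2 : Q.card + (D.card - 1) * c ≤ ∑ d ∈ D, (Q.filter fun q => q + d ∈ Q).card := by
    rw [← Finset.add_sum_erase D _ h0]
    refine Nat.add_le_add ?_ ?_
    · refine le_of_eq ?_
      congr 1
      rw [Finset.filter_true_of_mem]
      intro q hq
      rwa [add_zero]
    · rw [← Finset.card_erase_of_mem h0]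
      have := Finset.card_nsmul_le_sum (D.erase 0) (fun d => (Q.filter fun q => q + d ∈ Q).card) c
        (fun d hd => h d (Finset.mem_of_mem_erase hd) (Finset.ne_of_mem_erase hd))
      simpa only [smul_eq_mul] using this
  exact h2.trans h1

/-- exceptional sets do not have three elements -/
private theorem KSF_three [Finite G] (B : Finset G) (hB : KSF_E B) : B.card ≠ 3 := by
  intro h3
  obtain ⟨a, M, hM, hBM⟩ := hB
  haveI : Fintype M := Fintype.ofFinite M
  have h1 : Nat.card M = 3 := by
    rw [← h3]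
    have e : B = (Finset.univ : Finset M).map ⟨fun m : M => (m : G) + a, fun m m' h =>
        Subtype.ext (add_right_cancel (b := a) h)⟩ := by
      ext x
      rw [hBM, Finset.mem_map]
      constructor
      · intro hx
        exact ⟨⟨x - a, hx⟩, Finset.mem_univ _, sub_add_cancel x a⟩
      · rintro ⟨m, -, rfl⟩
        show (m : G) + a - a ∈ M
        rw [add_sub_cancel_right]
        exact m.2
    rw [e, Finset.card_map, Finset.card_univ, Nat.card_eq_fintype_card]
  have h2 : ∀ c : M, c = 0 := by
    intro c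
    have e1 : Nat.card M • c = 0 := card_nsmul_eq_zero'
    rw [h1] at e1
    have e2 : (c : G) + c = 0 := hM c c.2
    have e3 : (3 : ℕ) • (c : G) = 0 := by
      have := congrArg (fun z : M => (z : G)) e1
      simpa using this
    have e4 : (3 : ℕ) • (c : G) = (c : G) + c + c := by
      rw [succ_nsmul, two_nsmul]
    rw [e4, e2, zero_add] at e3
    exact Subtype.ext e3
  have h4 : Subsingleton M := ⟨fun x y => by rw [h2 x, h2 y]⟩
  have h5 := Finite.card_le_one_iff_subsingleton.2 h4
  omega

private theorem KSF_main [Finite G] : ∀ n : ℕ, ∀ A : Finset G, A.card = n → ∀ k : ℕ, 1 ≤ k →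
    k + 1 ≤ n → n ≤ (ks k A).card + 1 ∧ (n ≤ (ks k A).card ∨ KSF_E A) := by
  intro n
  induction n using Nat.strong_induction_on with
  | _ n ih =>
  intro A hA k hk hkn
  rcases Nat.lt_or_ge 1 k with hk1 | hk1
  swap
  · have : k = 1 := le_antisymm hk1 hk
    have h1 := KSF_one A
    rw [this, ← hA]
    exact ⟨h1.trans (Nat.le_succ _), Or.inl h1⟩
  rcases Nat.lt_or_ge (k + 1) n with hkn1 | hkn1
  swap
  · have h1 := KSF_last A k (by omega)
    rw [← hA]
    exact ⟨h1.trans (Nat.le_succ _), Or.inl h1⟩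
  have hers : ∀ (B : Finset G), B.card = n → n ≤ (ks k B).card + 1 := by
    intro B hB
    have hne : B.Nonempty := Finset.card_pos.1 (by omega)
    obtain ⟨b, hb⟩ := hne
    have hc : (B.erase b).card = n - 1 := by rw [Finset.card_erase_of_mem hb, hB]
    have h1 := ih (n - 1) (by omega) (B.erase b) hc k hk (by omega)
    rcases h1.2 with h2 | ⟨a, M, hM, hBM⟩
    · have h3 := Finset.card_le_card (KSF_mono k (Finset.erase_subset b B))
      omega
    · have h3 := (ih (n - 1) (by omega) (B.erase b) hc (k - 1) (by omega) (by omega)).1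
      have hk' : k - 1 + 1 = k := by omega
      have h4 := KSF_two (Finset.erase_subset b B) hBM hb (Finset.notMem_erase b B)
        (j := k - 1) (c := n - 2) (by omega) (by rw [hk']; omega)
      rw [hk'] at h4
      omega
  refine ⟨hers A hA, ?_⟩
  by_contra hcon
  push Not at hcon
  obtain ⟨hlt, hE⟩ := hcon
  have hQ : (ks k A).card = n - 1 := by
    have := hers A hA
    omega
  have hpair : ∀ x ∈ A, ∀ y ∈ A, x ≠ y →
      n - 2 ≤ ((ks k A).filter fun q => q + (x - y) ∈ ks k A).card := by
    intro x hx y hy hxy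
    have hy' : y ∈ A.erase x := Finset.mem_erase.2 ⟨hxy.symm, hy⟩
    have hBc : ((A.erase x).erase y).card = n - 2 := by
      rw [Finset.card_erase_of_mem hy', Finset.card_erase_of_mem hx, hA]; omega
    have h1 : n - 2 ≤ (ks (k - 1) ((A.erase x).erase y)).card := by
      have h2 := ih (n - 2) (by omega) ((A.erase x).erase y) hBc (k - 1) (by omega) (by omega)
      rcases h2.2 with h3 | h3
      · exact h3
      · by_cases hk2 : k = 2
        · have h4 := KSF_one ((A.erase x).erase y)
          have e : k - 1 = 1 := by omega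
          rw [e, ← hBc]
          exact h4
        · exfalso
          have hn5 := KSF_three _ h3
          obtain ⟨a, M, hM, hBM⟩ := h3
          have hw : ∀ j, 1 ≤ j → j + 1 ≤ n - 2 → n - 3 ≤ (ks j ((A.erase x).erase y)).card := by
            intro j hj hj'
            have h4 := (ih (n - 2) (by omega) ((A.erase x).erase y) hBc j hj hj').1
            omega
          rcases Nat.lt_or_ge k (n - 2) with h4 | h4
          · have hk' : k - 1 + 1 = k := by omega
            have h5 := KSF_two ((Finset.erase_subset y _).trans (Finset.erase_subset x A)) hBM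
              hx (fun h => Finset.notMem_erase x A (Finset.mem_of_mem_erase h)) (j := k - 1)
              (c := n - 3) (hw _ (by omega) (by omega)) (by rw [hk']; exact hw _ hk (by omega))
            rw [hk'] at h5
            omega
          · have hk' : k - 2 + 1 = k - 1 := by omega
            have hk'' : k - 1 + 1 = k := by omega
            have h5 := KSF_two (Finset.erase_subset y (A.erase x)) hBM
              hy' (Finset.notMem_erase y _) (j := k - 2)
              (c := n - 3) (hw _ (by omega) (by omega)) (by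
                rw [hk']
                exact hw _ (by omega) (by omega))
            have h6 := Finset.card_le_card (KSF_ins (k := k - 1) hx (Finset.erase_subset x A)
              (Finset.notMem_erase x A))
            rw [Finset.card_image_of_injective _ (add_right_injective x), hk''] at h6
            rw [hk'] at h5
            omega
    have hins : ∀ z ∈ A, (z = x ∨ z = y) → ∀ r ∈ ks (k - 1) ((A.erase x).erase y),
        z + r ∈ ks k A := by
      intro z hz hzxy r hr
      rw [KSF_mem] at hr ⊢
      obtain ⟨U, u1, u2, rfl⟩ := hr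
      have hzU : z ∉ U := by
        intro h
        have h2 := u1 h
        rw [Finset.mem_erase, Finset.mem_erase] at h2
        rcases hzxy with h3 | h3
        · exact h2.2.1 h3
        · exact h2.1 h3
      refine ⟨insert z U, ?_, ?_, ?_⟩
      · refine Finset.insert_subset hz ?_
        exact u1.trans ((Finset.erase_subset _ _).trans (Finset.erase_subset _ _))
      · rw [Finset.card_insert_of_notMem hzU, u2]; omega
      · rw [Finset.sum_insert hzU]
    have h2 : ((ks (k - 1) ((A.erase x).erase y)).image fun r => y + r) ⊆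
        (ks k A).filter fun q => q + (x - y) ∈ ks k A := by
      intro q hq
      rw [Finset.mem_image] at hq
      obtain ⟨r, hr, rfl⟩ := hq
      rw [Finset.mem_filter]
      refine ⟨hins y hy (Or.inr rfl) r hr, ?_⟩
      have e : y + r + (x - y) = x + r := by abel
      rw [e]
      exact hins x hx (Or.inl rfl) r hr
    have h3 := Finset.card_le_card h2
    rw [Finset.card_image_of_injective _ (add_right_injective y)] at h3
    exact h1.trans h3
  obtain ⟨D, hD⟩ : ∃ D : Finset G, D = (A ×ˢ A).image fun p => p.1 - p.2 := ⟨_, rfl⟩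
  have hDmem : ∀ d, d ∈ D ↔ ∃ a ∈ A, ∃ b ∈ A, d = a - b := by
    intro d
    rw [hD, Finset.mem_image]
    constructor
    · rintro ⟨⟨a, b⟩, hp, h⟩
      rw [Finset.mem_product] at hp
      exact ⟨a, hp.1, b, hp.2, h.symm⟩
    · rintro ⟨a, ha, b, hb, h⟩
      exact ⟨(a, b), Finset.mem_product.2 ⟨ha, hb⟩, h.symm⟩
  obtain ⟨a0, ha0⟩ : A.Nonempty := Finset.card_pos.1 (by omega)
  have h0D : (0 : G) ∈ D := (hDmem 0).2 ⟨a0, ha0, a0, ha0, (sub_self a0).symm⟩
  have hcount := KSF_count (ks k A) D (n - 2) h0D (by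
    intro d hd hd0
    obtain ⟨a, ha, b, hb, rfl⟩ := (hDmem d).1 hd
    refine hpair a ha b hb ?_
    rintro rfl
    exact hd0 (sub_self a))
  have hDcard : D.card ≤ n := by
    rw [hQ] at hcount
    by_contra h
    push Not at h
    obtain ⟨e, he⟩ : ∃ e, n = e + 3 := ⟨n - 3, by omega⟩
    obtain ⟨f, hf⟩ : ∃ f, D.card = n + 1 + f := ⟨D.card - (n + 1), by omega⟩
    rw [hf, he] at hcount
    have e1 : e + 3 - 1 = e + 2 := rfl
    have e2 : e + 3 - 2 = e + 1 := rfl
    have e3 : e + 3 + 1 + f - 1 = e + 3 + f := by omega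
    rw [e1, e2, e3] at hcount
    nlinarith
  obtain ⟨L, hL⟩ : ∃ L : Finset G, L = A.image fun a => a - a0 := ⟨_, rfl⟩
  have hLcard : L.card = n := by
    rw [hL, Finset.card_image_of_injective _ (sub_left_injective), hA]
  have hLD : L = D := by
    refine Finset.eq_of_subset_of_card_le ?_ (by omega)
    intro z hz
    rw [hL, Finset.mem_image] at hz
    obtain ⟨a, ha, rfl⟩ := hz
    exact (hDmem _).2 ⟨a, ha, a0, ha0, rfl⟩
  have hLsub : ∀ a ∈ L, ∀ b ∈ L, a - b ∈ L := by
    intro a ha b hb
    rw [hL, Finset.mem_image] at ha hb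
    obtain ⟨a', ha', rfl⟩ := ha
    obtain ⟨b', hb', rfl⟩ := hb
    rw [hLD, hDmem]
    exact ⟨a', ha', b', hb', by abel⟩
  have h0L : (0 : G) ∈ L := by rw [hLD]; exact h0D
  rcases KSF_sub L h0L hLsub k (by omega) (by omega) (by
    rw [hLcard]; exact hers L hLcard) with hksL | hksL
  swap
  · have hneg : ∀ x ∈ L, -x ∈ L := fun x hx => by
      have := hLsub 0 h0L x hx
      rwa [zero_sub] at this
    have hadd : ∀ a b, a ∈ L → b ∈ L → a + b ∈ L := fun a b ha hb => by
      have := hLsub a ha (-b) (hneg b hb)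
      rwa [sub_neg_eq_add] at this
    obtain ⟨M, hM⟩ : ∃ M : AddSubgroup G, ∀ x, x ∈ M ↔ x ∈ L :=
      ⟨{ carrier := {x | x ∈ L}
         zero_mem' := h0L
         add_mem' := fun {a b} ha hb => hadd a b ha hb
         neg_mem' := fun {x} hx => hneg x hx }, fun x => Iff.rfl⟩
    refine hE ⟨a0, M, fun x hx => hksL x ((hM x).1 hx), fun x => ⟨fun hx => (hM _).2 ?_,
      fun hx => ?_⟩⟩
    · rw [hL, Finset.mem_image]
      exact ⟨x, hx, rfl⟩
    · have hx' : x - a0 ∈ L := (hM _).1 hx
      rw [hL, Finset.mem_image] at hx'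
      obtain ⟨a, ha, h⟩ := hx'
      have h2 : a = x := sub_left_injective h
      rw [← h2]
      exact ha
  have himg : (ks k L).image (fun w => k • a0 + w) ⊆ ks k A := by
    intro z hz
    rw [Finset.mem_image] at hz
    obtain ⟨w, hw, rfl⟩ := hz
    rw [KSF_mem] at hw ⊢
    obtain ⟨U, u1, u2, rfl⟩ := hw
    refine ⟨U.image fun x => a0 + x, ?_, ?_, ?_⟩
    · intro y hy
      rw [Finset.mem_image] at hy
      obtain ⟨x, hx, rfl⟩ := hy
      have h1 := u1 hx
      rw [hL, Finset.mem_image] at h1
      obtain ⟨a, ha, rfl⟩ := h1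
      rw [add_sub_cancel]
      exact ha
    · rw [Finset.card_image_of_injective _ (add_right_injective a0), u2]
    · rw [Finset.sum_image fun a _ b _ h => add_right_injective a0 h, Finset.sum_add_distrib,
        Finset.sum_const, u2]
  have h1 := Finset.card_le_card himg
  rw [Finset.card_image_of_injective _ (add_right_injective (k • a0)), hksL, hLcard] at h1
  omega

end

theorem thm_KSF : St_KSF := by
  intro G _ _ A k hk hkA
  exact (KSF_main A.card A rfl k hk hkA).2

end Pool.Agent.SSF
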