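import Mathlib
import Pool.Agent.SSF.St

/-!
# SSF, A2W: averaging contradiction, growth with one element less from the third step on
-/

set_option autoImplicit false

noncomputable section

open Finset Pool.Agent.Helper64.Rho Pool.Agent.SDG Pool.Agent.MDR Pool.Agent.SSC Pool.Agent.SSE
open scoped Classical Pointwise

namespace Pool.Agent.SSF

private lemma A2W_sum (K h : ℕ) (g : ℕ → ℕ) (h0 : 1 ≤ g 0) (h1 : K ≤ g 1 + 1)
    (h2 : 2 * K ≤ g 2 + 2) (hh : 2 ≤ h) (h3 : ∀ i, 3 ≤ i → i ≤ h → i * K ≤ g i + 1) :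
    K * h * (h + 1) ≤ 2 * ∑ i ∈ range (h + 1), g i + 2 * h := by
  induction h, hh using Nat.le_induction with
  | base =>
    rw [sum_range_succ, sum_range_succ, sum_range_succ, sum_range_zero]
    have e : K * 2 * (2 + 1) = 6 * K := by ring
    rw [e]
    omega
  | succ n hn ih =>
    rw [sum_range_succ]
    have h4 := ih (fun i hi hi2 => h3 i hi (by omega))
    have h5 := h3 (n + 1) (by omega) le_rfl
    have e : K * (n + 1) * (n + 1 + 1) = K * n * (n + 1) + 2 * ((n + 1) * K) := by ring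
    rw [e]
    omega

private lemma A2W_p1 (z : ℤ) (hz : 3 ≤ z) : 0 < 12 * z - 18 := by linarith

private lemma A2W_p2 (z : ℤ) (hz : 2 ≤ z) : 0 < 2 * z ^ 2 + 6 * z - 12 := by nlinarith

theorem thm_A2W : MDR.St_Av0 → St_A2W := by
  intro hAv G _ _ X D l h0 hl hlam hX hD hg
  obtain ⟨j, rfl⟩ : ∃ j, l = j + 1 := ⟨l - 1, by omega⟩
  have hlam' : ∀ y ∈ D, lam X y ≤ j := fun y hy => by have := hlam y hy; omega
  have hj4 : 4 ≤ j := by omega
  generalize hx : X.card = x at *
  have ha0 : 1 ≤ (it D 0).card := by simp [it]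
  have ha1 : 2 * j + 4 ≤ (it D 1).card + 1 := by
    have e : it D 1 = D := by
      show {0} + D = D
      rw [Finset.singleton_zero, zero_add]
    rw [e, hD]
    omega
  have ha2 : 2 * (2 * j + 4) ≤ (it D 2).card + 2 := by
    rcases hg 2 (by omega) with h | h | h
    · have : 4 * (j + 1) ≤ (j + 1) * (j + 1) := by nlinarith
      nlinarith
    · omega
    · omega
  obtain ⟨h, r, hm, hr⟩ : ∃ h r, j + 1 = 2 * h + r ∧ r < 2 :=
    ⟨(j + 1) / 2, (j + 1) % 2, by omega, by omega⟩
  have hh : 2 ≤ h := by omega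
  have hai : ∀ i, 3 ≤ i → (j + 1) * (j + 1) + 2 * (j + 1) ≤ (it D i).card + 4 ∨
      i * (2 * j + 4) ≤ (it D i).card + 1 := by
    intro i hi
    rcases hg i (by omega) with h | h | h
    · exact Or.inl h
    · right
      have e : i * (2 * (j + 1) + 2) = i * (2 * j + 4) := by ring
      rw [e] at h
      exact h
    · omega
  have hS := A2W_sum (2 * j + 4) h (fun i => (it D i).card) ha0 ha1 ha2 hh (fun i hi hi2 => by
    rcases hai i hi with h1 | h1
    · have h2 : i * (2 * j + 4) ≤ h * (2 * j + 4) := Nat.mul_le_mul_right _ hi2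
      have h3 : h * (2 * j + 4) + 3 ≤ (j + 1) * (j + 1) + 2 * (j + 1) := by
        rw [hm]
        have e : h * (2 * j + 4) = h * (2 * (j + 1) + 2) := by ring
        rw [e, hm]
        interval_cases r
        · have : 3 ≤ h := by omega
          nlinarith
        · nlinarith
      show i * (2 * j + 4) ≤ (it D i).card + 1
      omega
    · exact h1)
  have htop : (j + 1) * (j + 1) + 2 * (j + 1) ≤ (it D (h + 1)).card + 4 := by
    rcases hai (h + 1) (by omega) with h1 | h1
    · exact h1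
    · have h3 : (j + 1) * (j + 1) + 2 * (j + 1) ≤ (h + 1) * (2 * j + 4) + 3 := by
        have e : (h + 1) * (2 * j + 4) = (h + 1) * (2 * (j + 1) + 2) := by ring
        rw [e, hm]
        interval_cases r
        · nlinarith
        · nlinarith
      omega
  have hXz : (2 * (x : ℤ)) = 2 + ((j : ℤ) + 1) * (j + 2) := by exact_mod_cast hX
  have hmz : (j : ℤ) + 1 = 2 * h + r := by exact_mod_cast hm
  have hhz : (2 : ℤ) ≤ h := by exact_mod_cast hh
  have hjx : (h + 1) * j ≤ x := by
    have : ((h : ℤ) + 1) * j ≤ x := by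
      have ej : (j : ℤ) = 2 * h + r - 1 := by linarith
      rw [ej] at hXz ⊢
      interval_cases r
      · push_cast at hXz ⊢
        nlinarith
      · push_cast at hXz ⊢
        nlinarith
    exact_mod_cast this
  have hfin := hAv G X D j (h + 1) h0 hlam' (by rw [hx]; exact hjx)
  rw [hx] at hfin
  obtain ⟨c, hc⟩ : ∃ c, x = (h + 1) * j + c := ⟨x - (h + 1) * j, by omega⟩
  have hc' : x - (h + 1) * j = c := by omega
  rw [hc'] at hfin
  have h10 : c * ((j + 1) * (j + 1) + 2 * (j + 1)) ≤ c * ((it D (h + 1)).card + 4) :=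
    Nat.mul_le_mul_left _ htop
  have h11 : j * ((2 * j + 4) * h * (h + 1)) ≤ j * (2 * ∑ i ∈ range (h + 1), (it D i).card + 2 * h) :=
    Nat.mul_le_mul_left _ hS
  have h12 : (j : ℤ) * ((2 * j + 4) * h * (h + 1)) + 2 * (c * ((j + 1) * (j + 1) + 2 * (j + 1))) ≤
      2 * (x : ℤ) ^ 2 + 2 * (j * h) + 8 * c := by
    have h13 : j * ((2 * j + 4) * h * (h + 1)) + 2 * (c * ((j + 1) * (j + 1) + 2 * (j + 1))) ≤
      2 * x ^ 2 + 2 * (j * h) + 8 * c := by
      have e1 : j * (2 * ∑ i ∈ range (h + 1), (it D i).card + 2 * h) =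
        2 * (j * ∑ i ∈ range (h + 1), (it D i).card) + 2 * (j * h) := by ring
      have e2 : c * ((it D (h + 1)).card + 4) = c * (it D (h + 1)).card + 4 * c := by ring
      rw [e1] at h11
      rw [e2] at h10
      omega
    exact_mod_cast h13
  have hcz : (c : ℤ) = x - (h + 1) * j := by
    have : (x : ℤ) = ((h : ℤ) + 1) * j + c := by exact_mod_cast hc
    linarith
  rw [hcz] at h12
  interval_cases r
  · have e1 : (j : ℤ) = 2 * h - 1 := by push_cast at hmz; linarith
    have e2 : (x : ℤ) = 2 * h * h + h + 1 := by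
      have : 2 * (x : ℤ) = 2 * (2 * h * h + h + 1) := by rw [hXz, e1]; ring
      linarith
    have hh3 : (3 : ℤ) ≤ h := by
      have : 3 ≤ h := by omega
      exact_mod_cast this
    rw [e1, e2] at h12
    have key : (2 * (h : ℤ) - 1) * ((2 * (2 * h - 1) + 4) * h * (h + 1)) +
        2 * ((2 * h * h + h + 1 - (h + 1) * (2 * h - 1)) *
          ((2 * h - 1 + 1) * (2 * h - 1 + 1) + 2 * (2 * h - 1 + 1))) -
        (2 * (2 * h * h + h + 1) ^ 2 + 2 * ((2 * h - 1) * h) +
          8 * (2 * h * h + h + 1 - (h + 1) * (2 * h - 1))) = 12 * h - 18 := by ring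
    have hpos := A2W_p1 (h : ℤ) hh3
    linarith
  · have e1 : (j : ℤ) = 2 * h := by push_cast at hmz; linarith
    have e2 : (x : ℤ) = 2 * h * h + 3 * h + 2 := by
      have : 2 * (x : ℤ) = 2 * (2 * h * h + 3 * h + 2) := by rw [hXz, e1]; ring
      linarith
    rw [e1, e2] at h12
    have key : (2 * (h : ℤ)) * ((2 * (2 * h) + 4) * h * (h + 1)) +
        2 * ((2 * h * h + 3 * h + 2 - (h + 1) * (2 * h)) *
          ((2 * h + 1) * (2 * h + 1) + 2 * (2 * h + 1))) -
        (2 * (2 * h * h + 3 * h + 2) ^ 2 + 2 * ((2 * h) * h) +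
          8 * (2 * h * h + 3 * h + 2 - (h + 1) * (2 * h))) = 2 * h ^ 2 + 6 * h - 12 := by ring
    have hpos := A2W_p2 (h : ℤ) hhz
    linarith

end Pool.Agent.SSF
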