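import Pool.Agent.SSF.St
import Pool.Agent.SSE.BoE

/-!
# SSF, module `BoF`: four members in any finite group

As in `SSE.BoE`: `2 |FS| + #{(I, J) : equal sums} ≥ 48`, the pairs are sorted by their symmetric difference `T`.  For
`|T| = 3` there are at most `4` of them, for `|T| = 4` at most `8`, and at most `6` if some triple has a relation.
-/

set_option autoImplicit false

noncomputable section

open Finset Pool.Agent.Helper64.Rho Pool.Agent.SDG Pool.Agent.MDR Pool.Agent.SSC Pool.Agent.SSE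
open scoped Classical Pointwise

namespace Pool.Agent.SSF

/-- at most four relations with four signs (up to a global sign) -/
private theorem BoF_N8 {G ι : Type} [AddCommGroup G] {s : Finset ι}
    {f : ι → G} (h : AE s f) (hs : s.card = 4) : (BoN s s f).card ≤ 8 := by
  rcases (BoN s s f).eq_empty_or_nonempty with h0 | ⟨I, hI⟩
  · rw [h0, card_empty]
    omega
  set D : Finset ι → Finset ι := fun J => s.filter (fun j => ¬ (j ∈ I ↔ j ∈ J)) with hD
  have hinj : (BoN s s f).card = ((BoN s s f).image D).card := by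
    refine (card_image_of_injOn ?_).symm
    intro J hJ J' hJ' hJJ
    have m1 := mem_powerset.1 (mem_filter.1 (mem_coe.1 hJ)).1
    have m2 := mem_powerset.1 (mem_filter.1 (mem_coe.1 hJ')).1
    ext x
    have h1 : x ∈ D J ↔ x ∈ D J' := by rw [show D J = D J' from hJJ]
    simp only [hD, mem_filter] at h1
    constructor
    · intro hx
      have hxs := m1 hx
      by_contra hx'
      tauto
    · intro hx
      have hxs := m2 hx
      by_contra hx'
      tauto
  have hsgn : ∀ j, BoPM (if j ∈ I then f j else - f j) (f j) := fun j => Bo_sgn I f j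
  have hDs : ∀ J, D J ⊆ s := fun J => filter_subset _ _
  have hsub : (BoN s s f).image D ⊆ {∅, s} ∪ powersetCard 2 s := by
    intro A hA
    obtain ⟨J, hJ, rfl⟩ := mem_image.1 hA
    obtain ⟨d1, d2⟩ := BoE_dbl hI hJ
    have hcard := Finset.card_filter_add_card_filter_not (s := s) (fun j => j ∈ I ↔ j ∈ J)
    have n1 : (s.filter (fun j => j ∈ I ↔ j ∈ J)).card ≠ 1 := fun hc =>
      BoE_one h (filter_subset _ _) hsgn hc d1
    have n2 : (D J).card ≠ 1 := fun hc => BoE_one h (filter_subset _ _) hsgn hc d2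
    have hc : (D J).card = 0 ∨ (D J).card = 4 ∨ (D J).card = 2 := by
      simp only [hD]
      simp only [hD] at n2
      omega
    rw [mem_union, mem_insert, mem_singleton, mem_powersetCard]
    rcases hc with hc | hc | hc
    · exact Or.inl (Or.inl (card_eq_zero.1 hc))
    · exact Or.inl (Or.inr (Finset.eq_of_subset_of_card_le (hDs J) (by omega)))
    · exact Or.inr ⟨hDs J, hc⟩
  rw [hinj]
  refine (card_le_card hsub).trans ((card_union_le _ _).trans ?_)
  have h2 := card_le_two (a := (∅ : Finset ι)) (b := s)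
  have h6 : (powersetCard 2 s).card = 6 := by
    rw [card_powersetCard, hs]
    rfl
  omega

/-- the count -/
private theorem BoF_sum {G ι : Type} [AddCommGroup G] {s : Finset ι} {f : ι → G} (h : AE s f)
    (hs : s.card = 4) :
    32 ≤ 2 * (FS s f).card + (4 * ((BoW s f).erase s).card + (BoN s s f).card) := by
  have hFS : FS s f = s.powerset.image fun I => ∑ j ∈ I, f j := by
    ext x
    rw [mem_FS, mem_image]
    constructor
    · rintro ⟨t, ht, hx⟩
      exact ⟨t, mem_powerset.2 ht, hx⟩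
    · rintro ⟨t, ht, hx⟩
      exact ⟨t, mem_powerset.1 ht, hx⟩
  have h1 := Bo_count s.powerset (fun I => ∑ j ∈ I, f j)
  rw [← hFS, card_powerset, hs] at h1
  have h3 := Bo_pairs s f
  have h4 : ∑ T ∈ s.powerset, (BoN s T f).card ≤
      16 + (4 * ((BoW s f).erase s).card + (BoN s s f).card) := by
    rw [← Finset.add_sum_erase _ _ (empty_mem_powerset s)]
    refine add_le_add ?_ ?_
    · refine (card_filter_le _ _).trans ?_
      rw [card_powerset, hs]
      norm_num
    · rw [← Finset.sum_filter_add_sum_filter_not _ (fun T => (BoN s T f).Nonempty)]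
      have h5 : ∑ T ∈ (s.powerset.erase ∅).filter (fun T => ¬ (BoN s T f).Nonempty),
          (BoN s T f).card = 0 := by
        refine Finset.sum_eq_zero fun T hT => ?_
        rw [card_eq_zero, ← not_nonempty_iff_eq_empty]
        exact (mem_filter.1 hT).2
      rw [h5, add_zero]
      have h6 : ∑ T ∈ BoW s f, (BoN s T f).card ≤
          ∑ T ∈ insert s ((BoW s f).erase s), (BoN s T f).card := by
        refine Finset.sum_le_sum_of_subset ?_
        intro T hT
        rw [mem_insert, mem_erase]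
        by_cases hTs : T = s
        · exact Or.inl hTs
        · exact Or.inr ⟨hTs, hT⟩
      refine h6.trans ?_
      rw [sum_insert (notMem_erase _ _), add_comm]
      refine add_le_add ?_ le_rfl
      rw [mul_comm]
      refine Finset.sum_le_card_nsmul _ _ 4 fun T hT => ?_
      obtain ⟨hTs, hTW⟩ := mem_erase.1 hT
      obtain ⟨hT1, hT2, _⟩ := Bo_W3 h.1 hTW
      rcases Bo_erase hs hT1 hT2 with h7 | ⟨p, hp, h7⟩
      · exact absurd h7 hTs
      · refine BoE_N3 h hs hT1 ?_
        rw [h7, card_erase_of_mem hp, hs]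
  omega

/-- the relation, with positive sign at `p` -/
private theorem BoF_nrm {G ι : Type} [AddCommGroup G] {s : Finset ι} {f : ι → G} {I : Finset ι}
    (hI : I ∈ BoN s s f) (p : ι) :
    ∑ j ∈ s, (if (j ∈ I ↔ p ∈ I) then f j else - f j) = 0 := by
  have h0 := Bo_rel0 hI
  by_cases hp : p ∈ I
  · rw [← h0]
    refine Finset.sum_congr rfl fun j _ => ?_
    by_cases hj : j ∈ I
    · rw [if_pos hj, if_pos ⟨fun _ => hp, fun _ => hj⟩]
    · rw [if_neg hj, if_neg (fun h => hj (h.2 hp))]
  · rw [← neg_eq_zero, ← h0, ← Finset.sum_neg_distrib]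
    refine Finset.sum_congr rfl fun j _ => ?_
    by_cases hj : j ∈ I
    · rw [if_pos hj, if_neg (fun h => hp (h.1 hj)), neg_neg]
    · rw [if_neg hj, if_pos ⟨fun h => absurd h hj, fun h => absurd h hp⟩]

private theorem BoF_val {G ι : Type} [AddCommGroup G] {s : Finset ι} {f V : ι → G}
    {I J : Finset ι} {p : ι} (hp : p ∈ s) (hI : I ∈ BoN s s f)
    (hVd : ∀ j, V j = if j ∈ J then f j else - f j) (hV : ∑ j ∈ s.erase p, V j = 0) :
    f p + (∑ j ∈ (s.erase p).filter (fun x => x ∈ J ↔ (x ∈ I ↔ p ∈ I)), V j +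
      ∑ j ∈ (s.erase p).filter (fun x => x ∈ J ↔ (x ∈ I ↔ p ∈ I)), V j) = 0 := by
  have h0 := BoF_nrm hI p
  rw [← Finset.add_sum_erase s _ hp, if_pos Iff.rfl,
    ← Finset.sum_filter_add_sum_filter_not (s.erase p) (fun x => x ∈ J ↔ (x ∈ I ↔ p ∈ I))] at h0
  have s1 := Finset.sum_filter_add_sum_filter_not (s.erase p)
    (fun x => x ∈ J ↔ (x ∈ I ↔ p ∈ I)) V
  have c1 : ∑ j ∈ (s.erase p).filter (fun x => x ∈ J ↔ (x ∈ I ↔ p ∈ I)),
      (if (j ∈ I ↔ p ∈ I) then f j else - f j) =
      ∑ j ∈ (s.erase p).filter (fun x => x ∈ J ↔ (x ∈ I ↔ p ∈ I)), V j := by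
    refine Finset.sum_congr rfl fun j hj => ?_
    have hj2 := (mem_filter.1 hj).2
    rw [hVd]
    by_cases hji : j ∈ J
    · rw [if_pos hji, if_pos (hj2.1 hji)]
    · rw [if_neg hji, if_neg (fun h => hji (hj2.2 h))]
  have c2 : ∑ j ∈ (s.erase p).filter (fun x => ¬ (x ∈ J ↔ (x ∈ I ↔ p ∈ I))),
      (if (j ∈ I ↔ p ∈ I) then f j else - f j) =
      - ∑ j ∈ (s.erase p).filter (fun x => ¬ (x ∈ J ↔ (x ∈ I ↔ p ∈ I))), V j := by
    rw [← Finset.sum_neg_distrib]
    refine Finset.sum_congr rfl fun j hj => ?_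
    have hj2 := (mem_filter.1 hj).2
    rw [hVd]
    by_cases hji : j ∈ J
    · have hji' : ¬ (j ∈ I ↔ p ∈ I) := fun h => hj2 ⟨fun _ => h, fun _ => hji⟩
      rw [if_pos hji, if_neg hji']
    · have hji' : (j ∈ I ↔ p ∈ I) := by
        by_contra h
        exact hj2 ⟨fun h' => absurd h' hji, fun h' => absurd h' h⟩
      rw [if_neg hji, if_pos hji', neg_neg]
  rw [c1, c2] at h0
  rw [hV] at s1
  set X := ∑ j ∈ (s.erase p).filter (fun x => x ∈ J ↔ (x ∈ I ↔ p ∈ I)), V j
  set Y := ∑ j ∈ (s.erase p).filter (fun x => ¬ (x ∈ J ↔ (x ∈ I ↔ p ∈ I))), V j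
  have e1 : f p + (X + X) = (f p + (X + -Y)) + (X + Y) := by abel
  rw [e1, h0, s1, add_zero]

/-- a group with two generators of orders dividing six and two -/
private theorem BoF_grp {G : Type} [AddCommGroup G] [Finite G] {u w : G}
    (hu : (6 : ℕ) • u = 0) (hw : (2 : ℕ) • w = 0) :
    Nat.card (AddSubgroup.zmultiples u ⊔ AddSubgroup.zmultiples w : AddSubgroup G) ≤ 12 := by
  have h1 : Nat.card (AddSubgroup.zmultiples u) ≤ 6 := by
    rw [Nat.card_zmultiples]
    exact Nat.le_of_dvd (by norm_num) (addOrderOf_dvd_of_nsmul_eq_zero hu)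
  have h2 : Nat.card (AddSubgroup.zmultiples w) ≤ 2 := by
    rw [Nat.card_zmultiples]
    exact Nat.le_of_dvd (by norm_num) (addOrderOf_dvd_of_nsmul_eq_zero hw)
  have h3 : Nat.card (AddSubgroup.zmultiples u ⊔ AddSubgroup.zmultiples w : AddSubgroup G) ≤
      Nat.card ((AddSubgroup.zmultiples u) × (AddSubgroup.zmultiples w)) := by
    refine Nat.card_le_card_of_surjective
      (fun z => (⟨(z.1 : G) + (z.2 : G), add_mem (AddSubgroup.mem_sup_left z.1.2)
        (AddSubgroup.mem_sup_right z.2.2)⟩ :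
          (AddSubgroup.zmultiples u ⊔ AddSubgroup.zmultiples w : AddSubgroup G))) ?_
    rintro ⟨x, hx⟩
    obtain ⟨a, ha, b, hb, hab⟩ := AddSubgroup.mem_sup.1 hx
    exact ⟨(⟨a, ha⟩, ⟨b, hb⟩), Subtype.ext hab⟩
  rw [Nat.card_prod] at h3
  calc Nat.card (AddSubgroup.zmultiples u ⊔ AddSubgroup.zmultiples w : AddSubgroup G) ≤ _ := h3
    _ ≤ 6 * 2 := Nat.mul_le_mul h1 h2
    _ = 12 := by norm_num

private theorem BoF_prop {a b j q q' : Prop} (h : (j ↔ (a ↔ q)) ↔ (j ↔ (b ↔ q')))
    (hq : q ↔ q') : a ↔ b := by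
  by_cases h1 : a <;> by_cases h2 : b <;> by_cases h3 : j <;> by_cases h4 : q <;>
    by_cases h5 : q' <;> simp_all

/-- exactly one triple relation -/
private theorem BoF_one {G ι : Type} [AddCommGroup G] [Finite G] {s : Finset ι} {f : ι → G}
    (h : AE s f) (hs : s.card = 4) {p : ι} (hp : p ∈ s) {J : Finset ι}
    (hJ : J ∈ BoN s (s.erase p) f) (h5 : 5 ≤ (BoN s s f).card) :
    (BoN s s f).card ≤ 6 ∧ Nat.card (gen s f) ≤ 12 := by
  obtain ⟨V, hVd⟩ : ∃ V : ι → G, ∀ j, V j = if j ∈ J then f j else - f j := ⟨_, fun _ => rfl⟩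
  have hV : ∑ j ∈ s.erase p, V j = 0 := by
    rw [← Bo_rel0 hJ]
    exact Finset.sum_congr rfl fun j _ => hVd j
  have hTc : (s.erase p).card = 3 := by
    rw [card_erase_of_mem hp, hs]
  have hVpm : ∀ j, BoPM (V j) (f j) := fun j => by
    rw [hVd]
    exact Bo_sgn J f j
  have hV2 : ∀ j ∈ s.erase p, V j + V j ≠ 0 := by
    intro j hj h0
    refine h.2 j (mem_of_mem_erase hj) ?_
    rcases hVpm j with h3 | h3
    · rw [← h3, h0]
    · rw [← neg_eq_zero, neg_add, ← h3, h0]
  have hp0 : f p ≠ 0 := h.1.1 p hp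
  have hval := fun I (hI : I ∈ BoN s s f) => BoF_val (V := V) hp hI hVd hV
  set T := s.erase p with hT
  set A := T.filter (fun x => f p + (V x + V x) = 0) with hA
  set B := T.filter (fun x => f p = V x + V x) with hB
  set E : Finset ι → Finset ι := fun I => T.filter (fun x => x ∈ J ↔ (x ∈ I ↔ p ∈ I)) with hE
  have hET : ∀ I, E I ⊆ T := fun I => filter_subset _ _
  have himg : (BoN s s f).image E ⊆ A.image (fun x => {x}) ∪ B.image (fun x => T.erase x) := by
    intro X hX
    obtain ⟨I, hI, rfl⟩ := mem_image.1 hX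
    have hv : f p + (∑ j ∈ E I, V j + ∑ j ∈ E I, V j) = 0 := hval I hI
    have hle := card_le_card (hET I)
    rw [hTc] at hle
    have hc : (E I).card = 0 ∨ (E I).card = 1 ∨ (E I).card = 2 ∨ (E I).card = 3 := by omega
    rw [mem_union, mem_image, mem_image]
    rcases hc with hc | hc | hc | hc
    · exfalso
      rw [card_eq_zero] at hc
      rw [hc, sum_empty, add_zero, add_zero] at hv
      exact hp0 hv
    · left
      obtain ⟨x, hx⟩ := card_eq_one.1 hc
      refine ⟨x, mem_filter.2 ⟨hET I (by rw [hx]; exact mem_singleton_self x), ?_⟩, hx.symm⟩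
      rw [hx, sum_singleton] at hv
      exact hv
    · right
      have hd : (T \ E I).card = 1 := by
        rw [card_sdiff_of_subset (hET I), hTc, hc]
      obtain ⟨x, hx⟩ := card_eq_one.1 hd
      have hxT := mem_sdiff.1 (show x ∈ T \ E I by rw [hx]; exact mem_singleton_self x)
      have hEx : T.erase x = E I := by
        symm
        refine Finset.eq_of_subset_of_card_le ?_ ?_
        · intro y hy
          exact mem_erase.2 ⟨fun h' => hxT.2 (h' ▸ hy), hET I hy⟩
        · rw [card_erase_of_mem hxT.1, hTc, hc]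
      refine ⟨x, mem_filter.2 ⟨hxT.1, ?_⟩, hEx⟩
      have e1 := Finset.add_sum_erase T V hxT.1
      rw [hEx, hV] at e1
      have e2 : ∑ j ∈ E I, V j = - V x := eq_neg_of_add_eq_zero_right e1
      rw [e2] at hv
      rw [← sub_eq_zero, ← hv]
      abel
    · exfalso
      have hEq : E I = T := Finset.eq_of_subset_of_card_le (hET I) (by omega)
      rw [hEq, hV, add_zero, add_zero] at hv
      exact hp0 hv
  have hAB : A.card = 0 ∨ B.card = 0 := by
    by_contra hcon
    rw [not_or] at hcon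
    obtain ⟨x, hx⟩ := card_pos.1 (Nat.pos_of_ne_zero hcon.1)
    obtain ⟨y, hy⟩ := card_pos.1 (Nat.pos_of_ne_zero hcon.2)
    obtain ⟨hxT, hx0⟩ := mem_filter.1 hx
    obtain ⟨hyT, hy0⟩ := mem_filter.1 hy
    by_cases hxy : x = y
    · rw [hxy, ← hy0] at hx0
      exact h.2 p hp hx0
    · have hyT' : y ∈ T.erase x := mem_erase.2 ⟨fun h' => hxy h'.symm, hyT⟩
      have hc1 : ((T.erase x).erase y).card = 1 := by
        rw [card_erase_of_mem hyT', card_erase_of_mem hxT, hTc]
      obtain ⟨z, hz⟩ := card_eq_one.1 hc1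
      have hzT : z ∈ T := by
        have : z ∈ (T.erase x).erase y := by rw [hz]; exact mem_singleton_self z
        exact mem_of_mem_erase (mem_of_mem_erase this)
      have e1 := Finset.add_sum_erase T V hxT
      have e2 := Finset.add_sum_erase (T.erase x) V hyT'
      rw [hz, sum_singleton] at e2
      rw [← e2, hV] at e1
      refine hV2 z hzT ?_
      have e3 : V z + V z = (V x + (V y + V z)) + (V x + (V y + V z)) -
          ((V y + V y) + (V x + V x)) := by abel
      rw [e3, ← hy0, hx0, e1, add_zero, sub_zero]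
  have hcard : (BoN s s f).card ≤ 2 * ((BoN s s f).image E).card := by
    refine Finset.card_le_mul_card_image _ 2 ?_
    intro X _
    have hinj : ((BoN s s f).filter fun I => E I = X).card ≤ (univ : Finset Bool).card := by
      refine Finset.card_le_card_of_injOn (fun I => decide (p ∈ I))
        (fun _ _ => mem_coe.2 (mem_univ _)) ?_
      intro I hI I' hI' hII
      have hII' : p ∈ I ↔ p ∈ I' := decide_eq_decide.1 hII
      obtain ⟨m1, m2⟩ := mem_filter.1 (mem_coe.1 hI)
      obtain ⟨m1', m2'⟩ := mem_filter.1 (mem_coe.1 hI')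
      have n1 := mem_powerset.1 (mem_filter.1 m1).1
      have n2 := mem_powerset.1 (mem_filter.1 m1').1
      have hEE : E I = E I' := m2.trans m2'.symm
      ext x
      by_cases hxp : x = p
      · rw [hxp]
        exact hII'
      · have h1 : x ∈ E I ↔ x ∈ E I' := by rw [hEE]
        have h2 : x ∈ T → (x ∈ I ↔ x ∈ I') := by
          intro hxT
          refine BoF_prop (j := x ∈ J) ⟨fun h3 => ?_, fun h3 => ?_⟩ hII'
          · exact (mem_filter.1 (h1.1 (mem_filter.2 ⟨hxT, h3⟩))).2
          · exact (mem_filter.1 (h1.2 (mem_filter.2 ⟨hxT, h3⟩))).2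
        exact ⟨fun hx => (h2 (mem_erase.2 ⟨hxp, n1 hx⟩)).1 hx,
          fun hx => (h2 (mem_erase.2 ⟨hxp, n2 hx⟩)).2 hx⟩
    exact hinj
  have hic := (card_le_card himg).trans (card_union_le _ _)
  have hiA : (A.image (fun x => ({x} : Finset ι))).card ≤ A.card := card_image_le
  have hiB : (B.image (fun x => T.erase x)).card ≤ B.card := card_image_le
  have hA3 : A.card ≤ 3 := by
    rw [← hTc]
    exact card_filter_le _ _
  have hB3 : B.card ≤ 3 := by
    rw [← hTc]
    exact card_filter_le _ _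
  refine ⟨by omega, ?_⟩
  have hAB3 : A.card = 3 ∨ B.card = 3 := by omega
  obtain ⟨c, hc, hcp⟩ : ∃ c : G, (∀ x ∈ T, V x + V x = c) ∧ (f p = c ∨ f p = -c) := by
    rcases hAB3 with h3 | h3
    · have hAT : A = T := Finset.eq_of_subset_of_card_le (filter_subset _ _) (by omega)
      refine ⟨- f p, fun x hx => ?_, Or.inr (neg_neg _).symm⟩
      rw [← hAT] at hx
      exact eq_neg_of_add_eq_zero_right (mem_filter.1 hx).2
    · have hBT : B = T := Finset.eq_of_subset_of_card_le (filter_subset _ _) (by omega)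
      refine ⟨f p, fun x hx => ?_, Or.inl rfl⟩
      rw [← hBT] at hx
      exact (mem_filter.1 hx).2.symm
  obtain ⟨x, y, z, hxy, hxz, hyz, hxyz⟩ := card_eq_three.1 hTc
  have hx := hc x (by rw [hxyz]; simp)
  have hy := hc y (by rw [hxyz]; simp)
  have hz := hc z (by rw [hxyz]; simp)
  have hV3 : V x + (V y + V z) = 0 := by
    rw [← hV, hxyz, sum_insert (by simp [hxy, hxz]), sum_pair hyz]
  have hu : (6 : ℕ) • V x = 0 := by
    have e1 : (6 : ℕ) • V x = (V x + V x) + (V x + V x) + (V x + V x) := by abel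
    have e2 : (V x + V x) + (V x + V x) + (V x + V x) = (V x + V x) + (V y + V y) + (V z + V z) := by
      rw [hx, hy, hz]
    have e3 : (V x + V x) + (V y + V y) + (V z + V z) =
        (V x + (V y + V z)) + (V x + (V y + V z)) := by abel
    rw [e1, e2, e3, hV3, add_zero]
  have hw : (2 : ℕ) • (V y - V x) = 0 := by
    have e1 : (2 : ℕ) • (V y - V x) = (V y + V y) - (V x + V x) := by abel
    rw [e1, hx, hy, sub_self]
  have hgen : gen s f ≤ AddSubgroup.zmultiples (V x) ⊔ AddSubgroup.zmultiples (V y - V x) := by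
    set K := AddSubgroup.zmultiples (V x) ⊔ AddSubgroup.zmultiples (V y - V x) with hK
    have kx : V x ∈ K := AddSubgroup.mem_sup_left (AddSubgroup.mem_zmultiples _)
    have kw : V y - V x ∈ K := AddSubgroup.mem_sup_right (AddSubgroup.mem_zmultiples _)
    have ky : V y ∈ K := by
      have := K.add_mem kw kx
      rwa [sub_add_cancel] at this
    have kz : V z ∈ K := by
      have e1 : V z = -(V x + V y) := by
        rw [eq_neg_iff_add_eq_zero, ← hV3]
        abel
      rw [e1]
      exact K.neg_mem (K.add_mem kx ky)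
    have kc : c ∈ K := by
      rw [← hx]
      exact K.add_mem kx kx
    have kV : ∀ i ∈ T, V i ∈ K := by
      intro i hi
      rw [hxyz, mem_insert, mem_insert, mem_singleton] at hi
      rcases hi with rfl | rfl | rfl
      · exact kx
      · exact ky
      · exact kz
    refine (AddSubgroup.closure_le K).2 ?_
    rintro _ ⟨i, hi, rfl⟩
    rw [mem_coe] at hi
    by_cases hip : i = p
    · rw [hip]
      rcases hcp with h3 | h3
      · rw [h3]
        exact kc
      · rw [h3]
        exact K.neg_mem kc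
    · have hiT : i ∈ T := mem_erase.2 ⟨hip, hi⟩
      rcases Bo_pm_symm (hVpm i) with h3 | h3
      · rw [h3]
        exact kV i hiT
      · rw [h3]
        exact K.neg_mem (kV i hiT)
  exact (AddSubgroup.card_le_of_le hgen).trans (BoF_grp hu hw)

/-- three relations, two of them on triples -/
private theorem BoF_main {G ι : Type} [AddCommGroup G] {s : Finset ι} {f : ι → G}
    (hAE : AE s f) (hs : s.card = 4) (hW : 3 ≤ (BoW s f).card)
    (hWs : 1 < ((BoW s f).erase s).card) : Prog s f ∨ ∃ h z : G, h ≠ 0 ∧ (3 : ℕ) • h = 0 ∧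
      ∀ i ∈ s, f i = h ∨ f i = -h ∨ f i = z ∨ f i = -z ∨ f i = z + h ∨ f i = -(z + h) ∨
        f i = z - h ∨ f i = -(z - h) := by
  have hAS := hAE.1
  obtain ⟨T1, hT1, T2, hT2, hT12⟩ := one_lt_card.1 hWs
  obtain ⟨hT1s, hT1W⟩ := mem_erase.1 hT1
  obtain ⟨hT2s, hT2W⟩ := mem_erase.1 hT2
  obtain ⟨T3, hT3W, hT3n⟩ : ∃ T3 ∈ BoW s f, T3 ∉ ({T1, T2} : Finset (Finset ι)) := by
    refine Finset.exists_mem_notMem_of_card_lt_card ?_
    have := card_le_two (a := T1) (b := T2)
    omega
  rw [mem_insert, mem_singleton, not_or] at hT3n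
  obtain ⟨w1, x1, g1, hg1, r1⟩ := Bo_W3 hAS hT1W
  obtain ⟨w2, x2, g2, hg2, r2⟩ := Bo_W3 hAS hT2W
  obtain ⟨w3, x3, g3, hg3, r3⟩ := Bo_W3 hAS hT3W
  obtain ⟨p, hp, hT1p⟩ := (Bo_erase hs w1 x1).resolve_left hT1s
  obtain ⟨q, hq, hT2q⟩ := (Bo_erase hs w2 x2).resolve_left hT2s
  have hpq : p ≠ q := fun h => hT12 (by rw [hT1p, hT2q, h])
  have hc2 : ((s.erase p).erase q).card = 2 := by
    rw [card_erase_of_mem (mem_erase.2 ⟨hpq.symm, hq⟩), card_erase_of_mem hp, hs]
  obtain ⟨i, j, hij, hijs⟩ := card_eq_two.1 hc2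
  have hi : i ∈ (s.erase p).erase q := by rw [hijs]; exact mem_insert_self i _
  have hj : j ∈ (s.erase p).erase q := by
    rw [hijs]
    exact mem_insert_of_mem (mem_singleton_self j)
  obtain ⟨hiq, hi'⟩ := mem_erase.1 hi
  obtain ⟨hip, his⟩ := mem_erase.1 hi'
  obtain ⟨hjq, hj'⟩ := mem_erase.1 hj
  obtain ⟨hjp, hjs⟩ := mem_erase.1 hj'
  have hsp : s.erase p = {i, j, q} := by
    rw [← insert_erase (mem_erase.2 ⟨hpq.symm, hq⟩ : q ∈ s.erase p), hijs]
    ext x
    simp only [mem_insert, mem_singleton]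
    tauto
  have hsq : s.erase q = {i, j, p} := by
    rw [← insert_erase (mem_erase.2 ⟨hpq, hp⟩ : p ∈ s.erase q), erase_right_comm, hijs]
    ext x
    simp only [mem_insert, mem_singleton]
    tauto
  have hss : s = {i, j, p, q} := by
    rw [← insert_erase hp, hsp]
    ext x
    simp only [mem_insert, mem_singleton]
    tauto
  have sum3 : ∀ (g : ι → G) (x y z : ι), x ≠ y → x ≠ z → y ≠ z →
      ∑ k ∈ ({x, y, z} : Finset ι), g k = g x + (g y + g z) := by
    intro g x y z hxy hxz hyz
    rw [sum_insert (by simp [hxy, hxz]), sum_pair hyz]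
  have R1 : BoR3 (f i) (f j) (f q) := by
    rw [hT1p, hsp, sum3 g1 i j q hij hiq hjq] at r1
    exact ⟨_, _, _, hg1 i, hg1 j, hg1 q, r1⟩
  have R2 : BoR3 (f i) (f j) (f p) := by
    rw [hT2q, hsq, sum3 g2 i j p hij hip hjp] at r2
    exact ⟨_, _, _, hg2 i, hg2 j, hg2 p, r2⟩
  have R3 : BoR3 (f i) (f p) (f q) ∨ BoR3 (f j) (f p) (f q) ∨
      BoR4 (f i) (f j) (f p) (f q) := by
    rcases Bo_erase hs w3 x3 with hT3 | ⟨r, hr, hT3⟩
    · right; right
      rw [hT3, hss, sum_insert (by simp [hij, hip, hiq]), sum3 g3 j p q hjp hjq hpq] at r3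
      exact ⟨_, _, _, _, hg3 i, hg3 j, hg3 p, hg3 q, r3⟩
    · have hrp : r ≠ p := fun h => hT3n.1 (by rw [hT3, hT1p, h])
      have hrq : r ≠ q := fun h => hT3n.2 (by rw [hT3, hT2q, h])
      rw [hss, mem_insert, mem_insert, mem_insert, mem_singleton] at hr
      rcases hr with rfl | rfl | hr | hr
      · right; left
        have hT : s.erase r = {j, p, q} := by
          rw [hss, erase_insert (by simp [hij, hip, hiq])]
        rw [hT3, hT, sum3 g3 j p q hjp hjq hpq] at r3
        exact ⟨_, _, _, hg3 j, hg3 p, hg3 q, r3⟩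
      · left
        have hT : s.erase r = {i, p, q} := by
          rw [hss]
          ext x
          simp only [mem_erase, mem_insert, mem_singleton]
          constructor
          · rintro ⟨h1, h3⟩
            tauto
          · rintro (rfl | rfl | rfl)
            · exact ⟨hij, by tauto⟩
            · exact ⟨hrp.symm, by tauto⟩
            · exact ⟨hrq.symm, by tauto⟩
        rw [hT3, hT, sum3 g3 i p q hip hiq hpq] at r3
        exact ⟨_, _, _, hg3 i, hg3 p, hg3 q, r3⟩
      · exact absurd hr hrp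
      · exact absurd hr hrq
  have hP : BoP (f i) (f j) (f p) (f q) :=
    Bo_full (hAS.1 i his) (hAS.1 j hjs) (Bo_cap hAS his hjs hij)
      (Bo_cap hAS hp his hip.symm) (Bo_cap hAS hq his hiq.symm)
      (Bo_cap hAS hp hjs hjp.symm) (Bo_cap hAS hq hjs hjq.symm) (Bo_cap hAS hp hq hpq)
      R2 R1 R3
  have hmem : ∀ x ∈ s, f x = f i ∨ f x = f j ∨ f x = f p ∨ f x = f q := by
    intro x hx
    rw [hss, mem_insert, mem_insert, mem_insert, mem_singleton] at hx
    rcases hx with rfl | rfl | rfl | rfl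
    · exact Or.inl rfl
    · exact Or.inr (Or.inl rfl)
    · exact Or.inr (Or.inr (Or.inl rfl))
    · exact Or.inr (Or.inr (Or.inr rfl))
  rcases hP with ⟨d, hd⟩ | ⟨p', z, hp', hp3, hz⟩
  · left
    refine ⟨d, fun x hx => ?_⟩
    rw [hs]
    exact hd _ (hmem x hx)
  · right
    exact ⟨p', z, hp', hp3, fun x hx => hz _ (hmem x hx)⟩

theorem thm_BoF (_ : MDR.St_Sg) : St_BoF := by
  intro G ι _ _ s f hAE hs
  by_cases hn : (FS s f).card < 12
  · right
    have hsum := BoF_sum hAE hs
    have h8 := BoF_N8 hAE hs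
    have ht : ((BoW s f).erase s).card = 0 ∨ ((BoW s f).erase s).card = 1 ∨
        1 < ((BoW s f).erase s).card := by omega
    rcases ht with ht | ht | ht
    · exfalso
      omega
    · left
      obtain ⟨T1, hT1⟩ := card_pos.1 (show 0 < ((BoW s f).erase s).card by omega)
      obtain ⟨hT1s, hT1W⟩ := mem_erase.1 hT1
      obtain ⟨w1, x1, _⟩ := Bo_W3 hAE.1 hT1W
      obtain ⟨p, hp, hT1p⟩ := (Bo_erase hs w1 x1).resolve_left hT1s
      obtain ⟨J, hJ⟩ := (mem_filter.1 hT1W).2
      rw [hT1p] at hJ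
      obtain ⟨h6, h12⟩ := BoF_one hAE hs hp hJ (by omega)
      exact ⟨by omega, h12⟩
    · right
      refine BoF_main hAE hs ?_ ht
      by_cases hsW : s ∈ BoW s f
      · have := card_erase_of_mem hsW
        omega
      · have hN : (BoN s s f).card = 0 := by
          rw [card_eq_zero, ← not_nonempty_iff_eq_empty]
          intro hne
          refine hsW (mem_filter.2 ⟨mem_erase.2 ⟨?_, mem_powerset.2 (Subset.refl s)⟩, hne⟩)
          intro h0
          rw [h0, card_empty] at hs
          omega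
        have h7 : ((BoW s f).erase s).card = (BoW s f).card := by rw [erase_eq_of_notMem hsW]
        omega
  · left
    exact not_lt.1 hn

end Pool.Agent.SSF
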