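import Pool.Agent.SSF.St

/-!
# SSF Cr: groups of rank at most two
-/

set_option autoImplicit false

namespace Pool.Agent.SSF

theorem thm_Cr : St_Cr := by
  intro G _ _ hG
  have h2 : ∀ p : ℕ, p.Prime → ((nsmulAddMonoidHom p : G →+ G).range).index ≤ p ^ 2 := by
    intro p hp
    rw [AddSubgroup.index_range]
    have h : Nat.card (nsmulAddMonoidHom p : G →+ G).ker = Nat.card {x : G // p • x = 0} :=
      Nat.card_congr (Equiv.subtypeEquivRight fun x => by rw [AddMonoidHom.mem_ker]; rfl)
    rw [h]
    exact hG p hp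
  refine ⟨fun M p hp => ?_, h2, fun p M hp hM x => ?_, fun K hK => ?_, fun L hL => ?_⟩
  · refine (Nat.card_le_card_of_injective
      (fun x : {x : M // p • x = 0} => (⟨(x.1 : G), ?_⟩ : {x : G // p • x = 0})) ?_).trans (hG p hp)
    · have h : ((p • x.1 : M) : G) = 0 := by
        rw [x.2]
        rfl
      rw [AddSubgroup.coe_nsmul] at h
      exact h
    · intro x y h
      have h1 := congrArg (fun z : {x : G // p • x = 0} => (z : G)) h
      exact Subtype.ext (Subtype.ext h1)
  · rw [← hM]
    exact AddSubgroup.nsmul_index_mem M x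
  · have h3 : (nsmulAddMonoidHom 2 : G →+ G).range ≤ K := by
      rintro _ ⟨x, rfl⟩
      change 2 • x ∈ K
      rw [two_nsmul]
      exact hK x
    exact (AddSubgroup.index_antitone h3).trans (h2 2 Nat.prime_two)
  · refine (Nat.card_le_card_of_injective
      (fun x : L => (⟨(x : G), ?_⟩ : {x : G // 2 • x = 0})) ?_).trans (hG 2 Nat.prime_two)
    · rw [two_nsmul]
      exact hL x x.2
    · intro x y h
      have h1 := congrArg (fun z : {x : G // 2 • x = 0} => (z : G)) h
      exact Subtype.ext h1

end Pool.Agent.SSF
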