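import Pool.Agent.SSF.St

/-!
# SSF, DpF (helper63): a family with a drop has many sums
-/

set_option autoImplicit false

noncomputable section

open Finset Pool.Agent.Helper64.Rho Pool.Agent.SDG Pool.Agent.MDR Pool.Agent.SSC Pool.Agent.SSE
open scoped Classical Pointwise

namespace Pool.Agent.SSF

private theorem DpF_outs {G ι : Type} [AddCommGroup G] (u : Finset ι) (f : ι → G) (i : ι)
    (M : AddSubgroup G) : (outs u f M).card ≤ (outs (u.erase i) f M).card + 1 := by
  have h1 : outs u f M ⊆ insert i (outs (u.erase i) f M) := by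
    intro j hj
    rw [outs, mem_filter] at hj
    rw [mem_insert]
    by_cases h : j = i
    · exact Or.inl h
    · refine Or.inr ?_
      rw [outs, mem_filter]
      exact ⟨mem_erase.2 ⟨h, hj.1⟩, hj.2⟩
  exact (card_le_card h1).trans (card_insert_le _ _)

theorem thm_DpF : SDG.St_Ba1 → SSE.St_KeE → St_RgF → St_TfF → St_DpF := by
  intro hBa hKe hRg hTf l hl hC1 hC1N G ι _ _ u f i hR2 hAE hAp hgen hDC hout hN hcard hi hdrop
  obtain ⟨hRg1, hRg2, -⟩ := hRg
  obtain ⟨-, b2, -, b4, -, b6, -⟩ := hBa G ι f
  have hcard' : (u.erase i).card = l := by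
    rw [card_erase_of_mem hi, hcard, Nat.add_sub_cancel]
  have hfi : f i ∉ gen (u.erase i) f := by
    intro h
    exact hdrop ((b6 u i hi h).trans hgen)
  have hind : (gen (u.erase i) f).index = 2 := by
    by_contra hcon
    have h1 := hout _ hdrop hcon
    have h2 : outs u f (gen (u.erase i) f) ⊆ {i} := by
      intro j hj
      rw [outs, mem_filter] at hj
      rw [mem_singleton]
      by_contra h
      refine hj.2 (AddSubgroup.subset_closure ⟨j, ?_, rfl⟩)
      exact mem_coe.2 (mem_erase.2 ⟨h, hj.1⟩)
    have h3 := card_le_card h2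
    rw [card_singleton] at h3
    omega
  have hFS := b4 u i hi hfi
  have hAE' : AE (u.erase i) f := by
    refine ⟨⟨fun j hj => hAE.1.1 j (mem_of_mem_erase hj), fun x => ?_⟩,
      fun j hj => hAE.2 j (mem_of_mem_erase hj)⟩
    exact (card_le_card (filter_subset_filter _ (erase_subset i u))).trans (hAE.1.2 x)
  have hAp' : Aper (FS (u.erase i) f) := b2 u _ (erase_subset i u) hAp
  have hDC' : DC (u.erase i) f := hRg1 G ι u _ f (erase_subset i u) hDC
  obtain ⟨f', -, hg', hc', ap', ae', dc', r2', out'⟩ := hTf G ι (u.erase i) f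
  have e : ∀ d : DecidableEq (gen (u.erase i) f), @FS ι _ _ d (u.erase i) f' =
      @FS ι _ _ (fun a b => Classical.propDecidable (a = b)) (u.erase i) f' := fun d => by
    rw [Subsingleton.elim d (fun a b => Classical.propDecidable (a = b))]
  rw [e] at hc' ap'
  have hlow : ∀ M : AddSubgroup G, M < gen (u.erase i) f → 2 ≤ (outs (u.erase i) f M).card := by
    intro M hM
    have h1 : M ≠ ⊤ := ne_top_of_lt hM
    have h2 : M.index ≠ 2 := by
      have h3 := AddSubgroup.index_strictAnti hM
      omega
    have h3 := hout M h1 h2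
    have h4 := DpF_outs u f i M
    omega
  have hmul := (gen (u.erase i) f).card_mul_index
  rw [hind] at hmul
  have hsz : 2 * (@FS ι (gen (u.erase i) f) _ (fun a b => Classical.propDecidable (a = b))
      (u.erase i) f').card ≤ Nat.card (gen (u.erase i) f) := by
    rw [hc']
    omega
  have hsep : Sep (u.erase i) f' := fun M hM _ => out' 2 hlow M hM
  have hmain : l * (l + 1) ≤ 2 * (@FS ι (gen (u.erase i) f) _
      (fun a b => Classical.propDecidable (a = b)) (u.erase i) f').card := by
    have hor : 2 + l * (l + 1) ≤ 2 * (@FS ι (gen (u.erase i) f) _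
        (fun a b => Classical.propDecidable (a = b)) (u.erase i) f').card ∨ Exc f' (u.erase i) := by
      by_cases hcy : IsAddCyclic (gen (u.erase i) f)
      · exact hC1 (gen (u.erase i) f) ι (u.erase i) f' hcy hcard' (ae' hAE') (ap' hAp') hg'
          (hRg2 _ ι (u.erase i) f' (ae' hAE') (dc' hDC')) hsep hsz
      · exact hC1N (gen (u.erase i) f) ι (u.erase i) f' (r2' hR2) hcy hcard' (ae' hAE') (ap' hAp') hg'
          (dc' hDC') hsep hsz
    rcases hor with h | ⟨K, a, h⟩
    · omega
    · have h1 := (hKe (gen (u.erase i) f) ι (u.erase i) f' K a (ae' hAE') (ap' hAp') h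
        (Or.inr hsz)).1
      rwa [hcard'] at h1
  rw [hc'] at hmain
  rw [hcard, hFS]
  nlinarith

end Pool.Agent.SSF
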