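import Pool.Agent.SSF.St

/-!
# SSF, EvF: minimal violating families with an even number of members do not exist (noncyclic groups)
-/

set_option autoImplicit false

noncomputable section

open Finset Pool.Agent.Helper64.Rho Pool.Agent.SDG Pool.Agent.MDR Pool.Agent.SSC Pool.Agent.SSE
open scoped Classical Pointwise

namespace Pool.Agent.SSF

private theorem EvF_AE {G ι : Type} [AddCommGroup G] (hB : SDG.St_Ba1) {s u : Finset ι} {f : ι → G}
    (hus : u ⊆ s) (hap : Aper (FS s f)) (hA : AS u f) : AE u f := by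
  refine ⟨hA, fun i hi h => ?_⟩
  exact (hB G ι f).2.2.2.2.1 s i (hus hi) hap (hA.1 i hi) (eq_neg_of_add_eq_zero_left h)

private theorem EvF_DC {G ι : Type} [AddCommGroup G] [Finite G] (hSR : St_SRF) {t : ℕ} {s u : Finset ι}
    {f : ι → G} (hC : CtxF t s f) (hus : u ⊆ s) (hA : AS u f) : DC u f := by
  intro K c hK hc hn
  exact (hSR G ι t s u f K c hC hus hA hK hc hn).1

private theorem EvF_gen {G ι : Type} [AddCommGroup G] {u : Finset ι} {f : ι → G}
    (h : ∀ M : AddSubgroup G, M ≠ ⊤ → 1 ≤ (outs u f M).card) : gen u f = ⊤ := by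
  by_contra hne
  have h1 := h _ hne
  have h2 : outs u f (gen u f) = ∅ := by
    unfold outs
    rw [filter_eq_empty_iff]
    intro i hi hni
    exact hni (AddSubgroup.subset_closure ⟨i, hi, rfl⟩)
  rw [h2] at h1
  simp at h1

/-- a part with few sums -/
private theorem EvF_part (hSR : St_SRF) (hRg : St_RgF) (hKe : SSE.St_KeE) (hKg : SSE.St_KgE)
    {G ι : Type} [AddCommGroup G] [Finite G] {l : ℕ} {s p r : Finset ι} {f : ι → G} (hl : 5 ≤ l)
    (hC : CtxF (2 * l) s f) (hcf : cf 2 (2 * l) = 1 + l * (l + 1)) (hN : l * l + 3 ≤ Nat.card G)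
    (hd : Disjoint p r) (hu : p ∪ r = s) (hAp : AS p f) (hEp : AE p f) (hEr : AE r f)
    (hap : Aper (FS s f)) (happ : Aper (FS p f)) (hcp : p.card = l) (hcr : r.card = l)
    (hlt : (FS s f).card < cf 2 (2 * l))
    (h2 : 2 * (FS p f).card ≤ l * (l + 1))
    (hC1 : 2 + l * (l + 1) ≤ 2 * (FS p f).card ∨ Exc f p) : False := by
  have hps : p ⊆ s := by
    rw [← hu]
    exact subset_union_left
  rcases hC1 with h1 | ⟨K, a, hKAP⟩
  · omega
  · have hK3 : Nat.card K = 3 := hKAP.1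
    have hidx : 3 ≤ K.index := by
      have h3 := K.card_mul_index
      rw [hK3] at h3
      have h4 := Nat.mul_le_mul hl hl
      omega
    obtain ⟨c, hcK, hc3⟩ := hRg.2.2 G ι p f K a hidx hKAP
    have hKb : K ≠ ⊥ := by
      rintro rfl
      rw [AddSubgroup.card_bot] at hK3
      omega
    have hins := ((hSR G ι (2 * l) s p f K c hC hps hAp hKb hcK (by omega)).2 hK3).1
    have hrK : ∀ i ∈ r, f i ∉ K := by
      intro i hi hiK
      have h4 : ins s f K = ins p f K ∪ ins r f K := by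
        unfold ins
        rw [← hu, filter_union]
      have h5 : Disjoint (ins p f K) (ins r f K) :=
        Finset.disjoint_of_subset_left (filter_subset _ _)
          (Finset.disjoint_of_subset_right (filter_subset _ _) hd)
      have h6 : (ins s f K).card = (ins p f K).card + (ins r f K).card := by
        rw [h4, card_union_of_disjoint h5]
      have h7 : 1 ≤ (ins r f K).card := by
        rw [Nat.one_le_iff_ne_zero, Ne, card_eq_zero]
        intro h8
        have h9 : i ∈ ins r f K := mem_filter.2 ⟨hi, hiK⟩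
        rw [h8] at h9
        simp at h9
      have h8 := hKAP.2.1
      omega
    by_cases hla : l = 3 * a + 1
    · have h9 := hKg G ι p r f K a hd hEp hEr (by rw [hu]; exact hap) hKAP (by omega) hrK
        (Or.inl (by omega))
      rw [hcp, hcr, hu, ← two_mul] at h9
      omega
    · have h9 := (hKe G ι p f K a hEp happ hKAP (Or.inl ?_)).2 (by omega)
      · rw [hcp] at h9
        omega
      · rw [hcp]
        obtain ⟨k, rfl⟩ : ∃ k, l = k + 1 := ⟨l - 1, by omega⟩
        have h5 : (k + 1) * (k + 1 - 1) = (k + 1) * k := by simp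
        rw [h5]
        have h6 : (k + 1) * (k + 1) = (k + 1) * k + (k + 1) := by ring
        omega

theorem thm_EvF : SDG.St_Nm1 → SDG.St_Kn → SDG.St_Ba1 → St_BnF → St_SRF → St_RgF → St_HoF →
    SSE.St_KeE → SSE.St_KgE → St_EvF := by
  intro hN hK hB hBn hSR hRg hHo hKe hKg hCC G ι _ _ l s f hl hC
  obtain ⟨s1, s2, hd, hu, hA1, hA2, hc1, hc2, hout, hS1, hS2, -⟩ := hHo G ι (2 * l) s f hC (by omega)
  have hBn' := hBn G ι (2 * l) s f hC (by omega)
  have hs1 : s1 ⊆ s := by
    rw [← hu]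
    exact subset_union_left
  have hs2 : s2 ⊆ s := by
    rw [← hu]
    exact subset_union_right
  have hR1 := EvF_DC hSR hC hs1 hA1
  have hR2 := EvF_DC hSR hC hs2 hA2
  have hC' := hC
  obtain ⟨hPR, -, hr2, hcyc, hcard, hne, hcap, hap, hgen, hlt⟩ := hC
  have hE1 := EvF_AE hB hs1 hap hA1
  have hE2 := EvF_AE hB hs2 hap hA2
  have hg1 : gen s1 f = ⊤ := EvF_gen fun M hM => (hout M hM).1
  have hg2 : gen s2 f = ⊤ := EvF_gen fun M hM => (hout M hM).2
  have hC1 := (hCC l (by omega) fun n hn => hPR n (by omega)).1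
  obtain ⟨b1, b2, -, -, -, -, -⟩ := hB G ι f
  obtain ⟨k1, k2, -, -⟩ := hK G
  have hc1' : s1.card = l := by omega
  have hc2' : s2.card = l := by omega
  have e1 : FS s f = FS s1 f + FS s2 f := by
    rw [← hu]
    exact b1 s1 s2 hd
  have hap' : Aper (FS s1 f + FS s2 f) := e1 ▸ hap
  have n1 : (FS s1 f).Nonempty := ⟨0, zero_mem_FS s1 f⟩
  have n2 : (FS s2 f).Nonempty := ⟨0, zero_mem_FS s2 f⟩
  have i1 := k1 _ _ n1 n2 hap'
  rw [← e1] at i1
  have hcf : cf 2 (2 * l) = 1 + l * (l + 1) := by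
    rw [hN.2.2.1 (2 * l)]
    have h1 : (2 * l + 1) ^ 2 = 4 * (l * (l + 1)) + 1 := by ring
    rw [h1]
    omega
  have hcf' : cf 2 (2 * l - 1) = 1 + l * l := by
    obtain ⟨k, rfl⟩ : ∃ k, l = k + 1 := ⟨l - 1, by omega⟩
    rw [hN.2.2.1 (2 * (k + 1) - 1)]
    have h1 : (2 * (k + 1) - 1 + 1) ^ 2 = 4 * ((k + 1) * (k + 1)) := by
      have h2 : 2 * (k + 1) - 1 + 1 = 2 * (k + 1) := by omega
      rw [h2]
      ring
    rw [h1]
    omega
  have htop : (⊤ : AddSubgroup G) ≠ ⊥ := by
    intro h7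
    have hs : s.Nonempty := by
      rw [← card_pos]
      omega
    obtain ⟨i, hi⟩ := hs
    have h8 : f i ∈ (⊥ : AddSubgroup G) := h7 ▸ AddSubgroup.mem_top (f i)
    exact hne i hi (AddSubgroup.mem_bot.1 h8)
  have i2 := k2 _ _ ⊤ n1 n2 htop (fun x _ => AddSubgroup.mem_top x) (fun x _ => AddSubgroup.mem_top x) hap'
  have hct : Nat.card (⊤ : AddSubgroup G) = Nat.card G := AddSubgroup.card_top
  rw [hct] at i2
  have hN' : l * l + 3 ≤ Nat.card G := by omega
  obtain ⟨q, hq⟩ := Nat.even_mul_succ_self l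
  rcases le_total (FS s1 f).card (FS s2 f).card with h | h
  · exact EvF_part hSR hRg hKe hKg hl hC' hcf hN' hd hu hA1 hE1 hE2 hap (b2 s s1 hs1 hap) hc1' hc2' hlt
      (by omega) (hC1 G ι s1 f hr2 hcyc hc1' hE1 (b2 s s1 hs1 hap) hg1 hR1 hS1 (by omega))
  · exact EvF_part hSR hRg hKe hKg hl hC' hcf hN' hd.symm (by rw [union_comm]; exact hu) hA2 hE2 hE1 hap
      (b2 s s2 hs2 hap) hc2' hc1' hlt
      (by omega) (hC1 G ι s2 f hr2 hcyc hc2' hE2 (b2 s s2 hs2 hap) hg2 hR2 hS2 (by omega))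

end Pool.Agent.SSF
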