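import Pool.Agent.SSF.St

/-!
# SSF ExF: existence of an exchange (pure counting)
-/

set_option autoImplicit false

noncomputable section

open Finset Pool.Agent.Helper64.Rho Pool.Agent.SDG Pool.Agent.MDR Pool.Agent.SSC Pool.Agent.SSE
open scoped Classical Pointwise

namespace Pool.Agent.SSF

private theorem ExF_uniq {G ι : Type} [AddCommGroup G] {s : Finset ι} {f : ι → G} (h : AS s f)
    {i j : ι} (hi : i ∈ s) (hj : j ∈ s) (hij : f i = f j ∨ f i = -f j) : i = j := by
  by_contra hne
  have h1 : ({i, j} : Finset ι) ⊆ s.filter fun b => f b = f j ∨ f b = -f j := by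
    intro b hb
    rw [mem_insert, mem_singleton] at hb
    rcases hb with rfl | rfl
    · exact mem_filter.2 ⟨hi, hij⟩
    · exact mem_filter.2 ⟨hj, Or.inl rfl⟩
  have h2 := (card_le_card h1).trans (h.2 (f j))
  rw [card_pair hne] at h2
  omega

private theorem ExF_inj {G ι : Type} [AddCommGroup G] {s A B : Finset ι} {f : ι → G} (h : AS s f)
    (hA : A ⊆ s) (hB : ∀ x ∈ A, ∃ j ∈ B, f j = f x ∨ f j = -f x) : A.card ≤ B.card := by
  choose! g hg using hB
  apply card_le_card_of_injOn g (fun x hx => (hg x hx).1)
  intro x hx y hy hxy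
  have h1 := (hg x hx).2
  have h2 := (hg y hy).2
  rw [← hxy] at h2
  apply ExF_uniq h (hA hx) (hA hy)
  rcases h1 with h1 | h1 <;> rcases h2 with h2 | h2
  · left; rw [← h1, h2]
  · right; rw [← h1, h2]
  · right
    rw [h1] at h2
    rw [← h2, neg_neg]
  · left
    rw [h1] at h2
    exact neg_injective h2

private theorem ExF_sum {ι : Type} (A : Finset ι) (k : ι → ℕ) (hk : ∀ i ∈ A, k i < 4) :
    A.card = ∑ c ∈ range 4, (A.filter fun i => k i = c).card :=
  card_eq_sum_card_fiberwise fun i hi => by
    simpa using hk i hi

private theorem ExF_split {G ι : Type} [AddCommGroup G] (A : Finset ι) (f : ι → G) (κ : G → ℕ)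
    (M : AddSubgroup G) (c : ℕ) : (A.filter fun i => κ (f i) = c).card =
      ((ins A f M).filter fun i => κ (f i) = c).card +
        ((outs A f M).filter fun i => κ (f i) = c).card := by
  have h := card_filter_add_card_filter_not (s := A.filter fun i => κ (f i) = c)
    (fun i => f i ∈ M)
  rw [← h]
  unfold ins outs
  congr 2
  · ext i
    simp only [mem_filter]
    tauto
  · ext i
    simp only [mem_filter]
    tauto

theorem thm_ExF : St_ExF := by
  intro G ι _ p r X' f κ M _ hp hr hbal hneg hlt hXp hXM hX3 hout hcase
  by_contra hcon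
  have hM : ∀ {x y : G}, (x = y ∨ x = -y) → (x ∈ M ↔ y ∈ M) := by
    intro x y h
    rcases h with rfl | rfl
    · rfl
    · exact neg_mem_iff
  have hκ : ∀ {x y : G}, (x = y ∨ x = -y) → κ x = κ y := by
    intro x y h
    rcases h with rfl | rfl
    · rfl
    · exact hneg y
  have key : ∀ c : ℕ, (X'.filter fun i => κ (f i) = c).card ≤
      ((ins r f M).filter fun i => κ (f i) = c).card +
        (if (p.filter fun i => κ (f i) = c).card = (r.filter fun i => κ (f i) = c).card + 1
          then 1 else 0) := by
    intro c
    by_cases hfree : ∃ x ∈ X', κ (f x) = c ∧ ∀ j ∈ r, f j ≠ f x ∧ f j ≠ -f x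
    · obtain ⟨x, hx, hxc, hxf⟩ := hfree
      have h1 : ((outs r f M).filter fun i => κ (f i) = c).card ≤
          ((outs p f M).filter fun i => κ (f i) = c).card := by
        apply ExF_inj hr
        · intro y hy
          exact (mem_filter.1 (mem_filter.1 hy).1).1
        · intro y hy
          obtain ⟨hy1, hyc⟩ := mem_filter.1 hy
          obtain ⟨hyr, hyM⟩ := mem_filter.1 hy1
          by_contra hno
          apply hcon
          refine ⟨x, hx, y, hyr, hyM, by rw [hxc, hyc], hxf, ?_⟩
          intro j hj
          by_contra hj2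
          have hj3 : f j = f y ∨ f j = -f y := by tauto
          apply hno
          refine ⟨j, mem_filter.2 ⟨mem_filter.2 ⟨hj, ?_⟩, ?_⟩, hj3⟩
          · rw [hM hj3]; exact hyM
          · rw [hκ hj3]; exact hyc
      have h2 : (X'.filter fun i => κ (f i) = c).card ≤
          ((ins p f M).filter fun i => κ (f i) = c).card := by
        apply card_le_card
        intro i hi
        obtain ⟨hi1, hi2⟩ := mem_filter.1 hi
        exact mem_filter.2 ⟨mem_filter.2 ⟨hXp hi1, hXM i hi1⟩, hi2⟩
      have h3 := ExF_split p f κ M c
      have h4 := ExF_split r f κ M c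
      have h5 := (hbal c).1
      split_ifs with h
      · omega
      · omega
    · have h1 : (X'.filter fun i => κ (f i) = c).card ≤
          ((ins r f M).filter fun i => κ (f i) = c).card := by
        apply ExF_inj hp
        · intro i hi
          exact hXp (mem_filter.1 hi).1
        · intro x hx
          obtain ⟨hx1, hx2⟩ := mem_filter.1 hx
          by_contra hno
          apply hfree
          refine ⟨x, hx1, hx2, ?_⟩
          intro j hj
          by_contra hj2
          have hj3 : f j = f x ∨ f j = -f x := by tauto
          apply hno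
          refine ⟨j, mem_filter.2 ⟨mem_filter.2 ⟨hj, ?_⟩, ?_⟩, hj3⟩
          · rw [hM hj3]; exact hXM x hx1
          · rw [hκ hj3]; exact hx2
      omega
  have s1 := ExF_sum X' (fun i => κ (f i)) (fun i _ => hlt _)
  have s2 := ExF_sum p (fun i => κ (f i)) (fun i _ => hlt _)
  have s3 := ExF_sum r (fun i => κ (f i)) (fun i _ => hlt _)
  have s4 := ExF_sum (ins r f M) (fun i => κ (f i)) (fun i _ => hlt _)
  simp only [sum_range_succ, sum_range_zero, zero_add] at s1 s2 s3 s4
  have k0 := key 0
  have k1 := key 1
  have k2 := key 2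
  have k3 := key 3
  have b0 := hbal 0
  have b1 := hbal 1
  have b2 := hbal 2
  have b3 := hbal 3
  have hins : (∀ j ∈ r, f j ∉ M) → (ins r f M).card = 0 := by
    intro h
    rw [card_eq_zero]
    apply eq_empty_of_forall_notMem
    intro j hj
    exact h j (mem_filter.1 hj).1 (mem_filter.1 hj).2
  generalize (X'.filter fun i => κ (f i) = 0).card = x0 at *
  generalize (X'.filter fun i => κ (f i) = 1).card = x1 at *
  generalize (X'.filter fun i => κ (f i) = 2).card = x2 at *
  generalize (X'.filter fun i => κ (f i) = 3).card = x3 at *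
  generalize (p.filter fun i => κ (f i) = 0).card = p0 at *
  generalize (p.filter fun i => κ (f i) = 1).card = p1 at *
  generalize (p.filter fun i => κ (f i) = 2).card = p2 at *
  generalize (p.filter fun i => κ (f i) = 3).card = p3 at *
  generalize (r.filter fun i => κ (f i) = 0).card = r0 at *
  generalize (r.filter fun i => κ (f i) = 1).card = r1 at *
  generalize (r.filter fun i => κ (f i) = 2).card = r2 at *
  generalize (r.filter fun i => κ (f i) = 3).card = r3 at *
  generalize ((ins r f M).filter fun i => κ (f i) = 0).card = m0 at *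
  generalize ((ins r f M).filter fun i => κ (f i) = 1).card = m1 at *
  generalize ((ins r f M).filter fun i => κ (f i) = 2).card = m2 at *
  generalize ((ins r f M).filter fun i => κ (f i) = 3).card = m3 at *
  rcases hcase with ⟨c1, c2⟩ | ⟨c1, -, c3⟩
  · have := hins c2
    clear hcon key hbal hins
    split_ifs at k0 k1 k2 k3 <;> omega
  · clear hcon key hbal hins
    split_ifs at k0 k1 k2 k3 <;> omega

end Pool.Agent.SSF
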