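import Pool.Agent.SSF.St

/-!
# SSF, module FV: periodic interval for a subgroup with four elements (helper81)

Statement of helper97, `SSF.St_FV`.
-/

set_option autoImplicit false

noncomputable section

open Finset Pool.Agent.Helper64.Rho Pool.Agent.SDG Pool.Agent.MDR Pool.Agent.SSC Pool.Agent.SSE
open scoped Classical Pointwise

namespace Pool.Agent.SSF

private theorem FV_inj {G ι : Type} [AddCommGroup G] {u : Finset ι} {f : ι → G} (h : AS u f)
    {a b : ι} (ha : a ∈ u) (hb : b ∈ u) (hab : a ≠ b) : f a ≠ f b := by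
  intro he
  have h1 := h.2 (f a)
  have h2 : ({a, b} : Finset ι) ⊆ u.filter fun i => f i = f a ∨ f i = - f a := by
    intro i hi
    simp only [mem_insert, mem_singleton] at hi
    rw [mem_filter]
    rcases hi with rfl | rfl
    · exact ⟨ha, Or.inl rfl⟩
    · exact ⟨hb, Or.inl he.symm⟩
  have h3 := (card_le_card h2).trans h1
  rw [card_pair hab] at h3
  omega

private theorem FV_sum {ι : Type} (u : Finset ι) (lv : ι → ℕ) (n : ℕ) (hn : 3 ≤ n) :
    ∑ j ∈ u.filter (fun j => lv j < n), lv j =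
      (u.filter fun i => lv i = 1).card + 2 * (u.filter fun i => lv i = 2).card +
        ∑ j ∈ (u.filter fun i => 3 ≤ lv i).filter (fun j => lv j < n), lv j := by
  rw [card_filter, card_filter, mul_sum, filter_filter, sum_filter, sum_filter,
    ← sum_add_distrib, ← sum_add_distrib]
  refine sum_congr rfl fun j _ => ?_
  split_ifs <;> omega

private theorem FV_sum' {ι : Type} (u : Finset ι) (lv : ι → ℕ) :
    ∑ j ∈ u, lv j = (u.filter fun i => lv i = 1).card + 2 * (u.filter fun i => lv i = 2).card +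
        ∑ j ∈ (u.filter fun i => 3 ≤ lv i), lv j := by
  rw [card_filter, card_filter, mul_sum, sum_filter, ← sum_add_distrib, ← sum_add_distrib]
  refine sum_congr rfl fun j _ => ?_
  split_ifs <;> omega

/-- the four members of a full coset -/
private theorem FV_four {G ι : Type} [AddCommGroup G] (f : ι → G) (K : AddSubgroup G)
    (hK : Nat.card K = 4) (S : Finset ι) (c : G) (hS : S.card = 4) (hf : ∀ i ∈ S, f i - c ∈ K)
    (hinj : ∀ i ∈ S, ∀ j ∈ S, f i = f j → i = j) :
    (∀ k ∈ K, c + k ∈ FS S f) ∧ (∀ k ∈ K, (3 : ℕ) • c + k ∈ FS S f) ∧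
      ∀ j : ℕ, j ≤ 4 → ∃ x ∈ FS S f, x - j • c ∈ K := by
  have hfin : Finite K := Nat.finite_of_card_ne_zero (by rw [hK]; norm_num)
  have := Fintype.ofFinite K
  have hsurj : ∀ k ∈ K, ∃ i ∈ S, f i = c + k := by
    have hc : (S.attach.image fun i => (⟨f i.1 - c, hf i.1 i.2⟩ : K)).card = 4 := by
      rw [card_image_of_injective, card_attach, hS]
      intro i j hij
      have h1 : f i.1 - c = f j.1 - c := congrArg Subtype.val hij
      exact Subtype.ext (hinj _ i.2 _ j.2 (sub_left_injective h1))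
    have huniv : (S.attach.image fun i => (⟨f i.1 - c, hf i.1 i.2⟩ : K)) = univ := by
      rw [← card_eq_iff_eq_univ, hc, ← Nat.card_eq_fintype_card, hK]
    intro k hk
    have h1 : (⟨k, hk⟩ : K) ∈ S.attach.image fun i => (⟨f i.1 - c, hf i.1 i.2⟩ : K) := by
      rw [huniv]
      exact mem_univ _
    obtain ⟨i, _, hi⟩ := mem_image.1 h1
    refine ⟨i.1, i.2, ?_⟩
    have h2 : f i.1 - c = k := congrArg Subtype.val hi
    rw [← h2]
    abel
  have hsub : ∀ T : Finset ι, T ⊆ S → ∑ i ∈ T, f i - T.card • c ∈ K := by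
    intro T hT
    have h1 : ∑ i ∈ T, f i - T.card • c = ∑ i ∈ T, (f i - c) := by
      rw [sum_sub_distrib, sum_const]
    rw [h1]
    exact sum_mem fun i hi => hf i (hT hi)
  refine ⟨fun k hk => ?_, fun k hk => ?_, fun j hj => ?_⟩
  · obtain ⟨i, hi, h1⟩ := hsurj k hk
    exact mem_FS.2 ⟨{i}, singleton_subset_iff.2 hi, by rw [sum_singleton, h1]⟩
  · have h1 := hsub S (Subset.refl _)
    rw [hS] at h1
    obtain ⟨i, hi, h2⟩ := hsurj (∑ i ∈ S, f i - (4 : ℕ) • c - k) (K.sub_mem h1 hk)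
    refine mem_FS.2 ⟨S.erase i, erase_subset _ _, ?_⟩
    have h3 : f i + ∑ j ∈ S.erase i, f j = ∑ j ∈ S, f j := add_sum_erase S f hi
    have h4 : ∑ j ∈ S.erase i, f j = ∑ j ∈ S, f j - f i := by
      rw [← h3]
      abel
    rw [h4, h2, succ_nsmul c 3]
    abel
  · obtain ⟨T, hT, hT2⟩ := exists_subset_card_eq (s := S) (n := j) (by omega)
    refine ⟨∑ i ∈ T, f i, mem_FS.2 ⟨T, hT, rfl⟩, ?_⟩
    have := hsub T hT
    rwa [hT2] at this

private theorem FV_add {G ι : Type} [AddCommGroup G] (f : ι → G) (A B : Finset ι)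
    (hAB : Disjoint A B) (x y : G) (hx : x ∈ FS A f) (hy : y ∈ FS B f) :
    x + y ∈ FS (A ∪ B) f := by
  obtain ⟨T, hT, rfl⟩ := mem_FS.1 hx
  obtain ⟨T', hT', rfl⟩ := mem_FS.1 hy
  refine mem_FS.2 ⟨T ∪ T', union_subset_union hT hT', ?_⟩
  rw [sum_union (disjoint_of_subset_left hT (disjoint_of_subset_right hT' hAB))]

/-- a full level and a nonempty level -/
private theorem FV_lev {G ι : Type} [AddCommGroup G] (f : ι → G) (K : AddSubgroup G) (d : G)
    (A B : Finset ι) (hAB : Disjoint A B) (a b v : ℕ) (hv : v = a + b)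
    (hA : ∀ k ∈ K, a • d + k ∈ FS A f) (hB : ∃ y ∈ FS B f, y - b • d ∈ K) :
    ∀ k ∈ K, v • d + k ∈ FS (A ∪ B) f := by
  intro k hk
  obtain ⟨y, hy, hyK⟩ := hB
  have h1 := FV_add f A B hAB _ _ (hA _ (K.sub_mem hk hyK)) hy
  have h2 : a • d + (k - (y - b • d)) + y = v • d + k := by
    rw [hv, add_nsmul]
    abel
  rwa [h2] at h1

theorem thm_FV : SSC.St_Et → St_FV := by
  intro hEt G ι _ _ u f K d lv _ hK hAS hlv hc1 hc2 hl
  set Z := u.filter fun i => lv i = 1 with hZ
  set Y := u.filter fun i => lv i = 2 with hY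
  have hZu : Z ⊆ u := filter_subset _ _
  have hYu : Y ⊆ u := filter_subset _ _
  have hinj : ∀ i ∈ u, ∀ j ∈ u, f i = f j → i = j := by
    intro i hi j hj hij
    by_contra h
    exact FV_inj hAS hi hj h hij
  have hZY : Disjoint Z Y := by
    rw [disjoint_left]
    intro i h1 h2
    have := (mem_filter.1 h1).2
    have := (mem_filter.1 h2).2
    omega
  obtain ⟨z1, z3, zN⟩ := FV_four f K hK Z d hc1
    (fun i hi => by
      have h1 := hlv i (hZu hi)
      rwa [(mem_filter.1 hi).2, one_smul] at h1)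
    (fun i hi j hj => hinj i (hZu hi) j (hZu hj))
  obtain ⟨y1, y3, yN⟩ := FV_four f K hK Y ((2 : ℕ) • d) hc2
    (fun i hi => by
      have h1 := hlv i (hYu hi)
      rwa [(mem_filter.1 hi).2] at h1)
    (fun i hi j hj => hinj i (hYu hi) j (hYu hj))
  have z1' : ∀ k ∈ K, (1 : ℕ) • d + k ∈ FS Z f := by simpa using z1
  have y3' : ∀ k ∈ K, (6 : ℕ) • d + k ∈ FS Y f := by
    intro k hk
    have h1 := y3 k hk
    rwa [← mul_nsmul] at h1
  have yN' : ∀ j : ℕ, j ≤ 4 → ∃ x ∈ FS Y f, x - (2 * j) • d ∈ K := by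
    intro j hj
    obtain ⟨x, hx, h1⟩ := yN j hj
    refine ⟨x, hx, ?_⟩
    rwa [← mul_nsmul] at h1
  have hper : Per (FS (Z ∪ Y) f) K d 12 := by
    intro v hv1 hv2
    have hYZ : Disjoint Y Z := hZY.symm
    have hcomm : Z ∪ Y = Y ∪ Z := union_comm _ _
    have hv : v = 1 ∨ v = 2 ∨ v = 3 ∨ v = 4 ∨ v = 5 ∨ v = 6 ∨ v = 7 ∨ v = 8 ∨ v = 9 ∨ v = 10 ∨
        v = 11 := by omega
    rcases hv with h | h | h | h | h | h | h | h | h | h | h
    · exact FV_lev f K d Z Y hZY 1 0 v h z1' (yN' 0 (by norm_num))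
    · rw [hcomm]
      exact FV_lev f K d Y Z hYZ 2 0 v h y1 (zN 0 (by norm_num))
    · exact FV_lev f K d Z Y hZY 3 0 v h z3 (yN' 0 (by norm_num))
    · rw [hcomm]
      exact FV_lev f K d Y Z hYZ 2 2 v h y1 (zN 2 (by norm_num))
    · exact FV_lev f K d Z Y hZY 3 2 v h z3 (yN' 1 (by norm_num))
    · rw [hcomm]
      exact FV_lev f K d Y Z hYZ 6 0 v h y3' (zN 0 (by norm_num))
    · rw [hcomm]
      exact FV_lev f K d Y Z hYZ 6 1 v h y3' (zN 1 (by norm_num))
    · rw [hcomm]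
      exact FV_lev f K d Y Z hYZ 6 2 v h y3' (zN 2 (by norm_num))
    · rw [hcomm]
      exact FV_lev f K d Y Z hYZ 6 3 v h y3' (zN 3 (by norm_num))
    · rw [hcomm]
      exact FV_lev f K d Y Z hYZ 6 4 v h y3' (zN 4 (by norm_num))
    · exact FV_lev f K d Z Y hZY 3 8 v h z3 (yN' 4 (by norm_num))
  have h1 := hEt G ι (Z ∪ Y) (u.filter fun i => 3 ≤ lv i) f K d lv 12
    (by
      rw [disjoint_left]
      intro i h1 h2
      rw [mem_union] at h1
      have h3 := (mem_filter.1 h2).2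
      rcases h1 with h1 | h1
      · have := (mem_filter.1 h1).2
        omega
      · have := (mem_filter.1 h1).2
        omega)
    (fun i hi => hlv i (mem_filter.1 hi).1) hper
    (fun i hi => by
      obtain ⟨h1, h2⟩ := mem_filter.1 hi
      refine ⟨by omega, ?_⟩
      have h3 := hl i h1 h2
      rw [FV_sum u lv (lv i) h2, hc1, hc2] at h3
      exact h3)
  rw [FV_sum' u lv, hc1, hc2]
  refine fun v hv1 hv2 k hk => FS_mono ?_ f (h1 v hv1 hv2 k hk)
  exact union_subset (union_subset hZu hYu) (filter_subset _ _)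

end Pool.Agent.SSF
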