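import Pool.Agent.SSF.St

/-!
# SSF, FlF: full slices (helper30)
-/

set_option autoImplicit false

noncomputable section

open Finset Pool.Agent.Helper64.Rho Pool.Agent.SDG Pool.Agent.MDR Pool.Agent.SSC Pool.Agent.SSE
open scoped Classical Pointwise

namespace Pool.Agent.SSF

private theorem FlF_inj {G ι : Type} [AddCommGroup G] {s : Finset ι} {f : ι → G} (h : AS s f)
    {i j : ι} (hi : i ∈ s) (hj : j ∈ s) (hij : f i = f j) : i = j := by
  have h1 := h.2 (f j)
  rw [card_le_one] at h1
  exact h1 i (mem_filter.2 ⟨hi, Or.inl hij⟩) j (mem_filter.2 ⟨hj, Or.inl rfl⟩)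

/-- elements of `ks k (Z.image f)` are sums over `k` members of `Z` -/
private theorem FlF_ks {G ι : Type} [AddCommGroup G] {Z : Finset ι} {f : ι → G}
    (hinj : ∀ i ∈ Z, ∀ j ∈ Z, f i = f j → i = j) {k : ℕ} {w : G} (hw : w ∈ ks k (Z.image f)) :
    ∃ R ⊆ Z, R.card = k ∧ ∑ i ∈ R, f i = w := by
  unfold ks at hw
  obtain ⟨U, hU, rfl⟩ := mem_image.1 hw
  obtain ⟨hU1, hU2⟩ := mem_powersetCard.1 hU
  obtain ⟨R, hR, hRU⟩ : ∃ R ⊆ Z, R.image f = U := by
    refine ⟨Z.filter fun i => f i ∈ U, filter_subset _ _, ?_⟩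
    ext y
    rw [mem_image]
    constructor
    · rintro ⟨i, hi, rfl⟩
      exact (mem_filter.1 hi).2
    · intro hy
      obtain ⟨i, hi, rfl⟩ := mem_image.1 (hU1 hy)
      exact ⟨i, mem_filter.2 ⟨hi, hy⟩, rfl⟩
  have hinj' : Set.InjOn f (R : Set ι) := fun i hi j hj hij => hinj i (hR hi) j (hR hj) hij
  refine ⟨R, hR, ?_, ?_⟩
  · rw [← hU2, ← hRU, card_image_of_injOn hinj']
  · rw [← hRU, sum_image hinj']

private theorem FlF_sum {G ι : Type} [AddCommGroup G] {K : AddSubgroup G} {c : G} {f : ι → G}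
    (R : Finset ι) (h : ∀ i ∈ R, f i - c ∈ K) : ∑ i ∈ R, f i - R.card • c ∈ K := by
  have h1 : ∑ i ∈ R, f i - R.card • c = ∑ i ∈ R, (f i - c) := by
    rw [sum_sub_distrib, sum_const]
  rw [h1]
  exact K.sum_mem h

/-- a further member adds at least one sum -/
private theorem FlF_step {G ι : Type} [AddCommGroup G] (R : Finset ι) (f : ι → G) (i : ι)
    (hiR : i ∉ R) (hAp : Aper (FS R f)) (hi : f i ≠ 0) :
    (FS R f).card + 1 ≤ (FS (insert i R) f).card := by
  have hsub : FS R f ⊆ FS (insert i R) f := by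
    intro y hy
    obtain ⟨U, hU, hUy⟩ := mem_FS.1 hy
    exact mem_FS.2 ⟨U, hU.trans (subset_insert _ _), hUy⟩
  by_contra hlt
  have heq : FS R f = FS (insert i R) f := eq_of_subset_of_card_le hsub (by omega)
  apply hi
  refine hAp (f i) fun x hx => ?_
  obtain ⟨U, hU, hUx⟩ := mem_FS.1 hx
  rw [heq]
  refine mem_FS.2 ⟨insert i U, insert_subset_insert _ hU, ?_⟩
  rw [sum_insert fun h => hiR (hU h), hUx, add_comm]

private theorem FlF_grow {G ι : Type} [AddCommGroup G] [Finite G] (hBa : SDG.St_Ba1)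
    (R R0 : Finset ι) (f : ι → G) (hAp : Aper (FS R f)) (h0 : ∀ i ∈ R, f i ≠ 0) (hR0 : R0 ⊆ R) :
    ∀ T : Finset ι, T ⊆ R → Disjoint R0 T → (FS R0 f).card + T.card ≤ (FS (R0 ∪ T) f).card := by
  intro T
  induction T using Finset.induction_on with
  | empty =>
    intro _ _
    rw [card_empty, union_empty, Nat.add_zero]
  | insert i T hiT ih =>
    intro hT hd
    have hT' : T ⊆ R := (subset_insert _ _).trans hT
    have hd' : Disjoint R0 T := disjoint_of_subset_right (subset_insert _ _) hd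
    have h1 := ih hT' hd'
    have hi0 : i ∉ R0 := fun h => (disjoint_left.1 hd h) (mem_insert_self _ _)
    have h2 := FlF_step (R0 ∪ T) f i (by
      rw [mem_union]
      rintro (h | h)
      · exact hi0 h
      · exact hiT h) ((hBa G ι f).2.1 R _ (union_subset hR0 hT') hAp) (h0 i (hT (mem_insert_self _ _)))
    rw [card_insert_of_notMem hiT, union_insert]
    omega

/-- the exceptional case of KSF does not occur -/
private theorem FlF_card {G ι : Type} [AddCommGroup G] [Finite G] (hKS : St_KSF) (hCr : St_Cr)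
    (hBa : SDG.St_Ba1) (hB3 : SSE.St_B3E) (u Z : Finset ι) (f : ι → G) (K : AddSubgroup G) (c : G)
    (hR2 : R2 G) (hAE : AE u f) (hAp : Aper (FS u f)) (hZu : Z ⊆ u) (hZc : ∀ i ∈ Z, f i - c ∈ K)
    (hcard : Nat.card K ≤ Z.card + (ins u f K).card) (hK : Nat.card K = 3 ∨ 5 ≤ Nat.card K)
    (k : ℕ) (hk1 : 1 ≤ k) (hk2 : k + 1 ≤ Z.card) : Z.card ≤ (ks k (Z.image f)).card := by
  have hinj : ∀ i ∈ Z, ∀ j ∈ Z, f i = f j → i = j := fun i hi j hj h =>
    FlF_inj hAE.1 (hZu hi) (hZu hj) h
  have hA : (Z.image f).card = Z.card := card_image_of_injOn fun i hi j hj h => hinj i hi j hj h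
  rcases hKS G (Z.image f) k hk1 (by rw [hA]; exact hk2) with hW | ⟨a0, L, hL2, hAL⟩
  · rw [hA] at hW
    exact hW
  have ha0 : a0 ∈ Z.image f := (hAL a0).2 (by rw [sub_self]; exact L.zero_mem)
  have hLK : L ≤ K := by
    intro y hy
    have h1 : a0 + y ∈ Z.image f := (hAL _).2 (by rw [add_sub_cancel_left]; exact hy)
    obtain ⟨i, hi, hi2⟩ := mem_image.1 h1
    obtain ⟨j, hj, hj2⟩ := mem_image.1 ha0
    have h2 := K.sub_mem (hZc i hi) (hZc j hj)
    rw [hi2, hj2] at h2
    have h3 : a0 + y - c - (a0 - c) = y := by abel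
    rwa [h3] at h2
  have hLZ : Nat.card L = Z.card := by
    rw [← hA]
    have := Fintype.ofFinite G
    have hMc : Nat.card L = (Finset.univ.filter fun x : G => x ∈ L).card := by
      rw [Nat.card_eq_fintype_card, Fintype.card_subtype]
    rw [hMc]
    refine card_bij (fun x _ => a0 + x) (fun x hx => ?_) (fun x _ y _ h => add_left_cancel h)
      (fun y hy => ?_)
    · exact (hAL _).2 (by rw [add_sub_cancel_left]; exact (mem_filter.1 hx).2)
    · exact ⟨y - a0, mem_filter.2 ⟨mem_univ _, (hAL y).1 hy⟩, by abel⟩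
  have hL4 : Nat.card L ≤ 4 := (hCr G hR2).2.2.2.2 L hL2
  have hdvd : Nat.card L ∣ Nat.card K := AddSubgroup.card_dvd_of_le hLK
  have hcases : Nat.card L = 2 ∨ Nat.card L = 3 ∨ Nat.card L = 4 := by omega
  rcases hcases with h2 | h3 | h4
  · -- two elements: `k = 1`
    have hk : k = 1 := by omega
    subst hk
    have hsub : Z.image f ⊆ ks 1 (Z.image f) := by
      intro a ha
      unfold ks
      refine mem_image.2 ⟨{a}, ?_, sum_singleton _ _⟩
      rw [mem_powersetCard]
      exact ⟨singleton_subset_iff.2 ha, card_singleton a⟩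
    rw [← hA]
    exact card_le_card hsub
  · -- three elements are not killed by two
    exfalso
    have hbot : L = ⊥ := by
      rw [eq_bot_iff]
      intro x hx
      have e3 : (3 : ℕ) • x = 0 := by
        have h5 := card_nsmul_eq_zero' (G := L) (x := ⟨x, hx⟩)
        rw [h3] at h5
        exact congrArg Subtype.val h5
      have e2 := hL2 x hx
      rw [AddSubgroup.mem_bot]
      have e4 : (3 : ℕ) • x = (x + x) + x := by
        rw [succ_nsmul, two_nsmul]
      rw [e4, e2, zero_add] at e3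
      exact e3
    rw [hbot, AddSubgroup.card_bot] at h3
    omega
  · -- four elements
    exfalso
    rw [h4] at hdvd
    have hK8 : 8 ≤ Nat.card K := by
      obtain ⟨m, hm⟩ := hdvd
      omega
    have hins : ins u f K ⊆ u := filter_subset _ _
    have hApI : Aper (FS (ins u f K) f) := (hBa G ι f).2.1 u _ hins hAp
    have hb : 4 ≤ (ins u f K).card := by omega
    obtain ⟨R0, hR0, hR0c⟩ := exists_subset_card_eq (s := ins u f K) (n := 3) (by omega)
    have hAE0 : AE R0 f := by
      refine ⟨⟨fun i hi => hAE.1.1 i (hins (hR0 hi)), fun x => ?_⟩,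
        fun i hi => hAE.2 i (hins (hR0 hi))⟩
      exact (card_le_card (filter_subset_filter _ (hR0.trans hins))).trans (hAE.1.2 x)
    have h7 := hB3 G ι R0 f hAE0 (by omega)
    rw [hR0c] at h7
    have hg := FlF_grow hBa (ins u f K) R0 f hApI (fun i hi => hAE.1.1 i (hins hi)) hR0
      (ins u f K \ R0) sdiff_subset disjoint_sdiff
    rw [union_sdiff_of_subset hR0, card_sdiff_of_subset hR0, hR0c] at hg
    -- the sums of the members in `K` do not fill `K`
    have := Fintype.ofFinite G
    have hMc : Nat.card K = (Finset.univ.filter fun x : G => x ∈ K).card := by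
      rw [Nat.card_eq_fintype_card, Fintype.card_subtype]
    have hYK : FS (ins u f K) f ⊆ Finset.univ.filter fun x : G => x ∈ K := by
      intro y hy
      exact mem_filter.2 ⟨mem_univ _, FS_subset_of_mem (fun i hi => (mem_filter.1 hi).2) hy⟩
    have hlt : (FS (ins u f K) f).card < Nat.card K := by
      rw [hMc]
      refine card_lt_card ⟨hYK, fun hsub => ?_⟩
      have heq : FS (ins u f K) f = Finset.univ.filter fun x : G => x ∈ K :=
        Subset.antisymm hYK hsub
      have hKne : ∃ g ∈ K, g ≠ 0 := by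
        by_contra hno
        push Not at hno
        have hbot : K = ⊥ := by
          rw [eq_bot_iff]
          intro x hx
          rw [AddSubgroup.mem_bot]
          exact hno x hx
        rw [hbot, AddSubgroup.card_bot] at hK8
        omega
      obtain ⟨g, hg, hg0⟩ := hKne
      apply hg0
      refine hApI g fun x hx => ?_
      rw [heq] at hx ⊢
      exact mem_filter.2 ⟨mem_univ _, K.add_mem (mem_filter.1 hx).2 hg⟩
    omega

theorem thm_FlF : St_KSF → St_Cr → SDG.St_Sm → SDG.St_Ba1 → SSE.St_B3E → St_FlF := by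
  intro hKS hCr hSm hBa hB3 G ι _ _ u Z f K c hR2 hAE hAp hZu hZc hcK hcard hK x k hk1 hk2 hx
  have hAS : AS u f := hAE.1
  have hinj : ∀ i ∈ Z, ∀ j ∈ Z, f i = f j → i = j := fun i hi j hj h =>
    FlF_inj hAS (hZu hi) (hZu hj) h
  have hins : ins u f K ⊆ u := filter_subset _ _
  have hY : (ins u f K).card + 1 ≤ (FS (ins u f K) f).card :=
    (hSm G ι (ins u f K) f (fun i hi => hAS.1 i (hins hi)) ((hBa G ι f).2.1 u _ hins hAp)).1
  have hW := FlF_card hKS hCr hBa hB3 u Z f K c hR2 hAE hAp hZu hZc hcard hK k hk1 hk2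
  have := Fintype.ofFinite G
  have hMc : Nat.card K = (Finset.univ.filter fun x : G => x ∈ K).card := by
    rw [Nat.card_eq_fintype_card, Fintype.card_subtype]
  have hne : (((ks k (Z.image f)).image fun w => x - w) ∩ FS (ins u f K) f).Nonempty := by
    apply Finset.inter_nonempty_of_card_lt_card_add_card
      (s := Finset.univ.filter fun x : G => x ∈ K)
    · intro y hy
      obtain ⟨w, hw, rfl⟩ := mem_image.1 hy
      obtain ⟨R, hR, hRk, rfl⟩ := FlF_ks hinj hw
      refine mem_filter.2 ⟨mem_univ _, ?_⟩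
      have h1 := FlF_sum R fun i hi => hZc i (hR hi)
      rw [hRk] at h1
      have h2 : x - ∑ i ∈ R, f i = (x - k • c) - (∑ i ∈ R, f i - k • c) := by abel
      rw [h2]
      exact K.sub_mem hx h1
    · intro y hy
      exact mem_filter.2 ⟨mem_univ _, FS_subset_of_mem (fun i hi => (mem_filter.1 hi).2) hy⟩
    · rw [card_image_of_injective _ sub_right_injective, ← hMc]
      omega
  obtain ⟨y, hy⟩ := hne
  rw [mem_inter] at hy
  obtain ⟨w, hw, hwy⟩ := mem_image.1 hy.1
  obtain ⟨R, hR, -, hRw⟩ := FlF_ks hinj hw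
  have hdis : Disjoint Z (ins u f K) := by
    rw [disjoint_left]
    intro i hi hi2
    apply hcK
    have h1 := K.sub_mem (mem_filter.1 hi2).2 (hZc i hi)
    rwa [sub_sub_cancel] at h1
  rw [mem_FS_union hdis]
  refine ⟨w, mem_FS.2 ⟨R, hR, hRw⟩, y, hy.2, ?_⟩
  rw [← hwy]
  abel

end Pool.Agent.SSF
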