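import Mathlib
import Pool.Agent.SSF.St

/-!
# SSF, module GrF (MP_ec93d3_co): the growth alternatives for a family
-/

set_option autoImplicit false

noncomputable section

open Finset Pool.Agent.Helper64.Rho Pool.Agent.SDG Pool.Agent.MDR Pool.Agent.SSC Pool.Agent.SSE
open scoped Classical Pointwise

namespace Pool.Agent.SSF

private lemma GrF_four {G : Type} [AddCommGroup G] [Finite G] (K : AddSubgroup G)
    (h : Nat.card K = 4) : IsAddCyclic K ∨ ∀ x ∈ K, x + x = 0 := by
  by_cases hx : ∀ x ∈ K, x + x = 0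
  · exact Or.inr hx
  · left
    push Not at hx
    obtain ⟨x, hxK, hx2⟩ := hx
    have h1 : addOrderOf (⟨x, hxK⟩ : K) ∣ 4 := by
      rw [← h]
      exact addOrderOf_dvd_natCard _
    have h2 : ¬ addOrderOf (⟨x, hxK⟩ : K) ∣ 2 := by
      intro h2
      have h3 := addOrderOf_dvd_iff_nsmul_eq_zero.1 h2
      apply hx2
      have h4 := congrArg Subtype.val h3
      rw [two_nsmul] at h4
      exact h4
    have h3 : addOrderOf (⟨x, hxK⟩ : K) = 4 := by
      have h4 : addOrderOf (⟨x, hxK⟩ : K) ≤ 4 := Nat.le_of_dvd (by norm_num) h1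
      interval_cases h5 : addOrderOf (⟨x, hxK⟩ : K)
      · simp at h1
      · exact absurd (one_dvd 2) h2
      · exact absurd (dvd_refl 2) h2
      · omega
      · rfl
    exact isAddCyclic_of_addOrderOf_eq_card (⟨x, hxK⟩ : K) (h3.trans h.symm)

theorem thm_GrF : St_GRO → St_Kh2F → St_Kh3F → St_Kh4F → St_KhV → St_GrF := by
  intro hGRO hKh2 hKh3 hKh4 hKhV G ι _ _ u f hR2 hcyc hAE hap hgen hl hDC hN hor
  rcases hGRO G ι u f hR2 hcyc hAE hgen hl hDC hN with ⟨K, hNF, hK4, hAPK⟩ | hB
  · have hH : HKF u f K := ⟨hAE, hap, hl, hNF.2.2, hAPK, hor⟩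
    have hK2 : 2 ≤ Nat.card K := by
      by_contra hc
      have h1 : 0 < Nat.card K := Nat.card_pos
      have h2 : Nat.card K = 1 := by omega
      exact hNF.1 (AddSubgroup.card_eq_one.1 h2)
    have hcases : Nat.card K = 2 ∨ Nat.card K = 3 ∨ Nat.card K = 4 := by omega
    rcases hcases with h | h | h
    · exact Or.inr (Or.inr (Or.inl (hKh2 G ι u f K hH h)))
    · rcases hKh3 G ι u f K hH h with h1 | h1
      · exact Or.inl h1
      · exact Or.inr (Or.inr (Or.inl h1))
    · rcases GrF_four K h with hc | hc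
      · rcases hKh4 G ι u f K hH hc h with h1 | h1
        · exact Or.inr (Or.inl ⟨K, h1⟩)
        · exact Or.inr (Or.inr (Or.inl h1))
      · exact Or.inr (Or.inr (Or.inl (hKhV G ι u f K hH hc h)))
  · exact Or.inr (Or.inr (Or.inr hB))

end Pool.Agent.SSF
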