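import Pool.Agent.SSF.St

/-!
# SSF, HoF: the halves
-/

set_option autoImplicit false

noncomputable section

open Finset Pool.Agent.Helper64.Rho Pool.Agent.SDG Pool.Agent.MDR Pool.Agent.SSC Pool.Agent.SSE
open scoped Classical Pointwise

namespace Pool.Agent.SSF

/-- every proper subgroup is contained in a subgroup of prime index -/
private lemma HoF_prime {G : Type} [AddCommGroup G] [Finite G] (M : AddSubgroup G) (hM : M ≠ ⊤) :
    ∃ M' : AddSubgroup G, M ≤ M' ∧ M'.index.Prime := by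
  obtain ⟨M', hco, hle⟩ := (eq_top_or_exists_le_coatom M).resolve_left hM
  refine ⟨M', hle, ?_⟩
  have hidx : M'.index ≠ 1 := fun h => hco.1 (AddSubgroup.index_eq_one.1 h)
  have hp : M'.index.minFac.Prime := Nat.minFac_prime hidx
  have : Fact M'.index.minFac.Prime := ⟨hp⟩
  have hdvd : M'.index.minFac ∣ Nat.card (G ⧸ M') := Nat.minFac_dvd _
  obtain ⟨q, hq⟩ := exists_prime_addOrderOf_dvd_card' M'.index.minFac hdvd
  have h1 : M' ≤ (AddSubgroup.zmultiples q).comap (QuotientAddGroup.mk' M') := by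
    intro x hx
    rw [AddSubgroup.mem_comap, QuotientAddGroup.mk'_apply, (QuotientAddGroup.eq_zero_iff x).2 hx]
    exact zero_mem _
  have h2 : (AddSubgroup.zmultiples q).comap (QuotientAddGroup.mk' M') = ⊤ := by
    rcases hco.le_iff.1 h1 with h | h
    · exact h
    · exfalso
      obtain ⟨g, rfl⟩ := QuotientAddGroup.mk_surjective q
      have h3 : g ∈ M' := by
        rw [← h, AddSubgroup.mem_comap, QuotientAddGroup.mk'_apply]
        exact AddSubgroup.mem_zmultiples _
      rw [(QuotientAddGroup.eq_zero_iff g).2 h3, addOrderOf_zero] at hq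
      exact hp.one_lt.ne hq
  have h3 : AddSubgroup.zmultiples q = ⊤ := by
    rw [eq_top_iff]
    intro x _
    obtain ⟨g, rfl⟩ := QuotientAddGroup.mk_surjective x
    have h4 : g ∈ (AddSubgroup.zmultiples q).comap (QuotientAddGroup.mk' M') := by
      rw [h2]
      exact AddSubgroup.mem_top g
    exact h4
  have h4 : Nat.card (AddSubgroup.zmultiples q) = addOrderOf q := Nat.card_zmultiples q
  rw [h3, AddSubgroup.card_top, hq] at h4
  have h5 : M'.index = M'.index.minFac := h4
  rw [h5]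
  exact hp

private lemma HoF_split {G ι : Type} [AddCommGroup G] (s : Finset ι) (f : ι → G)
    (M : AddSubgroup G) : (ins s f M).card + (outs s f M).card = s.card :=
  card_filter_add_card_filter_not (s := s) (fun i => f i ∈ M)

private lemma HoF_ins {G ι : Type} [AddCommGroup G] {s s' : Finset ι} (h : s ⊆ s') (f : ι → G)
    (M : AddSubgroup G) : (ins s f M).card ≤ (ins s' f M).card :=
  card_le_card (filter_subset_filter _ h)

private lemma HoF_mono {G ι : Type} [AddCommGroup G] (u : Finset ι) (f : ι → G)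
    {M M' : AddSubgroup G} (hle : M ≤ M') : (outs u f M').card ≤ (outs u f M).card := by
  refine card_le_card fun i hi => ?_
  unfold outs at hi ⊢
  rw [mem_filter] at hi ⊢
  exact ⟨hi.1, fun h => hi.2 (hle h)⟩

private lemma HoF_AS {G ι : Type} [AddCommGroup G] {s s' : Finset ι} {f : ι → G} (h : s' ⊆ s)
    (hs : AS s f) : AS s' f :=
  ⟨fun i hi => hs.1 i (h hi), fun x => (card_le_card (filter_subset_filter _ h)).trans (hs.2 x)⟩

private lemma HoF_union {G ι : Type} [AddCommGroup G] {p r s : Finset ι} (hd : Disjoint p r)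
    (hu : p ∪ r = s) (f : ι → G) (M : AddSubgroup G) :
    (ins p f M).card + (ins r f M).card = (ins s f M).card ∧
      (outs p f M).card + (outs r f M).card = (outs s f M).card := by
  subst hu
  unfold ins outs
  rw [filter_union, filter_union, card_union_of_disjoint, card_union_of_disjoint]
  · exact ⟨rfl, rfl⟩
  · exact disjoint_filter_filter hd
  · exact disjoint_filter_filter hd

/-- the classes modulo `2 G` -/
private lemma HoF_kappa {G : Type} [AddCommGroup G] [Finite G] (hCr : St_Cr) (hR : R2 G) :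
    ∃ κ : G → ℕ, (∀ x, κ (-x) = κ x) ∧ (∀ x, κ x < 4) ∧
      (∀ x y z, κ x = κ y → κ (x + z) = κ (y + z)) ∧
      (∀ M : AddSubgroup G, M.index = 2 → ∀ x y, κ x = κ y → (x ∈ M ↔ y ∈ M)) := by
  obtain ⟨-, c2, c3, -, -⟩ := hCr G hR
  set R : AddSubgroup G := (nsmulAddMonoidHom 2 : G →+ G).range with hRdef
  have hR4 : R.index ≤ 4 := c2 2 Nat.prime_two
  let _ : Fintype (G ⧸ R) := Fintype.ofFinite _
  have hcard : Fintype.card (G ⧸ R) ≤ Fintype.card (Fin 4) := by
    rw [← Nat.card_eq_fintype_card, Fintype.card_fin]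
    exact hR4
  obtain ⟨e⟩ : Nonempty ((G ⧸ R) ↪ Fin 4) := Function.Embedding.nonempty_of_card_le hcard
  refine ⟨fun x => ((e (x : G ⧸ R) : Fin 4) : ℕ), ?_, ?_, ?_, ?_⟩
  · intro x
    have h1 : ((-x : G) : G ⧸ R) = (x : G ⧸ R) := by
      rw [QuotientAddGroup.eq]
      refine ⟨x, ?_⟩
      show 2 • x = _
      rw [two_nsmul, neg_neg]
    simp only [h1]
  · intro x
    exact (e _).2
  · intro x y z h
    have h1 : (x : G ⧸ R) = (y : G ⧸ R) := e.injective (Fin.ext h)
    have h2 : ((x + z : G) : G ⧸ R) = ((y + z : G) : G ⧸ R) := by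
      rw [QuotientAddGroup.mk_add, h1, ← QuotientAddGroup.mk_add]
    simp only [h2]
  · intro M hM x y h
    obtain ⟨z, hz⟩ : -x + y ∈ R := QuotientAddGroup.eq.1 (e.injective (Fin.ext h))
    have h2 : -x + y ∈ M := by
      rw [← hz]
      exact c3 2 M Nat.prime_two hM z
    constructor
    · intro hx
      have h3 := M.add_mem hx h2
      rwa [add_neg_cancel_left] at h3
    · intro hy
      have h3 := M.sub_mem hy h2
      have e1 : y - (-x + y) = x := by abel
      rwa [e1] at h3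

private lemma HoF_img {G : Type} [AddCommGroup G] (κ : G → ℕ)
    (hk : ∀ x y z, κ x = κ y → κ (x + z) = κ (y + z)) (S1 S2 : Finset G) (g : G)
    (h : ∀ x ∈ S1, x + g ∈ S2) : (S1.image κ).card ≤ (S2.image κ).card := by
  let θ : ℕ → ℕ := fun c => if hc : ∃ x ∈ S1, κ x = c then κ (hc.choose + g) else 0
  have hθ : ∀ c ∈ S1.image κ, ∃ x ∈ S1, κ x = c ∧ θ c = κ (x + g) := by
    intro c hc
    have hc' : ∃ x ∈ S1, κ x = c := mem_image.1 hc
    refine ⟨hc'.choose, hc'.choose_spec.1, hc'.choose_spec.2, ?_⟩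
    simp only [θ, dif_pos hc']
  refine card_le_card_of_injOn θ ?_ ?_
  · intro c hc
    obtain ⟨x, hx, -, hx2⟩ := hθ c hc
    rw [hx2]
    exact mem_coe.2 (mem_image_of_mem κ (h x hx))
  · intro c hc c' hc' hcc
    obtain ⟨x, hx, hx1, hx2⟩ := hθ c hc
    obtain ⟨x', hx', hx1', hx2'⟩ := hθ c' hc'
    have e1 : κ (x + g) = κ (x' + g) := by rw [← hx2, ← hx2']; exact hcc
    have e2 := hk _ _ (-g) e1
    rw [add_neg_cancel_right, add_neg_cancel_right] at e2
    rw [← hx1, ← hx1', e2]

/-- at most two classes in and at most two classes outside a subgroup of index 2 -/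
private lemma HoF_two {G : Type} [AddCommGroup G] [Finite G] (κ : G → ℕ) (h4 : ∀ x, κ x < 4)
    (hk : ∀ x y z, κ x = κ y → κ (x + z) = κ (y + z)) (M : AddSubgroup G) (hM : M.index = 2)
    (hkM : ∀ x y, κ x = κ y → (x ∈ M ↔ y ∈ M)) :
    ∃ V W : Finset ℕ, V.card ≤ 2 ∧ W.card ≤ 2 ∧ (∀ x, x ∉ M → κ x ∈ V) ∧ (∀ x, x ∈ M → κ x ∈ W) := by
  let _ : Fintype G := Fintype.ofFinite G
  obtain ⟨g, hg⟩ : ∃ g, g ∉ M := by
    by_contra hcon
    push Not at hcon
    have h1 : M = ⊤ := by
      rw [eq_top_iff]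
      intro x _
      exact hcon x
    rw [h1, AddSubgroup.index_top] at hM
    omega
  set A := (univ : Finset G).filter (fun x => x ∉ M) with hA
  set B := (univ : Finset G).filter (fun x => x ∈ M) with hB
  have h1 : (A.image κ).card ≤ (B.image κ).card := by
    refine HoF_img κ hk A B g fun x hx => ?_
    have hx' := (mem_filter.1 hx).2
    refine mem_filter.2 ⟨mem_univ _, ?_⟩
    rw [AddSubgroup.add_mem_iff_of_index_two hM]
    exact ⟨fun h => absurd h hx', fun h => absurd h hg⟩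
  have h2 : (B.image κ).card ≤ (A.image κ).card := by
    refine HoF_img κ hk B A g fun x hx => ?_
    have hx' := (mem_filter.1 hx).2
    refine mem_filter.2 ⟨mem_univ _, ?_⟩
    intro h
    exact hg ((AddSubgroup.add_mem_cancel_left M hx').1 h)
  have hd : Disjoint (A.image κ) (B.image κ) := by
    rw [disjoint_left]
    intro c hc hc'
    obtain ⟨x, hx, hx1⟩ := mem_image.1 hc
    obtain ⟨y, hy, hy1⟩ := mem_image.1 hc'
    exact (mem_filter.1 hx).2 ((hkM x y (hx1.trans hy1.symm)).2 (mem_filter.1 hy).2)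
  have hs : A.image κ ∪ B.image κ ⊆ range 4 := by
    intro c hc
    rw [mem_union] at hc
    rw [mem_range]
    rcases hc with hc | hc <;> obtain ⟨x, -, rfl⟩ := mem_image.1 hc <;> exact h4 x
  have h5 := card_le_card hs
  rw [card_union_of_disjoint hd, card_range] at h5
  exact ⟨A.image κ, B.image κ, by omega, by omega,
    fun x hx => mem_image_of_mem κ (mem_filter.2 ⟨mem_univ _, hx⟩),
    fun x hx => mem_image_of_mem κ (mem_filter.2 ⟨mem_univ _, hx⟩)⟩

private lemma HoF_cnt {G ι : Type} [AddCommGroup G] (κ : G → ℕ) (s1 s2 : Finset ι) (f : ι → G)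
    (P : G → Prop) [DecidablePred P] (hP : ∀ x y, κ x = κ y → (P x ↔ P y)) (V : Finset ℕ)
    (hV : ∀ x, P x → κ x ∈ V)
    (hb : ∀ c : ℕ, (s1.filter fun i => κ (f i) = c).card ≤ (s2.filter fun i => κ (f i) = c).card + 1) :
    (s1.filter fun i => P (f i)).card ≤ (s2.filter fun i => P (f i)).card + V.card := by
  have e0 : ∀ s : Finset ι, (s.filter fun i => P (f i)).card =
      ∑ c ∈ V, ((s.filter fun i => P (f i)).filter fun i => κ (f i) = c).card := by
    intro s
    refine card_eq_sum_card_fiberwise (f := fun i => κ (f i)) fun i hi => ?_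
    exact mem_coe.2 (hV _ (mem_filter.1 (mem_coe.1 hi)).2)
  rw [e0 s1, e0 s2, card_eq_sum_ones, ← sum_add_distrib]
  refine sum_le_sum fun c _ => ?_
  by_cases h : ∃ x, P x ∧ κ x = c
  · obtain ⟨x, hx, hxc⟩ := h
    have e1 : ∀ s : Finset ι, ((s.filter fun i => P (f i)).filter fun i => κ (f i) = c) =
        s.filter fun i => κ (f i) = c := by
      intro s
      rw [filter_filter]
      refine filter_congr fun i _ => ⟨fun h => h.2, fun h => ⟨?_, h⟩⟩
      exact (hP (f i) x (h.trans hxc.symm)).2 hx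
    rw [e1 s1, e1 s2]
    exact hb c
  · have e1 : ((s1.filter fun i => P (f i)).filter fun i => κ (f i) = c) = ∅ := by
      rw [filter_filter, filter_eq_empty_iff]
      exact fun i _ h2 => h ⟨f i, h2.1, h2.2⟩
    rw [e1, card_empty]
    exact Nat.zero_le _

/-- three subgroups of index 3 -/
private lemma HoF_inter {G : Type} [AddCommGroup G] [Finite G] (hCr : St_Cr) (hR : R2 G)
    (M M' M'' : AddSubgroup G) (h : M.index = 3) (h' : M'.index = 3) (h'' : M''.index = 3)
    (hne : M'' ≠ M) (x : G) (hx : x ∈ M) (hx'' : x ∈ M'') : x ∈ M' := by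
  obtain ⟨-, c2, c3, -, -⟩ := hCr G hR
  set R : AddSubgroup G := (nsmulAddMonoidHom 3 : G →+ G).range with hRdef
  have hR9 : R.index ≤ 9 := c2 3 Nat.prime_three
  have hle : ∀ K : AddSubgroup G, K.index = 3 → R ≤ K := by
    rintro K hK y ⟨z, rfl⟩
    exact c3 3 K Nat.prime_three hK z
  have hidx : (M ⊓ M'').index = 9 := by
    have h1 : M''.relIndex M ∣ M''.index := AddSubgroup.relIndex_dvd_index_of_normal _ _
    rw [h''] at h1
    have h2 : M''.relIndex M ≠ 1 := by
      intro h3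
      rw [AddSubgroup.relIndex_eq_one] at h3
      have h4 : M.relIndex M'' * M''.index = M.index := AddSubgroup.relIndex_mul_index h3
      rw [h, h''] at h4
      have h5 : M.relIndex M'' = 1 := by omega
      rw [AddSubgroup.relIndex_eq_one] at h5
      exact hne (le_antisymm h5 h3)
    have h3 : M''.relIndex M = 3 := ((Nat.dvd_prime Nat.prime_three).1 h1).resolve_left h2
    have h4 : (M ⊓ M'').relIndex M * M.index = (M ⊓ M'').index :=
      AddSubgroup.relIndex_mul_index inf_le_left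
    rw [AddSubgroup.inf_relIndex_left, h3, h] at h4
    omega
  have hle2 : R ≤ M ⊓ M'' := le_inf (hle M h) (hle M'' h'')
  have h5 : R.relIndex (M ⊓ M'') * (M ⊓ M'').index = R.index := AddSubgroup.relIndex_mul_index hle2
  have h6 : R.index ≠ 0 := AddSubgroup.index_ne_zero_of_finite
  have h7 : R.relIndex (M ⊓ M'') = 1 := by
    rw [hidx] at h5
    omega
  rw [AddSubgroup.relIndex_eq_one] at h7
  exact hle M' h' (h7 ⟨hx, hx''⟩)

/-- the exchange -/
private lemma HoF_ex {G ι : Type} [AddCommGroup G] [Finite G] (hCr : St_Cr) (hIx : St_IxF)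
    (hNz : St_NzF) (hXc : St_XcF) (hEx : St_ExF) (t : ℕ) (s : Finset ι) (f : ι → G)
    (hC : CtxF t s f) (ht : 9 ≤ t) (κ : G → ℕ) (k1 : ∀ x, κ (-x) = κ x) (k2 : ∀ x, κ x < 4)
    (p r : Finset ι) (hd : Disjoint p r) (hu : p ∪ r = s) (hp : AS p f) (hr : AS r f)
    (hb : Bal κ p r f) (hpr : p.card ≤ r.card + 1) (hrp : r.card ≤ p.card + 1)
    (M : AddSubgroup G) (hM : M.index = 3) (ho : (outs p f M).card ≤ 1) :
    ∃ p' r' : Finset ι, Disjoint p' r' ∧ p' ∪ r' = s ∧ AS p' f ∧ AS r' f ∧ Bal κ p' r' f ∧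
      p'.card = p.card ∧ r'.card = r.card ∧
      (∀ M' : AddSubgroup G, M'.index = 3 →
        min (outs p f M').card 2 + min (outs r f M').card 2 ≤
          min (outs p' f M').card 2 + min (outs r' f M').card 2) ∧
      min (outs p f M).card 2 + min (outs r f M).card 2 <
          min (outs p' f M).card 2 + min (outs r' f M).card 2 := by
  have hC' := hC
  obtain ⟨-, -, hR, -, hcard, -, -, -, -, -⟩ := hC'
  have hcs : p.card + r.card = t := by
    rw [← card_union_of_disjoint hd, hu, hcard]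
  have hM3 := (hIx G ι t s f M hC ht (by rw [hM]; exact Nat.prime_three)).2.1 hM
  obtain ⟨u1, -⟩ := HoF_union hd hu f M
  have v1 := HoF_split p f M
  have v2 := HoF_split r f M
  have hps : p ⊆ s := by
    rw [← hu]
    exact subset_union_left
  set X := ins p f M with hX
  have hXp : X ⊆ p := filter_subset _ _
  have hXM : ∀ i ∈ X, f i ∈ M := fun i hi => (mem_filter.1 hi).2
  have hXs : X ⊆ ins s f M := filter_subset_filter _ hps
  set X' := X.filter (fun i => ∀ M' : AddSubgroup G, M'.index = 3 → M' ≠ M → f i ∉ M') with hX'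
  have hX'X : X' ⊆ X := filter_subset _ _
  have h3 : 3 ≤ X'.card := by
    by_cases hex : ∃ M' : AddSubgroup G, M'.index = 3 ∧ M' ≠ M
    · obtain ⟨M', hM', hne⟩ := hex
      have h1 := hNz G ι t s X f M M' hC ht hM hM' hne.symm hXs (HoF_AS hXp hp) (by omega)
        (fun h => by omega)
      refine h1.trans (card_le_card ?_)
      intro i hi
      unfold outs at hi
      rw [mem_filter] at hi
      refine mem_filter.2 ⟨hi.1, fun M'' hM'' hne'' hi'' => ?_⟩
      exact hi.2 (HoF_inter hCr hR M M' M'' hM hM' hM'' hne'' (f i) (hXM i hi.1) hi'')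
    · have h1 : X' = X := by
        rw [hX', filter_eq_self]
        exact fun i _ M' hM' hne => absurd ⟨M', hM', hne⟩ hex
      rw [h1]
      omega
  have halt : (p.card ≤ r.card + 1 ∧ ∀ j ∈ r, f j ∉ M) ∨
      (p.card + 1 = r.card ∧ (outs p f M).card = 1 ∧ (ins r f M).card ≤ 1) := by
    by_cases hr0 : (ins r f M).card = 0
    · left
      refine ⟨hpr, fun j hj hjM => ?_⟩
      rw [card_eq_zero] at hr0
      have h1 : j ∈ ins r f M := mem_filter.2 ⟨hj, hjM⟩
      rw [hr0] at h1
      exact notMem_empty j h1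
    · right
      refine ⟨by omega, by omega, by omega⟩
  obtain ⟨x, hx, y, hy, hyM, hxy, hfx, hfy⟩ := hEx G ι p r X' f κ M hd hp hr hb k1 k2
    (hX'X.trans hXp) (fun i hi => hXM i (hX'X hi)) h3 ho halt
  have hxX := hX'X hx
  have hxp := hXp hxX
  have hxM := hXM x hxX
  obtain ⟨w1, w2, w3, w4, w5, w6, w7, w8, w9⟩ := hXc G ι p r f κ x y hd hp hr hb hxp hy hxy hfx hfy
  refine ⟨_, _, w1, w2.trans hu, w3, w4, w7, w5, w6, ?_, ?_⟩
  · intro M' hM'
    by_cases hMM : M' = M
    · subst hMM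
      have a1 := w8 M'
      have a2 := w9 M'
      rw [if_pos hxM, if_neg hyM] at a1 a2
      omega
    · have hxM' : f x ∉ M' := (mem_filter.1 hx).2 M' hM' hMM
      have a1 := w8 M'
      have a2 := w9 M'
      rw [if_neg hxM'] at a1 a2
      have a3 : X'.card ≤ (outs p f M').card := by
        refine card_le_card fun i hi => ?_
        refine mem_filter.2 ⟨hXp (hX'X hi), ?_⟩
        exact (mem_filter.1 hi).2 M' hM' hMM
      have a4 : (if f y ∈ M' then 0 else 1) ≤ 1 := by
        split <;> omega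
      omega
  · have a1 := w8 M
    have a2 := w9 M
    rw [if_pos hxM, if_neg hyM] at a1 a2
    omega

/-- overgroups when the quotient is cyclic -/
private lemma HoF_over {G : Type} [AddCommGroup G] [Finite G] (M : AddSubgroup G) (x : G)
    (hx : ∀ g : G, ∃ k : ℕ, g - k • x ∈ M) (d : ℕ) (hd : d ∣ M.index) :
    ∃ M' : AddSubgroup G, M ≤ M' ∧ M'.index = d := by
  have hn : M.index ≠ 0 := AddSubgroup.index_ne_zero_of_finite
  have hd0 : d ≠ 0 := fun h => hn (by rw [h] at hd; exact Nat.eq_zero_of_zero_dvd hd)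
  set q : G ⧸ M := (x : G ⧸ M) with hq
  have htop : AddSubgroup.zmultiples q = ⊤ := by
    rw [eq_top_iff]
    intro z _
    obtain ⟨g, rfl⟩ := QuotientAddGroup.mk_surjective z
    obtain ⟨k, hk⟩ := hx g
    refine ⟨(k : ℤ), ?_⟩
    show (k : ℤ) • q = _
    rw [natCast_zsmul, hq, ← QuotientAddGroup.mk_nsmul, QuotientAddGroup.eq]
    have e1 : -(k • x) + g = g - k • x := by abel
    rw [e1]
    exact hk
  have hord : addOrderOf q = M.index := by
    rw [← Nat.card_zmultiples q, htop, AddSubgroup.card_top]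
    rfl
  have hord2 : addOrderOf (d • q) = M.index / d := by
    rw [addOrderOf_nsmul_of_dvd hd0 (by rw [hord]; exact hd), hord]
  refine ⟨(AddSubgroup.zmultiples (d • q)).comap (QuotientAddGroup.mk' M), ?_, ?_⟩
  · intro g hg
    rw [AddSubgroup.mem_comap, QuotientAddGroup.mk'_apply, (QuotientAddGroup.eq_zero_iff g).2 hg]
    exact zero_mem _
  · rw [AddSubgroup.index_comap_of_surjective _ (QuotientAddGroup.mk'_surjective M)]
    have h1 := AddSubgroup.card_mul_index (AddSubgroup.zmultiples (d • q))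
    rw [Nat.card_zmultiples, hord2] at h1
    have h2 : Nat.card (G ⧸ M) = M.index := rfl
    rw [h2] at h1
    obtain ⟨e, he⟩ := hd
    rw [he, Nat.mul_div_cancel_left e (Nat.pos_of_ne_zero hd0)] at h1
    have he0 : 0 < e := by
      rcases Nat.eq_zero_or_pos e with h | h
      · rw [h, mul_zero] at he
        exact absurd he hn
      · exact h
    rw [mul_comm d e] at h1
    exact Nat.eq_of_mul_eq_mul_left he0 h1

/-- claim 4 -/
private lemma HoF_sep {G ι : Type} [AddCommGroup G] [Finite G] (hI4 : St_I4F) (t : ℕ)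
    (s : Finset ι) (f : ι → G) (hC : CtxF t s f) (ht : 9 ≤ t) (u : Finset ι) (hus : u ⊆ s)
    (hu : AS u f) (hcu : t / 2 ≤ u.card)
    (h1 : ∀ M : AddSubgroup G, M ≠ ⊤ → 1 ≤ (outs u f M).card)
    (h2 : ∀ M : AddSubgroup G, M.index.Prime → M.index ≠ 2 → 2 ≤ (outs u f M).card) : Sep u f := by
  intro M hM hM2
  by_contra hcon
  have h3 : (outs u f M).card = 1 := by
    have := h1 M hM
    omega
  obtain ⟨i0, hi0⟩ := card_eq_one.1 h3
  have hi0' : i0 ∈ outs u f M := by
    rw [hi0]
    exact mem_singleton_self _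
  have hiu : i0 ∈ u := mem_of_mem_filter i0 hi0'
  have hin : ∀ i ∈ u, i ≠ i0 → f i ∈ M := by
    intro i hi hne
    by_contra hiM
    have h4 : i ∈ outs u f M := mem_filter.2 ⟨hi, hiM⟩
    rw [hi0, mem_singleton] at h4
    exact hne h4
  -- the quotient is generated by `f i0`
  have hgen : ∀ g : G, ∃ k : ℕ, g - k • f i0 ∈ M := by
    have htop : M ⊔ AddSubgroup.zmultiples (f i0) = ⊤ := by
      by_contra hne
      have h4 := h1 _ hne
      obtain ⟨j, hj⟩ := card_pos.1 (by omega : 0 < (outs u f (M ⊔ AddSubgroup.zmultiples (f i0))).card)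
      obtain ⟨hj1, hj2⟩ := mem_filter.1 hj
      by_cases hji : j = i0
      · apply hj2
        rw [hji]
        exact AddSubgroup.mem_sup_right (AddSubgroup.mem_zmultiples _)
      · exact hj2 (AddSubgroup.mem_sup_left (hin j hj1 hji))
    intro g
    have hg : g ∈ M ⊔ AddSubgroup.zmultiples (f i0) := by
      rw [htop]
      exact AddSubgroup.mem_top g
    obtain ⟨m, hm, z, hz, rfl⟩ := AddSubgroup.mem_sup.1 hg
    have hz' : z ∈ AddSubmonoid.multiples (f i0) := mem_multiples_iff_mem_zmultiples.2 hz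
    obtain ⟨k, hk⟩ := hz'
    refine ⟨k, ?_⟩
    have hk' : k • f i0 = z := hk
    rw [hk', add_sub_cancel_right]
    exact hm
  have hn : M.index ≠ 0 := AddSubgroup.index_ne_zero_of_finite
  have hn1 : M.index ≠ 1 := fun h => hM (AddSubgroup.index_eq_one.1 h)
  have hp2 : ∀ p : ℕ, p.Prime → p ∣ M.index → p = 2 := by
    intro p hp hpd
    by_contra hne
    obtain ⟨M', hle, hidx⟩ := HoF_over M (f i0) hgen p hpd
    have h5 := h2 M' (by rw [hidx]; exact hp) (by rw [hidx]; exact hne)
    have h6 := HoF_mono u f hle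
    omega
  have h4 : 4 ∣ M.index := by
    obtain ⟨p, hp, hpd⟩ := Nat.exists_prime_and_dvd hn1
    obtain rfl := hp2 p hp hpd
    obtain ⟨m, hm⟩ := hpd
    have hm1 : m ≠ 1 := by
      intro h
      rw [h] at hm
      exact hM2 hm
    obtain ⟨q, hq, hqd⟩ := Nat.exists_prime_and_dvd hm1
    obtain rfl := hp2 q hq (hm ▸ hqd.mul_left 2)
    obtain ⟨k, hk⟩ := hqd
    exact ⟨k, by rw [hm, hk]; ring⟩
  obtain ⟨M4, hle, hidx⟩ := HoF_over M (f i0) hgen 4 h4
  have h5 := hI4 G ι t s (u.erase i0) f M4 (f i0) hC ht hidx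
    (fun g => (hgen g).imp fun k hk => hle hk)
    (fun i hi => mem_filter.2 ⟨hus (mem_of_mem_erase hi),
      hle (hin i (mem_of_mem_erase hi) (ne_of_mem_erase hi))⟩)
    (HoF_AS (erase_subset _ _) hu)
  rw [card_erase_of_mem hiu] at h5
  omega

theorem thm_HoF : SDG.St_Ba1 → St_Cr → St_IxF → St_I4F → St_NzF → St_SpF → St_XcF → St_ExF →
    St_HoF := by
  intro _ hCr hIx hI4 hNz hSp hXc hEx G ι _ _ t s f hC ht
  have hC' := hC
  obtain ⟨-, -, hR, -, hcard, hne, hcap, -, -, -⟩ := hC'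
  obtain ⟨κ, k1, k2, k3, k4⟩ := HoF_kappa hCr hR
  -- the set of all splittings
  set Q : Finset (Finset ι × Finset ι) := (s.powerset ×ˢ s.powerset).filter (fun a =>
    Disjoint a.1 a.2 ∧ a.1 ∪ a.2 = s ∧ AS a.1 f ∧ AS a.2 f ∧ Bal κ a.1 a.2 f ∧
      a.1.card = (t + 1) / 2 ∧ a.2.card = t / 2) with hQ
  have hQmem : ∀ a b : Finset ι, (a, b) ∈ Q ↔ Disjoint a b ∧ a ∪ b = s ∧ AS a f ∧ AS b f ∧
      Bal κ a b f ∧ a.card = (t + 1) / 2 ∧ b.card = t / 2 := by
    intro a b
    rw [hQ, mem_filter, mem_product, mem_powerset, mem_powerset]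
    constructor
    · exact fun h => h.2
    · intro h
      refine ⟨⟨?_, ?_⟩, h⟩
      · show a ⊆ s
        rw [← h.2.1]
        exact subset_union_left
      · show b ⊆ s
        rw [← h.2.1]
        exact subset_union_right
  have hQne : Q.Nonempty := by
    obtain ⟨s1, s2, g1, g2, g3, g4, g5, g6, g7⟩ := hSp G ι s f κ hne hcap k1
    rw [hcard] at g5 g6
    exact ⟨(s1, s2), (hQmem s1 s2).2 ⟨g1, g2, g3, g4, g7, g5, g6⟩⟩
  have hfin : {M : AddSubgroup G | M.index = 3}.Finite := Set.toFinite _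
  set I3 := hfin.toFinset with hI3
  have hI3m : ∀ M : AddSubgroup G, M ∈ I3 ↔ M.index = 3 := fun M => Set.Finite.mem_toFinset hfin
  obtain ⟨⟨s1, s2⟩, hin, hmax⟩ := exists_max_image Q (fun a => ∑ M ∈ I3,
    (min (outs a.1 f M).card 2 + min (outs a.2 f M).card 2)) hQne
  obtain ⟨hd, hun, hA1, hA2, hb, hc1, hc2⟩ := (hQmem s1 s2).1 hin
  have hsub1 : s1 ⊆ s := by
    rw [← hun]
    exact subset_union_left
  have hsub2 : s2 ⊆ s := by
    rw [← hun]
    exact subset_union_right
  -- claim 1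
  have cl1 : ∀ M : AddSubgroup G, M.index = 3 → 2 ≤ (outs s1 f M).card ∧ 2 ≤ (outs s2 f M).card := by
    intro M hM
    constructor
    · by_contra hcon
      obtain ⟨p', r', g1, g2, g3, g4, g5, g6, g7, g8, g9⟩ := HoF_ex hCr hIx hNz hXc hEx t s f hC ht κ
        k1 k2 s1 s2 hd hun hA1 hA2 hb (by omega) (by omega) M hM (by omega)
      have h1 := hmax (p', r') ((hQmem p' r').2 ⟨g1, g2, g3, g4, g5, g6.trans hc1, g7.trans hc2⟩)
      have h2 : ∑ M ∈ I3, (min (outs s1 f M).card 2 + min (outs s2 f M).card 2) <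
          ∑ M ∈ I3, (min (outs p' f M).card 2 + min (outs r' f M).card 2) :=
        sum_lt_sum (fun M' hM' => g8 M' ((hI3m M').1 hM')) ⟨M, (hI3m M).2 hM, g9⟩
      exact absurd h1 (not_le.2 h2)
    · by_contra hcon
      obtain ⟨p', r', g1, g2, g3, g4, g5, g6, g7, g8, g9⟩ := HoF_ex hCr hIx hNz hXc hEx t s f hC ht κ
        k1 k2 s2 s1 hd.symm ((union_comm _ _).trans hun) hA2 hA1 (fun c => (hb c).symm) (by omega)
        (by omega) M hM (by omega)
      have h1 := hmax (r', p') ((hQmem r' p').2 ⟨g1.symm, (union_comm _ _).trans g2, g4, g3,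
        fun c => (g5 c).symm, g7.trans hc1, g6.trans hc2⟩)
      have h2 : ∑ M ∈ I3, (min (outs s1 f M).card 2 + min (outs s2 f M).card 2) <
          ∑ M ∈ I3, (min (outs r' f M).card 2 + min (outs p' f M).card 2) := by
        refine sum_lt_sum (fun M' hM' => ?_) ⟨M, (hI3m M).2 hM, ?_⟩
        · have h3 := g8 M' ((hI3m M').1 hM')
          omega
        · omega
      exact absurd h1 (not_le.2 h2)
  -- claim 2
  have cl2 : ∀ M : AddSubgroup G, M.index = 2 →
      1 ≤ (outs s1 f M).card ∧ 1 ≤ (outs s2 f M).card ∧ (t % 2 = 1 → 2 ≤ (outs s1 f M).card) := by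
    intro M hM
    have h4 := (hIx G ι t s f M hC ht (by rw [hM]; exact Nat.prime_two)).2.2 hM
    obtain ⟨-, u2⟩ := HoF_union hd hun f M
    obtain ⟨V, W, hV2, hW2, hV, hW⟩ := HoF_two κ k2 k3 M hM (k4 M hM)
    have a1 : (outs s1 f M).card ≤ (outs s2 f M).card + V.card :=
      HoF_cnt κ s1 s2 f (fun x => x ∉ M) (fun x y h => not_congr (k4 M hM x y h)) V hV
        (fun c => (hb c).1)
    have a2 : (outs s2 f M).card ≤ (outs s1 f M).card + V.card :=
      HoF_cnt κ s2 s1 f (fun x => x ∉ M) (fun x y h => not_congr (k4 M hM x y h)) V hV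
        (fun c => (hb c).2)
    have a3 : (ins s1 f M).card ≤ (ins s2 f M).card + W.card :=
      HoF_cnt κ s1 s2 f (fun x => x ∈ M) (fun x y h => k4 M hM x y h) W hW
        (fun c => (hb c).1)
    have b1 := HoF_split s1 f M
    have b2 := HoF_split s2 f M
    refine ⟨by omega, by omega, fun h => by omega⟩
  -- claim 3
  have cl3 : ∀ M : AddSubgroup G, M.index.Prime → M.index ≠ 2 →
      2 ≤ (outs s1 f M).card ∧ 2 ≤ (outs s2 f M).card := by
    intro M hp hM2
    by_cases h3 : M.index = 3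
    · exact cl1 M h3
    · have h5 : 5 ≤ M.index := by
        have h2' := hp.two_le
        have h4 : M.index ≠ 4 := by
          intro h
          rw [h] at hp
          exact absurd hp (by norm_num)
        omega
      have h6 := (hIx G ι t s f M hC ht hp).1 h5
      have a1 := HoF_split s1 f M
      have a2 := HoF_split s2 f M
      have b1 := HoF_ins hsub1 f M
      have b2 := HoF_ins hsub2 f M
      constructor <;> omega
  have cl4 : ∀ M : AddSubgroup G, M ≠ ⊤ →
      1 ≤ (outs s1 f M).card ∧ 1 ≤ (outs s2 f M).card ∧ (t % 2 = 1 → 2 ≤ (outs s1 f M).card) := by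
    intro M hM
    obtain ⟨M', hle, hp⟩ := HoF_prime M hM
    have m1 := HoF_mono s1 f hle
    have m2 := HoF_mono s2 f hle
    by_cases h2 : M'.index = 2
    · obtain ⟨e1, e2, e3⟩ := cl2 M' h2
      exact ⟨e1.trans m1, e2.trans m2, fun h => (e3 h).trans m1⟩
    · obtain ⟨e1, e2⟩ := cl3 M' hp h2
      refine ⟨by omega, by omega, fun _ => by omega⟩
  refine ⟨s1, s2, hd, hun, hA1, hA2, hc1, hc2, fun M hM => ⟨(cl4 M hM).1, (cl4 M hM).2.1⟩, ?_, ?_,
    fun h M hM => (cl4 M hM).2.2 h⟩
  · exact HoF_sep hI4 t s f hC ht s1 hsub1 hA1 (by omega) (fun M hM => (cl4 M hM).1)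
      (fun M hp h2 => (cl3 M hp h2).1)
  · exact HoF_sep hI4 t s f hC ht s2 hsub2 hA2 (by omega) (fun M hM => (cl4 M hM).2.1)
      (fun M hp h2 => (cl3 M hp h2).2)

end Pool.Agent.SSF
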