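import Pool.Agent.SSF.St
import Pool.Agent.SDG.P1

/-!
# SSF, IxF: subgroups of prime index with many members (adapted from SSE/IxE.lean)
-/

set_option autoImplicit false

noncomputable section

open Finset Pool.Agent.Helper64.Rho Pool.Agent.SDG Pool.Agent.MDR Pool.Agent.SSC Pool.Agent.SSE
open scoped Classical Pointwise

namespace Pool.Agent.SSF

/-- a proper nonempty subset of a group of prime order is moved by every nonzero element -/
private theorem IxF_move {Q : Type} [AddCommGroup Q] [Finite Q] [DecidableEq Q] {p : ℕ} (hp : p.Prime)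
    (hQ : Nat.card Q = p) (A : Finset Q) (hA : A.Nonempty) (hAc : A.card < p) {x : Q} (hx : x ≠ 0) :
    A.card + 1 ≤ (A ∪ A.image (· + x)).card := by
  by_contra hcon
  have h1 : A ∪ A.image (· + x) = A := by
    refine (eq_of_subset_of_card_le subset_union_left (by omega)).symm
  obtain ⟨L, hL⟩ := P1_per A
  have hxL : x ∈ L := by
    rw [hL]
    intro y hy
    rw [← h1]
    exact mem_union_right _ (mem_image.2 ⟨y, hy, rfl⟩)
  have hpf : Fact p.Prime := ⟨hp⟩
  have htop : AddSubgroup.zmultiples x = ⊤ := by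
    apply zmultiples_eq_top_of_prime_card hQ hx
  have hLtop : L = ⊤ := by
    rw [eq_top_iff, ← htop, AddSubgroup.zmultiples_le]
    exact hxL
  obtain ⟨a, ha⟩ := hA
  have := Fintype.ofFinite Q
  have h2 : A = univ := by
    ext y
    refine ⟨fun _ => mem_univ _, fun _ => ?_⟩
    have h3 : y - a ∈ L := by rw [hLtop]; trivial
    have h4 := (hL (y - a)).1 h3 a ha
    rwa [add_sub_cancel] at h4
  rw [h2, card_univ, ← Nat.card_eq_fintype_card, hQ] at hAc
  exact lt_irrefl _ hAc

/-- classes of sums -/
private theorem IxF_classes {G ι : Type} [AddCommGroup G] [Finite G] (f : ι → G)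
    (M : AddSubgroup G) (hp : M.index.Prime) (R : Finset ι) (hR : ∀ i ∈ R, f i ∉ M)
    (hRc : R.card + 1 ≤ M.index) :
    R.card + 1 ≤ ((FS R f).image fun x => (QuotientAddGroup.mk x : G ⧸ M)).card := by
  induction R using Finset.induction_on with
  | empty => simp
  | insert r R hr ih =>
    have ih' := ih (fun i hi => hR i (mem_insert_of_mem hi)) (by
      rw [card_insert_of_notMem hr] at hRc; omega)
    rw [card_insert_of_notMem hr] at hRc ⊢
    have h1 : ((FS (insert r R) f).image fun x => (QuotientAddGroup.mk x : G ⧸ M)) =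
        ((FS R f).image fun x => (QuotientAddGroup.mk x : G ⧸ M)) ∪
          (((FS R f).image fun x => (QuotientAddGroup.mk x : G ⧸ M)).image
            (· + (QuotientAddGroup.mk (f r) : G ⧸ M))) := by
      rw [FS_insert hr, image_union, image_image, image_image]
      rfl
    rw [h1]
    by_cases hbig : R.card + 2 ≤ ((FS R f).image fun x => (QuotientAddGroup.mk x : G ⧸ M)).card
    · exact (le_trans (by omega) (card_le_card subset_union_left))
    · have hx : (QuotientAddGroup.mk (f r) : G ⧸ M) ≠ 0 := by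
        intro h
        exact hR r (mem_insert_self _ _) ((QuotientAddGroup.eq_zero_iff _).1 h)
      have h2 := IxF_move (Q := G ⧸ M) hp (M.index_eq_card).symm
        ((FS R f).image fun x => (QuotientAddGroup.mk x : G ⧸ M))
        ⟨_, mem_image.2 ⟨0, zero_mem_FS _ _, rfl⟩⟩ (by omega) hx
      omega

/-- many sums -/
private theorem IxF_mul {G ι : Type} [AddCommGroup G] [Finite G] (I R : Finset ι) (f : ι → G)
    (M : AddSubgroup G) (hd : Disjoint I R) (hI : ∀ i ∈ I, f i ∈ M) :
    ((FS R f).image fun x => (QuotientAddGroup.mk x : G ⧸ M)).card * (FS I f).card ≤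
      (FS (I ∪ R) f).card := by
  have hrep : ∀ q ∈ (FS R f).image fun x => (QuotientAddGroup.mk x : G ⧸ M),
      ∃ z ∈ FS R f, (QuotientAddGroup.mk z : G ⧸ M) = q := fun q hq => mem_image.1 hq
  choose! z hz hzq using hrep
  rw [← card_product]
  apply card_le_card_of_injOn (fun r => r.2 + z r.1)
  · intro r hr
    rw [mem_coe, mem_product] at hr
    rw [mem_coe, mem_FS_union hd]
    exact ⟨r.2, hr.2, z r.1, hz _ hr.1, rfl⟩
  · rintro ⟨q, y⟩ hr ⟨q', y'⟩ hr' heq
    rw [mem_coe, mem_product] at hr hr'
    simp only at heq hr hr'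
    have hy : y ∈ M := FS_subset_of_mem hI hr.2
    have hy' : y' ∈ M := FS_subset_of_mem hI hr'.2
    have h1 : q = q' := by
      rw [← hzq q hr.1, ← hzq q' hr'.1, QuotientAddGroup.eq]
      have h2 : - z q + z q' = y - y' := by
        have h3 : y = y' + z q' - z q := by rw [← heq]; abel
        rw [h3]
        abel
      rw [h2]
      exact M.sub_mem hy hy'
    subst h1
    have h2 : y = y' := add_right_cancel heq
    rw [h2]

theorem thm_IxF : SDG.St_Nm1 → SDG.St_Ba1 → SDG.St_Kn → SDG.St_Sm → SSC.St_Nu → SSE.St_NuE → St_IxF := by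
  intro _ hBa1 hKn _ hNu hNuE G ι _ _ t s f M hCtx ht9 hp
  obtain ⟨hPF, -, hCls, -, hst, hnz, hcap, hap, hgen, hvio⟩ := hCtx
  obtain ⟨hNu1, hNu2, hNu3, -, -⟩ := hNu
  obtain ⟨hB1, hBsub, -⟩ := hBa1 G ι f
  obtain ⟨I, hI⟩ : ∃ I, I = ins s f M := ⟨_, rfl⟩
  obtain ⟨O, hO⟩ : ∃ O, O = outs s f M := ⟨_, rfl⟩
  have hIs : I ⊆ s := hI ▸ filter_subset _ _
  have hOs : O ⊆ s := hO ▸ filter_subset _ _
  have hIM : ∀ i ∈ I, f i ∈ M := fun i hi => by
    rw [hI] at hi; exact (mem_filter.1 hi).2
  have hOM : ∀ i ∈ O, f i ∉ M := fun i hi => by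
    rw [hO] at hi; exact (mem_filter.1 hi).2
  have hIO : Disjoint I O := by
    rw [disjoint_left]
    exact fun i hi hi2 => hOM i hi2 (hIM i hi)
  have hIOs : I ∪ O = s := by
    rw [hI, hO]
    unfold ins outs
    exact filter_union_filter_not_eq _ _
  have hcard : I.card + O.card = t := by
    rw [← hst, ← hIOs, card_union_of_disjoint hIO]
  have hO1 : 1 ≤ O.card := by
    by_contra hcon
    have h0 : O = ∅ := by rw [← card_eq_zero]; omega
    have hMtop : M = ⊤ := by
      rw [eq_top_iff, ← hgen]
      unfold gen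
      rw [AddSubgroup.closure_le]
      rintro _ ⟨i, hi, rfl⟩
      have hi' : i ∈ I ∪ O := by rw [hIOs]; exact hi
      rw [h0, union_empty] at hi'
      exact hIM i hi'
    rw [hMtop, AddSubgroup.index_top] at hp
    exact Nat.not_prime_one hp
  have hcapsub : ∀ v ⊆ s, Cap 2 v f := fun v hv => P1_cap_mono le_rfl hv hcap
  have hPFv : ∀ v ⊆ s, v.card < t → cf 2 v.card ≤ (FS v f).card := fun v hv hvt =>
    hPF v.card hvt G ι v f hCls rfl (fun i hi => hnz i (hv hi)) (hcapsub v hv) (hBsub s v hv hap)
  have hIc := hPFv I hIs (by omega)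
  -- the basic bound
  have hmain : ∀ r, 1 ≤ r → r + 1 ≤ M.index → r ≤ O.card →
      (r + 1) * cf 2 I.card + cf 2 (O.card - r) ≤ (FS s f).card + 1 := by
    intro r hr1 hr2 hr3
    obtain ⟨R, hRO, hRc⟩ := exists_subset_card_eq hr3
    have hIR : Disjoint I R := hIO.mono_right hRO
    have h1 := IxF_classes f M hp R (fun i hi => hOM i (hRO hi)) (by omega)
    have h2 := IxF_mul I R f M hIR hIM
    have h3 : (r + 1) * cf 2 I.card ≤ (FS (I ∪ R) f).card := by
      refine le_trans ?_ h2
      rw [hRc] at h1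
      exact Nat.mul_le_mul h1 hIc
    have hd : Disjoint (I ∪ R) (O \ R) := by
      rw [disjoint_union_left]
      exact ⟨hIO.mono_right sdiff_subset, disjoint_sdiff⟩
    have hun : (I ∪ R) ∪ (O \ R) = s := by
      rw [union_assoc, union_sdiff_of_subset hRO, hIOs]
    have h4 := hB1 (I ∪ R) (O \ R) hd
    rw [hun] at h4
    have h5 := (hKn G).1 (FS (I ∪ R) f) (FS (O \ R) f) ⟨0, zero_mem_FS _ _⟩ ⟨0, zero_mem_FS _ _⟩
      (by rw [← h4]; exact hap)
    rw [← h4] at h5
    have hOR : (O \ R).card = O.card - r := by rw [card_sdiff_of_subset hRO, hRc]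
    have h6 := hPFv (O \ R) (sdiff_subset.trans hOs) (by omega)
    rw [hOR] at h6
    omega
  have hcf0 : cf 2 0 = 1 := by decide
  have hfull : O.card + 1 ≤ M.index → (O.card + 1) * cf 2 I.card ≤ (FS s f).card := by
    intro h
    have h1 := hmain O.card hO1 h le_rfl
    rw [Nat.sub_self, hcf0] at h1
    omega
  rw [← hI, ← hO]
  refine ⟨?_, ?_, ?_⟩
  · intro hp5
    by_contra hcon
    by_cases he : O.card ≤ 3
    · have h1 := hfull (by omega)
      have h2 := hNu1 t I.card O.card ht9 hcard hO1 he
      omega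
    · have h1 := hmain 4 (by omega) (by omega) (by omega)
      have h2 := hNu2 t I.card O.card ht9 hcard (by omega) (by omega)
      omega
  · intro hp3
    by_contra hcon
    by_cases he : O.card ≤ 1
    · have h1 := hfull (by omega)
      have h2 := hNu1 t I.card O.card ht9 hcard hO1 (by omega)
      omega
    · have h1 := hmain 2 (by omega) (by omega) (by omega)
      have h2 := hNu3 t I.card O.card ht9 hcard (by omega) (by omega)
      omega
  · intro hp2
    by_contra hcon
    obtain ⟨hE1, hE2, hE3⟩ := hNuE t ht9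
    have h1 := hmain 1 le_rfl (by omega) hO1
    obtain he | he | he : O.card = 1 ∨ O.card = 2 ∨ O.card = 3 := by omega
    · have e : I.card = t - 1 := by omega
      rw [he, Nat.sub_self, hcf0, e] at h1
      omega
    · have e : I.card = t - 2 := by omega
      rw [he, e] at h1
      norm_num at h1
      omega
    · have e : I.card = t - 3 := by omega
      rw [he, e] at h1
      norm_num at h1
      omega

end Pool.Agent.SSF
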