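import Pool.Agent.SSF.St

/-!
# SSF, module KgF: one half exceptional, the other half has one more member
-/

set_option autoImplicit false

noncomputable section

open Finset Pool.Agent.Helper64.Rho Pool.Agent.SDG Pool.Agent.MDR Pool.Agent.SSC Pool.Agent.SSE
open scoped Classical Pointwise

namespace Pool.Agent.SSF

/-- at most three members of each level -/
private lemma KgF_fib {G ι : Type} [AddCommGroup G] [Finite G] {S : Finset ι} {f : ι → G}
    {K : AddSubgroup G} {d : G} {lv : ι → ℕ} (hK : Nat.card K = 3) (hS : AS S f)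
    (hl : ∀ i ∈ S, f i - lv i • d ∈ K) (k : ℕ) : (S.filter fun i => lv i = k).card ≤ 3 := by
  have hinj : ∀ i ∈ S, ∀ j ∈ S, f i = f j → i = j := by
    intro i hi j hj h
    exact Finset.card_le_one.1 (hS.2 (f i)) i (mem_filter.2 ⟨hi, Or.inl rfl⟩) j
      (mem_filter.2 ⟨hj, Or.inl h.symm⟩)
  have hm : ∀ i : (S.filter fun i => lv i = k), f i - k • d ∈ K := by
    intro i
    have h1 := mem_filter.1 i.2
    have h2 := hl _ h1.1
    rwa [h1.2] at h2
  have h2 : Function.Injective
      (fun i : (S.filter fun i => lv i = k) => (⟨f i - k • d, hm i⟩ : K)) := by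
    intro i j h
    have h3 : f i - k • d = f j - k • d := congrArg Subtype.val h
    exact Subtype.ext (hinj _ (mem_filter.1 i.2).1 _ (mem_filter.1 j.2).1 (sub_left_injective h3))
  have h3 := Nat.card_le_card_of_injective _ h2
  rw [hK, Nat.card_eq_fintype_card, Fintype.card_coe] at h3
  exact h3

/-- two elements of the top level of a subfamily with a member in `K` -/
private lemma KgF_two {G ι : Type} [AddCommGroup G] [Finite G] {S U : Finset ι} {f : ι → G}
    {K : AddSubgroup G} {d : G} {lv : ι → ℕ} {h : ι} (hl : ∀ i ∈ U, f i - lv i • d ∈ K)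
    (hU : U ⊆ S) (hh : h ∈ U) (hK : f h ∈ K) (h0 : f h ≠ 0) (n : ℕ) (hn : ∑ i ∈ U, lv i = n) :
    2 ≤ ((FS S f).filter fun x => x - n • d ∈ K).card := by
  have h1 : ∑ i ∈ U, f i - n • d ∈ K := by
    rw [← hn, Finset.sum_smul, ← Finset.sum_sub_distrib]
    exact AddSubgroup.sum_mem K hl
  have h2 : ∑ i ∈ U.erase h, f i + f h = ∑ i ∈ U, f i := Finset.sum_erase_add U f hh
  refine Finset.one_lt_card.2 ⟨∑ i ∈ U, f i, mem_filter.2 ⟨mem_FS.2 ⟨U, hU, rfl⟩, h1⟩,
    ∑ i ∈ U.erase h, f i, mem_filter.2 ⟨mem_FS.2 ⟨_, (erase_subset _ _).trans hU, rfl⟩, ?_⟩, ?_⟩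
  · have h3 : ∑ i ∈ U.erase h, f i - n • d = (∑ i ∈ U, f i - n • d) - f h := by
      rw [← h2]
      abel
    rw [h3]
    exact K.sub_mem h1 hK
  · intro h3
    rw [← h2] at h3
    exact h0 (left_eq_add.1 h3.symm)

/-- lower bound for the sum of the levels -/
private lemma KgF_low {ι : Type} (S : Finset ι) (lv : ι → ℕ) (h1 : ∀ i ∈ S, 1 ≤ lv i)
    (h3 : ∀ k, (S.filter fun i => lv i = k).card ≤ 3) (n : ℕ) :
    n * S.card ≤ ∑ i ∈ S, lv i + 3 * ∑ k ∈ range n, k := by
  have e1 : ∀ k, (S.filter fun i => lv i ≤ k).card ≤ 3 * k := by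
    intro k
    induction k with
    | zero =>
      rw [filter_false_of_mem, card_empty]
      intro i hi
      have := h1 i hi
      omega
    | succ k ih =>
      have hsub : (S.filter fun i => lv i ≤ k + 1) ⊆
          (S.filter fun i => lv i ≤ k) ∪ (S.filter fun i => lv i = k + 1) := by
        intro i hi
        rw [mem_filter] at hi
        rw [mem_union, mem_filter, mem_filter]
        rcases Nat.lt_or_ge k (lv i) with h | h
        · exact Or.inr ⟨hi.1, by omega⟩
        · exact Or.inl ⟨hi.1, h⟩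
      have h4 := (card_le_card hsub).trans (card_union_le _ _)
      have h5 := h3 (k + 1)
      omega
  have e2 : ∑ k ∈ range n, (S.filter fun i => k < lv i).card ≤ ∑ i ∈ S, lv i := by
    simp only [card_filter]
    rw [sum_comm]
    refine sum_le_sum fun i _ => ?_
    rw [← card_filter]
    refine (card_le_card (t := range (lv i)) ?_).trans (card_range _).le
    intro k hk
    exact mem_range.2 (mem_filter.1 hk).2
  have e3 : ∀ k ∈ range n, S.card ≤ (S.filter fun i => k < lv i).card + 3 * k := by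
    intro k _
    have h4 : S ⊆ (S.filter fun i => k < lv i) ∪ (S.filter fun i => lv i ≤ k) := by
      intro i hi
      rw [mem_union, mem_filter, mem_filter]
      rcases Nat.lt_or_ge k (lv i) with h | h
      · exact Or.inl ⟨hi, h⟩
      · exact Or.inr ⟨hi, h⟩
    have h5 := (card_le_card h4).trans (card_union_le _ _)
    have h6 := e1 k
    omega
  have e4 := sum_le_sum e3
  rw [sum_const, card_range, smul_eq_mul, sum_add_distrib, ← mul_sum] at e4
  omega

/-- sums of the lower levels -/
private lemma KgF_part {ι : Type} (S : Finset ι) (lv : ι → ℕ) (a : ℕ)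
    (h3 : ∀ k, 1 ≤ k → k ≤ a → (S.filter fun i => lv i = k).card = 3) (k : ℕ) (hk : k ≤ a + 1) :
    2 * ∑ i ∈ S.filter (fun i => lv i < k), lv i + 3 * k = 3 * k * k := by
  induction k with
  | zero =>
    rw [filter_false_of_mem fun i _ => Nat.not_lt_zero _, sum_empty]
    norm_num
  | succ k ih =>
    have h1 := ih (by omega)
    have h2 : S.filter (fun i => lv i < k + 1) =
        S.filter (fun i => lv i < k) ∪ S.filter (fun i => lv i = k) := by
      ext i
      rw [mem_union, mem_filter, mem_filter, mem_filter]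
      constructor
      · rintro ⟨hi, h⟩
        rcases Nat.lt_or_ge (lv i) k with h' | h'
        · exact Or.inl ⟨hi, h'⟩
        · exact Or.inr ⟨hi, by omega⟩
      · rintro (⟨hi, h⟩ | ⟨hi, h⟩)
        · exact ⟨hi, by omega⟩
        · exact ⟨hi, by omega⟩
    have h4 : Disjoint (S.filter (fun i => lv i < k)) (S.filter (fun i => lv i = k)) := by
      rw [Finset.disjoint_left]
      intro i hi hi'
      have := (mem_filter.1 hi).2
      have := (mem_filter.1 hi').2
      omega
    have h5 : ∑ i ∈ S.filter (fun i => lv i = k), lv i = 3 * k := by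
      rw [sum_congr rfl fun i hi => (mem_filter.1 hi).2, sum_const, smul_eq_mul]
      rcases Nat.eq_zero_or_pos k with h | h
      · rw [h]
        rfl
      · rw [h3 k h (by omega)]
    rw [h2, sum_union h4, h5]
    nlinarith

/-- counting levels -/
private lemma KgF_phi (g : ℕ → ℕ) :
    (∀ x y : ℕ, x ≤ y → ∑ v ∈ range x, g v ≤ ∑ v ∈ range y, g v) ∧
    (∀ x : ℕ, ∑ v ∈ range (x + 1), g v = ∑ v ∈ range x, g v + g x) ∧
    (∀ x n : ℕ, (∀ v, v < n → 3 ≤ g (x + v)) →
      ∑ v ∈ range x, g v + 3 * n ≤ ∑ v ∈ range (x + n), g v) := by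
  refine ⟨fun x y h => sum_le_sum_of_subset (range_mono h), fun x => sum_range_succ _ _, ?_⟩
  intro x n h
  rw [sum_range_add]
  have h1 : (range n).card • 3 ≤ ∑ v ∈ range n, g (x + v) :=
    card_nsmul_le_sum _ _ _ fun v hv => h v (mem_range.1 hv)
  rw [card_range, smul_eq_mul] at h1
  omega

/-- the count in the general case -/
private lemma KgF_num (F : ℕ → Prop) (g : ℕ → ℕ) (q m' m ρ r a k1 k2 kr : ℕ)
    (ha : 1 ≤ a) (hm3 : a = 1 → m = 3) (hma : 2 ≤ a → 3 * a ≤ m) (hm' : m + ρ ≤ m')
    (hm0 : ρ = 0 → m' = m) (hr : r + ρ = 3 * a + 2) (hr3 : r + 3 * k1 ≤ 3 * (kr + 1))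
    (h12 : k1 ≤ k2) (h2r : k2 ≤ kr) (h1r : k1 < kr) (hmk : m' ≤ k1)
    (hkq : 2 * kr ≤ q) (h5 : 5 ≤ r → k2 < kr) (h5' : 5 ≤ r → q = 2 * kr → k1 + 2 ≤ kr)
    (g0 : 2 ≤ g 0) (gq : F q → 3 ≤ g 0) (gF : ∀ v, F v → 3 ≤ g v)
    (F0 : ∀ v, 1 ≤ v → v + 1 ≤ m' → F v)
    (F1 : ∀ v, 1 ≤ v → v + 1 ≤ m' → F (k1 + v))
    (Fr : ∀ v, 1 ≤ v → v + 1 ≤ m' → F (kr + v))
    (F12 : ∀ v, 1 ≤ v → v + 1 ≤ m' → F (k1 + k2 + v))
    (F1r : ∀ v, 1 ≤ v → v + 1 ≤ m' → F (k1 + kr + v))
    (g1 : 2 ≤ g m') (g2 : 2 ≤ g (k1 + m')) (g3 : 2 ≤ g (kr + m'))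
    (g4 : 2 ≤ g (k1 + k2 + m')) :
    6 * m + 3 * a + 5 ≤ ∑ v ∈ range q, g v := by
  obtain ⟨mono, suc, ful⟩ := KgF_phi g
  set Φ : ℕ → ℕ := fun x => ∑ v ∈ range x, g v with hΦ
  have hm1 : 1 ≤ m' := by
    rcases Nat.lt_or_ge a 2 with h | h
    · have := hm3 (by omega); omega
    · have := hma h; omega
  have mono' : ∀ x y : ℕ, x ≤ y → Φ x ≤ Φ y := mono
  have suc' : ∀ x y : ℕ, y = x + 1 → Φ y = Φ x + g x := by
    rintro x y rfl
    exact suc x
  have ful' : ∀ x y : ℕ, x ≤ y → (∀ v, x ≤ v → v < y → F v) → Φ x + 3 * (y - x) ≤ Φ y := by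
    intro x y hxy h
    have h1 := ful x (y - x) (fun v hv => gF _ (h (x + v) (by omega) (by omega)))
    rw [show x + (y - x) = y by omega] at h1
    exact h1
  have sub : ∀ κ : ℕ, (∀ v, 1 ≤ v → v + 1 ≤ m' → F (κ + v)) → ∀ v, κ + 1 ≤ v → v < κ + m' →
      F v := by
    intro κ h v h1 h2
    have h3 := h (v - κ) (by omega) (by omega)
    rwa [show κ + (v - κ) = v by omega] at h3
  have P0 : Φ 0 = 0 := rfl
  have P1 := suc' 0 1 rfl
  have P2 := ful' 1 m' hm1 (fun v h1 h2 => F0 v h1 (by omega))
  have P3 := suc' m' (m' + 1) rfl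
  show 6 * m + 3 * a + 5 ≤ Φ q
  rcases Nat.lt_or_ge q (k1 + k2 + m') with hc | hc
  · -- case (4)
    have hF1 : ∀ v, k1 + 1 ≤ v → v < kr + m' → F v := by
      intro v h1 h2
      rcases Nat.lt_or_ge v (k1 + m') with h3 | h3
      · exact sub k1 F1 v h1 h3
      · exact sub kr Fr v (by omega) h2
    rcases Nat.lt_or_ge (k1 + k2) (kr + m') with hd | hd
    · -- (4a)
      have hF2 : ∀ v, k1 + 1 ≤ v → v ≤ q → F v := by
        intro v h1 h2
        rcases Nat.lt_or_ge v (kr + m') with h3 | h3
        · exact hF1 v h1 h3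
        · exact sub (k1 + k2) F12 v (by omega) (by omega)
      have Q0 := gq (hF2 q (by omega) le_rfl)
      have Q1 := mono' (m' + 1) (k1 + 1) (by omega)
      have Q2 := ful' (k1 + 1) q (by omega) (fun v h1 h2 => hF2 v h1 (by omega))
      clear_value Φ
      clear mono suc ful mono' suc' ful' sub gF F0 F1 Fr F12 F1r hF1 hF2 gq
      by_cases hr5 : 5 ≤ r
      · have h5a := h5 hr5
        have h5b := h5' hr5
        by_cases ha1 : a = 1
        · have := hm3 ha1
          by_cases hρ : ρ = 0
          · have := hm0 hρ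
            by_cases hqq : q = 2 * kr
            · have := h5b hqq
              omega
            · omega
          · omega
        · have := hma (by omega)
          by_cases hρ : ρ = 0
          · have := hm0 hρ
            omega
          · omega
      · by_cases ha1 : a = 1
        · have := hm3 ha1
          omega
        · have := hma (by omega)
          omega
    · -- (4b)
      have Q0 := gq (sub (k1 + k2) F12 q (by omega) (by omega))
      have Q1 := mono' (m' + 1) (k1 + 1) (by omega)
      have Q2 := ful' (k1 + 1) (kr + m') (by omega) hF1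
      have Q3 := suc' (kr + m') (kr + m' + 1) rfl
      have Q4 := mono' (kr + m' + 1) (k1 + k2 + 1) (by omega)
      have Q5 := ful' (k1 + k2 + 1) q (by omega)
        (fun v h1 h2 => sub (k1 + k2) F12 v h1 (by omega))
      clear_value Φ
      clear mono suc ful mono' suc' ful' sub gF F0 F1 Fr F12 F1r hF1 gq
      by_cases hr5 : 5 ≤ r
      · have h5a := h5 hr5
        have h5b := h5' hr5
        by_cases ha1 : a = 1
        · have := hm3 ha1
          by_cases hρ : ρ = 0
          · have := hm0 hρ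
            by_cases hqq : q = 2 * kr
            · have := h5b hqq
              omega
            · omega
          · omega
        · have := hma (by omega)
          by_cases hρ : ρ = 0
          · have := hm0 hρ
            omega
          · omega
      · by_cases ha1 : a = 1
        · have := hm3 ha1
          omega
        · have := hma (by omega)
          omega
  · -- case (3)
    have Q1 := mono' (m' + 1) (k1 + 1) (by omega)
    have Q2 := ful' (k1 + 1) (k1 + m') (by omega) (sub k1 F1)
    have Q3 := suc' (k1 + m') (k1 + m' + 1) rfl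
    have Q4 := mono' (k1 + m' + 1) (k1 + k2 + 1) (by omega)
    have Q5 := ful' (k1 + k2 + 1) (k1 + k2 + m') (by omega) (sub (k1 + k2) F12)
    have Q6 := suc' (k1 + k2 + m') (k1 + k2 + m' + 1) rfl
    have Q7 := mono' (k1 + k2 + m') q hc
    by_cases ha1 : a = 1
    · have h3 := hm3 ha1
      by_cases hρ : ρ = 0
      · have h4 := hm0 hρ
        have h5a := h5 (by omega)
        rcases Nat.lt_or_ge (k1 + k2 + m') q with hlt | hge
        · have Q8 := mono' (k1 + k2 + m' + 1) q hlt
          omega
        · have R1 := gq (sub (k1 + kr) F1r q (by omega) (by omega))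
          have R2 := gF _ (sub kr Fr (k1 + m') (by omega) (by omega))
          omega
      · omega
    · have := hma (by omega)
      omega

/-- numbers, few members are not used -/
private lemma KgF_n1 (b C S1 S m m' x : ℕ) (h6 : 6 * m' ≤ x + 2) (hm' : m' = m + S1)
    (e1 : (b + 1) * C ≤ S1 + 3 * S) (e2 : S * 2 = (b + 1) * b) (e3 : 3 * (b + 1) ≤ C + 1) :
    6 * m + 3 * (b + 1) + 5 ≤ x := by
  have e4 : (b + 1) * (3 * (b + 1)) ≤ (b + 1) * (C + 1) := Nat.mul_le_mul_left _ e3
  have e5 : (b + 1) * (3 * (b + 1)) = 3 * (b * b) + 6 * b + 3 := by ring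
  have e6 : (b + 1) * (C + 1) = (b + 1) * C + b + 1 := by ring
  have e7 : (b + 1) * b = b * b + b := by ring
  rw [e5, e6] at e4
  rw [e7] at e2
  have e8 : 0 ≤ b * b := Nat.zero_le _
  subst hm'
  linarith

/-- numbers, all members are used -/
private lemma KgF_n2 (a m m' S1 S x : ℕ) (hT : 3 * m' ≤ x + 1) (hm' : m' = m + S1)
    (h1 : (a + 1) * (3 * a + 2) ≤ S1 + 3 * S) (h2 : S * 2 = (a + 1) * a)
    (hm2 : 2 * m + 3 * (a + 1) = 3 * (a + 1) * (a + 1)) : 6 * m + 3 * a + 5 ≤ x := by
  have e1 : (a + 1) * (3 * a + 2) = 3 * (a * a) + 5 * a + 2 := by ring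
  have e2 : (a + 1) * a = a * a + a := by ring
  have e3 : 3 * (a + 1) * (a + 1) = 3 * (a * a) + 6 * a + 3 := by ring
  rw [e1] at h1
  rw [e2] at h2
  rw [e3] at hm2
  subst hm'
  linarith

/-- a finite set in a subgroup -/
private lemma KgF_sub {G : Type} [AddCommGroup G] [Finite G] {K : AddSubgroup G} (S : Finset G)
    (hS : ∀ x ∈ S, x ∈ K) : S.card ≤ Nat.card K := by
  have h1 : (S : Set G).ncard ≤ (K : Set G).ncard :=
    Set.ncard_le_ncard (fun x hx => hS x hx) (Set.toFinite _)
  rw [Set.ncard_coe_finset] at h1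
  exact h1.trans (le_of_eq (Nat.card_coe_set_eq (K : Set G)).symm)

/-- at most one member has the level `q / 2` -/
private lemma KgF_one {G ι : Type} [AddCommGroup G] [Finite G] {S : Finset ι} {f : ι → G}
    {K : AddSubgroup G} {d : G} {lv : ι → ℕ} (hK : Nat.card K = 3) (hS : AE S f)
    (hl : ∀ i ∈ S, f i - lv i • d ∈ K) :
    (S.filter fun i => 2 * lv i = K.index).card ≤ 1 := by
  rw [Finset.card_le_one]
  intro i hi j hj
  rw [mem_filter] at hi hj
  by_contra hij
  have hd : K.index • d ∈ K := AddSubgroup.nsmul_index_mem K d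
  have hnot : ¬ (f j = f i ∨ f j = - f i) := fun h1 =>
    hij (Finset.card_le_one.1 (hS.1.2 (f i)) i (mem_filter.2 ⟨hi.1, Or.inl rfl⟩) j
      (mem_filter.2 ⟨hj.1, h1⟩))
  push Not at hnot
  have hlv : lv j = lv i := by omega
  have e1 : f i - f j ∈ K := by
    have h1 := K.sub_mem (hl i hi.1) (hl j hj.1)
    rw [hlv] at h1
    have h2 : f i - f j = f i - lv i • d - (f j - lv i • d) := by abel
    rw [h2]
    exact h1
  have e2 : f i + f i ∈ K := by
    have h1 := K.add_mem (K.add_mem (hl i hi.1) (hl i hi.1)) hd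
    have h2 : f i + f i = f i - lv i • d + (f i - lv i • d) + K.index • d := by
      rw [← hi.2, two_mul, add_smul]
      abel
    rw [h2]
    exact h1
  have e3 : f i + f j ∈ K := by
    have h1 := K.sub_mem e2 e1
    have h2 : f i + f j = f i + f i - (f i - f j) := by abel
    rw [h2]
    exact h1
  have hi2 := hS.2 i hi.1
  have hj2 := hS.2 j hj.1
  have h4 : ({0, f i + f i, f i - f j, f i + f j} : Finset G).card = 4 := by
    rw [card_insert_of_notMem, card_insert_of_notMem, card_insert_of_notMem, card_singleton]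
    · rw [mem_singleton]
      intro h1
      apply hj2
      have h2 : f j + f j = (f i + f j) - (f i - f j) := by abel
      rw [h2, ← h1, sub_self]
    · rw [mem_insert, mem_singleton, not_or]
      refine ⟨fun h1 => hnot.2 ?_, fun h1 => hnot.1 ?_⟩
      · have h2 : f j = (f i - (f i - f j)) := by abel
        rw [h2, ← h1]
        abel
      · exact (add_left_cancel h1).symm
    · rw [mem_insert, mem_insert, mem_singleton, not_or, not_or]
      refine ⟨fun h1 => hi2 h1.symm, fun h1 => hnot.1 (sub_eq_zero.1 h1.symm).symm, fun h1 => hnot.2 ?_⟩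
      exact (neg_eq_of_add_eq_zero_right h1.symm).symm
  have h5 := KgF_sub (K := K) ({0, f i + f i, f i - f j, f i + f j} : Finset G) (by
    intro x hx
    rw [mem_insert, mem_insert, mem_insert, mem_singleton] at hx
    rcases hx with h | h | h | h
    · rw [h]
      exact K.zero_mem
    · rw [h]
      exact e2
    · rw [h]
      exact e1
    · rw [h]
      exact e3)
  omega

theorem thm_KgF : SDG.St_Nm1 → SDG.St_Ba1 → SDG.St_Kn → MDR.St_Sg → SSE.St_LvE → SSC.St_Et →
    SSC.St_Fu → SSC.St_Ct → SSE.St_Cn → St_KgF := by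
  intro hNm _ _ hSg hLv hEt hFu hCt hCn G ι _ _ s1 s2 f K a hdis hE1 hE2 hAp hKAP hc1 hs2K hc2
  have hA1 : AS s1 f := hE1.1
  have hA2 : AS s2 f := hE2.1
  obtain ⟨hK3, hins, ha, d, lv0, hd, hlv0, hcnt, -⟩ := hKAP
  obtain ⟨f', lv, hf', hlv, hlv00, hlvq, hlvu⟩ := hLv G ι f K d hd
  obtain ⟨hcard, hAp', -⟩ := hSg G ι (s1 ∪ s2) f f' fun i _ => hf' i
  have hAp2 := hAp' hAp
  have hA1' : AS s1 f' := (hSg G ι s1 f f' fun i _ => hf' i).2.2.2.2.2.1 hA1
  have hA2' : AS s2 f' := (hSg G ι s2 f f' fun i _ => hf' i).2.2.2.2.2.1 hA2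
  rw [← hcard]
  have hE2' : ∀ i ∈ s2, f' i + f' i ≠ 0 := by
    intro i hi h1
    rcases hf' i with e | e
    · rw [e] at h1
      exact hE2.2 i hi h1
    · rw [e, ← neg_add, neg_eq_zero] at h1
      exact hE2.2 i hi h1
  have hfib1 := KgF_fib hK3 hA1' (fun i _ => hlv i)
  have hfib2 := KgF_fib hK3 hA2' (fun i _ => hlv i)
  -- the member in `K`
  obtain ⟨h, hh⟩ := Finset.card_eq_one.1 hins
  have hhs : h ∈ s1 ∧ f h ∈ K := by
    have h1 : h ∈ ins s1 f K := by
      rw [hh]
      exact mem_singleton_self h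
    exact mem_filter.1 h1
  have hhK : f' h ∈ K := by
    rcases hf' h with e | e
    · rw [e]
      exact hhs.2
    · rw [e]
      exact K.neg_mem hhs.2
  have hh0 : f' h ≠ 0 := hA1'.1 h hhs.1
  have hlvh : lv h = 0 := (hlv00 h).2 hhs.2
  -- the members outside
  have houts : (outs s1 f K).card = 3 * a := by
    have h1 := Finset.card_filter_add_card_filter_not (s := s1) (fun i => f i ∈ K)
    have h2 : (s1.filter fun i => f i ∈ K).card = 1 := hins
    have h3 : (s1.filter fun i => ¬ f i ∈ K).card = (outs s1 f K).card := rfl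
    omega
  have hq : 2 * a ≤ K.index := by
    have h1 : (outs s1 f K).card ≤ 3 * ((outs s1 f K).image lv).card := by
      refine Finset.card_le_mul_card_image (outs s1 f K) 3 fun k _ => ?_
      refine (card_le_card ?_).trans (hfib1 k)
      intro i hi
      rw [mem_filter] at hi ⊢
      exact ⟨(mem_filter.1 hi.1).1, hi.2⟩
    have h2 : ((outs s1 f K).image lv).card ≤ K.index / 2 := by
      have h3 : (outs s1 f K).image lv ⊆ Finset.Icc 1 (K.index / 2) := by
        intro k hk
        obtain ⟨i, hi, rfl⟩ := mem_image.1 hk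
        rw [mem_Icc]
        have h4 : lv i ≠ 0 := fun h5 => (mem_filter.1 hi).2 ((hlv00 i).1 h5)
        have h5 := hlvq i
        omega
      have h4 := card_le_card h3
      rw [Nat.card_Icc] at h4
      omega
    omega
  have hempty : ∀ i ∈ outs s1 f K, lv0 i ≤ a := by
    have h1 := Finset.card_eq_sum_card_fiberwise (s := outs s1 f K) (t := Finset.Icc 1 (a + 1))
      (f := lv0) (fun i hi => by
        have h2 := hlv0 i hi
        exact Finset.mem_coe.2 (mem_Icc.2 ⟨h2.1, h2.2.1⟩))
    rw [houts, Finset.sum_Icc_succ_top (by omega), Finset.sum_congr rfl fun k hk =>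
      hcnt k (mem_Icc.1 hk).1 (mem_Icc.1 hk).2, sum_const, Nat.card_Icc, smul_eq_mul] at h1
    have h2 : ((outs s1 f K).filter fun i => lv0 i = a + 1).card = 0 := by omega
    rw [card_eq_zero] at h2
    intro i hi
    have h3 := (hlv0 i hi).2.1
    by_contra h4
    have h5 : i ∈ (outs s1 f K).filter fun i => lv0 i = a + 1 := mem_filter.2 ⟨hi, by omega⟩
    rw [h2] at h5
    exact absurd h5 (notMem_empty i)
  have hlveq : ∀ i ∈ outs s1 f K, lv i = lv0 i := by
    intro i hi
    have h1 := hempty i hi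
    exact hlvu i (lv0 i) (by omega) (hlv0 i hi).2.2
  have hle : ∀ i ∈ s1, lv i ≤ a := by
    intro i hi
    by_cases h1 : f i ∈ K
    · rw [(hlv00 i).2 h1]
      exact Nat.zero_le _
    · have h2 : i ∈ outs s1 f K := mem_filter.2 ⟨hi, h1⟩
      rw [hlveq i h2]
      exact hempty i h2
  have hthree : ∀ k, 1 ≤ k → k ≤ a → (s1.filter fun i => lv i = k).card = 3 := by
    intro k hk1 hk2
    rw [← hcnt k hk1 hk2]
    congr 1
    ext i
    rw [mem_filter, mem_filter]
    constructor
    · rintro ⟨hi, h1⟩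
      have h2 : i ∈ outs s1 f K := mem_filter.2 ⟨hi, fun h3 => by
        have := (hlv00 i).2 h3
        omega⟩
      exact ⟨h2, by rw [← hlveq i h2]; exact h1⟩
    · rintro ⟨hi, h1⟩
      exact ⟨(mem_filter.1 hi).1, by rw [hlveq i hi]; exact h1⟩
  have hpart := KgF_part s1 lv a hthree
  set m : ℕ := ∑ i ∈ s1, lv i with hm
  have hm2 : 2 * m + 3 * (a + 1) = 3 * (a + 1) * (a + 1) := by
    have h1 := hpart (a + 1) le_rfl
    rw [filter_true_of_mem fun i hi => Nat.lt_succ_of_le (hle i hi)] at h1
    exact h1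
  have hm3 : 3 ≤ m := by nlinarith
  have hPer0 : Per (FS s1 f') K d m := by
    refine ((hFu G ι s1 f' K d lv hK3 hA1' fun i _ => hlv i).1 (hthree 1 le_rfl ha) ?_)
    intro i hi h2
    have h4 := hpart (lv i) ((hle i hi).trans (Nat.le_succ a))
    nlinarith
  -- the maximal part
  set Pr : Finset ι → Prop := fun R => Per (FS (s1 ∪ R) f') K d (m + ∑ i ∈ R, lv i) with hPr
  have hPr0 : Pr ∅ := by
    rw [hPr]
    simp only [union_empty, sum_empty, add_zero]
    exact hPer0
  obtain ⟨R, hRm, hRmax⟩ := Finset.exists_max_image (s2.powerset.filter Pr) Finset.card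
    ⟨∅, mem_filter.2 ⟨mem_powerset.2 (empty_subset _), hPr0⟩⟩
  obtain ⟨hR2, hRP⟩ := mem_filter.1 hRm
  rw [mem_powerset] at hR2
  set m' : ℕ := m + ∑ i ∈ R, lv i with hm'
  have hRP' : Per (FS (s1 ∪ R) f') K d m' := hRP
  have hbig : ∀ i ∈ s2, i ∉ R → m' ≤ lv i := by
    intro i hi hiR
    by_contra hlt
    have h1 : i ∉ s1 := fun h2 => Finset.disjoint_left.1 hdis h2 hi
    have h2 := hEt G ι (s1 ∪ R) {i} f' K d lv m' (by
      rw [Finset.disjoint_singleton_right, mem_union, not_or]
      exact ⟨h1, hiR⟩) (fun j _ => hlv j) hRP' (by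
      intro j hj
      rw [mem_singleton.1 hj]
      refine ⟨?_, ?_⟩
      · have h3 : lv i ≠ 0 := fun h4 => hs2K i hi ((hlv00 i).1 h4)
        omega
      · omega)
    have h3 : Pr (insert i R) := by
      rw [hPr]
      show Per (FS (s1 ∪ insert i R) f') K d (m + ∑ j ∈ insert i R, lv j)
      rw [sum_insert hiR]
      rw [sum_singleton, union_assoc, union_comm R {i}, ← insert_eq] at h2
      have h4 : m + (lv i + ∑ j ∈ R, lv j) = m' + lv i := by
        rw [hm']
        ring
      rw [h4]
      exact h2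
    have h4 := hRmax (insert i R) (mem_filter.2 ⟨mem_powerset.2 (insert_subset hi hR2), h3⟩)
    rw [card_insert_of_notMem hiR] at h4
    omega
  have hlv1 : ∀ i ∈ s2, 1 ≤ lv i := fun i hi =>
    Nat.one_le_iff_ne_zero.2 fun h4 => hs2K i hi ((hlv00 i).1 h4)
  have hsub1 : s1 ⊆ s1 ∪ s2 := subset_union_left
  have hdis' : ∀ R' : Finset ι, R' ⊆ s2 → Disjoint s1 R' := fun R' hR' =>
    Finset.disjoint_of_subset_right hR' hdis
  have hsumU : ∀ R' : Finset ι, R' ⊆ s2 → ∑ i ∈ s1 ∪ R', lv i = m + ∑ i ∈ R', lv i :=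
    fun R' hR' => sum_union (hdis' R' hR')
  -- two elements of level zero
  have hlev0 : 2 ≤ ((FS (s1 ∪ s2) f').filter fun x => x ∈ K).card := by
    have h1 := KgF_two (S := s1 ∪ s2) (U := {h}) (f := f') (K := K) (d := d) (lv := lv) (h := h)
      (fun i _ => hlv i) (by
        rw [singleton_subset_iff]
        exact hsub1 hhs.1) (mem_singleton_self h) hhK hh0 0 (by rw [sum_singleton]; exact hlvh)
    simpa only [zero_smul, sub_zero] using h1
  have hlev : ∀ R' : Finset ι, R' ⊆ s2 → ∀ n, m + ∑ i ∈ R', lv i = n →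
      2 ≤ ((FS (s1 ∪ s2) f').filter fun x => x - n • d ∈ K).card := by
    intro R' hR' n hn
    exact KgF_two (U := s1 ∪ R') (lv := lv) (h := h) (fun i _ => hlv i)
      (union_subset_union_right hR') (mem_union_left _ hhs.1) hhK hh0 n
      ((hsumU R' hR').trans hn)
  have hgoal : cf 2 (s1.card + s2.card) = 6 * m + 3 * a + 5 := by
    have h1 := hNm.2.1 2 (3 * a + 1) 1 (by norm_num) (by norm_num)
    rw [hc1, hc2, show 3 * a + 1 + (3 * a + 2) = 2 * (3 * a + 1) + 1 by ring]
    have h2 : 2 * cf 2 (2 * (3 * a + 1) + 1) = 2 * (6 * m + 3 * a + 5) := by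
      rw [h1]
      nlinarith
    omega
  rw [hgoal]
  have hmm' : m ≤ m' := Nat.le_add_right _ _
  by_cases hRs : R = s2
  · -- everything is used
    have hPT : Per (FS (s1 ∪ s2) f') K d m' := by rw [← hRs]; exact hRP'
    obtain ⟨c1, c2, c3, -⟩ := hCt G (FS (s1 ∪ s2) f') K d m' hK3 hd (by omega) hPT
    have hS2 : m' = m + ∑ i ∈ s2, lv i := by rw [hm', hRs]
    have htop := hlev s2 (Subset.refl _) m' hS2.symm
    have hnot : ¬ K.index + 1 ≤ m' := by
      intro h1
      have h2 := c3 h1
      have h3 : f' h = 0 := hAp2 (f' h) fun x _ => h2 _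
      exact hh0 h3
    have hT : 3 * m' ≤ (FS (s1 ∪ s2) f').card + 1 := by
      rcases Nat.lt_or_ge m' K.index with h1 | h1
      · have h2 := c1 (by omega)
        omega
      · have h2 := c2 (by omega)
        omega
    have h1 := KgF_low s2 lv hlv1 hfib2 (a + 1)
    have h2 := Finset.sum_range_id_mul_two (a + 1)
    rw [Nat.add_sub_cancel] at h2
    rw [hc2] at h1
    exact KgF_n2 a m m' _ _ _ hT hS2 h1 h2 hm2
  · -- some member is not used
    obtain ⟨n1, n2, -⟩ := hCn G (FS (s1 ∪ s2) f') K d hd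
    have htot := n1 (range K.index) fun v hv => mem_range.1 hv
    set X := FS (s1 ∪ s2) f' with hX
    set g : ℕ → ℕ := fun v => (X.filter fun x => x - v • d ∈ K).card with hg
    have htot' : ∑ v ∈ range K.index, g v ≤ X.card := htot
    set W := s2 \ R with hW
    have hWs : ∀ i ∈ W, i ∈ s2 ∧ i ∉ R := fun i hi => mem_sdiff.1 hi
    have hWc : W.card + R.card = 3 * a + 2 := by
      rw [← hc2]
      exact card_sdiff_add_card_eq_card hR2
    have hFU : ∀ U : Finset ι, U ⊆ W → ∀ v, 1 ≤ v → v + 1 ≤ m' → ∀ x ∈ K,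
        (∑ i ∈ U, lv i + v) • d + x ∈ X := by
      intro U hU v hv1 hv2 x hx
      have h1 : v • d + (x - ∑ i ∈ U, (f' i - lv i • d)) ∈ FS (s1 ∪ R) f' :=
        hRP' v hv1 hv2 _ (K.sub_mem hx (AddSubgroup.sum_mem K fun i _ => hlv i))
      obtain ⟨t, ht, hsum⟩ := mem_FS.1 h1
      have hdt : Disjoint t U := by
        rw [Finset.disjoint_left]
        intro j hj hjU
        have h2 := hWs j (hU hjU)
        rcases mem_union.1 (ht hj) with h3 | h3
        · exact Finset.disjoint_left.1 hdis h3 h2.1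
        · exact h2.2 h3
      refine mem_FS.2 ⟨t ∪ U, union_subset (ht.trans (union_subset_union_right hR2))
        (fun j hj => mem_union_right _ (hWs j (hU hj)).1), ?_⟩
      rw [sum_union hdt, hsum, add_smul, sum_sub_distrib, ← sum_smul]
      abel
    have hgF : ∀ v, (∀ k ∈ K, v • d + k ∈ X) → 3 ≤ g v := by
      intro v hv
      have h1 := n2 v hv
      rw [hK3] at h1
      exact h1.symm.le
    have hg0 : 2 ≤ g 0 := by
      show 2 ≤ (X.filter fun x => x - (0 : ℕ) • d ∈ K).card
      simpa only [zero_smul, sub_zero] using hlev0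
    have hgU : ∀ U : Finset ι, U ⊆ W → 2 ≤ g (∑ i ∈ U, lv i + m') := by
      intro U hU
      have hd2 : Disjoint R U := by
        rw [Finset.disjoint_left]
        intro j hj hjU
        exact (hWs j (hU hjU)).2 hj
      refine hlev (R ∪ U) (union_subset hR2 fun j hj => (hWs j (hU hj)).1) _ ?_
      rw [sum_union hd2, hm']
      ring
    have hWne : W.Nonempty := by
      rw [nonempty_iff_ne_empty]
      intro h1
      exact hRs (Subset.antisymm hR2 (sdiff_eq_empty_iff_subset.1 h1))
    rcases Nat.lt_or_ge W.card 4 with hr | hr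
    · -- few members are not used
      obtain ⟨j, hj⟩ := hWne
      have h1 := hbig j (hWs j hj).1 (hWs j hj).2
      have h2 := hlvq j
      obtain ⟨mono, suc, ful⟩ := KgF_phi g
      have q1 := suc 0
      have q2 := ful 1 (m' - 1) fun v hv => hgF _ fun k hk => by
        have h3 := hFU ∅ (empty_subset _) (1 + v) (by omega) (by omega) k hk
        rwa [sum_empty, zero_add] at h3
      have q3 := suc m'
      have q4 : 2 ≤ g m' := by
        have h3 := hgU ∅ (empty_subset _)
        rwa [sum_empty, zero_add] at h3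
      have q5 := mono (m' + 1) (lv j + 1) (by omega)
      have q6 := ful (lv j + 1) (m' - 1) fun v hv => hgF _ fun k hk => by
        have h3 := hFU {j} (singleton_subset_iff.2 hj) (1 + v) (by omega) (by omega) k hk
        rwa [sum_singleton, ← add_assoc] at h3
      have q7 := mono (lv j + 1 + (m' - 1)) K.index (by omega)
      rw [sum_range_zero, zero_add] at q1
      rw [show 1 + (m' - 1) = m' by omega] at q2
      have h6 : 6 * m' ≤ X.card + 2 := by omega
      have e1 := KgF_low R lv (fun i hi => hlv1 i (hR2 hi)) (fun k =>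
        (card_le_card (filter_subset_filter _ hR2)).trans (hfib2 k)) a
      have e2 := Finset.sum_range_id_mul_two a
      obtain ⟨b, rfl⟩ : ∃ b, a = b + 1 := ⟨a - 1, by omega⟩
      rw [Nat.add_sub_cancel] at e2
      exact KgF_n1 b R.card _ _ m m' X.card h6 hm' e1 e2 (by omega)
    · -- many members are not used
      obtain ⟨p1, hp1, hmin1⟩ := Finset.exists_min_image W lv hWne
      obtain ⟨pr, hpr, hmax⟩ := Finset.exists_max_image W lv hWne
      have hWe : (W.erase p1).card + 1 = W.card := card_erase_add_one hp1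
      obtain ⟨p2, hp2, hmin2⟩ := Finset.exists_min_image (W.erase p1) lv
        (card_pos.1 (by omega))
      have hp2W : p2 ∈ W := mem_of_mem_erase hp2
      have hp12 : p1 ≠ p2 := (ne_of_mem_erase hp2).symm
      have hfW : ∀ k, (W.filter fun i => lv i = k).card ≤ 3 := fun k =>
        (card_le_card (filter_subset_filter _ sdiff_subset)).trans (hfib2 k)
      have h1r : lv p1 < lv pr := by
        by_contra hcon
        have h1 := hfW (lv p1)
        rw [filter_true_of_mem fun i hi => by
          have := hmin1 i hi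
          have := hmax i hi
          omega] at h1
        omega
      have hp1r : p1 ≠ pr := fun h1 => by
        rw [h1] at h1r
        exact lt_irrefl _ h1r
      have hr3 : W.card + 3 * lv p1 ≤ 3 * (lv pr + 1) := by
        have h1 : W.card ≤ 3 * (W.image lv).card :=
          Finset.card_le_mul_card_image W 3 fun k _ => hfW k
        have h2 : W.image lv ⊆ Finset.Icc (lv p1) (lv pr) := by
          intro k hk
          obtain ⟨i, hi, rfl⟩ := mem_image.1 hk
          exact mem_Icc.2 ⟨hmin1 i hi, hmax i hi⟩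
        have h3 := card_le_card h2
        rw [Nat.card_Icc] at h3
        omega
      have hρ : m + R.card ≤ m' := by
        have h1 : R.card • 1 ≤ ∑ i ∈ R, lv i := card_nsmul_le_sum _ _ _ fun i hi =>
          hlv1 i (hR2 hi)
        rw [smul_eq_mul, mul_one] at h1
        omega
      refine le_trans (KgF_num (fun v => ∀ k ∈ K, v • d + k ∈ X) g K.index m' m R.card W.card a
        (lv p1) (lv p2) (lv pr) ha ?_ ?_ hρ ?_ hWc hr3 (hmin1 p2 hp2W) (hmax p2 hp2W) h1r
        (hbig p1 (hWs p1 hp1).1 (hWs p1 hp1).2) (hlvq pr) ?_ ?_ hg0 ?_ hgF ?_ ?_ ?_ ?_ ?_ ?_ ?_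
        ?_ ?_) htot'
      · rintro rfl
        omega
      · intro ha2
        nlinarith
      · intro h0
        rw [hm', card_eq_zero.1 h0, sum_empty, add_zero]
      · intro h5
        by_contra hcon
        have h1 := (card_le_card (filter_subset_filter (fun i => lv i = lv p2)
          (erase_subset p1 W))).trans (hfW (lv p2))
        rw [filter_true_of_mem fun i hi => by
          have := hmin2 i hi
          have := hmax i (mem_of_mem_erase hi)
          omega] at h1
        omega
      · intro h5 hq2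
        by_contra hcon
        have h1 : W ⊆ (W.filter fun i => lv i = lv p1) ∪
            (s2.filter fun i => 2 * lv i = K.index) := by
          intro i hi
          have h2 := hmin1 i hi
          have h3 := hmax i hi
          rw [mem_union, mem_filter, mem_filter]
          by_cases h4 : lv i = lv p1
          · exact Or.inl ⟨hi, h4⟩
          · exact Or.inr ⟨(hWs i hi).1, by omega⟩
        have h2 := (card_le_card h1).trans (card_union_le _ _)
        have h3 := hfW (lv p1)
        have h4 := KgF_one hK3 (S := s2) (f := f') (lv := lv) (d := d) (K := K) ⟨hA2', hE2'⟩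
          fun i _ => hlv i
        omega
      · intro hq
        refine hgF 0 fun k hk => ?_
        have h1 := hq (k - K.index • d) (K.sub_mem hk (AddSubgroup.nsmul_index_mem K d))
        rw [add_sub_cancel] at h1
        rw [zero_smul, zero_add]
        exact h1
      · intro v hv1 hv2 k hk
        have h3 := hFU ∅ (empty_subset _) v hv1 hv2 k hk
        rwa [sum_empty, zero_add] at h3
      · intro v hv1 hv2 k hk
        have h3 := hFU {p1} (singleton_subset_iff.2 hp1) v hv1 hv2 k hk
        rwa [sum_singleton] at h3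
      · intro v hv1 hv2 k hk
        have h3 := hFU {pr} (singleton_subset_iff.2 hpr) v hv1 hv2 k hk
        rwa [sum_singleton] at h3
      · intro v hv1 hv2 k hk
        have h3 := hFU {p1, p2} (insert_subset hp1 (singleton_subset_iff.2 hp2W)) v hv1 hv2 k hk
        rwa [sum_pair hp12] at h3
      · intro v hv1 hv2 k hk
        have h3 := hFU {p1, pr} (insert_subset hp1 (singleton_subset_iff.2 hpr)) v hv1 hv2 k hk
        rwa [sum_pair hp1r] at h3
      · have h3 := hgU ∅ (empty_subset _)
        rwa [sum_empty, zero_add] at h3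
      · have h3 := hgU {p1} (singleton_subset_iff.2 hp1)
        rwa [sum_singleton] at h3
      · have h3 := hgU {pr} (singleton_subset_iff.2 hpr)
        rwa [sum_singleton] at h3
      · have h3 := hgU {p1, p2} (insert_subset hp1 (singleton_subset_iff.2 hp2W))
        rwa [sum_pair hp12] at h3

end Pool.Agent.SSF
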