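import Pool.Agent.SSF.St

/-!
# SSF Kh4F: nearly filled by a cyclic group of order four (helper5, from SSE.Kh4 of helper42)
-/

set_option autoImplicit false

noncomputable section

open Finset Pool.Agent.Helper64.Rho Pool.Agent.SDG Pool.Agent.MDR Pool.Agent.SSC Pool.Agent.SSE
open scoped Classical Pointwise

namespace Pool.Agent.SSF

private theorem Kh4F_fib {ι : Type} (o : Finset ι) (lv : ι → ℕ) (n : ℕ) :
    ∑ j ∈ o.filter (fun j => lv j < n), lv j =
      ∑ k ∈ range n, k * (o.filter fun j => lv j = k).card := by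
  rw [← Finset.sum_fiberwise_of_maps_to (g := lv) (t := range n)
    (fun j hj => mem_range.2 (mem_filter.1 hj).2)]
  apply sum_congr rfl
  intro k hk
  have hk' := mem_range.1 hk
  have h0 : (o.filter fun j => lv j < n).filter (fun j => lv j = k) = o.filter fun j => lv j = k := by
    ext j
    simp only [mem_filter]
    constructor
    · rintro ⟨⟨x, _⟩, z⟩
      exact ⟨x, z⟩
    · rintro ⟨x, z⟩
      exact ⟨⟨x, by omega⟩, z⟩
  rw [h0]
  have h1 : ∑ j ∈ o.filter (fun j => lv j = k), lv j = ∑ _j ∈ o.filter (fun j => lv j = k), k :=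
    sum_congr rfl fun j hj => (mem_filter.1 hj).2
  rw [h1, sum_const, smul_eq_mul, mul_comm]

/-- The weighted sum of the levels below `n`, at most one level has three members. -/
private theorem Kh4F_sum {ι : Type} (o : Finset ι) (lv : ι → ℕ) (a i0 : ℕ)
    (h3 : ∀ k, 1 ≤ k → k ≤ a → k ≠ i0 → (o.filter fun j => lv j = k).card = 4)
    (h2 : i0 ≠ 0 → (o.filter fun j => lv j = i0).card = 3) (n : ℕ) (hn : n ≤ a + 1) :
    ∑ j ∈ o.filter (fun j => lv j < n), lv j + (if i0 < n then i0 else 0) =
      2 * (n * (n - 1)) := by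
  rw [Kh4F_fib o lv n]
  have e1 : ∑ k ∈ range n, k * (o.filter fun j => lv j = k).card +
      ∑ k ∈ range n, (if k = i0 then i0 else 0) = ∑ k ∈ range n, 4 * k := by
    rw [← sum_add_distrib]
    apply sum_congr rfl
    intro k hk
    have hk' := mem_range.1 hk
    by_cases h : k = i0
    · rw [if_pos h]
      by_cases h0 : i0 = 0
      · rw [h, h0]
        simp
      · rw [h, h2 h0]
        ring
    · rw [if_neg h]
      rcases Nat.eq_zero_or_pos k with h4 | h4
      · rw [h4]
        simp
      · rw [h3 k h4 (by omega) h]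
        ring
  have e2 : ∑ k ∈ range n, (if k = i0 then i0 else 0) = if i0 < n then i0 else 0 := by
    rw [sum_ite_eq' (range n) i0 (fun _ => i0)]
    simp only [mem_range]
  rw [e2, ← mul_sum] at e1
  have e3 := sum_range_id_mul_two n
  omega

/-- At most four members of each level, at least `4 a - 1` members. -/
private theorem Kh4F_lvl {ι : Type} (o : Finset ι) (lv : ι → ℕ) (a : ℕ)
    (h1 : ∀ j ∈ o, 1 ≤ lv j ∧ lv j ≤ a)
    (h2 : ∀ k, 1 ≤ k → k ≤ a → (o.filter fun j => lv j = k).card ≤ 4) (h3 : 4 * a ≤ o.card + 1) :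
    (o.card = 4 * a ∧ ∀ k, 1 ≤ k → k ≤ a → (o.filter fun j => lv j = k).card = 4) ∨
    (o.card + 1 = 4 * a ∧ ∃ i0, 1 ≤ i0 ∧ i0 ≤ a ∧ (o.filter fun j => lv j = i0).card = 3 ∧
      ∀ k, 1 ≤ k → k ≤ a → k ≠ i0 → (o.filter fun j => lv j = k).card = 4) := by
  have e1 : o.card = ∑ k ∈ Icc 1 a, (o.filter fun j => lv j = k).card :=
    card_eq_sum_card_fiberwise (f := lv) (s := o) (t := Icc 1 a) (fun j hj => by
      have := h1 j hj
      rw [mem_coe, mem_Icc]
      exact this)
  have e2 : ∑ k ∈ Icc 1 a, (o.filter fun j => lv j = k).card +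
      ∑ k ∈ Icc 1 a, (4 - (o.filter fun j => lv j = k).card) = 4 * a := by
    rw [← sum_add_distrib]
    have : ∑ k ∈ Icc 1 a, ((o.filter fun j => lv j = k).card +
        (4 - (o.filter fun j => lv j = k).card)) = ∑ _k ∈ Icc 1 a, 4 := by
      apply sum_congr rfl
      intro k hk
      rw [mem_Icc] at hk
      have := h2 k hk.1 hk.2
      omega
    rw [this, sum_const, Nat.card_Icc, smul_eq_mul]
    omega
  by_cases hc : ∀ k, 1 ≤ k → k ≤ a → (o.filter fun j => lv j = k).card = 4
  · left
    refine ⟨?_, hc⟩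
    have e3 : ∑ k ∈ Icc 1 a, (4 - (o.filter fun j => lv j = k).card) = 0 := by
      apply sum_eq_zero
      intro k hk
      rw [mem_Icc] at hk
      have := hc k hk.1 hk.2
      omega
    omega
  · right
    push Not at hc
    obtain ⟨i0, p1, p2, p3⟩ := hc
    have hi0 : i0 ∈ Icc 1 a := mem_Icc.2 ⟨p1, p2⟩
    have e4 := add_sum_erase (Icc 1 a) (fun k => 4 - (o.filter fun j => lv j = k).card) hi0
    have q1 := h2 i0 p1 p2
    have q2 : 1 ≤ 4 - (o.filter fun j => lv j = i0).card := by omega
    refine ⟨by omega, i0, p1, p2, by omega, ?_⟩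
    intro k k1 k2 k3
    have hk : k ∈ (Icc 1 a).erase i0 := mem_erase.2 ⟨k3, mem_Icc.2 ⟨k1, k2⟩⟩
    have e5 := single_le_sum (f := fun k => 4 - (o.filter fun j => lv j = k).card)
      (fun _ _ => Nat.zero_le _) hk
    have q3 := h2 k k1 k2
    omega

/-- Two sums in the group and two sums of the top level. -/
private theorem Kh4F_two {G ι : Type} [AddCommGroup G] (v : Finset ι) (g : ι → G) (K : AddSubgroup G)
    (d : G) (M : ℕ) (h : ι) (hv : h ∈ v) (hK : g h ∈ K) (h0 : g h ≠ 0)
    (hM : (∑ j ∈ v, g j) - M • d ∈ K) :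
    2 ≤ ((FS v g).filter fun x => x ∈ K).card ∧
    2 ≤ ((FS v g).filter fun x => x - M • d ∈ K).card := by
  have m1 : (0 : G) ∈ FS v g := zero_mem_FS v g
  have m2 : g h ∈ FS v g := mem_FS.2 ⟨{h}, singleton_subset_iff.2 hv, by simp⟩
  have m3 : ∑ j ∈ v, g j ∈ FS v g := mem_FS.2 ⟨v, Subset.refl _, rfl⟩
  have m4 : (∑ j ∈ v, g j) - g h ∈ FS v g := by
    refine mem_FS.2 ⟨v.erase h, erase_subset _ _, ?_⟩
    rw [← add_sum_erase v g hv]
    abel
  constructor
  · have e : ({0, g h} : Finset G) ⊆ (FS v g).filter fun x => x ∈ K := by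
      intro x hx
      rw [mem_insert, mem_singleton] at hx
      rw [mem_filter]
      rcases hx with rfl | rfl
      · exact ⟨m1, K.zero_mem⟩
      · exact ⟨m2, hK⟩
    have c := card_le_card e
    rwa [card_pair h0.symm] at c
  · have e : ({∑ j ∈ v, g j, (∑ j ∈ v, g j) - g h} : Finset G) ⊆
        (FS v g).filter fun x => x - M • d ∈ K := by
      intro x hx
      rw [mem_insert, mem_singleton] at hx
      rw [mem_filter]
      rcases hx with rfl | rfl
      · exact ⟨m3, hM⟩
      · refine ⟨m4, ?_⟩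
        have : (∑ j ∈ v, g j) - g h - M • d = ((∑ j ∈ v, g j) - M • d) - g h := by abel
        rw [this]
        exact K.sub_mem hM hK
    have c := card_le_card e
    have hne : (∑ j ∈ v, g j) ≠ (∑ j ∈ v, g j) - g h := by
      intro h1
      apply h0
      have : g h = (∑ j ∈ v, g j) - ((∑ j ∈ v, g j) - g h) := by abel
      rw [this, ← h1, sub_self]
    rwa [card_pair hne] at c

theorem thm_Kh4F : SDG.St_Ba1 → MDR.St_Sg → SSE.St_Lc → St_F4F → SSE.St_Cn → St_Kh4F := by
  intro _ hSg hLc hF4 hCn G ι _ _ u f K hH hcyc hK4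
  obtain ⟨hAE, hAp, h5, hst, hAPK, hN⟩ := hH
  obtain ⟨d, a, g, lv, hd, hg, hgl, hl0, hlq, hlvu, hle, hb, _, hal⟩ :=
    hLc G ι u f K hAE (by omega) (by omega) hst hAPK
  rw [hK4] at hal hle
  -- the index
  obtain ⟨q, hq⟩ : ∃ q, q = K.index := ⟨_, rfl⟩
  have hNq : Nat.card G = 4 * q := by
    rw [hq, ← hK4]
    exact (AddSubgroup.card_mul_index K).symm
  rw [← hq] at hlq
  -- members outside the group
  obtain ⟨o, ho⟩ : ∃ o, o = outs u f K := ⟨_, rfl⟩
  have hou : o ⊆ u := by
    rw [ho]
    exact filter_subset _ _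
  have homem : ∀ j ∈ u, j ∈ o ↔ f j ∉ K := by
    intro j hj
    rw [ho]
    unfold outs
    rw [mem_filter]
    exact ⟨fun h => h.2, fun h => ⟨hj, h⟩⟩
  have hlvo : ∀ j ∈ o, 1 ≤ lv j ∧ lv j ≤ a := by
    intro j hj
    refine ⟨?_, hlvu j (hou hj)⟩
    have h1 := (homem j (hou hj)).1 hj
    rcases Nat.eq_zero_or_pos (lv j) with h2 | h2
    · exact absurd ((hl0 j).1 h2) h1
    · exact h2
  have hlvz : ∀ j ∈ u, j ∉ o → lv j = 0 := by
    intro j hj hjo
    rw [homem j hj, not_not] at hjo
    exact (hl0 j).2 hjo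
  have hfu : ∀ n, n ≠ 0 → (u.filter fun j => lv j = n) = o.filter fun j => lv j = n := by
    intro n hn
    ext j
    simp only [mem_filter]
    constructor
    · rintro ⟨h1, h2⟩
      refine ⟨?_, h2⟩
      by_contra h3
      rw [hlvz j h1 h3] at h2
      exact hn h2.symm
    · rintro ⟨h1, h2⟩
      exact ⟨hou h1, h2⟩
  have hucard : u.card = o.card + (ins u f K).card := by
    have h1 := card_filter_add_card_filter_not (s := u) (fun j => f j ∈ K)
    have h3 : (u.filter fun j => f j ∉ K).card = o.card := by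
      rw [ho]
      rfl
    have h4 : (u.filter fun j => f j ∈ K).card = (ins u f K).card := rfl
    omega
  obtain ⟨sg1, _, _, _, _, sg2, _, _⟩ := hSg G ι u f g (fun j _ => hg j)
  have hASg := sg2 hAE.1
  have hAEg : AE u g := by
    refine ⟨hASg, ?_⟩
    intro i hi
    rcases hg i with h1 | h1
    · rw [h1]
      exact hAE.2 i hi
    · rw [h1]
      intro h2
      apply hAE.2 i hi
      have h3 : f i + f i = -(-f i + -f i) := by abel
      rw [h3, h2, neg_zero]
  have hlvl := Kh4F_lvl o lv a hlvo (by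
    intro k k1 k2
    rw [← hfu k (by omega)]
    exact hle k k1 k2) (by omega)
  -- the deficient level
  have hdef : ∃ i0, (i0 ≠ 0 → (ins u f K).card = 1 ∧ i0 ≤ a ∧ u.card = 4 * a) ∧
      (i0 = 0 → o.card = 4 * a) ∧
      (∀ k, 1 ≤ k → k ≤ a → k ≠ i0 → (o.filter fun j => lv j = k).card = 4) ∧
      (i0 ≠ 0 → (o.filter fun j => lv j = i0).card = 3) := by
    rcases hlvl with ⟨c1, c2⟩ | ⟨c1, i0, c2, c3, c4, c5⟩
    · refine ⟨0, fun h => absurd rfl h, fun _ => c1, ?_, fun h => absurd rfl h⟩
      intro k h1 h2 _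
      exact c2 k h1 h2
    · exact ⟨i0, fun _ => ⟨by omega, c3, by omega⟩, fun h => by omega, c5, fun _ => c4⟩
  obtain ⟨i0, hi1, hi2, hc4, hc3⟩ := hdef
  have ha1 : 1 ≤ a := by
    by_contra h
    have : a = 0 := by omega
    subst this
    rcases Nat.eq_zero_or_pos i0 with h0 | h0
    · have := hi2 h0
      omega
    · have := hi1 (by omega)
      omega
  have hi0a : i0 ≤ a := by
    rcases Nat.eq_zero_or_pos i0 with h0 | h0
    · omega
    · exact (hi1 (by omega)).2.1
  obtain ⟨m, hm⟩ : ∃ m, m = ∑ j ∈ u, lv j := ⟨_, rfl⟩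
  have hmo : m = ∑ j ∈ o, lv j := by
    rw [hm]
    exact (sum_subset hou hlvz).symm
  have hm2 : m + i0 = 2 * ((a + 1) * a) := by
    have e := Kh4F_sum o lv a i0 hc4 hc3 (a + 1) le_rfl
    have e2 : (o.filter fun j => lv j < a + 1) = o := by
      rw [filter_eq_self]
      intro j hj
      have := hlvo j hj
      omega
    rw [e2, if_pos (by omega), ← hmo, Nat.add_sub_cancel] at e
    exact e
  have hlow : ∀ n, 2 ≤ n → n ≤ a → n + 1 ≤ ∑ j ∈ u.filter (fun j => lv j < n), lv j := by
    intro n hn hna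
    have e := Kh4F_sum o lv a i0 hc4 hc3 n (by omega)
    have e3 : n + 1 ≤ ∑ j ∈ o.filter (fun j => lv j < n), lv j := by
      obtain ⟨p, rfl⟩ : ∃ p, n = p + 2 := ⟨n - 2, by omega⟩
      have e4 : p + 2 - 1 = p + 1 := by omega
      rw [e4] at e
      by_cases h : i0 < p + 2
      · rw [if_pos h] at e
        nlinarith
      · rw [if_neg h] at e
        nlinarith
    refine e3.trans ?_
    exact sum_le_sum_of_subset (filter_subset_filter _ hou)
  -- sums of all members
  have hsum : (∑ j ∈ u, g j) - m • d ∈ K := by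
    rw [hm, sum_smul, ← sum_sub_distrib]
    exact K.sum_mem fun j _ => hgl j
  -- the member in the group
  have hmem : (ins u f K).card = 1 → ∃ h ∈ u, lv h = 0 ∧ g h ∈ K ∧ g h ≠ 0 := by
    intro hin
    obtain ⟨h, hh⟩ := card_eq_one.1 hin
    have hh2 : h ∈ ins u f K := by
      rw [hh]
      exact mem_singleton_self h
    unfold ins at hh2
    rw [mem_filter] at hh2
    obtain ⟨hhu, hhK⟩ := hh2
    have hz := (hl0 h).2 hhK
    refine ⟨h, hhu, hz, ?_, hASg.1 h hhu⟩
    have h1 := hgl h
    rw [hz, zero_smul, sub_zero] at h1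
    exact h1
  have hm1 : 1 ≤ m := by nlinarith
  have hPer : Per (FS u g) K d m := by
    rw [hm]
    refine hF4 G ι u g K d lv hcyc hK4 hAEg (fun j _ => hgl j) ?_ ?_
    · rw [hfu 1 one_ne_zero]
      by_cases hi : i0 = 1
      · right
        refine ⟨hi ▸ hc3 (by omega), ?_⟩
        obtain ⟨h, h1, h2, _⟩ := hmem (hi1 (by omega)).1
        exact ⟨h, h1, h2⟩
      · left
        exact hc4 1 le_rfl ha1 (fun h => hi h.symm)
    · intro j hj hj2
      exact hlow (lv j) hj2 (hlvu j hj)
  obtain ⟨t1, t2, t3⟩ := (hCn G (FS u g) K d hd).2.2 m hPer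
  rw [← hq] at t1 t2 t3
  rw [sg1, hK4] at t2 t3
  have hz1 : 1 ≤ ((FS u g).filter fun x => x ∈ K).card := by
    rw [Nat.one_le_iff_ne_zero, ← Nat.pos_iff_ne_zero, card_pos]
    exact ⟨0, mem_filter.2 ⟨zero_mem_FS u g, K.zero_mem⟩⟩
  have hz2 : 1 ≤ ((FS u g).filter fun x => x - m • d ∈ K).card := by
    rw [Nat.one_le_iff_ne_zero, ← Nat.pos_iff_ne_zero, card_pos]
    exact ⟨∑ j ∈ u, g j, mem_filter.2 ⟨mem_FS.2 ⟨u, Subset.refl _, rfl⟩, hsum⟩⟩
  -- the interval is not too long
  have hmq1 : m ≤ q := by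
    by_contra hcon
    have hall := t1 (by omega)
    have hApg : Aper (FS u g) := (hSg G ι u f g (fun j _ => hg j)).2.1 hAp
    have hnt : Nontrivial K := by
      have : Finite K := inferInstance
      exact Finite.one_lt_card_iff_nontrivial.1 (by omega)
    obtain ⟨x, hx⟩ := exists_ne (0 : K)
    apply hx
    exact Subtype.ext (hApg x.1 fun y _ => hall _)
  rcases Nat.lt_or_ge m q with hlt | hge
  · have hT := t3 hm1 hlt
    rcases Nat.eq_zero_or_pos i0 with h0 | h0
    · subst h0
      have hoc := hi2 rfl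
      by_cases hb0 : (ins u f K).card = 0
      · right
        have hua : u.card = 4 * a := by omega
        rw [hua]
        have hF : 4 * m ≤ (FS u f).card + 2 := by omega
        have hA : 4 * a * (4 * a + 1) = 16 * (a * a) + 4 * a := by ring
        have hB : 2 * ((a + 1) * a) = 2 * (a * a) + 2 * a := by ring
        rw [hA]
        rw [hB] at hm2
        omega
      · have hb1 : (ins u f K).card = 1 := by omega
        obtain ⟨h, h1, h2, h3, h4⟩ := hmem hb1
        obtain ⟨w1, w2⟩ := Kh4F_two u g K d m h h1 h3 h4 hsum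
        have hua : u.card = 4 * a + 1 := by omega
        have hF : 4 * m ≤ (FS u f).card := by omega
        have hA : (4 * a + 1) * (4 * a + 1 + 1) = 16 * (a * a) + 12 * a + 2 := by ring
        have hB : 2 * ((a + 1) * a) = 2 * (a * a) + 2 * a := by ring
        rw [hB] at hm2
        by_cases ha2 : 2 ≤ a
        · right
          rw [hua, hA]
          omega
        · left
          have ha : a = 1 := by omega
          subst ha
          refine ⟨⟨hK4, by omega, hb1, d, hd, ?_⟩, by rw [hua]; omega⟩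
          intro i hi
          rw [← ho] at hi
          have h6 := hlvo i hi
          have h7 : lv i = 1 := by omega
          have h8 := hgl i
          rw [h7, one_smul] at h8
          rcases hg i with h9 | h9
          · left
            rw [← h9]
            exact h8
          · right
            have h10 := K.neg_mem h8
            rw [h9] at h10
            have h11 : f i + d = -(-f i - d) := by abel
            rw [h11]
            exact h10
    · obtain ⟨hb1, hia, hua⟩ := hi1 (by omega)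
      obtain ⟨h, h1, h2, h3, h4⟩ := hmem hb1
      obtain ⟨w1, w2⟩ := Kh4F_two u g K d m h h1 h3 h4 hsum
      right
      rw [hua]
      have hF : 4 * m ≤ (FS u f).card := by omega
      have hA : 4 * a * (4 * a + 1) = 16 * (a * a) + 4 * a := by ring
      have hB : 2 * ((a + 1) * a) = 2 * (a * a) + 2 * a := by ring
      rw [hA]
      rw [hB] at hm2
      omega
  · have hmq : m = q := by omega
    have hT := t2 hm1 hmq
    right
    rcases hN with h1 | h1
    · rw [hNq] at h1
      obtain ⟨l, hl⟩ : ∃ l, u.card = l + 5 := ⟨u.card - 5, by omega⟩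
      rw [hl] at h1 ⊢
      have e1 : l + 5 - 1 = l + 4 := by omega
      rw [e1] at h1
      have e2 : (l + 5) * (l + 4) = l * l + 9 * l + 20 := by ring
      have e3 : (l + 5) * (l + 5 + 1) = l * l + 11 * l + 30 := by ring
      rw [e2] at h1
      rw [e3]
      have e4 : 0 ≤ l * l := Nat.zero_le _
      omega
    · omega

end Pool.Agent.SSF
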