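import Pool.Agent.SSF.St

/-!
# SSF KhV: nearly filled by the group of order four killed by 2, progression modulo this group (helper26)

Adapted from Pool/Agent/SSE/Kh4.lean.
-/

set_option autoImplicit false

noncomputable section

open Finset Pool.Agent.Helper64.Rho Pool.Agent.SDG Pool.Agent.MDR Pool.Agent.SSC Pool.Agent.SSE
open scoped Classical Pointwise

namespace Pool.Agent.SSF

private theorem KhV_fib {ι : Type} (o : Finset ι) (lv : ι → ℕ) (n : ℕ) :
    ∑ j ∈ o.filter (fun j => lv j < n), lv j =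
      ∑ k ∈ range n, k * (o.filter fun j => lv j = k).card := by
  rw [← Finset.sum_fiberwise_of_maps_to (g := lv) (t := range n)
    (fun j hj => mem_range.2 (mem_filter.1 hj).2)]
  apply sum_congr rfl
  intro k hk
  have hk' := mem_range.1 hk
  have h0 : (o.filter fun j => lv j < n).filter (fun j => lv j = k) = o.filter fun j => lv j = k := by
    ext j
    simp only [mem_filter]
    constructor
    · rintro ⟨⟨x, _⟩, z⟩
      exact ⟨x, z⟩
    · rintro ⟨x, z⟩
      exact ⟨⟨x, by omega⟩, z⟩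
  rw [h0]
  have h1 : ∑ j ∈ o.filter (fun j => lv j = k), lv j = ∑ _j ∈ o.filter (fun j => lv j = k), k :=
    sum_congr rfl fun j hj => (mem_filter.1 hj).2
  rw [h1, sum_const, smul_eq_mul, mul_comm]

/-- The weighted sum of the levels below `n`, all levels have four members. -/
private theorem KhV_sum {ι : Type} (o : Finset ι) (lv : ι → ℕ) (a : ℕ)
    (h3 : ∀ k, 1 ≤ k → k ≤ a → (o.filter fun j => lv j = k).card = 4) (n : ℕ) (hn : n ≤ a + 1) :
    ∑ j ∈ o.filter (fun j => lv j < n), lv j = 2 * (n * (n - 1)) := by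
  rw [KhV_fib o lv n]
  have e1 : ∑ k ∈ range n, k * (o.filter fun j => lv j = k).card = ∑ k ∈ range n, 4 * k := by
    apply sum_congr rfl
    intro k hk
    have hk' := mem_range.1 hk
    rcases Nat.eq_zero_or_pos k with h4 | h4
    · rw [h4]
      simp
    · rw [h3 k h4 (by omega)]
      ring
  rw [e1, ← mul_sum]
  have e3 := sum_range_id_mul_two n
  omega

/-- At most four members of each level, at least `4 a` members. -/
private theorem KhV_lvl {ι : Type} (o : Finset ι) (lv : ι → ℕ) (a : ℕ)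
    (h1 : ∀ j ∈ o, 1 ≤ lv j ∧ lv j ≤ a)
    (h2 : ∀ k, 1 ≤ k → k ≤ a → (o.filter fun j => lv j = k).card ≤ 4) (h3 : 4 * a ≤ o.card) :
    o.card = 4 * a ∧ ∀ k, 1 ≤ k → k ≤ a → (o.filter fun j => lv j = k).card = 4 := by
  have e1 : o.card = ∑ k ∈ Icc 1 a, (o.filter fun j => lv j = k).card :=
    card_eq_sum_card_fiberwise (f := lv) (s := o) (t := Icc 1 a) (fun j hj => by
      have := h1 j hj
      rw [mem_coe, mem_Icc]
      exact this)
  have e2 : ∑ k ∈ Icc 1 a, (o.filter fun j => lv j = k).card +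
      ∑ k ∈ Icc 1 a, (4 - (o.filter fun j => lv j = k).card) = 4 * a := by
    rw [← sum_add_distrib]
    have : ∑ k ∈ Icc 1 a, ((o.filter fun j => lv j = k).card +
        (4 - (o.filter fun j => lv j = k).card)) = ∑ _k ∈ Icc 1 a, 4 := by
      apply sum_congr rfl
      intro k hk
      rw [mem_Icc] at hk
      have := h2 k hk.1 hk.2
      omega
    rw [this, sum_const, Nat.card_Icc, smul_eq_mul]
    omega
  refine ⟨by omega, ?_⟩
  intro k k1 k2
  have hk : k ∈ Icc 1 a := mem_Icc.2 ⟨k1, k2⟩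
  have e5 := single_le_sum (f := fun k => 4 - (o.filter fun j => lv j = k).card)
    (fun _ _ => Nat.zero_le _) hk
  have q3 := h2 k k1 k2
  omega

theorem thm_KhV : SDG.St_Ba1 → MDR.St_Sg → SSE.St_Lc → St_FV → SSE.St_Cn → St_KhV := by
  intro _ hSg hLc hFV hCn G ι _ _ u f K hH hK2 hK4
  obtain ⟨hAE, hAp, h5, hst, hAPK, hN⟩ := hH
  obtain ⟨d, a, g, lv, hd, hg, hgl, hl0, hlq, hlvu, hle, _, _, hal⟩ :=
    hLc G ι u f K hAE (by omega) (by omega) hst hAPK
  rw [hK4] at hal hle
  -- the index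
  obtain ⟨q, hq⟩ : ∃ q, q = K.index := ⟨_, rfl⟩
  have hNq : Nat.card G = 4 * q := by
    rw [hq, ← hK4]
    exact (AddSubgroup.card_mul_index K).symm
  rw [← hq] at hlq
  -- no member in the group
  have hout : ∀ j ∈ u, f j ∉ K := by
    intro j hj hjK
    exact hAE.2 j hj (hK2 (f j) hjK)
  have hlvo : ∀ j ∈ u, 1 ≤ lv j ∧ lv j ≤ a := by
    intro j hj
    refine ⟨?_, hlvu j hj⟩
    rcases Nat.eq_zero_or_pos (lv j) with h2 | h2
    · exact absurd ((hl0 j).1 h2) (hout j hj)
    · exact h2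
  obtain ⟨sg1, _, _, _, _, sg2, _, _⟩ := hSg G ι u f g (fun j _ => hg j)
  have hASg := sg2 hAE.1
  obtain ⟨hua, hc4⟩ := KhV_lvl u lv a hlvo hle (by omega)
  have ha2 : 2 ≤ a := by omega
  obtain ⟨m, hm⟩ : ∃ m, m = ∑ j ∈ u, lv j := ⟨_, rfl⟩
  have hm2 : m = 2 * ((a + 1) * a) := by
    have e := KhV_sum u lv a hc4 (a + 1) le_rfl
    have e2 : (u.filter fun j => lv j < a + 1) = u := by
      rw [filter_eq_self]
      intro j hj
      have := hlvo j hj
      omega
    rw [e2, ← hm, Nat.add_sub_cancel] at e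
    exact e
  have hlow : ∀ n, 3 ≤ n → n ≤ a → n + 1 ≤ ∑ j ∈ u.filter (fun j => lv j < n), lv j := by
    intro n hn hna
    have e := KhV_sum u lv a hc4 n (by omega)
    rw [e]
    obtain ⟨p, rfl⟩ : ∃ p, n = p + 3 := ⟨n - 3, by omega⟩
    have e4 : p + 3 - 1 = p + 2 := by omega
    rw [e4]
    nlinarith
  -- sums of all members
  have hsum : (∑ j ∈ u, g j) - m • d ∈ K := by
    rw [hm, sum_smul, ← sum_sub_distrib]
    exact K.sum_mem fun j _ => hgl j
  have hm1 : 1 ≤ m := by nlinarith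
  have hPer : Per (FS u g) K d m := by
    rw [hm]
    refine hFV G ι u g K d lv hK2 hK4 hASg (fun j _ => hgl j) (hc4 1 le_rfl (by omega))
      (hc4 2 (by omega) ha2) ?_
    intro j hj hj2
    exact hlow (lv j) hj2 (hlvu j hj)
  obtain ⟨t1, t2, t3⟩ := (hCn G (FS u g) K d hd).2.2 m hPer
  rw [← hq] at t1 t2 t3
  rw [sg1, hK4] at t2 t3
  have hz1 : 1 ≤ ((FS u g).filter fun x => x ∈ K).card := by
    rw [Nat.one_le_iff_ne_zero, ← Nat.pos_iff_ne_zero, card_pos]
    exact ⟨0, mem_filter.2 ⟨zero_mem_FS u g, K.zero_mem⟩⟩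
  have hz2 : 1 ≤ ((FS u g).filter fun x => x - m • d ∈ K).card := by
    rw [Nat.one_le_iff_ne_zero, ← Nat.pos_iff_ne_zero, card_pos]
    exact ⟨∑ j ∈ u, g j, mem_filter.2 ⟨mem_FS.2 ⟨u, Subset.refl _, rfl⟩, hsum⟩⟩
  -- the interval is not too long
  have hmq1 : m ≤ q := by
    by_contra hcon
    have hall := t1 (by omega)
    have hApg : Aper (FS u g) := (hSg G ι u f g (fun j _ => hg j)).2.1 hAp
    have hnt : Nontrivial K := by
      have : Finite K := inferInstance
      exact Finite.one_lt_card_iff_nontrivial.1 (by omega)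
    obtain ⟨x, hx⟩ := exists_ne (0 : K)
    apply hx
    exact Subtype.ext (hApg x.1 fun y _ => hall _)
  have hA : 4 * a * (4 * a + 1) = 16 * (a * a) + 4 * a := by ring
  have hB : 2 * ((a + 1) * a) = 2 * (a * a) + 2 * a := by ring
  rcases Nat.lt_or_ge m q with hlt | hge
  · have hT := t3 hm1 hlt
    have hF : 4 * m ≤ (FS u f).card + 2 := by omega
    rw [hua, hA]
    rw [hB] at hm2
    omega
  · have hmq : m = q := by omega
    have hT := t2 hm1 hmq
    rcases hN with h1 | h1
    · rw [hNq] at h1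
      obtain ⟨l, hl⟩ : ∃ l, u.card = l + 5 := ⟨u.card - 5, by omega⟩
      rw [hl] at h1 ⊢
      have e1 : l + 5 - 1 = l + 4 := by omega
      rw [e1] at h1
      have e2 : (l + 5) * (l + 4) = l * l + 9 * l + 20 := by ring
      have e3 : (l + 5) * (l + 5 + 1) = l * l + 11 * l + 30 := by ring
      rw [e2] at h1
      rw [e3]
      have e4 : 0 ≤ l * l := Nat.zero_le _
      omega
    · omega

end Pool.Agent.SSF
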