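import Pool.Agent.SSF.St

/-!
# SSF, module PFF: strong induction
-/

set_option autoImplicit false

noncomputable section

open Finset Pool.Agent.Helper64.Rho Pool.Agent.SDG Pool.Agent.MDR Pool.Agent.SSC Pool.Agent.SSE
open scoped Classical Pointwise

namespace Pool.Agent.SSF

/-- the set of sums does not depend on the instance of decidable equality -/
private theorem PFF_inst {G ι : Type} [AddCommGroup G] (i1 i2 : DecidableEq G) (s : Finset ι) (f : ι → G) :
    @FS ι G _ i1 s f = @FS ι G _ i2 s f := by
  rw [Subsingleton.elim i1 i2]

/-- strong induction on the number of members -/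
theorem thm_PFF : SDG.St_Tr → SDG.St_main → St_Cr → SSE.St_PFE → St_S8F → St_EvF → St_OdF → St_PFF := by
  intro hTr hmain hCr hPE hS8 hEv hOd hEng t
  induction t using Nat.strong_induction_on with
  | _ t ih =>
    intro G ι _ _ s f hR hst hne hcap hap
    by_contra hlt
    rw [not_le] at hlt
    obtain ⟨f', -, hgen, hcard, hap', hcap', hne'⟩ := hTr G ι s f
    have hap1 := hap' hap
    rw [PFF_inst _ (fun a b => Classical.propDecidable (a = b)) s f'] at hap1 hcard
    by_cases hcyc : IsAddCyclic (gen s f)
    · have h1 := hPE t (gen s f) ι s f' hcyc hst (hne' hne) (hcap' 2 hcap) hap1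
      rw [hcard] at h1
      omega
    · have hctx : CtxF t s f' :=
        ⟨ih, fun h u h2 => (hmain u).2 h h2, (hCr G hR).1 (gen s f), hcyc, hst, hne' hne, hcap' 2 hcap, hap1,
          hgen, by rw [hcard]; exact hlt⟩
      rcases le_or_gt t 8 with h8 | h8
      · exact hS8 _ _ t s f' h8 hctx
      · rcases Nat.even_or_odd' t with ⟨l, hl | hl⟩
        · refine hEv hEng _ _ l s f' (by omega) ?_
          rw [← hl]
          exact hctx
        · refine hOd hEng _ _ (l + 1) s f' (by omega) ?_
          have e : 2 * (l + 1) - 1 = t := by omega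
          rw [e]
          exact hctx

end Pool.Agent.SSF
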