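import Pool.Agent.SSF.St
import Pool.Agent.MDR.Sg

/-!
# SSF: at most eight members (`S8F`)
-/

set_option autoImplicit false

noncomputable section

open Finset Pool.Agent.Helper64.Rho Pool.Agent.SDG Pool.Agent.MDR Pool.Agent.SSC Pool.Agent.SSE
open scoped Classical Pointwise

namespace Pool.Agent.SSF

private lemma S8F_three {G : Type} [AddCommGroup G] (A T : Finset G) (L : AddSubgroup G) (a b : G)
    (hA : ∀ x ∈ A, x ∈ L) (ha : a ∉ L) (hb : b ∉ L) (hab : a - b ∉ L) (h0 : ∀ x ∈ A, x ∈ T)
    (h1 : ∀ x ∈ A, x + a ∈ T) (h2 : ∀ x ∈ A, x + b ∈ T) : 3 * A.card ≤ T.card := by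
  have i1 : (A.image fun x => x + a).card = A.card :=
    card_image_of_injective _ (add_left_injective a)
  have i2 : (A.image fun x => x + b).card = A.card :=
    card_image_of_injective _ (add_left_injective b)
  have d1 : Disjoint A (A.image fun x => x + a) := by
    rw [disjoint_left]
    intro x hx hx2
    obtain ⟨y, hy, rfl⟩ := mem_image.1 hx2
    apply ha
    have := L.sub_mem (hA _ hx) (hA y hy)
    simpa using this
  have d2 : Disjoint (A ∪ A.image fun x => x + a) (A.image fun x => x + b) := by
    rw [disjoint_left]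
    intro x hx hx2
    obtain ⟨y, hy, rfl⟩ := mem_image.1 hx2
    rcases mem_union.1 hx with h | h
    · apply hb
      have := L.sub_mem (hA _ h) (hA y hy)
      simpa using this
    · obtain ⟨z, hz, hz2⟩ := mem_image.1 h
      apply hab
      have h3 := L.sub_mem (hA y hy) (hA z hz)
      have h4 : a - b = y - z := by
        have h5 : z + a = y + b := hz2
        have h6 : a = y + b - z := by rw [← h5]; abel
        rw [h6]; abel
      rw [h4]; exact h3
  have h3 : (A ∪ A.image fun x => x + a) ∪ (A.image fun x => x + b) ⊆ T := by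
    intro x hx
    rcases mem_union.1 hx with h | h
    · rcases mem_union.1 h with h | h
      · exact h0 x h
      · obtain ⟨y, hy, rfl⟩ := mem_image.1 h
        exact h1 y hy
    · obtain ⟨y, hy, rfl⟩ := mem_image.1 h
      exact h2 y hy
  have h4 := card_le_card h3
  rw [card_union_of_disjoint d2, card_union_of_disjoint d1, i1, i2] at h4
  omega

private lemma S8F_add1 {G ι : Type} [AddCommGroup G] {v s : Finset ι} {f : ι → G} {i : ι} {x : G}
    (hv : v ⊆ s) (hi : i ∈ s) (hiv : i ∉ v) (hx : x ∈ FS v f) : x + f i ∈ FS s f := by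
  obtain ⟨u, hu, rfl⟩ := mem_FS.1 hx
  refine mem_FS.2 ⟨insert i u, insert_subset hi (hu.trans hv), ?_⟩
  rw [sum_insert fun h => hiv (hu h), add_comm]

private lemma S8F_add2 {G ι : Type} [AddCommGroup G] {v s : Finset ι} {f : ι → G} {i j : ι} {x : G}
    (hv : v ⊆ s) (hi : i ∈ s) (hj : j ∈ s) (hiv : i ∉ v) (hjv : j ∉ v) (hij : i ≠ j)
    (hx : x ∈ FS v f) : x + (f i + f j) ∈ FS s f := by
  obtain ⟨u, hu, rfl⟩ := mem_FS.1 hx
  refine mem_FS.2 ⟨insert i (insert j u), insert_subset hi (insert_subset hj (hu.trans hv)), ?_⟩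
  rw [sum_insert, sum_insert fun h => hjv (hu h)]
  · abel
  · rw [mem_insert, not_or]
    exact ⟨hij, fun h => hiv (hu h)⟩

private lemma S8F_cf (h : Pool.Agent.SDG.St_Nm1) (t : ℕ) : cf 2 t = 1 + (t + 1) ^ 2 / 4 := h.2.2.1 t

private lemma S8F_mem3 {G : Type} [AddCommGroup G] (h : G) (h3 : (3 : ℕ) • h = 0) (x : G)
    (hx : x ∈ AddSubgroup.zmultiples h) : x = 0 ∨ x = h ∨ x = -h := by
  obtain ⟨n, rfl⟩ := AddSubgroup.mem_zmultiples_iff.1 hx
  have h3' : (3 : ℤ) • h = 0 := by
    have : (3 : ℤ) • h = (3 : ℕ) • h := by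
      rw [← natCast_zsmul]; rfl
    rw [this, h3]
  have h4 : n • h = (n % 3) • h := by
    conv_lhs => rw [← Int.emod_add_mul_ediv n 3]
    rw [add_smul, mul_comm, mul_smul, h3', smul_zero, add_zero]
  rw [h4]
  have h5 : n % 3 = 0 ∨ n % 3 = 1 ∨ n % 3 = 2 := by omega
  rcases h5 with h5 | h5 | h5
  · left; rw [h5, zero_smul]
  · right; left; rw [h5, one_smul]
  · right; right
    rw [h5]
    have h6 : (3 : ℤ) • h = (2 : ℤ) • h + h := by
      have : (3 : ℤ) = 2 + 1 := by norm_num
      rw [this, add_smul, one_smul]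
    rw [h6] at h3'
    exact (neg_eq_of_add_eq_zero_left h3').symm

private lemma S8F_four {G ι : Type} [AddCommGroup G] (v : Finset ι) (f : ι → G) (hC : Cap 1 v f)
    (h4 : v.card = 4) (h z : G)
    (hK4 : ∀ i ∈ v, f i = h ∨ f i = -h ∨ f i = z ∨ f i = -z ∨ f i = z + h ∨ f i = -(z + h) ∨
      f i = z - h ∨ f i = -(z - h)) :
    (∃ i ∈ v, f i = h ∨ f i = -h) ∧ (∃ i ∈ v, f i = z ∨ f i = -z) ∧
      (∃ i ∈ v, f i = z + h ∨ f i = -(z + h)) ∧ (∃ i ∈ v, f i = z - h ∨ f i = -(z - h)) := by
  have h5 : v ⊆ ((v.filter fun i => f i = h ∨ f i = -h) ∪ (v.filter fun i => f i = z ∨ f i = -z)) ∪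
      ((v.filter fun i => f i = z + h ∨ f i = -(z + h)) ∪
        (v.filter fun i => f i = z - h ∨ f i = -(z - h))) := by
    intro i hi
    simp only [mem_union, mem_filter]
    rcases hK4 i hi with e | e | e | e | e | e | e | e
    · exact Or.inl (Or.inl ⟨hi, Or.inl e⟩)
    · exact Or.inl (Or.inl ⟨hi, Or.inr e⟩)
    · exact Or.inl (Or.inr ⟨hi, Or.inl e⟩)
    · exact Or.inl (Or.inr ⟨hi, Or.inr e⟩)
    · exact Or.inr (Or.inl ⟨hi, Or.inl e⟩)
    · exact Or.inr (Or.inl ⟨hi, Or.inr e⟩)
    · exact Or.inr (Or.inr ⟨hi, Or.inl e⟩)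
    · exact Or.inr (Or.inr ⟨hi, Or.inr e⟩)
  have h6 := card_le_card h5
  have h7 := card_union_le
    ((v.filter fun i => f i = h ∨ f i = -h) ∪ (v.filter fun i => f i = z ∨ f i = -z))
    ((v.filter fun i => f i = z + h ∨ f i = -(z + h)) ∪
      (v.filter fun i => f i = z - h ∨ f i = -(z - h)))
  have h8 := card_union_le (v.filter fun i => f i = h ∨ f i = -h)
    (v.filter fun i => f i = z ∨ f i = -z)
  have h9 := card_union_le (v.filter fun i => f i = z + h ∨ f i = -(z + h))
    (v.filter fun i => f i = z - h ∨ f i = -(z - h))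
  have c0 := hC h
  have c1 := hC z
  have c2 := hC (z + h)
  have c3 := hC (z - h)
  refine ⟨?_, ?_, ?_, ?_⟩
  · obtain ⟨i, hi⟩ := card_pos.1 (show 0 < (v.filter fun i => f i = h ∨ f i = -h).card by omega)
    exact ⟨i, (mem_filter.1 hi).1, (mem_filter.1 hi).2⟩
  · obtain ⟨i, hi⟩ := card_pos.1 (show 0 < (v.filter fun i => f i = z ∨ f i = -z).card by omega)
    exact ⟨i, (mem_filter.1 hi).1, (mem_filter.1 hi).2⟩
  · obtain ⟨i, hi⟩ := card_pos.1
      (show 0 < (v.filter fun i => f i = z + h ∨ f i = -(z + h)).card by omega)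
    exact ⟨i, (mem_filter.1 hi).1, (mem_filter.1 hi).2⟩
  · obtain ⟨i, hi⟩ := card_pos.1
      (show 0 < (v.filter fun i => f i = z - h ∨ f i = -(z - h)).card by omega)
    exact ⟨i, (mem_filter.1 hi).1, (mem_filter.1 hi).2⟩

/-- the double of a value `± x` -/
private lemma S8F_dbl {G : Type} [AddCommGroup G] {a x : G} (h : a = x ∨ a = -x) (h2 : x + x = 0) :
    a + a = 0 := by
  rcases h with rfl | rfl
  · exact h2
  · rw [← neg_add, h2, neg_zero]

/-- `2 z ∉ K` -/
private lemma S8F_z2 {G ι : Type} [AddCommGroup G] (v : Finset ι) (f : ι → G) (hv : AE v f) (h z : G)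
    (h3 : (3 : ℕ) • h = 0) (e1 : ∃ i ∈ v, f i = z ∨ f i = -z)
    (e2 : ∃ i ∈ v, f i = z + h ∨ f i = -(z + h)) (e3 : ∃ i ∈ v, f i = z - h ∨ f i = -(z - h)) :
    z + z ∉ AddSubgroup.zmultiples h := by
  have h3' : h + h + h = 0 := by
    rw [← h3, succ_nsmul, two_nsmul]
  intro hz
  rcases S8F_mem3 h h3 _ hz with e | e | e
  · obtain ⟨i, hi, hfi⟩ := e1
    exact hv.2 i hi (S8F_dbl hfi e)
  · obtain ⟨i, hi, hfi⟩ := e2
    apply hv.2 i hi
    apply S8F_dbl hfi
    have : z + h + (z + h) = (z + z) + h + h := by abel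
    rw [this, e, h3']
  · obtain ⟨i, hi, hfi⟩ := e3
    apply hv.2 i hi
    apply S8F_dbl hfi
    have : z - h + (z - h) = (z + z) - h - h := by abel
    have h5 : -h - h - h = -(h + h + h) := by abel
    rw [this, e, h5, h3', neg_zero]

/-- if `3 z ∈ K` the subgroup has at most nine elements -/
private lemma S8F_nine {G ι : Type} [AddCommGroup G] [Finite G] (v : Finset ι) (f : ι → G) (h z : G)
    (h3 : (3 : ℕ) • h = 0)
    (hK : ∀ i ∈ v, f i ∈ AddSubgroup.zmultiples h ∨ f i - z ∈ AddSubgroup.zmultiples h ∨
      f i + z ∈ AddSubgroup.zmultiples h) (hz : z + z + z ∈ AddSubgroup.zmultiples h) :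
    Nat.card (gen v f) ≤ 9 := by
  set K := AddSubgroup.zmultiples h with hKdef
  let A : Finset G := {0, h, -h}
  have hA : ∀ x ∈ K, x ∈ A := by
    intro x hx
    rcases S8F_mem3 h h3 x hx with h | h | h
    · simp [A, h]
    · simp [A, h]
    · simp [A, h]
  have hAc : A.card ≤ 3 := card_le_three
  have key : ∀ x ∈ gen v f, x ∈ K ∨ x - z ∈ K ∨ x + z ∈ K := by
    intro x hx
    rw [gen] at hx
    induction hx using AddSubgroup.closure_induction with
    | mem x hx =>
      obtain ⟨i, hi, rfl⟩ := hx
      exact hK i hi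
    | zero => exact Or.inl K.zero_mem
    | add x y _ _ hx hy =>
      rcases hx with hx | hx | hx
      · rcases hy with hy | hy | hy
        · exact Or.inl (K.add_mem hx hy)
        · right; left
          have := K.add_mem hx hy
          have e : x + (y - z) = x + y - z := by abel
          rwa [e] at this
        · right; right
          have := K.add_mem hx hy
          have e : x + (y + z) = x + y + z := by abel
          rwa [e] at this
      · rcases hy with hy | hy | hy
        · right; left
          have := K.add_mem hx hy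
          have e : x - z + y = x + y - z := by abel
          rwa [e] at this
        · right; right
          have := K.add_mem (K.add_mem hx hy) hz
          have e : x - z + (y - z) + (z + z + z) = x + y + z := by abel
          rwa [e] at this
        · left
          have := K.add_mem hx hy
          have e : x - z + (y + z) = x + y := by abel
          rwa [e] at this
      · rcases hy with hy | hy | hy
        · right; right
          have := K.add_mem hx hy
          have e : x + z + y = x + y + z := by abel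
          rwa [e] at this
        · left
          have := K.add_mem hx hy
          have e : x + z + (y - z) = x + y := by abel
          rwa [e] at this
        · right; left
          have := K.sub_mem (K.add_mem hx hy) hz
          have e : x + z + (y + z) - (z + z + z) = x + y - z := by abel
          rwa [e] at this
    | neg x _ hx =>
      rcases hx with hx | hx | hx
      · exact Or.inl (K.neg_mem hx)
      · right; right
        have := K.neg_mem hx
        have e : -(x - z) = -x + z := by abel
        rwa [e] at this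
      · right; left
        have := K.neg_mem hx
        have e : -(x + z) = -x - z := by abel
        rwa [e] at this
  have hsub : ((gen v f : AddSubgroup G) : Set G) ⊆
      (((A ∪ A.image fun x => x + z) ∪ A.image fun x => x - z : Finset G) : Set G) := by
    intro x hx
    rw [mem_coe]
    rcases key x hx with h | h | h
    · exact mem_union_left _ (mem_union_left _ (hA x h))
    · refine mem_union_left _ (mem_union_right _ (mem_image.2 ⟨x - z, hA _ h, ?_⟩))
      abel
    · refine mem_union_right _ (mem_image.2 ⟨x + z, hA _ h, ?_⟩)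
      abel
  have c1 : (A.image fun x => x + z).card ≤ 3 := le_trans card_image_le hAc
  have c2 : (A.image fun x => x - z).card ≤ 3 := le_trans card_image_le hAc
  have c3 := Set.ncard_le_ncard hsub (Set.toFinite _)
  rw [Set.ncard_coe_finset] at c3
  have c4 := card_union_le (A ∪ A.image fun x => x + z) (A.image fun x => x - z)
  have c5 := card_union_le A (A.image fun x => x + z)
  have c6 : ((gen v f : AddSubgroup G) : Set G).ncard = Nat.card (gen v f) := by
    rw [← Nat.card_coe_set_eq]
    rfl
  omega

/-- at least ten sums -/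
private lemma S8F_ten {G ι : Type} [AddCommGroup G] (v : Finset ι) (f : ι → G) (h z : G) (hh : h ≠ 0)
    (h3 : (3 : ℕ) • h = 0) (e0 : ∃ i ∈ v, f i = h ∨ f i = -h) (e1 : ∃ i ∈ v, f i = z ∨ f i = -z)
    (e2 : ∃ i ∈ v, f i = z + h ∨ f i = -(z + h)) (e3 : ∃ i ∈ v, f i = z - h ∨ f i = -(z - h))
    (z1 : z ∉ AddSubgroup.zmultiples h) (z2 : z + z ∉ AddSubgroup.zmultiples h)
    (z3 : z + z + z ∉ AddSubgroup.zmultiples h) : 10 ≤ (FS v f).card := by
  obtain ⟨i0, hi0, f0⟩ := e0
  obtain ⟨i1, hi1, f1⟩ := e1
  obtain ⟨i2, hi2, f2⟩ := e2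
  obtain ⟨i3, hi3, f3⟩ := e3
  obtain ⟨K, hKdef⟩ : ∃ K : AddSubgroup G, K = AddSubgroup.zmultiples h := ⟨_, rfl⟩
  rw [← hKdef] at z1 z2 z3
  have hhK : h ∈ K := by rw [hKdef]; exact AddSubgroup.mem_zmultiples h
  have h2 : h + h ≠ 0 := by
    intro e
    apply hh
    rw [succ_nsmul, two_nsmul, e, zero_add] at h3
    exact h3
  have n01 : i0 ≠ i1 := by
    rintro rfl
    apply z1
    have hf : f i0 ∈ K := by
      rcases f0 with e | e
      · rw [e]; exact hhK
      · rw [e]; exact K.neg_mem hhK
    rcases f1 with e | e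
    · rw [← e]; exact hf
    · rw [← neg_neg z, ← e]; exact K.neg_mem hf
  have n02 : i0 ≠ i2 := by
    rintro rfl
    apply z1
    have hf : f i0 ∈ K := by
      rcases f0 with e | e
      · rw [e]; exact hhK
      · rw [e]; exact K.neg_mem hhK
    have hz : z + h ∈ K := by
      rcases f2 with e | e
      · rw [← e]; exact hf
      · rw [← neg_neg (z + h), ← e]; exact K.neg_mem hf
    have := K.sub_mem hz hhK
    rwa [add_sub_cancel_right] at this
  have n03 : i0 ≠ i3 := by
    rintro rfl
    apply z1
    have hf : f i0 ∈ K := by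
      rcases f0 with e | e
      · rw [e]; exact hhK
      · rw [e]; exact K.neg_mem hhK
    have hz : z - h ∈ K := by
      rcases f3 with e | e
      · rw [← e]; exact hf
      · rw [← neg_neg (z - h), ← e]; exact K.neg_mem hf
    have := K.add_mem hz hhK
    rwa [sub_add_cancel] at this
  have n12 : i1 ≠ i2 := by
    rintro rfl
    rcases f1 with a | a <;> rcases f2 with b | b
    · rw [a] at b
      exact hh (left_eq_add.1 b)
    · rw [a] at b
      apply z2
      have e : z + z = -h := by
        have : z + z = -(z + h) + z := by rw [← b]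
        rw [this]; abel
      rw [e]; exact K.neg_mem hhK
    · rw [a] at b
      apply z2
      have e : z + z = -h := by
        have : z + z = z - (-z) := by abel
        rw [this, b]; abel
      rw [e]; exact K.neg_mem hhK
    · rw [a, neg_inj] at b
      exact hh (left_eq_add.1 b)
  have n13 : i1 ≠ i3 := by
    rintro rfl
    rcases f1 with a | a <;> rcases f3 with b | b
    · rw [a] at b
      exact hh (sub_eq_self.1 b.symm)
    · rw [a] at b
      apply z2
      have e : z + z = h := by
        have : z + z = -(z - h) + z := by rw [← b]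
        rw [this]; abel
      rw [e]; exact hhK
    · rw [a] at b
      apply z2
      have e : z + z = h := by
        have : z + z = z - (-z) := by abel
        rw [this, b]; abel
      rw [e]; exact hhK
    · rw [a, neg_inj] at b
      exact hh (sub_eq_self.1 b.symm)
  have n23 : i2 ≠ i3 := by
    rintro rfl
    have key1 : ¬ z + h = z - h := by
      intro e
      apply h2
      have : h + h = (z + h) - (z - h) := by abel
      rw [this, e, sub_self]
    have key2 : ¬ z + h = -(z - h) := by
      intro e
      apply z2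
      have : z + z = (z + h) - (-(z - h)) := by abel
      rw [this, e, sub_self]
      exact K.zero_mem
    rcases f2 with a | a <;> rcases f3 with b | b
    · exact key1 (a.symm.trans b)
    · exact key2 (a.symm.trans b)
    · apply key2
      rw [← neg_neg (z + h), ← a, b]
    · exact key1 (neg_inj.1 (a.symm.trans b))
  -- change of signs
  let f' : ι → G := fun i => if i = i0 then h else if i = i1 then z else if i = i2 then z + h else
    if i = i3 then z - h else f i
  have g0 : f' i0 = h := by simp [f']
  have g1 : f' i1 = z := by simp [f', n01.symm]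
  have g2 : f' i2 = z + h := by simp [f', n02.symm, n12.symm]
  have g3 : f' i3 = z - h := by simp [f', n03.symm, n13.symm, n23.symm]
  have hsg : ∀ i ∈ v, f' i = f i ∨ f' i = -f i := by
    intro i _
    by_cases a0 : i = i0
    · rw [a0, g0]
      rcases f0 with e | e
      · left; exact e.symm
      · right; rw [e, neg_neg]
    by_cases a1 : i = i1
    · rw [a1, g1]
      rcases f1 with e | e
      · left; exact e.symm
      · right; rw [e, neg_neg]
    by_cases a2 : i = i2
    · rw [a2, g2]
      rcases f2 with e | e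
      · left; exact e.symm
      · right; rw [e, neg_neg]
    by_cases a3 : i = i3
    · rw [a3, g3]
      rcases f3 with e | e
      · left; exact e.symm
      · right; rw [e, neg_neg]
    left
    simp [f', a0, a1, a2, a3]
  have hcard := (thm_Sg G ι v f f' hsg).1
  rw [← hcard]
  let I : Finset (ℕ × ℤ) := {(0, 0), (0, 1), (1, 0), (1, 1), (1, -1), (2, 0), (2, 1), (2, -1),
    (3, 0), (3, 1)}
  have hI : I.card = 10 := rfl
  let φ : ℕ × ℤ → G := fun p => p.1 • z + p.2 • h
  have hIb : ∀ p ∈ I, p.1 ≤ 3 ∧ -1 ≤ p.2 ∧ p.2 ≤ 1 := by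
    intro p hp
    simp only [I, mem_insert, mem_singleton] at hp
    rcases hp with rfl | rfl | rfl | rfl | rfl | rfl | rfl | rfl | rfl | rfl <;> norm_num
  have hzK : ∀ n : ℕ, 1 ≤ n → n ≤ 3 → n • z ∉ K := by
    intro n hn1 hn3
    have : n = 1 ∨ n = 2 ∨ n = 3 := by omega
    rcases this with rfl | rfl | rfl
    · rwa [one_nsmul]
    · rwa [two_nsmul]
    · rwa [succ_nsmul, two_nsmul]
  have hlt : ∀ p ∈ I, ∀ q ∈ I, φ p = φ q → ¬ p.1 < q.1 := by
    intro p hp q hq e hlt
    have bp := hIb p hp
    have bq := hIb q hq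
    apply hzK (q.1 - p.1) (by omega) (by omega)
    have e1 : p.1 • z + p.2 • h = q.1 • z + q.2 • h := e
    have e2 : q.1 • z = (q.1 - p.1) • z + p.1 • z := by
      rw [← add_smul, Nat.sub_add_cancel hlt.le]
    have e3 : (q.1 - p.1) • z = (p.2 - q.2) • h := by
      rw [sub_smul]
      rw [e2] at e1
      have : (q.1 - p.1) • z = ((q.1 - p.1) • z + p.1 • z + q.2 • h) - p.1 • z - q.2 • h := by abel
      rw [this, ← e1]
      abel
    rw [e3]
    exact K.zsmul_mem hhK _
  have hinj : Set.InjOn φ (I : Set (ℕ × ℤ)) := by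
    intro p hp q hq e
    have c1 := hlt p hp q hq e
    have c2 := hlt q hq p hp e.symm
    have c3 : p.1 = q.1 := by omega
    have bp := hIb p hp
    have bq := hIb q hq
    have e1 : p.1 • z + p.2 • h = q.1 • z + q.2 • h := e
    rw [c3] at e1
    have e2 := add_left_cancel e1
    have c4 : p.2 = q.2 := by
      by_contra hne
      have e3 : (p.2 - q.2) • h = 0 := by rw [sub_smul, e2, sub_self]
      have c5 : p.2 - q.2 = 1 ∨ p.2 - q.2 = -1 ∨ p.2 - q.2 = 2 ∨ p.2 - q.2 = -2 := by omega
      rcases c5 with c | c | c | c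
      · rw [c, one_smul] at e3
        exact hh e3
      · rw [c, neg_smul, one_smul, neg_eq_zero] at e3
        exact hh e3
      · rw [c, two_smul] at e3
        exact h2 e3
      · rw [c, neg_smul, two_smul, neg_eq_zero] at e3
        exact h2 e3
    exact Prod.ext c3 c4
  have hsub : I.image φ ⊆ FS v f' := by
    intro x hx
    obtain ⟨p, hp, rfl⟩ := mem_image.1 hx
    have s0 : ({i0} : Finset ι) ⊆ v := singleton_subset_iff.2 hi0
    have s1 : ({i1} : Finset ι) ⊆ v := singleton_subset_iff.2 hi1
    have s2 : ({i2} : Finset ι) ⊆ v := singleton_subset_iff.2 hi2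
    have s3 : ({i3} : Finset ι) ⊆ v := singleton_subset_iff.2 hi3
    have s12 : ({i1, i2} : Finset ι) ⊆ v := insert_subset hi1 s2
    have s13 : ({i1, i3} : Finset ι) ⊆ v := insert_subset hi1 s3
    have s23 : ({i2, i3} : Finset ι) ⊆ v := insert_subset hi2 s3
    have s123 : ({i1, i2, i3} : Finset ι) ⊆ v := insert_subset hi1 s23
    have s0123 : ({i0, i1, i2, i3} : Finset ι) ⊆ v := insert_subset hi0 s123
    have t12 : ∑ i ∈ ({i1, i2} : Finset ι), f' i = z + (z + h) := by
      rw [sum_pair n12, g1, g2]
    have t13 : ∑ i ∈ ({i1, i3} : Finset ι), f' i = z + (z - h) := by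
      rw [sum_pair n13, g1, g3]
    have t23 : ∑ i ∈ ({i2, i3} : Finset ι), f' i = (z + h) + (z - h) := by
      rw [sum_pair n23, g2, g3]
    have t123 : ∑ i ∈ ({i1, i2, i3} : Finset ι), f' i = z + ((z + h) + (z - h)) := by
      rw [sum_insert, t23, g1]
      simp [n12, n13]
    have t0123 : ∑ i ∈ ({i0, i1, i2, i3} : Finset ι), f' i = h + (z + ((z + h) + (z - h))) := by
      rw [sum_insert, t123, g0]
      simp [n01, n02, n03]
    simp only [I, mem_insert, mem_singleton] at hp
    rcases hp with rfl | rfl | rfl | rfl | rfl | rfl | rfl | rfl | rfl | rfl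
    · refine mem_FS.2 ⟨∅, empty_subset _, ?_⟩
      simp [φ]
    · refine mem_FS.2 ⟨{i0}, s0, ?_⟩
      simp [φ, g0]
    · refine mem_FS.2 ⟨{i1}, s1, ?_⟩
      simp [φ, g1]
    · refine mem_FS.2 ⟨{i2}, s2, ?_⟩
      simp [φ, g2]
    · refine mem_FS.2 ⟨{i3}, s3, ?_⟩
      simp [φ, g3, sub_eq_add_neg]
    · refine mem_FS.2 ⟨{i2, i3}, s23, ?_⟩
      rw [t23]
      simp only [φ]
      rw [zero_smul]
      abel
    · refine mem_FS.2 ⟨{i1, i2}, s12, ?_⟩
      rw [t12]
      simp only [φ]
      abel
    · refine mem_FS.2 ⟨{i1, i3}, s13, ?_⟩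
      rw [t13]
      simp only [φ]
      abel
    · refine mem_FS.2 ⟨{i1, i2, i3}, s123, ?_⟩
      rw [t123]
      simp only [φ]
      rw [zero_smul]
      abel
    · refine mem_FS.2 ⟨{i0, i1, i2, i3}, s0123, ?_⟩
      rw [t0123]
      simp only [φ]
      abel
  have h10 := card_le_card hsub
  rw [card_image_of_injOn hinj, hI] at h10
  exact h10

/-- two classes modulo `L` -/
private lemma S8F_half {G : Type} [AddCommGroup G] [Finite G] (L : AddSubgroup G) (c : G)
    (hL : ∀ x : G, x ∈ L ∨ x - c ∈ L) : Nat.card G ≤ 2 * Nat.card L := by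
  have h1 : (Set.univ : Set G) ⊆ (L : Set G) ∪ (fun x => x + c) '' (L : Set G) := by
    intro x _
    rcases hL x with h | h
    · exact Or.inl h
    · exact Or.inr ⟨x - c, h, sub_add_cancel x c⟩
  have h2 := Set.ncard_le_ncard h1 (Set.toFinite _)
  have h3 := Set.ncard_union_le (L : Set G) ((fun x => x + c) '' (L : Set G))
  have h4 := Set.ncard_image_le (s := (L : Set G)) (f := fun x => x + c) (Set.toFinite _)
  rw [Set.ncard_univ] at h2
  have h5 : (L : Set G).ncard = Nat.card L := by
    rw [← Nat.card_coe_set_eq]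
    rfl
  omega

/-- `A`, `A + (a + b)` in `L`, `A + a`, `A + b` in the other class -/
private lemma S8F_twocl {G : Type} [AddCommGroup G] (A T : Finset G) (L : AddSubgroup G) (a b : G)
    (hAp : Aper A) (hA : ∀ x ∈ A, x ∈ L) (ha : a ∉ L) (hs : a + b ∈ L) (hdf : a - b ∈ L)
    (ha2 : a + a ≠ 0) (h0 : ∀ x ∈ A, x ∈ T) (h1 : ∀ x ∈ A, x + a ∈ T) (h2 : ∀ x ∈ A, x + b ∈ T)
    (h12 : ∀ x ∈ A, x + (a + b) ∈ T) : 2 * A.card + 1 ≤ T.card := by
  let P : Finset G := A ∪ A.image fun x => x + (a + b)
  let Q : Finset G := (A.image fun x => x + a) ∪ (A.image fun x => x + b)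
  have ia : (A.image fun x => x + a).card = A.card :=
    card_image_of_injective _ (add_left_injective a)
  have hPL : ∀ x ∈ P, x ∈ L := by
    intro x hx
    rcases mem_union.1 hx with h | h
    · exact hA x h
    · obtain ⟨y, hy, rfl⟩ := mem_image.1 h
      exact L.add_mem (hA y hy) hs
  have hQL : ∀ x ∈ Q, x ∉ L := by
    intro x hx hxL
    rcases mem_union.1 hx with h | h
    · obtain ⟨y, hy, rfl⟩ := mem_image.1 h
      apply ha
      have := L.sub_mem hxL (hA y hy)
      rwa [add_sub_cancel_left] at this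
    · obtain ⟨y, hy, rfl⟩ := mem_image.1 h
      apply ha
      have := L.add_mem (L.sub_mem hxL (hA y hy)) hdf
      have e : y + b - y + (a - b) = a := by abel
      rwa [e] at this
  have hdis : Disjoint P Q := by
    rw [disjoint_left]
    intro x hx hx2
    exact hQL x hx2 (hPL x hx)
  have hsub : P ∪ Q ⊆ T := by
    intro x hx
    rcases mem_union.1 hx with h | h
    · rcases mem_union.1 h with h | h
      · exact h0 x h
      · obtain ⟨y, hy, rfl⟩ := mem_image.1 h
        exact h12 y hy
    · rcases mem_union.1 h with h | h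
      · obtain ⟨y, hy, rfl⟩ := mem_image.1 h
        exact h1 y hy
      · obtain ⟨y, hy, rfl⟩ := mem_image.1 h
        exact h2 y hy
  have h3 := card_le_card hsub
  rw [card_union_of_disjoint hdis] at h3
  have hP : A.card ≤ P.card := card_le_card subset_union_left
  have hQ : A.card ≤ Q.card := by
    rw [← ia]
    exact card_le_card subset_union_left
  by_cases hab : a + b = 0
  · -- the second union is larger
    have hQ1 : A.card < Q.card := by
      by_contra hcon
      have e1 : (A.image fun x => x + a) = Q := by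
        apply eq_of_subset_of_card_le subset_union_left
        rw [ia]
        exact not_lt.1 hcon
      apply ha2
      have e2 : b - a = 0 := by
        apply hAp
        intro x hx
        have h5 : x + b ∈ Q := mem_union_right _ (mem_image.2 ⟨x, hx, rfl⟩)
        rw [← e1] at h5
        obtain ⟨y, hy, hyx⟩ := mem_image.1 h5
        have hyx' : y + a = x + b := hyx
        have e : x + (b - a) = y := by
          have : x + (b - a) = x + b - a := by abel
          rw [this, ← hyx']
          abel
        rw [e]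
        exact hy
      have e3 : b = a := sub_eq_zero.1 e2
      rw [e3] at hab
      exact hab
    omega
  · have hP1 : A.card < P.card := by
      by_contra hcon
      have e1 : A = P := by
        apply eq_of_subset_of_card_le subset_union_left
        exact not_lt.1 hcon
      apply hab
      apply hAp
      intro x hx
      have h5 : x + (a + b) ∈ P := mem_union_right _ (mem_image.2 ⟨x, hx, rfl⟩)
      rw [← e1] at h5
      exact h5
    omega

/-- a part of type `{h, z, z + h, z - h}` -/
private lemma S8F_typeK (hNm1 : Pool.Agent.SDG.St_Nm1) (hBa1 : Pool.Agent.SDG.St_Ba1)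
    (hSR : St_SRF) (hBn : St_BnF) (hKg : Pool.Agent.SSE.St_KgE)
    {G ι : Type} [AddCommGroup G] [Finite G] {t : ℕ} {s v v' : Finset ι} {f : ι → G} (ht : t ≤ 8)
    (hctx : CtxF t s f) (hd : Disjoint v v') (hun : v ∪ v' = s) (hv : AE v f) (hv' : AE v' f)
    (h4 : v.card = 4) (h z : G) (hh : h ≠ 0) (h3 : (3 : ℕ) • h = 0)
    (hK4 : ∀ i ∈ v, f i = h ∨ f i = -h ∨ f i = z ∨ f i = -z ∨ f i = z + h ∨ f i = -(z + h) ∨
      f i = z - h ∨ f i = -(z - h)) : False := by
  have hctx' := hctx
  obtain ⟨hPE, hTT, hR2, hncyc, hst, hne, hCap, hAper, hgen, hviol⟩ := hctx'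
  have hvs : v ⊆ s := by rw [← hun]; exact subset_union_left
  have hBf := hBa1 G ι f
  obtain ⟨e0, e1, e2, e3⟩ := S8F_four v f hv.1.2 h4 h z hK4
  have hz2 : z + z ∉ AddSubgroup.zmultiples h := S8F_z2 v f hv h z h3 e1 e2 e3
  obtain ⟨K, hKdef⟩ : ∃ K : AddSubgroup G, K = AddSubgroup.zmultiples h := ⟨_, rfl⟩
  have hz2K : z + z ∉ K := by rw [hKdef]; exact hz2
  have hzK : z ∉ K := fun hz => hz2K (K.add_mem hz hz)
  have hhK : h ∈ K := by rw [hKdef]; exact AddSubgroup.mem_zmultiples h
  have hKc : Nat.card K = 3 := by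
    have hp : Fact (Nat.Prime 3) := ⟨Nat.prime_three⟩
    rw [hKdef, Nat.card_zmultiples]
    exact addOrderOf_eq_prime h3 hh
  have hKbot : K ≠ ⊥ := by
    intro hb
    rw [hb, AddSubgroup.mem_bot] at hhK
    exact hh hhK
  -- the classes modulo K
  have hcl : ∀ i ∈ v, f i ∈ K ∨ f i - z ∈ K ∨ f i + z ∈ K := by
    intro i hi
    rcases hK4 i hi with e | e | e | e | e | e | e | e
    · left; rw [e]; exact hhK
    · left; rw [e]; exact K.neg_mem hhK
    · right; left; rw [e, sub_self]; exact K.zero_mem
    · right; right; rw [e, neg_add_cancel]; exact K.zero_mem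
    · right; left; rw [e, add_sub_cancel_left]; exact hhK
    · right; right
      have e2 : -(z + h) + z = -h := by abel
      rw [e, e2]; exact K.neg_mem hhK
    · right; left
      have e2 : z - h - z = -h := by abel
      rw [e, e2]; exact K.neg_mem hhK
    · right; right
      have e2 : -(z - h) + z = h := by abel
      rw [e, e2]; exact hhK
  -- some member in K
  have hin : ∃ i ∈ v, f i ∈ K := by
    obtain ⟨i, hi, hfi⟩ := e0
    refine ⟨i, hi, ?_⟩
    rcases hfi with e | e
    · rw [e]; exact hhK
    · rw [e]; exact K.neg_mem hhK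
  have hdc : Nat.card K ≤ (v.filter fun i => f i - z ∈ K ∨ f i + z ∈ K).card +
      (ins v f K).card := by
    have h5 : v ⊆ (v.filter fun i => f i - z ∈ K ∨ f i + z ∈ K) ∪ ins v f K := by
      intro i hi
      rcases hcl i hi with e | e
      · refine mem_union_right _ ?_
        rw [ins, mem_filter]
        exact ⟨hi, e⟩
      · exact mem_union_left _ (mem_filter.2 ⟨hi, e⟩)
    have h6 := card_le_card h5
    have h7 := card_union_le (v.filter fun i => f i - z ∈ K ∨ f i + z ∈ K) (ins v f K)
    rw [hKc]
    omega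
  obtain ⟨hins1, ht8⟩ := (hSR G ι t s v f K z hctx hvs hv.1 hKbot hz2K hdc).2 hKc
  have ht8' : t = 8 := by omega
  subst ht8'
  have hv'c : v'.card = 4 := by
    have := card_union_of_disjoint hd
    rw [hun, hst, h4] at this
    omega
  -- v' has no member in K
  have hv'K : ∀ i ∈ v', f i ∉ K := by
    intro i hi hiK
    obtain ⟨j, hj, hjK⟩ := hin
    have h5 : i ∈ ins s f K := by
      rw [ins, mem_filter]
      exact ⟨by rw [← hun]; exact mem_union_right _ hi, hiK⟩
    have h6 : j ∈ ins s f K := by
      rw [ins, mem_filter]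
      exact ⟨hvs hj, hjK⟩
    have h7 : i = j := by
      rw [card_eq_one] at hins1
      obtain ⟨a, ha⟩ := hins1
      rw [ha, mem_singleton] at h5 h6
      rw [h5, h6]
    rw [h7] at hi
    exact (disjoint_left.1 hd hj) hi
  have hcf8 : cf 2 8 = 21 := by
    rw [S8F_cf hNm1]
    norm_num
  have hcf7 : cf 2 7 = 17 := by
    rw [S8F_cf hNm1]
    norm_num
  have hcf4 : cf 2 4 = 7 := by
    rw [S8F_cf hNm1]
    norm_num
  rw [hcf8] at hviol
  by_cases hL : gen v f = ⊤
  · -- exceptional
    have hinsv : (ins v f K).card = 1 := by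
      obtain ⟨j, hj, hjK⟩ := hin
      have h5 : ins v f K ⊆ ins s f K := by
        intro i hi
        rw [ins, mem_filter] at hi ⊢
        exact ⟨hvs hi.1, hi.2⟩
      have h6 := card_le_card h5
      have h7 : 0 < (ins v f K).card := card_pos.2 ⟨j, by rw [ins, mem_filter]; exact ⟨hj, hjK⟩⟩
      omega
    have houtsv : (outs v f K).card = 3 := by
      have h5 := card_filter_add_card_filter_not (s := v) (fun i => f i ∈ K)
      rw [ins] at hinsv
      rw [hinsv, h4] at h5
      rw [outs]
      omega
    have hgenz : ∀ x : G, ∃ k : ℕ, x - k • z ∈ K := by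
      intro x
      have h5 : gen v f ≤ K ⊔ AddSubgroup.zmultiples z := by
        rw [gen, AddSubgroup.closure_le]
        rintro _ ⟨i, hi, rfl⟩
        have hz : z ∈ K ⊔ AddSubgroup.zmultiples z :=
          AddSubgroup.mem_sup_right (AddSubgroup.mem_zmultiples z)
        rcases hcl i hi with e | e | e
        · exact AddSubgroup.mem_sup_left e
        · have h6 := add_mem (AddSubgroup.mem_sup_left (T := AddSubgroup.zmultiples z) e) hz
          rw [sub_add_cancel] at h6
          exact h6
        · have h6 := sub_mem (AddSubgroup.mem_sup_left (T := AddSubgroup.zmultiples z) e) hz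
          rw [add_sub_cancel_right] at h6
          exact h6
      rw [hL] at h5
      have h6 : x ∈ K ⊔ AddSubgroup.zmultiples z := h5 (AddSubgroup.mem_top x)
      obtain ⟨y, hy, w, hw, hyw⟩ := AddSubgroup.mem_sup.1 h6
      have h7 : w ∈ AddSubmonoid.multiples z := mem_multiples_iff_mem_zmultiples.2 hw
      obtain ⟨k, hk⟩ := AddSubmonoid.mem_multiples_iff _ _ |>.1 h7
      refine ⟨k, ?_⟩
      rw [hk, ← hyw, add_sub_cancel_right]
      exact hy
    have hKAP : KAP v f K 1 := by
      refine ⟨hKc, hinsv, le_rfl, z, fun _ => 1, hgenz, ?_, ?_, ?_⟩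
      · intro i hi
        rw [outs, mem_filter] at hi
        refine ⟨le_rfl, by norm_num, ?_⟩
        rw [one_smul]
        rcases hcl i hi.1 with e | e | e
        · exact absurd e hi.2
        · exact Or.inl e
        · exact Or.inr e
      · intro k hk1 hk2
        have hk : k = 1 := by omega
        rw [hk, filter_true_of_mem fun _ _ => rfl]
        exact houtsv
      · rw [filter_false_of_mem]
        · simp
        · intro i _
          norm_num
    have h5 := hKg G ι v v' f K 1 hd hv hv' (by rw [hun]; exact hAper) hKAP (by rw [h4]) hv'K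
      (Or.inl (by rw [hv'c]))
    rw [h4, hv'c, hun] at h5
    have h6 : cf 2 (4 + 4) = 21 := hcf8
    rw [h6] at h5
    omega
  · -- a proper subgroup
    obtain ⟨L, hLdef⟩ : ∃ L : AddSubgroup G, L = gen v f := ⟨_, rfl⟩
    rw [← hLdef] at hL
    have hB := hBa1 G ι f
    have hvL : ∀ i ∈ v, f i ∈ L := by
      intro i hi
      rw [hLdef, gen]
      exact AddSubgroup.subset_closure ⟨i, hi, rfl⟩
    have hFSL : ∀ x ∈ FS v f, x ∈ L := by
      intro x hx
      rw [hLdef]
      exact hB.2.2.2.2.2.2 v x hx
    have hsL : ∃ i ∈ s, f i ∉ L := by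
      by_contra hcon
      push Not at hcon
      apply hL
      rw [eq_top_iff, ← hgen, gen, AddSubgroup.closure_le]
      rintro _ ⟨i, hi, rfl⟩
      exact hcon i hi
    have hFSv : 7 ≤ (FS v f).card := by
      have h5 := hPE 4 (by norm_num) G ι v f hR2 h4 (fun k hk => hne k (hvs hk))
        (fun x => le_trans (hv.1.2 x) (by norm_num)) (hB.2.1 s v hvs hAper)
      rw [hcf4] at h5
      exact h5
    have h0 : ∀ x ∈ FS v f, x ∈ FS s f := fun x hx => FS_mono hvs f hx
    -- pairs of members outside L
    have hpair : ∀ i ∈ s, ∀ j ∈ s, i ≠ j → f i ∉ L → f j ∉ L → f i - f j ∈ L ∧ f i + f j ∈ L := by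
      intro i hi j hj hij hiL hjL
      have hiv : i ∉ v := fun h => hiL (hvL i h)
      have hjv : j ∉ v := fun h => hjL (hvL j h)
      have h1 : ∀ x ∈ FS v f, x + f i ∈ FS s f := fun x hx => S8F_add1 hvs hi hiv hx
      have h1' : ∀ x ∈ FS v f, x + f j ∈ FS s f := fun x hx => S8F_add1 hvs hj hjv hx
      have h12 : ∀ x ∈ FS v f, x + (f i + f j) ∈ FS s f :=
        fun x hx => S8F_add2 hvs hi hj hiv hjv hij hx
      by_cases hsub : f i - f j ∈ L
      · refine ⟨hsub, ?_⟩
        by_contra h5
        have h6 : f i - (f i + f j) ∉ L := by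
          intro h7
          apply hjL
          have h8 := L.neg_mem h7
          have e : -(f i - (f i + f j)) = f j := by abel
          rwa [e] at h8
        have h7 := S8F_three (FS v f) (FS s f) L (f i) (f i + f j) hFSL hiL h5 h6 h0 h1 h12
        omega
      · exfalso
        have h7 := S8F_three (FS v f) (FS s f) L (f i) (f j) hFSL hiL hjL hsub h0 h1 h1'
        omega
    obtain ⟨i, hi, hiL⟩ := hsL
    by_cases h2 : ∃ j ∈ s, f j ∉ L ∧ j ≠ i
    · obtain ⟨j, hj, hjL, hji⟩ := h2
      obtain ⟨hdf, hsm⟩ := hpair i hi j hj hji.symm hiL hjL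
      have hi2 : f i + f i ∈ L := by
        have h7 := L.add_mem hsm hdf
        have e : f i + f j + (f i - f j) = f i + f i := by abel
        rwa [e] at h7
      have hall : ∀ x : G, x ∈ L ∨ x - f i ∈ L := by
        intro x
        have hx : x ∈ gen s f := by rw [hgen]; exact AddSubgroup.mem_top x
        rw [gen] at hx
        induction hx using AddSubgroup.closure_induction with
        | mem x hx =>
          obtain ⟨k, hk, rfl⟩ := hx
          by_cases hkL : f k ∈ L
          · exact Or.inl hkL
          · right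
            by_cases hki : k = i
            · rw [hki, sub_self]; exact L.zero_mem
            · exact (hpair k hk i hi hki hkL hiL).1
        | zero => exact Or.inl L.zero_mem
        | add x y _ _ hx hy =>
          rcases hx with hx | hx
          · rcases hy with hy | hy
            · exact Or.inl (L.add_mem hx hy)
            · right
              have := L.add_mem hx hy
              have e : x + (y - f i) = x + y - f i := by abel
              rwa [e] at this
          · rcases hy with hy | hy
            · right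
              have := L.add_mem hx hy
              have e : x - f i + y = x + y - f i := by abel
              rwa [e] at this
            · left
              have := L.add_mem (L.add_mem hx hy) hi2
              have e : x - f i + (y - f i) + (f i + f i) = x + y := by abel
              rwa [e] at this
        | neg x _ hx =>
          rcases hx with hx | hx
          · exact Or.inl (L.neg_mem hx)
          · right
            have := L.sub_mem (L.neg_mem hx) hi2
            have e : -(x - f i) - (f i + f i) = -x - f i := by abel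
            rwa [e] at this
      have hNL := S8F_half L (f i) hall
      have hN := hBn G ι 8 s f hctx (by norm_num)
      have h87 : cf 2 (8 - 1) = 17 := hcf7
      rw [h87] at hN
      have hL10 : 10 ≤ Nat.card L := by omega
      have hz3 : z + z + z ∉ AddSubgroup.zmultiples h := by
        intro h5
        have h6 : Nat.card (gen v f) ≤ 9 := by
          apply S8F_nine v f h z h3 ?_ h5
          rw [hKdef] at hcl
          exact hcl
        rw [← hLdef] at h6
        omega
      have hA10 : 10 ≤ (FS v f).card :=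
        S8F_ten v f h z hh h3 e0 e1 e2 e3 (by rw [← hKdef]; exact hzK) hz2 hz3
      have hiv : i ∉ v := fun h => hiL (hvL i h)
      have hjv : j ∉ v := fun h => hjL (hvL j h)
      have hi20 : f i + f i ≠ 0 := by
        have his : i ∈ v' := by
          rw [← hun, mem_union] at hi
          exact hi.resolve_left hiv
        exact hv'.2 i his
      have h7 := S8F_twocl (FS v f) (FS s f) L (f i) (f j) (hB.2.1 s v hvs hAper) hFSL hiL hsm hdf
        hi20 h0 (fun x hx => S8F_add1 hvs hi hiv hx) (fun x hx => S8F_add1 hvs hj hjv hx)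
        (fun x hx => S8F_add2 hvs hi hj hiv hjv hji.symm hx)
      omega
    · push Not at h2
      have h5 : f i ∉ gen (s.erase i) f := by
        intro h6
        apply hiL
        have h7 : gen (s.erase i) f ≤ L := by
          rw [gen, AddSubgroup.closure_le]
          rintro _ ⟨j, hj, rfl⟩
          rw [mem_coe, mem_erase] at hj
          by_contra hjL
          exact hj.1 (h2 j hj.2 hjL)
        exact h7 h6
      have h6 := hB.2.2.2.1 s i hi h5
      have h7 := hPE 7 (by norm_num) G ι (s.erase i) f hR2 (by rw [card_erase_of_mem hi, hst])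
        (fun k hk => hne k (mem_of_mem_erase hk))
        (fun x => le_trans (card_le_card (filter_subset_filter _ (erase_subset i s))) (hCap x))
        (hB.2.1 s (s.erase i) (erase_subset i s) hAper)
      rw [hcf7] at h7
      omega

theorem thm_S8F : Pool.Agent.SDG.St_Nm1 → Pool.Agent.SDG.St_Kn → Pool.Agent.SDG.St_Ba1 →
    Pool.Agent.MDR.St_Sp2 → Pool.Agent.SSE.St_B3E → Pool.Agent.SSE.St_PgE → St_BoF →
    Pool.Agent.SSE.St_SyE → St_SRF → St_BnF → Pool.Agent.SSE.St_KgE → Pool.Agent.SSC.St_Ct →
    St_S8F := by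
  intro hNm1 hKn hBa1 hSp2 hB3 hPg hBo _ hSR hBn hKg _ G ι _ _ t s f ht hctx
  have hctx' := hctx
  obtain ⟨hPE, hTT, hR2, hncyc, hst, hne, hCap, hAper, hgen, hviol⟩ := hctx'
  obtain ⟨s1, s2, hd, hun, ha1, ha2, hc1, hc2⟩ := hSp2 G ι s f hne hCap
  have hcard : s1.card + s2.card = t := by
    rw [← hst, ← hun, card_union_of_disjoint hd]
  have hB := hBa1 G ι f
  have hAE : ∀ v : Finset ι, v ⊆ s → AS v f → AE v f := by
    intro v hvs hv
    refine ⟨hv, fun i hi h0 => ?_⟩
    have h1 := hB.2.2.2.2.1 s i (hvs hi) hAper (hne i (hvs hi))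
    exact h1 (eq_neg_of_add_eq_zero_left h0)
  have part : ∀ v v' : Finset ι, Disjoint v v' → v ∪ v' = s → AS v f → AS v' f → v.card ≤ 4 →
      2 + v.card * (v.card + 1) ≤ 2 * (FS v f).card := by
    intro v v' hd hun hv hv' hvc
    have hvs : v ⊆ s := by rw [← hun]; exact subset_union_left
    have hvs' : v' ⊆ s := by rw [← hun]; exact subset_union_right
    rcases Nat.lt_or_ge v.card 4 with h | h
    · exact hB3 G ι v f (hAE v hvs hv) (by omega)
    · have h4 : v.card = 4 := by omega
      rcases hBo G ι v f (hAE v hvs hv) h4 with h12 | h11 | hP | ⟨h, z, hh, h3, hK⟩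
      · rw [h4]; omega
      · rw [h4, h11.1]
      · obtain ⟨d, c, _, _, _, _, hfin⟩ := hPg G ι v f hv (by omega) hP
        exact (hfin (hB.2.1 s v hvs hAper)).ge
      · exact (S8F_typeK hNm1 hBa1 hSR hBn hKg ht hctx hd hun (hAE v hvs hv)
          (hAE v' hvs' hv') h4 h z hh h3 hK).elim
  have p1 := part s1 s2 hd hun ha1 ha2 (by omega)
  have p2 := part s2 s1 hd.symm (by rw [union_comm]; exact hun) ha2 ha1 (by omega)
  have hT : FS s f = FS s1 f + FS s2 f := by rw [← hun, hB.1 s1 s2 hd]
  have hk := (hKn G).1 (FS s1 f) (FS s2 f) ⟨0, zero_mem_FS _ _⟩ ⟨0, zero_mem_FS _ _⟩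
    (by rw [← hT]; exact hAper)
  rw [← hT] at hk
  rw [S8F_cf hNm1, ← hcard] at hviol
  have b1 : s1.card ≤ 4 := by omega
  have b2 : s2.card ≤ 4 := by omega
  obtain ⟨l1, hl1⟩ : ∃ l, l = s1.card := ⟨_, rfl⟩
  obtain ⟨l2, hl2⟩ : ∃ l, l = s2.card := ⟨_, rfl⟩
  rw [← hl1] at p1 hviol b1 hc1 hc2
  rw [← hl2] at p2 hviol b2 hc1 hc2
  interval_cases l1 <;> interval_cases l2 <;> omega

end Pool.Agent.SSF
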