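import Pool.Agent.SSF.St
import Pool.Agent.SDG.P1

/-!
# SSF, SRF: the structure lemma, dense coset form
-/

set_option autoImplicit false

noncomputable section

open Finset Pool.Agent.Helper64.Rho Pool.Agent.SDG Pool.Agent.MDR Pool.Agent.SSC Pool.Agent.SSE
open scoped Classical Pointwise

namespace Pool.Agent.SSF

private theorem SRF_two {G ι : Type} [AddCommGroup G] [Finite G] {u : Finset ι} {f : ι → G}
    {K : AddSubgroup G} (hAE : AE u f) : 2 * (ins u f K).card + 1 ≤ Nat.card K := by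
  have := Fintype.ofFinite G
  obtain ⟨⟨hnz, hcap⟩, h2⟩ := hAE
  set B := ins u f K with hB
  have hBu : ∀ i ∈ B, i ∈ u := fun i hi => (mem_filter.1 hi).1
  have hBK : ∀ i ∈ B, f i ∈ K := fun i hi => (mem_filter.1 hi).2
  have hpair : ∀ i ∈ B, ∀ j ∈ B, (f i = f j ∨ f i = - f j) → i = j := by
    intro i hi j hj h
    by_contra hne
    have h1 := hcap (f j)
    have h3 : ({i, j} : Finset ι) ⊆ u.filter fun k => f k = f j ∨ f k = - f j := by
      intro k hk
      rcases mem_insert.1 hk with rfl | hk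
      · exact mem_filter.2 ⟨hBu _ hi, h⟩
      · rw [mem_singleton.1 hk]
        exact mem_filter.2 ⟨hBu _ hj, Or.inl rfl⟩
    have h4 := card_le_card h3
    rw [card_pair hne] at h4
    omega
  set Kf := (Finset.univ.filter fun x : G => x ∈ K) with hKf
  have hKc : Nat.card K = Kf.card := by
    rw [Nat.card_eq_fintype_card, Fintype.card_subtype]
  have c1 : (B.image f).card = B.card := card_image_of_injOn fun i hi j hj h =>
    hpair i hi j hj (Or.inl h)
  have c2 : (B.image fun i => - f i).card = B.card := card_image_of_injOn fun i hi j hj h =>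
    hpair i hi j hj (Or.inl (neg_injective h))
  have d1 : Disjoint (B.image f) (B.image fun i => - f i) := by
    rw [Finset.disjoint_left]
    intro x hx hx'
    obtain ⟨i, hi, rfl⟩ := mem_image.1 hx
    obtain ⟨j, hj, h⟩ := mem_image.1 hx'
    have h5 := hpair i hi j hj (Or.inr h.symm)
    have h6 : - f i = f i := by
      rw [← h5] at h
      exact h
    apply h2 i (hBu i hi)
    nth_rewrite 1 [← h6]
    exact neg_add_cancel _
  have d2 : (0 : G) ∉ B.image f ∪ B.image fun i => - f i := by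
    intro h
    rcases mem_union.1 h with h | h
    · obtain ⟨i, hi, h3⟩ := mem_image.1 h
      exact hnz i (hBu i hi) h3
    · obtain ⟨i, hi, h3⟩ := mem_image.1 h
      exact hnz i (hBu i hi) (neg_eq_zero.1 h3)
  have hsub : insert (0 : G) (B.image f ∪ B.image fun i => - f i) ⊆ Kf := by
    intro x hx
    refine mem_filter.2 ⟨mem_univ _, ?_⟩
    rcases mem_insert.1 hx with rfl | hx
    · exact K.zero_mem
    · rcases mem_union.1 hx with h | h
      · obtain ⟨i, hi, rfl⟩ := mem_image.1 h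
        exact hBK i hi
      · obtain ⟨i, hi, rfl⟩ := mem_image.1 h
        exact K.neg_mem (hBK i hi)
  have h6 := card_le_card hsub
  rw [card_insert_of_notMem d2, card_union_of_disjoint d1, c1, c2] at h6
  omega

theorem thm_SRF : SDG.St_Nm1 → SDG.St_Ba1 → SDG.St_Kn → SDG.St_Qu → MDR.St_Sg → MDR.St_SC →
    MDR.St_N5 → SSC.St_Nu → St_WiF → St_SRF := by
  intro hNm1 hBa1 hKn hQu hSg hSC hN5 hNu hWi G ι _ _ t s u f K c hCtx hus hASu hK hccK hnear
  obtain ⟨hPF, hTT, hR2, -, hst, hnz, hcap, hap, hgen, hvio⟩ := hCtx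
  by_cases hsm : ¬ (Nat.card K = 3 ∨ 5 ≤ Nat.card K)
  · push Not at hsm
    exact ⟨by omega, fun h => absurd h hsm.1⟩
  rw [not_not] at hsm
  have hcK : c ∉ K := fun h => hccK (K.add_mem h h)
  have hAEu : AE u f := by
    refine ⟨hASu, fun i hi h => ?_⟩
    have h1 := (hBa1 G ι f).2.2.2.2.1 s i (hus hi) hap (hASu.1 i hi)
    exact h1 (eq_neg_of_add_eq_zero_left h)
  set f' : ι → G := fun i => if f i + c ∈ K then - f i else f i with hf'
  set Z : Finset ι := u.filter fun i => f' i - c ∈ K with hZ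
  have hZeq : Z = u.filter fun i => f i - c ∈ K ∨ f i + c ∈ K := by
    rw [hZ]
    refine filter_congr fun i _ => ?_
    change (if f i + c ∈ K then - f i else f i) - c ∈ K ↔ _
    split_ifs with h
    · have h1 : - f i - c ∈ K := by
        have h3 := K.neg_mem h
        have h4 : -(f i + c) = - f i - c := by abel
        rwa [h4] at h3
      exact ⟨fun _ => Or.inr h, fun _ => h1⟩
    · exact ⟨fun h1 => Or.inl h1, fun h1 => h1.resolve_right h⟩
  have hinsu : ins u f' K = ins u f K := by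
    ext i
    unfold ins
    rw [mem_filter, mem_filter]
    refine and_congr_right fun _ => ?_
    change (if f i + c ∈ K then - f i else f i) ∈ K ↔ f i ∈ K
    split_ifs
    · exact K.neg_mem_iff
    · exact Iff.rfl
  have hZK : Nat.card K ≤ Z.card + (ins u f K).card := by rw [hZeq]; exact hnear
  have hb2 : 2 * (ins u f K).card + 1 ≤ Nat.card K := SRF_two hAEu
  have hZ2 : 2 ≤ Z.card := by omega
  obtain ⟨i1, hi1Z, i0, hi0Z, hne'⟩ := one_lt_card.1 (show 1 < Z.card by omega)
  have hne : i0 ≠ i1 := hne'.symm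
  have hpm : ∀ i, f' i = f i ∨ f' i = - f i := by
    intro i
    rw [hf']
    simp only
    split_ifs
    · exact Or.inr rfl
    · exact Or.inl rfl
  obtain ⟨g1, g2, -, g4, g5, -, -, -⟩ := hSg G ι s f f' fun i _ => hpm i
  obtain ⟨-, -, -, -, -, k6, -, -⟩ := hSg G ι u f f' fun i _ => hpm i
  have hap' : Aper (FS s f') := g2 hap
  have hcap' : Cap 2 s f' := g5 2 hcap
  have hASu' : AS u f' := k6 hASu
  have hAEu' : AE u f' := by
    refine ⟨hASu', fun i hi h => hAEu.2 i hi ?_⟩
    rcases hpm i with h1 | h1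
    · rw [← h1]; exact h
    · rw [h1] at h
      have h2 := congrArg Neg.neg h
      rwa [neg_add, neg_neg, neg_zero] at h2
  have hBsub := (hBa1 G ι f').2.1
  have hapu' : Aper (FS u f') := hBsub s u hus hap'
  have hnz' : ∀ i ∈ s, f' i ≠ 0 := by
    intro i hi
    rcases hpm i with h | h
    · rw [h]; exact hnz i hi
    · rw [h]; exact neg_ne_zero.2 (hnz i hi)
  have hinsM : ∀ (M : AddSubgroup G) (i : ι), f' i ∈ M ↔ f i ∈ M := by
    intro M i
    rcases hpm i with h | h
    · rw [h]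
    · rw [h]; exact M.neg_mem_iff
  have hZc : ∀ i ∈ Z, f' i - c ∈ K := fun i hi => (mem_filter.1 hi).2
  have hZu : Z ⊆ u := filter_subset _ _
  have hW := hWi G ι s u Z f' K c i0 i1 hR2 hus hAEu' hapu' hZu hZc hcK
    (by rw [hinsu]; exact hZK) hsm hi0Z hi1Z hne
  have hi0s : i0 ∈ s := hus (hZu hi0Z)
  have hi1s : i1 ∈ s := hus (hZu hi1Z)
  set s0 : Finset ι := (s.erase i0).erase i1 with hs0
  have hs0s : s0 ⊆ s := (erase_subset _ _).trans (erase_subset _ _)
  set P : Finset G := st (FS s0 f') K with hP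
  obtain ⟨M, hM⟩ := P1_per P
  have hKM : K ≤ M := by
    intro g hg
    rw [hM]
    intro x hx
    obtain ⟨a, ha, hxa⟩ := P1_mem_st.1 hx
    refine P1_mem_st.2 ⟨a, ha, ?_⟩
    have h1 : x + g - a = (x - a) + g := by abel
    rw [h1]
    exact K.add_mem hxa hg
  have hPM : st (FS s0 f') M = P := P1_st _ K M M hKM le_rfl hM
  have hMbot : M ≠ ⊥ := by
    intro h
    apply hK
    rw [h] at hKM
    exact le_bot_iff.1 hKM
  have h0P : (0 : G) ∈ P := P1_mem_st.2 ⟨0, zero_mem_FS _ _, by rw [sub_self]; exact K.zero_mem⟩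
  -- the counting
  obtain ⟨hc1, hc2⟩ := hSC G ι s s0 f' M c hMbot hap' hs0s (by rw [hPM]; exact hW)
  rw [hPM] at hc1 hc2
  -- `c` is not in `M`
  have hcM : c ∉ M := by
    intro hcM
    obtain ⟨⟨g, hgK⟩, hg0⟩ := AddSubgroup.ne_bot_iff_exists_ne_zero.1 hK
    have hsubP : FS s f' ⊆ P := by
      intro x hx
      obtain ⟨R, hR, rfl⟩ := mem_FS.1 hx
      rw [← hPM]
      refine P1_mem_st.2 ⟨∑ i ∈ R ∩ s0, f' i, mem_FS.2 ⟨R ∩ s0, inter_subset_right, rfl⟩, ?_⟩
      have h1 : ∑ i ∈ R, f' i - ∑ i ∈ R ∩ s0, f' i = ∑ i ∈ R \ s0, f' i := by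
        rw [← sum_inter_add_sum_sdiff R s0, add_sub_cancel_left]
      rw [h1]
      apply M.sum_mem
      intro i hi
      rw [mem_sdiff] at hi
      have h2 : i = i0 ∨ i = i1 := by
        by_contra hcon
        push Not at hcon
        exact hi.2 (mem_erase.2 ⟨hcon.2, mem_erase.2 ⟨hcon.1, hR hi.1⟩⟩)
      have h3 : f' i - c ∈ M := by
        rcases h2 with rfl | rfl
        · exact hKM (hZc _ hi0Z)
        · exact hKM (hZc _ hi1Z)
      have h4 := M.add_mem h3 hcM
      rwa [sub_add_cancel] at h4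
    have hPsub : P ⊆ FS s f' := by
      intro x hx
      have h1 : x - c ∈ P := by
        have h2 := (hM (-c)).1 (M.neg_mem hcM) x hx
        rwa [← sub_eq_add_neg] at h2
      have h3 := hW (x - c) h1
      rwa [sub_add_cancel] at h3
    have hPeq : FS s f' = P := Subset.antisymm hsubP hPsub
    apply hg0
    apply Subtype.ext
    apply hap' g
    rw [hPeq]
    exact (hM g).1 (hKM hgK)
  have hfi : ∀ i ∈ Z, f' i ∉ M := by
    intro i hi h
    apply hcM
    have h1 := M.sub_mem h (hKM (hZc i hi))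
    rwa [sub_sub_cancel] at h1
  -- numbers
  obtain ⟨μ, hμ⟩ : ∃ μ, μ = Nat.card M := ⟨_, rfl⟩
  obtain ⟨a, ha⟩ : ∃ a, a = (ins s f' M).card := ⟨_, rfl⟩
  obtain ⟨w, hw⟩ : ∃ w, w = (outs s f' M).card := ⟨_, rfl⟩
  have haw : a + w = t := by
    rw [ha, hw, ← hst]
    exact card_filter_add_card_filter_not (s := s) (fun i => f' i ∈ M)
  have hi0o : i0 ∈ outs s f' M := mem_filter.2 ⟨hi0s, hfi i0 hi0Z⟩
  have hi1o : i1 ∈ outs s f' M := mem_filter.2 ⟨hi1s, hfi i1 hi1Z⟩
  have houts0 : (s0.filter fun i => f' i ∉ M) = ((outs s f' M).erase i0).erase i1 := by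
    ext i
    rw [mem_filter, hs0, mem_erase, mem_erase, mem_erase, mem_erase]
    unfold outs
    rw [mem_filter]
    tauto
  have hw2 : 2 ≤ w := by
    rw [hw]
    have h4 : ({i0, i1} : Finset ι) ⊆ outs s f' M := by
      intro i hi
      rcases mem_insert.1 hi with rfl | hi
      · exact hi0o
      · rw [mem_singleton.1 hi]; exact hi1o
    have h5 := card_le_card h4
    rwa [card_pair hne] at h5
  have hZ1c : (s0.filter fun i => f' i ∉ M).card = w - 2 := by
    rw [houts0, card_erase_of_mem (mem_erase.2 ⟨hne.symm, hi1o⟩), card_erase_of_mem hi0o, hw]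
    omega
  obtain ⟨-, hQ2, hQ3, hQ4, hQ5⟩ := hQu G ι s0 f' M
  rw [hPM] at hQ2 hQ3
  have hQap := hQ3 (fun g hg => (hM g).2 hg)
  have hQcap := hQ4 (P1_cap_mono le_rfl hs0s hcap')
  have hμ1 : 1 < μ := by rw [hμ]; exact (AddSubgroup.one_lt_card_iff_ne_bot M).2 hMbot
  have hTTQ : cf (2 * μ) (w - 2) ≤ (FS (s0.filter fun i => f' i ∉ M)
      (fun i => (QuotientAddGroup.mk (f' i) : G ⧸ M))).card := by
    have h := hTT (Nat.card M) (w - 2) (by omega) (G ⧸ M) ι
      (s0.filter fun i => f' i ∉ M) (fun i => (QuotientAddGroup.mk (f' i) : G ⧸ M)) hZ1c hQ5 hQcap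
      (P1_aper _ _ _ _ hQap)
    rw [← hμ] at h
    exact h.trans (P1_card _ _ _ _).le
  have hPlow : μ * cf (2 * μ) (w - 2) ≤ P.card := by
    rw [← hQ2, ← hμ]
    exact Nat.mul_le_mul_left _ hTTQ
  have hinss : ins s f' M ⊆ s := filter_subset _ _
  have hapi : Aper (FS (ins s f' M) f') := hBsub s _ hinss hap'
  have hPFa : cf 2 a ≤ (FS (ins s f' M) f').card :=
    hPF a (by omega) G ι (ins s f' M) f' hR2 ha.symm (fun i hi => hnz' i (hinss hi))
      (P1_cap_mono le_rfl hinss hcap') hapi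
  have hXμ : (FS (ins s f' M) f').card + 1 ≤ μ := by
    rw [hμ]
    exact (hKn G).2.2.2 _ M ⟨0, zero_mem_FS _ _⟩ hMbot
      (fun x hx => FS_subset_of_mem (fun i hi => (mem_filter.1 hi).2) hx) hapi
  rw [← g1] at hvio
  obtain ⟨hN1, hN2⟩ := hN5
  have hbad : ¬ a + 3 ≤ μ := by
    intro h
    have h1 := hN1 μ a w h (by omega)
    rw [haw] at h1
    omega
  have hμ5 : ¬ 5 ≤ μ := by
    intro h
    exact hbad (hN2 μ a h (by omega))
  have hKle : Nat.card K ≤ Nat.card M := AddSubgroup.card_le_of_le hKM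
  refine ⟨by omega, fun hK3 => ?_⟩
  have hdvd : Nat.card K ∣ Nat.card M := AddSubgroup.card_dvd_of_le hKM
  have hμeq : μ = 3 := by
    rw [hK3, ← hμ] at hdvd
    obtain ⟨m, hm⟩ := hdvd
    omega
  have hKeq : K = M := AddSubgroup.eq_of_le_of_card_ge hKM (by omega)
  have hacf := hNm1.2.2.2.2.2 2 a
  have ha1 : a = 1 := by omega
  refine ⟨?_, ?_⟩
  · have h1 : ins s f K = ins s f' M := by
      rw [hKeq]
      ext i
      unfold ins
      rw [mem_filter, mem_filter, hinsM]
    rw [h1, ← ha, ha1]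
  · by_contra hcon
    have h1 := hNu.2.2.2.2 w hw2 (by omega)
    have h2 : cf 2 1 = 2 := by decide
    rw [ha1, h2] at hPFa
    rw [hμeq] at hPlow
    have h4 : (2 * 3 : ℕ) = 6 := by norm_num
    rw [h4] at hPlow
    have h3 : 1 + w = t := by omega
    rw [h3] at h1
    omega

end Pool.Agent.SSF
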