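import Pool.Agent.SSF.St
import Pool.Agent.SDG.Tr

/-!
# SSF, TfF: transfer to the generated subgroup
-/

set_option autoImplicit false

noncomputable section

open Finset Pool.Agent.Helper64.Rho Pool.Agent.SDG Pool.Agent.MDR Pool.Agent.SSC Pool.Agent.SSE
open scoped Classical Pointwise

namespace Pool.Agent.SSF

section

variable {G ι : Type} [AddCommGroup G] {L : AddSubgroup G}

/-- the subgroup of the large group -/
private def TfF_up (K : AddSubgroup L) : AddSubgroup G := K.map L.subtype

private theorem TfF_mem (K : AddSubgroup L) (x : L) : (x : G) ∈ TfF_up K ↔ x ∈ K := by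
  unfold TfF_up
  rw [AddSubgroup.mem_map]
  constructor
  · rintro ⟨y, hy, hyx⟩
    have : y = x := Subtype.ext hyx
    rwa [← this]
  · exact fun h => ⟨x, h, rfl⟩

private theorem TfF_mem' (K : AddSubgroup L) (x : G) : x ∈ TfF_up K ↔ ∃ y : L, y ∈ K ∧ (y : G) = x := by
  unfold TfF_up
  rw [AddSubgroup.mem_map]
  rfl

private theorem TfF_card (K : AddSubgroup L) : Nat.card (TfF_up K) = Nat.card K := by
  symm
  refine Nat.card_congr (Equiv.ofBijective
    (fun x : K => (⟨((x : L) : G), (TfF_mem K x).2 x.2⟩ : TfF_up K)) ⟨?_, ?_⟩)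
  · intro a b h
    have h1 : ((a : L) : G) = ((b : L) : G) := by
      have h2 := congrArg (Subtype.val : TfF_up K → G) h
      exact h2
    exact Subtype.ext (Subtype.ext h1)
  · rintro ⟨x, hx⟩
    obtain ⟨y, hy, rfl⟩ := (TfF_mem' K x).1 hx
    exact ⟨⟨y, hy⟩, rfl⟩

end

/-- [TfF] -/
theorem thm_TfF : St_Cr → St_TfF := by
  intro hCr G ι _ _ s f
  obtain ⟨f', hf, hgen, hFS, hAp, hCap, hne⟩ := Pool.Agent.SDG.thm_Tr G ι s f
  refine ⟨f', hf, hgen, hFS, hAp, ?_, ?_, ?_, ?_⟩
  · rintro ⟨⟨h1, h2⟩, h3⟩
    refine ⟨⟨hne h1, hCap 1 h2⟩, ?_⟩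
    intro i hi h
    apply h3 i hi
    rw [← hf i hi]
    have := congrArg Subtype.val h
    exact this
  · intro hDC K c hK hc hcard
    have h1 : TfF_up K ≠ ⊥ := by
      intro h
      apply hK
      rw [eq_bot_iff]
      intro x hx
      have h2 := (TfF_mem K x).2 hx
      rw [h, AddSubgroup.mem_bot] at h2
      rw [AddSubgroup.mem_bot]
      exact Subtype.ext h2
    have h2 : (c : G) + (c : G) ∉ TfF_up K := fun h => hc ((TfF_mem K (c + c)).1 h)
    have h3 : (s.filter fun i => f i - (c : G) ∈ TfF_up K ∨ f i + (c : G) ∈ TfF_up K) =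
        s.filter fun i => f' i - c ∈ K ∨ f' i + c ∈ K := by
      apply filter_congr
      intro i hi
      rw [← hf i hi, ← TfF_mem K (f' i - c), ← TfF_mem K (f' i + c)]
      rfl
    have h4 : ins s f (TfF_up K) = ins s f' K := by
      unfold ins
      apply filter_congr
      intro i hi
      rw [← hf i hi, TfF_mem]
    have h5 := hDC (TfF_up K) (c : G) h1 h2
    rw [h3, h4, TfF_card] at h5
    exact h5 hcard
  · intro hR
    exact (hCr G hR).1 (gen s f)
  · intro c hc M' hM'
    have h1 : TfF_up M' < gen s f := by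
      refine lt_of_le_of_ne ?_ ?_
      · intro x hx
        obtain ⟨y, -, rfl⟩ := (TfF_mem' M' x).1 hx
        exact y.2
      · intro h
        apply hM'
        rw [eq_top_iff]
        intro x _
        rw [← TfF_mem M', h]
        exact x.2
    have h2 := hc _ h1
    have h3 : outs s f (TfF_up M') = outs s f' M' := by
      unfold outs
      apply filter_congr
      intro i hi
      rw [← hf i hi, TfF_mem]
    rwa [h3] at h2

end Pool.Agent.SSF
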