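import Pool.Agent.SSF.St

/-!
# SSF: XcF, exchange of two members of the same class
-/

set_option autoImplicit false

noncomputable section

open Finset Pool.Agent.Helper64.Rho Pool.Agent.SDG Pool.Agent.MDR Pool.Agent.SSC Pool.Agent.SSE
open scoped Classical Pointwise

namespace Pool.Agent.SSF

private theorem XcF_card {ι : Type} (p : Finset ι) (x y : ι) (hx : x ∈ p) (hy : y ∉ p)
    (P : ι → Prop) [DecidablePred P] (a b : ℕ) (ha1 : P x → a = 1) (ha0 : ¬ P x → a = 0)
    (hb1 : P y → b = 1) (hb0 : ¬ P y → b = 0) :
    ((insert y (p.erase x)).filter P).card + a = (p.filter P).card + b := by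
  have hy' : y ∉ p.erase x := fun h => hy (mem_of_mem_erase h)
  have ha : a = if P x then 1 else 0 := by
    split_ifs with h
    · exact ha1 h
    · exact ha0 h
  have hb : b = if P y then 1 else 0 := by
    split_ifs with h
    · exact hb1 h
    · exact hb0 h
  rw [ha, hb, card_filter, card_filter, sum_insert hy', ← add_sum_erase p _ hx]
  ring

private theorem XcF_as {G ι : Type} [AddCommGroup G] (p r : Finset ι) (f : ι → G) (x y : ι)
    (hp : AS p f) (hr : AS r f) (hy : y ∈ r) (h2 : ∀ j ∈ p, f j ≠ f y ∧ f j ≠ - f y) :
    AS (insert y (p.erase x)) f := by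
  refine ⟨?_, ?_⟩
  · intro i hi
    rcases mem_insert.1 hi with rfl | hi
    · exact hr.1 _ hy
    · exact hp.1 i (mem_of_mem_erase hi)
  · intro z
    rw [card_le_one]
    intro a ha b hb
    rw [mem_filter, mem_insert] at ha hb
    obtain ⟨ha1, ha2⟩ := ha
    obtain ⟨hb1, hb2⟩ := hb
    have hab : f a = f b ∨ f a = - f b := by
      rcases ha2 with h | h <;> rcases hb2 with h' | h'
      · left; rw [h, h']
      · right; rw [h, h', neg_neg]
      · right; rw [h, h']
      · left; rw [h, h']
    rcases ha1 with rfl | ha1 <;> rcases hb1 with rfl | hb1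
    · rfl
    · exfalso
      have h3 := h2 b (mem_of_mem_erase hb1)
      rcases hab with h | h
      · exact h3.1 h.symm
      · exact h3.2 (by rw [h, neg_neg])
    · exfalso
      have h3 := h2 a (mem_of_mem_erase ha1)
      rcases hab with h | h
      · exact h3.1 h
      · exact h3.2 h
    · have h3 := hp.2 z
      rw [card_le_one] at h3
      exact h3 a (mem_filter.2 ⟨mem_of_mem_erase ha1, ha2⟩) b
        (mem_filter.2 ⟨mem_of_mem_erase hb1, hb2⟩)

theorem thm_XcF : St_XcF := by
  intro G ι _ p r f κ x y hd hp hr hbal hx hy hκ h1 h2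
  have hxr : x ∉ r := fun h => disjoint_left.1 hd hx h
  have hyp : y ∉ p := fun h => disjoint_left.1 hd h hy
  have hxy : x ≠ y := fun h => hyp (h ▸ hx)
  have hyp' : y ∉ p.erase x := fun h => hyp (mem_of_mem_erase h)
  have hxr' : x ∉ r.erase y := fun h => hxr (mem_of_mem_erase h)
  refine ⟨?_, ?_, XcF_as p r f x y hp hr hy h2, XcF_as r p f y x hr hp hx h1, ?_, ?_, ?_, ?_, ?_⟩
  · rw [disjoint_left]
    intro a ha hb
    rcases mem_insert.1 ha with rfl | ha
    · rcases mem_insert.1 hb with h | h
      · exact hxy h.symm
      · exact (notMem_erase _ _) h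
    · rcases mem_insert.1 hb with rfl | h
      · exact (notMem_erase _ _) ha
      · exact disjoint_left.1 hd (mem_of_mem_erase ha) (mem_of_mem_erase h)
  · ext a
    simp only [mem_union, mem_insert, mem_erase]
    constructor
    · rintro ((rfl | h) | (rfl | h))
      · exact Or.inr hy
      · exact Or.inl h.2
      · exact Or.inl hx
      · exact Or.inr h.2
    · rintro (h | h)
      · by_cases ha : a = x
        · exact Or.inr (Or.inl ha)
        · exact Or.inl (Or.inr ⟨ha, h⟩)
      · by_cases ha : a = y
        · exact Or.inl (Or.inl ha)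
        · exact Or.inr (Or.inr ⟨ha, h⟩)
  · rw [card_insert_of_notMem hyp', card_erase_add_one hx]
  · rw [card_insert_of_notMem hxr', card_erase_add_one hy]
  · intro c
    obtain ⟨b1, b2⟩ := hbal c
    by_cases hc : κ (f y) = c
    · have hc' : κ (f x) = c := hκ.trans hc
      have e1 := XcF_card p x y hx hyp (fun i => κ (f i) = c) 1 1 (fun _ => rfl)
        (fun h => absurd hc' h) (fun _ => rfl) (fun h => absurd hc h)
      have e2 := XcF_card r y x hy hxr (fun i => κ (f i) = c) 1 1 (fun _ => rfl)
        (fun h => absurd hc h) (fun _ => rfl) (fun h => absurd hc' h)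
      refine ⟨?_, ?_⟩
      · have e3 := Nat.add_right_cancel e1
        have e4 := Nat.add_right_cancel e2
        rw [e3, e4]
        exact b1
      · have e3 := Nat.add_right_cancel e1
        have e4 := Nat.add_right_cancel e2
        rw [e3, e4]
        exact b2
    · have hc' : κ (f x) ≠ c := fun h => hc (hκ.symm.trans h)
      have e1 := XcF_card p x y hx hyp (fun i => κ (f i) = c) 0 0 (fun h => absurd h hc')
        (fun _ => rfl) (fun h => absurd h hc) (fun _ => rfl)
      have e2 := XcF_card r y x hy hxr (fun i => κ (f i) = c) 0 0 (fun h => absurd h hc)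
        (fun _ => rfl) (fun h => absurd h hc') (fun _ => rfl)
      refine ⟨?_, ?_⟩
      · have e3 := Nat.add_right_cancel e1
        have e4 := Nat.add_right_cancel e2
        rw [e3, e4]
        exact b1
      · have e3 := Nat.add_right_cancel e1
        have e4 := Nat.add_right_cancel e2
        rw [e3, e4]
        exact b2
  · intro M
    exact XcF_card p x y hx hyp (fun i => f i ∉ M) _ _ (fun h => if_neg h)
      (fun h => if_pos (not_not.1 h)) (fun h => if_neg h) (fun h => if_pos (not_not.1 h))
  · intro M
    exact XcF_card r y x hy hxr (fun i => f i ∉ M) _ _ (fun h => if_neg h)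
      (fun h => if_pos (not_not.1 h)) (fun h => if_neg h) (fun h => if_pos (not_not.1 h))

end Pool.Agent.SSF
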