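import Pool.Agent.SSE.Main
import Pool.Agent.SSF.A2W
import Pool.Agent.SSF.BnF
import Pool.Agent.SSF.BoF
import Pool.Agent.SSF.C1F
import Pool.Agent.SSF.C2F
import Pool.Agent.SSF.C4F
import Pool.Agent.SSF.CCF
import Pool.Agent.SSF.Cr
import Pool.Agent.SSF.DpF
import Pool.Agent.SSF.DrF
import Pool.Agent.SSF.EvF
import Pool.Agent.SSF.ExF
import Pool.Agent.SSF.F4F
import Pool.Agent.SSF.FV
import Pool.Agent.SSF.FlF
import Pool.Agent.SSF.GmF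
import Pool.Agent.SSF.GrF
import Pool.Agent.SSF.HoF
import Pool.Agent.SSF.I4F
import Pool.Agent.SSF.IxF
import Pool.Agent.SSF.KSF
import Pool.Agent.SSF.KgF
import Pool.Agent.SSF.Kh2F
import Pool.Agent.SSF.Kh3F
import Pool.Agent.SSF.Kh4F
import Pool.Agent.SSF.KhV
import Pool.Agent.SSF.NzF
import Pool.Agent.SSF.OdF
import Pool.Agent.SSF.PFF
import Pool.Agent.SSF.RgF
import Pool.Agent.SSF.S8F
import Pool.Agent.SSF.SRF
import Pool.Agent.SSF.SpF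
import Pool.Agent.SSF.TfF
import Pool.Agent.SSF.WiF
import Pool.Agent.SSF.XcF

/-!
# SSF: assembly (helper97)
-/

set_option autoImplicit false

noncomputable section

open Finset Pool.Agent.Helper64.Rho
open scoped Classical Pointwise

namespace Pool.Agent.SSF

theorem all_A2W : St_A2W := thm_A2W Pool.Agent.SSC.mdr_Av0
theorem all_BnF : St_BnF := thm_BnF Pool.Agent.SDG.all_Nm1 Pool.Agent.SDG.all_Ba1 Pool.Agent.SDG.all_Kn Pool.Agent.SDG.all_Sm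
theorem all_BoF : St_BoF := thm_BoF Pool.Agent.SSC.mdr_Sg
theorem all_F4F : St_F4F := thm_F4F Pool.Agent.SSC.all_Et
theorem all_GmF : St_GmF := thm_GmF Pool.Agent.SDG.all_Ba1 Pool.Agent.SSC.mdr_Sg Pool.Agent.SSE.all_LvE Pool.Agent.SSC.all_Et all_F4F Pool.Agent.SSE.all_Cn
theorem all_RgF : St_RgF := thm_RgF Pool.Agent.SSE.all_SyE Pool.Agent.SSE.all_NfE
theorem all_DrF : St_DrF := thm_DrF Pool.Agent.SDG.all_Nm1 Pool.Agent.SDG.all_Ba1 Pool.Agent.SDG.all_Sm Pool.Agent.SSC.all_Nu Pool.Agent.SSE.all_B3E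
theorem all_Cr : St_Cr := thm_Cr
theorem all_TfF : St_TfF := thm_TfF all_Cr
theorem all_DpF : St_DpF := thm_DpF Pool.Agent.SDG.all_Ba1 Pool.Agent.SSE.all_KeE all_RgF all_TfF
theorem all_Kh2F : St_Kh2F := thm_Kh2F Pool.Agent.SDG.all_Ba1 Pool.Agent.SSC.mdr_Sg Pool.Agent.SSE.all_Lc Pool.Agent.SSE.all_F2 Pool.Agent.SSE.all_Cn
theorem all_Kh3F : St_Kh3F := thm_Kh3F Pool.Agent.SDG.all_Ba1 Pool.Agent.SSC.mdr_Sg Pool.Agent.SSE.all_Lc Pool.Agent.SSC.all_Fu Pool.Agent.SSE.all_Cn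
theorem all_Kh4F : St_Kh4F := thm_Kh4F Pool.Agent.SDG.all_Ba1 Pool.Agent.SSC.mdr_Sg Pool.Agent.SSE.all_Lc all_F4F Pool.Agent.SSE.all_Cn
theorem all_FV : St_FV := thm_FV Pool.Agent.SSC.all_Et
theorem all_KhV : St_KhV := thm_KhV Pool.Agent.SDG.all_Ba1 Pool.Agent.SSC.mdr_Sg Pool.Agent.SSE.all_Lc all_FV Pool.Agent.SSE.all_Cn
theorem all_GrF (hGRO : St_GRO) : St_GrF := thm_GrF hGRO all_Kh2F all_Kh3F all_Kh4F all_KhV
theorem all_C1F (hGRO : St_GRO) : St_C1F := thm_C1F Pool.Agent.SDG.all_Ba1 Pool.Agent.SDG.all_Sm Pool.Agent.SSE.all_SyE Pool.Agent.SSE.all_A1E Pool.Agent.SSE.all_KxE all_GmF all_RgF all_DrF all_DpF (all_GrF hGRO)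
theorem all_C2F (hGRO : St_GRO) : St_C2F := thm_C2F Pool.Agent.SDG.all_Ba1 Pool.Agent.SSE.all_SyE Pool.Agent.SSE.all_KxE all_A2W all_GmF all_RgF all_DrF all_DpF (all_GrF hGRO)
theorem all_C4F : St_C4F := thm_C4F Pool.Agent.SSE.all_PgE all_BoF
theorem all_CCF (hGRO : St_GRO) : St_CCF := thm_CCF all_C4F (all_C1F hGRO) (all_C2F hGRO)
theorem all_KSF : St_KSF := thm_KSF
theorem all_FlF : St_FlF := thm_FlF all_KSF all_Cr Pool.Agent.SDG.all_Sm Pool.Agent.SDG.all_Ba1 Pool.Agent.SSE.all_B3E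
theorem all_WiF : St_WiF := thm_WiF all_FlF
theorem all_SRF : St_SRF := thm_SRF Pool.Agent.SDG.all_Nm1 Pool.Agent.SDG.all_Ba1 Pool.Agent.SDG.all_Kn Pool.Agent.SDG.all_Qu Pool.Agent.SSC.mdr_Sg Pool.Agent.SSC.mdr_SC Pool.Agent.SSC.mdr_N5 Pool.Agent.SSC.all_Nu all_WiF
theorem all_IxF : St_IxF := thm_IxF Pool.Agent.SDG.all_Nm1 Pool.Agent.SDG.all_Ba1 Pool.Agent.SDG.all_Kn Pool.Agent.SDG.all_Sm Pool.Agent.SSC.all_Nu Pool.Agent.SSE.all_NuE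
theorem all_I4F : St_I4F := thm_I4F Pool.Agent.SDG.all_Nm1 Pool.Agent.SDG.all_Ba1 Pool.Agent.SDG.all_Kn Pool.Agent.SDG.all_Sm Pool.Agent.SSE.all_B3E all_IxF
theorem all_NzF : St_NzF := thm_NzF Pool.Agent.SDG.all_Nm1 Pool.Agent.SDG.all_Ba1 Pool.Agent.SDG.all_Kn Pool.Agent.SDG.all_Sm Pool.Agent.SSE.all_B3E all_IxF
theorem all_SpF : St_SpF := thm_SpF Pool.Agent.SSC.mdr_Sp2
theorem all_XcF : St_XcF := thm_XcF
theorem all_ExF : St_ExF := thm_ExF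
theorem all_HoF : St_HoF := thm_HoF Pool.Agent.SDG.all_Ba1 all_Cr all_IxF all_I4F all_NzF all_SpF all_XcF all_ExF
theorem all_EvF : St_EvF := thm_EvF Pool.Agent.SDG.all_Nm1 Pool.Agent.SDG.all_Kn Pool.Agent.SDG.all_Ba1 all_BnF all_SRF all_RgF all_HoF Pool.Agent.SSE.all_KeE Pool.Agent.SSE.all_KgE
theorem all_KgF : St_KgF := thm_KgF Pool.Agent.SDG.all_Nm1 Pool.Agent.SDG.all_Ba1 Pool.Agent.SDG.all_Kn Pool.Agent.SSC.mdr_Sg Pool.Agent.SSE.all_LvE Pool.Agent.SSC.all_Et Pool.Agent.SSC.all_Fu Pool.Agent.SSC.all_Ct Pool.Agent.SSE.all_Cn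
theorem all_OdF (hGRO : St_GRO) : St_OdF := thm_OdF Pool.Agent.SDG.all_Nm1 Pool.Agent.SDG.all_Kn Pool.Agent.SDG.all_Ba1 Pool.Agent.SSE.all_SyE Pool.Agent.SSE.all_A1E all_DrF all_BnF all_SRF all_RgF Pool.Agent.SSE.all_KxE Pool.Agent.SSE.all_KeE Pool.Agent.SSE.all_KgE all_KgF all_GmF (all_GrF hGRO) all_HoF
theorem all_S8F : St_S8F := thm_S8F Pool.Agent.SDG.all_Nm1 Pool.Agent.SDG.all_Kn Pool.Agent.SDG.all_Ba1 Pool.Agent.SSC.mdr_Sp2 Pool.Agent.SSE.all_B3E Pool.Agent.SSE.all_PgE all_BoF Pool.Agent.SSE.all_SyE all_SRF all_BnF Pool.Agent.SSE.all_KgE Pool.Agent.SSC.all_Ct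
theorem all_PFF (hGRO : St_GRO) : St_PFF := thm_PFF Pool.Agent.SDG.all_Tr Pool.Agent.SDG.all_main all_Cr Pool.Agent.SSE.all_PFE all_S8F all_EvF (all_OdF hGRO)

/-- the sharp bound in groups of rank at most two, from the growth lemma -/
theorem all_PR (hGRO : St_GRO) : ∀ t : ℕ, PR t := (all_PFF hGRO) (all_CCF hGRO fun l hl => (Pool.Agent.SSE.all_CC l hl fun n _ => Pool.Agent.SSE.all_PFE n).1)

end Pool.Agent.SSF
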