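import Pool.Agent.SSF.St

/-!
# SSF, SpF: balanced splitting
-/

set_option autoImplicit false

noncomputable section

open Finset Pool.Agent.Helper64.Rho Pool.Agent.SDG Pool.Agent.MDR Pool.Agent.SSC Pool.Agent.SSE
open scoped Classical Pointwise

namespace Pool.Agent.SSF

section SpF

variable {G ι : Type} [AddCommGroup G]

private theorem SpF_as (f : ι → G) (κ : G → ℕ) (hκ : ∀ x, κ (-x) = κ x) (p A : Finset ι)
    (hp : AS p f) (hA : AS A f) (hne : ∀ i ∈ p, ∀ j ∈ A, κ (f i) ≠ κ (f j)) : AS (p ∪ A) f := by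
  have hk : ∀ (i : ι) (x : G), (f i = x ∨ f i = -x) → κ (f i) = κ x := by
    intro i x h
    rcases h with h | h
    · rw [h]
    · rw [h, hκ]
  refine ⟨fun i hi => ?_, fun x => ?_⟩
  · rcases mem_union.1 hi with h | h
    · exact hp.1 i h
    · exact hA.1 i h
  · rw [card_le_one]
    intro a ha b hb
    rw [mem_filter] at ha hb
    have hab : κ (f a) = κ (f b) := (hk a x ha.2).trans (hk b x hb.2).symm
    rcases mem_union.1 ha.1 with h1 | h1 <;> rcases mem_union.1 hb.1 with h2 | h2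
    · exact card_le_one.1 (hp.2 x) a (mem_filter.2 ⟨h1, ha.2⟩) b (mem_filter.2 ⟨h2, hb.2⟩)
    · exact absurd hab (hne a h1 b h2)
    · exact absurd hab.symm (hne b h2 a h1)
    · exact card_le_one.1 (hA.2 x) a (mem_filter.2 ⟨h1, ha.2⟩) b (mem_filter.2 ⟨h2, hb.2⟩)

/-- joining a splitting of the classes in `V` and a splitting of the class `c` -/
private theorem SpF_join (s : Finset ι) (f : ι → G) (κ : G → ℕ) (hκ : ∀ x, κ (-x) = κ x)
    (V : Finset ℕ) (c : ℕ) (hc : c ∉ V) (p q A B : Finset ι)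
    (hpq : Disjoint p q) (hu : p ∪ q = s.filter fun i => κ (f i) ∈ V)
    (hp : AS p f) (hq : AS q f) (hAB : Disjoint A B)
    (hv : A ∪ B = s.filter fun i => κ (f i) = c) (hA : AS A f) (hB : AS B f)
    (hbal : Bal κ p q f) (h1 : A.card ≤ B.card + 1) (h2 : B.card ≤ A.card + 1) :
    Disjoint (p ∪ A) (q ∪ B) ∧ (p ∪ A) ∪ (q ∪ B) = (s.filter fun i => κ (f i) ∈ insert c V) ∧
      AS (p ∪ A) f ∧ AS (q ∪ B) f ∧ (p ∪ A).card = p.card + A.card ∧
      (q ∪ B).card = q.card + B.card ∧ Bal κ (p ∪ A) (q ∪ B) f := by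
  have kp : ∀ i ∈ p, κ (f i) ∈ V := by
    intro i hi
    have h : i ∈ p ∪ q := mem_union_left q hi
    rw [hu, mem_filter] at h
    exact h.2
  have kq : ∀ i ∈ q, κ (f i) ∈ V := by
    intro i hi
    have h : i ∈ p ∪ q := mem_union_right p hi
    rw [hu, mem_filter] at h
    exact h.2
  have kA : ∀ i ∈ A, κ (f i) = c := by
    intro i hi
    have h : i ∈ A ∪ B := mem_union_left B hi
    rw [hv, mem_filter] at h
    exact h.2
  have kB : ∀ i ∈ B, κ (f i) = c := by
    intro i hi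
    have h : i ∈ A ∪ B := mem_union_right A hi
    rw [hv, mem_filter] at h
    exact h.2
  have hne : ∀ {X Y : Finset ι}, (∀ i ∈ X, κ (f i) ∈ V) → (∀ i ∈ Y, κ (f i) = c) →
      ∀ i ∈ X, ∀ j ∈ Y, κ (f i) ≠ κ (f j) := by
    intro X Y hX hY i hi j hj h
    apply hc
    rw [← hY j hj, ← h]
    exact hX i hi
  have hd : ∀ {X Y : Finset ι}, (∀ i ∈ X, κ (f i) ∈ V) → (∀ i ∈ Y, κ (f i) = c) →
      Disjoint X Y := by
    intro X Y hX hY
    rw [disjoint_left]
    intro i hi hj
    exact hne hX hY i hi i hj rfl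
  refine ⟨?_, ?_, SpF_as f κ hκ p A hp hA (hne kp kA), SpF_as f κ hκ q B hq hB (hne kq kB),
    card_union_of_disjoint (hd kp kA), card_union_of_disjoint (hd kq kB), ?_⟩
  · rw [disjoint_union_left, disjoint_union_right, disjoint_union_right]
    exact ⟨⟨hpq, hd kp kB⟩, (hd kq kA).symm, hAB⟩
  · have e1 : (s.filter fun i => κ (f i) ∈ insert c V) =
        (s.filter fun i => κ (f i) ∈ V) ∪ s.filter fun i => κ (f i) = c := by
      ext i
      simp only [mem_filter, mem_union, mem_insert]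
      tauto
    rw [e1, ← hu, ← hv]
    ext i
    simp only [mem_union]
    tauto
  · intro d
    have e1 : ∀ (X Y : Finset ι), (∀ i ∈ X, κ (f i) ∈ V) → (∀ i ∈ Y, κ (f i) = c) →
        ((X ∪ Y).filter fun i => κ (f i) = d).card =
          (X.filter fun i => κ (f i) = d).card + (Y.filter fun i => κ (f i) = d).card := by
      intro X Y hX hY
      rw [filter_union]
      exact card_union_of_disjoint (disjoint_filter_filter (hd hX hY))
    rw [e1 p A kp kA, e1 q B kq kB]
    by_cases hdc : d = c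
    · subst hdc
      have e2 : ∀ X : Finset ι, (∀ i ∈ X, κ (f i) ∈ V) →
          (X.filter fun i => κ (f i) = d).card = 0 := by
        intro X hX
        rw [card_eq_zero, filter_eq_empty_iff]
        intro i hi h
        exact hc (h ▸ hX i hi)
      have e3 : ∀ Y : Finset ι, (∀ i ∈ Y, κ (f i) = d) →
          (Y.filter fun i => κ (f i) = d) = Y := by
        intro Y hY
        exact filter_true_of_mem hY
      rw [e2 p kp, e2 q kq, e3 A kA, e3 B kB]
      omega
    · have e2 : ∀ Y : Finset ι, (∀ i ∈ Y, κ (f i) = c) →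
          (Y.filter fun i => κ (f i) = d).card = 0 := by
        intro Y hY
        rw [card_eq_zero, filter_eq_empty_iff]
        intro i hi h
        exact hdc (h.symm.trans (hY i hi))
      rw [e2 A kA, e2 B kB]
      have := hbal d
      omega

private theorem SpF_ind (hS : MDR.St_Sp2) (s : Finset ι) (f : ι → G) (κ : G → ℕ)
    (h0 : ∀ i ∈ s, f i ≠ 0) (hs : Cap 2 s f) (hκ : ∀ x, κ (-x) = κ x) (V : Finset ℕ) :
    ∃ s1 s2 : Finset ι, Disjoint s1 s2 ∧ s1 ∪ s2 = (s.filter fun i => κ (f i) ∈ V) ∧ AS s1 f ∧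
      AS s2 f ∧ s2.card ≤ s1.card ∧ s1.card ≤ s2.card + 1 ∧ Bal κ s1 s2 f := by
  induction V using Finset.induction_on with
  | empty =>
    have hAS : AS (∅ : Finset ι) f := by
      refine ⟨fun i hi => absurd hi (notMem_empty i), fun x => ?_⟩
      simp
    refine ⟨∅, ∅, disjoint_empty_left _, ?_, hAS, hAS, le_refl _, Nat.le_succ _, fun c => ?_⟩
    · simp
    · simp
  | insert c V hc ih =>
    obtain ⟨s1, s2, hd, hu, a1, a2, c1, c2, hb⟩ := ih
    have hs' : Cap 2 (s.filter fun i => κ (f i) = c) f := fun x =>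
      (card_le_card (filter_subset_filter _ (filter_subset _ s))).trans (hs x)
    obtain ⟨A, B, hAB, hv, aA, aB, d1, d2⟩ := hS G ι (s.filter fun i => κ (f i) = c) f
      (fun i hi => h0 i (mem_filter.1 hi).1) hs'
    by_cases hcase : s1.card = s2.card + 1 ∧ A.card = B.card + 1
    · have hb' : Bal κ s2 s1 f := fun d => ⟨(hb d).2, (hb d).1⟩
      have hu' : s2 ∪ s1 = s.filter fun i => κ (f i) ∈ V := by rw [union_comm, hu]
      obtain ⟨g1, g2, g3, g4, g5, g6, g7⟩ := SpF_join s f κ hκ V c hc s2 s1 A B hd.symm hu' a2 a1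
        hAB hv aA aB hb' d2 (by omega)
      exact ⟨s2 ∪ A, s1 ∪ B, g1, g2, g3, g4, by omega, by omega, g7⟩
    · obtain ⟨g1, g2, g3, g4, g5, g6, g7⟩ := SpF_join s f κ hκ V c hc s1 s2 A B hd hu a1 a2
        hAB hv aA aB hb d2 (by omega)
      exact ⟨s1 ∪ A, s2 ∪ B, g1, g2, g3, g4, by omega, by omega, g7⟩

end SpF

theorem thm_SpF : MDR.St_Sp2 → St_SpF := by
  intro hS G ι _ s f κ h0 hs hκ
  obtain ⟨s1, s2, hd, hu, a1, a2, c1, c2, hb⟩ :=
    SpF_ind hS s f κ h0 hs hκ (s.image fun i => κ (f i))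
  have e1 : (s.filter fun i => κ (f i) ∈ s.image fun i => κ (f i)) = s :=
    filter_true_of_mem fun i hi => mem_image_of_mem (fun i => κ (f i)) hi
  rw [e1] at hu
  have hc : s1.card + s2.card = s.card := by
    rw [← hu, card_union_of_disjoint hd]
  exact ⟨s1, s2, hd, hu, a1, a2, by omega, by omega, hb⟩

end Pool.Agent.SSF
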